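import Pool.Agent.MP_086a35_co.Mg.BaseChk

set_option autoImplicit false

namespace Pool.Agent.MP_086a35_co

open Finset

abbrev Tr := ℕ × ℕ × ℕ

def cod (gl : List ℕ) (L : List Pl) (e : Tr) : ℕ :=
  if e.1 = 9 then gl.getD e.2.1 0
  else dg ((L.getD e.1 (0, id)).2 e.2.1) ((L.getD e.1 (0, id)).2 e.2.2)

def valid (s : ℕ) (Ns : List ℕ) (e : Tr) : Prop :=
  if e.1 = 9 then e.2.1 < s ∧ e.2.2 = 0
  else e.1 < Ns.length ∧ e.2.1 < e.2.2 ∧ isD (Ns.getD e.1 0) e.2.1 e.2.2

instance (s : ℕ) (Ns : List ℕ) (e : Tr) : Decidable (valid s Ns e) := by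
  unfold valid; infer_instance

def Xe (e e' : Tr) : Bool :=
  decide (e.1 ≠ 9 ∧ e.1 = e'.1 ∧ crI e.2.1 e.2.2 e'.2.1 e'.2.2)

def XE (E : List Tr) (i j : ℕ) : Bool := Xe (E.getD i (0, 0, 0)) (E.getD j (0, 0, 0))

def fE (gl : List ℕ) (L : List Pl) (E : List Tr) (i : ℕ) : ℕ := cod gl L (E.getD i (0, 0, 0))

/-- `E` lists the cones and diagonals without repetition -/
def Lists (s : ℕ) (Ns : List ℕ) (E : List Tr) : Prop :=
  Ns.length ≤ 9 ∧ E.Nodup ∧ (∀ e ∈ E, valid s Ns e) ∧ (∀ i < s, (9, i, 0) ∈ E) ∧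
    ∀ q < Ns.length, ∀ i ≤ Ns.getD q 0, ∀ j ≤ Ns.getD q 0, i < j → isD (Ns.getD q 0) i j →
      (q, i, j) ∈ E

instance (s : ℕ) (Ns : List ℕ) (E : List Tr) : Decidable (Lists s Ns E) := by
  unfold Lists
  refine @instDecidableAnd _ _ inferInstance (@instDecidableAnd _ _ inferInstance
    (@instDecidableAnd _ _ inferInstance (@instDecidableAnd _ _ inferInstance ?_)))
  refine @Nat.decidableBallLT _ _ (fun q _ => ?_)
  refine @Nat.decidableBallLE _ _ (fun i _ => ?_)
  refine @Nat.decidableBallLE _ _ (fun j _ => ?_)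
  infer_instance

variable {gl : List ℕ} {L : List Pl}

theorem getD_sz {q : ℕ} (h : q < L.length) : (L.map Prod.fst).getD q 0 = (L[q]).1 := by
  simp [List.getD_eq_getElem?_getD, h]

theorem getD_pl {q : ℕ} (h : q < L.length) : L.getD q (0, id) = L[q] := by
  simp [List.getD_eq_getElem?_getD, h]

theorem cod_cone {e : Tr} (h : valid gl.length (L.map Prod.fst) e) (h9 : e.1 = 9) :
    ∃ k : e.2.1 < gl.length, cod gl L e = gl[e.2.1] ∧ e.2.2 = 0 := by
  simp only [valid, h9, if_true] at h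
  exact ⟨h.1, by simp [cod, h9, List.getD_eq_getElem?_getD, h.1], h.2⟩

theorem cod_poly {e : Tr} (h : valid gl.length (L.map Prod.fst) e) (h9 : e.1 ≠ 9) :
    ∃ k : e.1 < L.length, cod gl L e = dg ((L[e.1]).2 e.2.1) ((L[e.1]).2 e.2.2) ∧
      e.2.1 < e.2.2 ∧ isD (L[e.1]).1 e.2.1 e.2.2 := by
  simp only [valid, h9, if_false, List.length_map] at h
  refine ⟨h.1, by rw [cod, if_neg h9, getD_pl h.1], h.2.1, ?_⟩
  rw [← getD_sz h.1]
  exact h.2.2

theorem WF.ind_idx {G : Finset ℕ} (h : WF G L) {q r : ℕ} (hq : q < L.length) (hr : r < L.length)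
    (hne : q ≠ r) : Ind (diag (L[q]).2 (L[q]).1) (diag (L[r]).2 (L[r]).1) := by
  rcases lt_or_gt_of_ne hne with k | k
  · exact List.pairwise_iff_getElem.1 h.pw q r hq hr k
  · exact (List.pairwise_iff_getElem.1 h.pw r q hr hq k).symm

theorem cod_rel (h : WF gl.toFinset L) (hn : gl.Nodup) {e e' : Tr}
    (v : valid gl.length (L.map Prod.fst) e) (v' : valid gl.length (L.map Prod.fst) e') :
    (cod gl L e = cod gl L e' → e = e') ∧ (cr (cod gl L e) (cod gl L e') ↔ Xe e e' = true) := by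
  obtain ⟨q, i, j⟩ := e
  obtain ⟨r, k, l⟩ := e'
  simp only [Xe, decide_eq_true_eq]
  by_cases h9 : q = 9 <;> by_cases h9' : r = 9
  · obtain ⟨a1, a2, a3⟩ := cod_cone v h9
    obtain ⟨b1, b2, b3⟩ := cod_cone v' h9'
    rw [a2, b2]
    simp only at a1 a3 b1 b3 ⊢
    constructor
    · intro e
      rw [h9, h9', a3, b3, (hn.getElem_inj_iff).1 e]
    · refine iff_of_false (h.nc _ ?_ _ ?_) (fun e => e.1 h9) <;> simp
  · obtain ⟨a1, a2, a3⟩ := cod_cone v h9
    obtain ⟨b1, b2, b3, b4⟩ := cod_poly v' h9'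
    have := h.ind _ (List.getElem_mem b1) (gl[i]'a1) (by simp) _ (dg_mem_diag _ b4)
    rw [a2, b2]
    exact ⟨fun e => absurd e this.1, iff_of_false this.2 (fun e => e.1 h9)⟩
  · obtain ⟨a1, a2, a3⟩ := cod_cone v' h9'
    obtain ⟨b1, b2, b3, b4⟩ := cod_poly v h9
    have := h.ind _ (List.getElem_mem b1) (gl[k]'a1) (by simp) _ (dg_mem_diag _ b4)
    rw [a2, b2]
    exact ⟨fun e => absurd e.symm this.1,
      iff_of_false (fun e => this.2 (cr_symm _ _ e)) (fun e => h9 (e.2.1.trans h9'))⟩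
  · obtain ⟨a1, a2, a3, a4⟩ := cod_poly v h9
    obtain ⟨b1, b2, b3, b4⟩ := cod_poly v' h9'
    rw [a2, b2]
    simp only at a1 a3 a4 b1 b3 b4 ⊢
    by_cases hq : q = r
    · subst hq
      have hc := h.ch _ (List.getElem_mem a1)
      rw [hc.dg_eq a4.1 a4.2.1 b4.1 b4.2.1, hc.cr_iff a4.1 a4.2.1 b4.1 b4.2.1]
      refine ⟨fun e => ?_, by simp [h9]⟩
      have : i = k ∧ j = l := by omega
      rw [this.1, this.2]
    · have := h.ind_idx a1 b1 hq _ (dg_mem_diag _ a4) _ (dg_mem_diag _ b4)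
      exact ⟨fun e => absurd e this.1, iff_of_false this.2 (fun e => hq e.2.1)⟩

theorem getD_mem {E : List Tr} {i : ℕ} (h : i < E.length) : E.getD i (0, 0, 0) = E[i] := by
  simp [List.getD_eq_getElem?_getD, h]

theorem fE_inj (h : WF gl.toFinset L) (hn : gl.Nodup) {E : List Tr}
    (hE : Lists gl.length (L.map Prod.fst) E) :
    ∀ i < E.length, ∀ j < E.length, fE gl L E i = fE gl L E j → i = j := by
  intro i hi j hj e
  rw [fE, fE, getD_mem hi, getD_mem hj] at e
  exact (hE.2.1.getElem_inj_iff).1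
    ((cod_rel h hn (hE.2.2.1 _ (List.getElem_mem hi)) (hE.2.2.1 _ (List.getElem_mem hj))).1 e)

theorem fE_cr (h : WF gl.toFinset L) (hn : gl.Nodup) {E : List Tr}
    (hE : Lists gl.length (L.map Prod.fst) E) :
    ∀ i < E.length, ∀ j < E.length, cr (fE gl L E i) (fE gl L E j) ↔ XE E i j = true := by
  intro i hi j hj
  rw [fE, fE, XE, getD_mem hi, getD_mem hj]
  exact (cod_rel h hn (hE.2.2.1 _ (List.getElem_mem hi)) (hE.2.2.1 _ (List.getElem_mem hj))).2

theorem map_fE (gl : List ℕ) (L : List Pl) (E : List Tr) :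
    (List.range E.length).map (fE gl L E) = E.map (cod gl L) := by
  refine List.ext_getElem (by simp) fun i h1 h2 => ?_
  simp only [List.length_map, List.length_range] at h1
  simp only [List.getElem_map, List.getElem_range, fE, getD_mem h1]

theorem all_fE {E : List Tr} (hE : Lists gl.length (L.map Prod.fst) E) :
    ((List.range E.length).map (fE gl L E)).toFinset = gl.toFinset ∪ DR L := by
  rw [map_fE]
  ext a
  simp only [List.mem_toFinset, List.mem_map, mem_union, mem_DR]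
  constructor
  · rintro ⟨e, he, rfl⟩
    by_cases h9 : e.1 = 9
    · obtain ⟨a1, a2, -⟩ := cod_cone (hE.2.2.1 e he) h9
      exact Or.inl (a2 ▸ List.getElem_mem a1)
    · obtain ⟨a1, a2, -, a4⟩ := cod_poly (hE.2.2.1 e he) h9
      exact Or.inr ⟨_, List.getElem_mem a1, a2 ▸ dg_mem_diag _ a4⟩
  · rintro (ha | ⟨p, hp, ha⟩)
    · obtain ⟨i, hi, rfl⟩ := List.getElem_of_mem ha
      exact ⟨(9, i, 0), hE.2.2.2.1 i hi, by simp [cod, List.getD_eq_getElem?_getD, hi]⟩
    · obtain ⟨q, hq, rfl⟩ := List.getElem_of_mem hp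
      obtain ⟨i, j, d, rfl⟩ := mem_diag.1 ha
      have h9 : q ≠ 9 := by
        have := hE.1
        rw [List.length_map] at this
        omega
      have key := hE.2.2.2.2 q (by simpa using hq)
      rw [getD_sz hq] at key
      rcases lt_or_gt_of_ne (show i ≠ j by unfold isD at d; omega) with k | k
      · exact ⟨(q, i, j), key i d.1 j d.2.1 k d, by simp only [cod, if_neg h9, getD_pl hq]⟩
      · refine ⟨(q, j, i), key j d.2.1 i d.1 k (by unfold isD at d ⊢; omega), ?_⟩
        simp only [cod, if_neg h9, getD_pl hq]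
        exact dg_comm _ _

theorem Cl_cfg (h : WF gl.toFinset L) (hn : gl.Nodup) {E : List Tr}
    (hE : Lists gl.length (L.map Prod.fst) E) {T0 p LA T q LB tb : List ℕ} {m k c : ℕ}
    (h1 : chkF E.length (XE E) m = true) (h2 : chkS E.length T0 p LA T q LB m k c tb = true) :
    Cl (F1 cr (gl.toFinset ∪ DR L))
      (RP (T0.map (fE gl L E)).toFinset (p.map (fE gl L E)) (· ∈ LA.map (fE gl L E)))
      (RP (T.map (fE gl L E)).toFinset (q.map (fE gl L E)) (· ∈ LB.map (fE gl L E)))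
      (fun _ _ => True) := by
  rw [← all_fE hE]
  exact Cl_of_chk (fE_inj h hn hE) (fE_cr h hn hE) h1 h2

def has (E : List Tr) (l : List ℕ) (e : Tr) : Prop := ∃ i ∈ l, E.getD i (0, 0, 0) = e

instance (E : List Tr) (l : List ℕ) (e : Tr) : Decidable (has E l e) := by
  unfold has; infer_instance

theorem has.mem {E : List Tr} {l : List ℕ} {e : Tr} (h : has E l e) :
    cod gl L e ∈ l.map (fE gl L E) := by
  obtain ⟨i, hi, rfl⟩ := h
  exact List.mem_map.2 ⟨i, hi, rfl⟩

def inT (w : ℕ) (b : Bool) (e : Tr) : Prop :=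
  e.1 = 9 ∨ (e.1 ≠ 0 ∧ e.2.1 = 0) ∨
    (e.1 = 0 ∧ if b then e.2.2 = w ∧ e.2.1 + 1 < w else e.2.1 = 0 ∧ 2 ≤ e.2.2 ∧ e.2.2 ≤ w)

instance (w : ℕ) (b : Bool) (e : Tr) : Decidable (inT w b e) := by
  unfold inT; infer_instance

variable {N : ℕ} {V : ℕ → ℕ} {rest : List Pl}

theorem inT.mem (h : WF gl.toFinset ((N, V) :: rest)) {w : ℕ} (hw : w ≤ N) {b : Bool} {e : Tr}
    (v : valid gl.length (((N, V) :: rest).map Prod.fst) e) (k : inT w b e) :
    cod gl ((N, V) :: rest) e ∈ gl.toFinset ∪ fanL V w b ∪ TR rest := by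
  obtain ⟨q, i, j⟩ := e
  simp only [mem_union]
  by_cases h9 : q = 9
  · obtain ⟨a1, a2, -⟩ := cod_cone v h9
    exact Or.inl (Or.inl (a2 ▸ List.mem_toFinset.2 (List.getElem_mem a1)))
  · obtain ⟨a1, a2, a3, a4⟩ := cod_poly v h9
    rw [a2]
    simp only [inT, h9, false_or] at k
    simp only at a1 a3 a4 ⊢
    rcases k with ⟨k1, rfl⟩ | ⟨rfl, k⟩
    · obtain ⟨r, rfl⟩ := Nat.exists_eq_succ_of_ne_zero k1
      have hr : r < rest.length := by simpa using a1
      simp only [List.getElem_cons_succ] at a4 ⊢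
      refine Or.inr (mem_TR.2 ⟨rest[r], List.getElem_mem hr, mem_fanAt.2 ⟨j, ?_, rfl⟩⟩)
      unfold isD at a4
      rw [mem_Ico]
      omega
    · simp only [List.getElem_cons_zero] at a4 ⊢
      refine Or.inl (Or.inr ?_)
      rw [h.head.mem_fanL hw b a4.1 a4.2.1]
      cases b
      · simp only [Bool.false_eq_true, if_false] at k ⊢
        exact Or.inl k
      · simp only [if_true] at k ⊢
        exact Or.inr k

def Side (s N : ℕ) (rs : List ℕ) (a b : Bool) (E : List Tr) (T0 LA T : List ℕ) (ix : ℕ)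
    (LB : List ℕ) : Prop :=
  Lists s (N :: rs) E ∧ T0.length = 4 ∧ T.length = 4 ∧
    (∀ i ∈ T0, inT (N - 1) a (E.getD i (0, 0, 0))) ∧
    (∀ i ∈ T, i = ix ∨ inT (N - 2) b (E.getD i (0, 0, 0))) ∧ E.getD ix (0, 0, 0) = (0, N - 2, N) ∧
    (∀ i < s, has E LA (9, i, 0) ∧ has E LB (9, i, 0)) ∧
    (2 ≤ 4 - s → s ≠ 1 → has E LA (0, 0, N - 1)) ∧ (s = 0 → 4 ≤ N → has E LB (0, 0, N - 2)) ∧
    (s = 0 → N = 3 → ∀ q < rs.length, has E LB (q + 1, 0, 2) ∧ has E LB (q + 1, 0, rs.getD q 0 - 1))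

instance (s N : ℕ) (rs : List ℕ) (a b : Bool) (E : List Tr) (T0 LA T : List ℕ) (ix : ℕ)
    (LB : List ℕ) : Decidable (Side s N rs a b E T0 LA T ix LB) := by
  unfold Side; infer_instance

theorem St_of_chk (h : WF gl.toFinset ((N, V) :: rest)) (hn : gl.Nodup) (hN : 3 ≤ N)
    (hd : gl.length + (N - 2) + kR rest = 4) {a b : Bool} {E : List Tr}
    {T0 lA T lB tb : List ℕ} {ix m k c : ℕ}
    (hS : Side gl.length N (rest.map Prod.fst) a b E T0 lA T ix lB)
    (h1 : chkF E.length (XE E) m = true) (h2 : chkS E.length T0 [] lA T [ix] lB m k c tb = true) :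
    St gl.toFinset V N rest a b := by
  obtain ⟨hE, l0, l1, t0, t1, hx, hc, hA, hB, hB'⟩ := hS
  have hE' : Lists gl.length (((N, V) :: rest).map Prod.fst) E := hE
  have key := Cl_cfg h hn hE' h1 h2
  have hcard : gl.toFinset.card = gl.length := List.toFinset_card_of_nodup hn
  simp only [chkS, Bool.and_eq_true, List.all_eq_true, decide_eq_true_eq, List.mem_append] at h2
  obtain ⟨bd, n0, n1, -, -⟩ := h2
  have bT0 : ∀ x ∈ T0, x < E.length := fun x hx => bd x (by simp [hx])
  have bT : ∀ x ∈ T, x < E.length := fun x hx => bd x (by simp [hx])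
  have vE : ∀ i < E.length, valid gl.length (((N, V) :: rest).map Prod.fst) (E.getD i (0, 0, 0)) := by
    intro i hi
    rw [getD_mem hi]
    exact hE'.2.2.1 _ (List.getElem_mem hi)
  have fx : fE gl ((N, V) :: rest) E ix = xx V N (N - 2) := by
    rw [fE, hx]
    simp [cod, xx]
  have e0 : (T0.map (fE gl ((N, V) :: rest) E)).toFinset
      = gl.toFinset ∪ fanL V (N - 1) a ∪ TR rest := by
    refine eq_of_subset_of_card_le (fun z hz => ?_) ?_
    · obtain ⟨i, hi, rfl⟩ := List.mem_map.1 (List.mem_toFinset.1 hz)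
      exact (t0 i hi).mem h (by omega) (vE i (bT0 i hi))
    · rw [List.toFinset_card_of_nodup (nodup_map_on (fE_inj h hn hE') bT0 n0), List.length_map,
        l0, h.card_ctx (fanL_sub V (by omega) a), h.head.card_fanL (by omega), hcard]
      omega
  have e1 : (T.map (fE gl ((N, V) :: rest) E)).toFinset
      = insert (xx V N (N - 2)) (gl.toFinset ∪ fanL V (N - 2) b ∪ TR rest) := by
    refine eq_of_subset_of_card_le (fun z hz => ?_) ?_
    · obtain ⟨i, hi, rfl⟩ := List.mem_map.1 (List.mem_toFinset.1 hz)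
      rcases t1 i hi with rfl | k
      · rw [fx]
        exact mem_insert_self _ _
      · exact mem_insert_of_mem (k.mem h (by omega) (vE i (bT i hi)))
    · rw [List.toFinset_card_of_nodup (nodup_map_on (fE_inj h hn hE') bT n1), List.length_map,
        l1, card_insert_of_notMem (h.e_notMem hN b), h.card_ctx (fanL_sub V (by omega) b),
        h.head.card_fanL (by omega), hcard]
      omega
  have cone : ∀ z ∈ gl.toFinset, ∃ i < gl.length, cod gl ((N, V) :: rest) (9, i, 0) = z := by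
    intro z hz
    obtain ⟨i, hi, rfl⟩ := List.getElem_of_mem (List.mem_toFinset.1 hz)
    exact ⟨i, hi, by simp [cod, List.getD_eq_getElem?_getD, hi]⟩
  rw [e0, e1, List.map_nil, List.map_cons, List.map_nil, fx, DR, ← union_assoc] at key
  intro z
  refine Cl.mono key (RP.mono ?_) (RP.mono ?_) (fun _ _ _ _ _ => trivial)
  · rintro y (hy | ⟨rfl, k1, k2⟩)
    · obtain ⟨i, hi, rfl⟩ := cone y hy
      exact (hc i hi).1.mem
    · have := (hA (by omega) (by rw [hcard] at k2; omega)).mem (gl := gl) (L := (N, V) :: rest)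
      simpa [cod, yy, dg_comm (V 0)] using this
  · rintro y (hy | ⟨k0, ⟨k1, rfl⟩ | ⟨k1, ⟨p, hp, -, k2⟩, -⟩⟩)
    · obtain ⟨i, hi, rfl⟩ := cone y hy
      exact (hc i hi).2.mem
    · have := (hB (by rw [← hcard, k0]; rfl) k1).mem (gl := gl) (L := (N, V) :: rest)
      simpa [cod, dg_comm (V 0)] using this
    · obtain ⟨q, hq, rfl⟩ := List.getElem_of_mem hp
      have k3 := hB' (by rw [← hcard, k0]; rfl) k1 q (by simpa using hq)
      have h9 : q + 1 ≠ 9 := by
        have := hE'.1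
        simp only [List.length_map, List.length_cons] at this
        omega
      rw [getD_sz hq] at k3
      have k4 : ((N, V) :: rest).getD (q + 1) (0, id) = rest[q] := by
        rw [List.getD_cons_succ, getD_pl hq]
      rcases k2 with rfl | rfl
      · have := k3.1.mem (gl := gl) (L := (N, V) :: rest)
        rwa [cod, if_neg h9, k4] at this
      · have := k3.2.mem (gl := gl) (L := (N, V) :: rest)
        rwa [cod, if_neg h9, k4] at this

theorem kR_filter : ∀ l : List Pl, kR (l.filter (fun p => 3 ≤ p.1)) = kR l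
  | [] => rfl
  | p :: l => by
    by_cases h : 3 ≤ p.1
    · rw [List.filter_cons_of_pos (by simpa using h), kR_cons, kR_cons, kR_filter l]
    · rw [List.filter_cons_of_neg (by simpa using h), kR_cons, kR_filter l]
      omega

theorem WF.filter {G : Finset ℕ} (h : WF G ((N, V) :: rest)) :
    WF G ((N, V) :: rest.filter (fun p => 3 ≤ p.1)) := by
  have hs : ((N, V) :: rest.filter (fun p => 3 ≤ p.1)).Sublist ((N, V) :: rest) :=
    List.filter_sublist.cons_cons _
  exact ⟨h.nc, fun p hp => h.ch p (hs.subset hp), fun p hp => h.ind p (hs.subset hp),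
    h.pw.sublist hs⟩

/-- trivial polygons can be dropped -/
theorem St_of_filter {G : Finset ℕ} {a b : Bool}
    (k : St G V N (rest.filter (fun p => 3 ≤ p.1)) a b) : St G V N rest a b := by
  have e1 : DR (rest.filter (fun p => 3 ≤ p.1)) = DR rest := by
    ext x
    simp only [mem_DR, List.mem_filter, decide_eq_true_eq]
    constructor
    · rintro ⟨p, hp, h⟩
      exact ⟨p, hp.1, h⟩
    · rintro ⟨p, hp, h⟩
      refine ⟨p, ⟨hp, ?_⟩, h⟩
      by_contra c
      rw [diag_small _ (by omega)] at h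
      exact notMem_empty _ h
  have e2 : TR (rest.filter (fun p => 3 ≤ p.1)) = TR rest := by
    ext x
    simp only [mem_TR, List.mem_filter, decide_eq_true_eq]
    constructor
    · rintro ⟨p, hp, h⟩
      exact ⟨p, hp.1, h⟩
    · rintro ⟨p, hp, h⟩
      refine ⟨p, ⟨hp, ?_⟩, h⟩
      by_contra c
      have := fan0_sub p h
      rw [diag_small _ (by omega)] at this
      exact notMem_empty _ this
  have e3 : kR (rest.filter (fun p => 3 ≤ p.1)) = kR rest := kR_filter rest
  have e4 : Ear (rest.filter (fun p => 3 ≤ p.1)) = Ear rest := by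
    ext x
    simp only [Ear, List.mem_filter, decide_eq_true_eq]
    constructor
    · rintro ⟨p, hp, h⟩
      exact ⟨p, hp.1, h⟩
    · rintro ⟨p, hp, h⟩
      exact ⟨p, ⟨hp, h.1⟩, h⟩
  unfold St LA LB hH at k ⊢
  rw [e1, e2, e3, e4] at k
  exact k

end Pool.Agent.MP_086a35_co
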