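import Mathlib

-- part MP_086a35_co.Core
section

set_option autoImplicit false

namespace Pool.Agent.MP_086a35_co

open Finset

/-- one move between two ordered facets; the finset is the new initial segment -/
inductive Mv (fl : Bool) : List ℕ → List ℕ → Finset ℕ → Prop
  | swap (a b : ℕ) (l : List ℕ) : Mv fl (a :: b :: l) (b :: a :: l) {b}
  | flip (a b : ℕ) : fl = true → Mv fl [a] [b] {b}
  | cons (x : ℕ) {l l' : List ℕ} {F : Finset ℕ} :
      Mv fl l l' F → Mv fl (x :: l) (x :: l') (insert x F)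

/-- walks, recording the multiset of introduced faces -/
inductive Wk (fl : Bool) : List ℕ → List ℕ → Multiset (Finset ℕ) → Prop
  | nil (l : List ℕ) : Wk fl l l 0
  | step {l l' l'' : List ℕ} {F : Finset ℕ} {M : Multiset (Finset ℕ)} :
      Mv fl l l' F → Wk fl l' l'' M → Wk fl l l'' (F ::ₘ M)

/-- nonempty initial segments -/
def pre : List ℕ → Multiset (Finset ℕ)
  | [] => 0
  | a :: l => {a} ::ₘ (pre l).map (insert a)

def Seg (fl : Bool) (S : Multiset (Finset ℕ)) (l l' : List ℕ) : Prop :=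
  ∃ M, Wk fl l l' M ∧ pre l + M = S

/-- all faces obtained by adding `x` to the empty face or to a member of `S` -/
def lift (x : ℕ) (S : Multiset (Finset ℕ)) : Multiset (Finset ℕ) := {x} ::ₘ S.map (insert x)

variable {fl : Bool}

theorem pre_cons (a : ℕ) (l : List ℕ) : pre (a :: l) = lift a (pre l) := rfl

theorem lift_add (x : ℕ) (S M : Multiset (Finset ℕ)) :
    lift x (S + M) = lift x S + M.map (insert x) := by
  simp [lift]

theorem Wk.single {l l' : List ℕ} {F : Finset ℕ} (h : Mv fl l l' F) : Wk fl l l' {F} :=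
  Wk.step h (Wk.nil _)

theorem Wk.trans {a b c : List ℕ} {M M' : Multiset (Finset ℕ)} (h : Wk fl a b M)
    (h' : Wk fl b c M') : Wk fl a c (M + M') := by
  induction h with
  | nil l => simpa using h'
  | step hm _ ih => rw [Multiset.cons_add]; exact Wk.step hm (ih h')

theorem Wk.cons (x : ℕ) {a b : List ℕ} {M : Multiset (Finset ℕ)} (h : Wk fl a b M) :
    Wk fl (x :: a) (x :: b) (M.map (insert x)) := by
  induction h with
  | nil l => simpa using Wk.nil _
  | step hm _ ih => rw [Multiset.map_cons]; exact Wk.step (hm.cons x) ih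

theorem Mv.mono {a b : List ℕ} {F : Finset ℕ} (h : Mv false a b F) : Mv fl a b F := by
  induction h with
  | swap a b l => exact Mv.swap a b l
  | flip a b h => exact absurd h (by simp)
  | cons x _ ih => exact ih.cons x

theorem Wk.mono {a b : List ℕ} {M : Multiset (Finset ℕ)} (h : Wk false a b M) : Wk fl a b M := by
  induction h with
  | nil l => exact Wk.nil l
  | step hm _ ih => exact Wk.step hm.mono ih

theorem Seg.mono {S : Multiset (Finset ℕ)} {a b : List ℕ} (h : Seg false S a b) : Seg fl S a b := by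
  obtain ⟨M, h1, h2⟩ := h
  exact ⟨M, h1.mono, h2⟩

theorem Mv.append {a b : List ℕ} {F : Finset ℕ} (h : Mv false a b F) (r : List ℕ) :
    Mv false (a ++ r) (b ++ r) F := by
  induction h with
  | swap a b l => exact Mv.swap a b (l ++ r)
  | flip a b h => exact absurd h (by simp)
  | cons x _ ih => exact ih.cons x

theorem Wk.append {a b : List ℕ} {M : Multiset (Finset ℕ)} (h : Wk false a b M) (r : List ℕ) :
    Wk false (a ++ r) (b ++ r) M := by
  induction h with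
  | nil l => exact Wk.nil _
  | step hm _ ih => exact Wk.step (hm.append r) ih

theorem map_insert_comm (a b : ℕ) (S : Multiset (Finset ℕ)) :
    (S.map (insert a)).map (insert b) = (S.map (insert b)).map (insert a) := by
  simp only [Multiset.map_map, Function.comp_def, Finset.insert_comm]

theorem Mv.rev {a b : List ℕ} {F : Finset ℕ} (h : Mv fl a b F) :
    ∃ F', Mv fl b a F' ∧ F ::ₘ pre a = F' ::ₘ pre b := by
  induction h with
  | swap a b l =>
    refine ⟨{a}, Mv.swap b a l, ?_⟩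
    simp only [pre, Multiset.map_cons, map_insert_comm a b]
    rw [Multiset.cons_swap, Finset.pair_comm a b]
  | flip a b h => exact ⟨{a}, Mv.flip b a h, Multiset.cons_swap _ _ _⟩
  | cons x _ ih =>
    obtain ⟨F', h1, h2⟩ := ih
    refine ⟨insert x F', h1.cons x, ?_⟩
    simp only [pre]
    rw [Multiset.cons_swap, ← Multiset.map_cons, h2, Multiset.map_cons, Multiset.cons_swap]

theorem Wk.rev {a b : List ℕ} {M : Multiset (Finset ℕ)} (h : Wk fl a b M) :
    ∃ M', Wk fl b a M' ∧ pre a + M = pre b + M' := by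
  induction h with
  | nil l => exact ⟨0, Wk.nil l, rfl⟩
  | step hm _ ih =>
    obtain ⟨M', h1, h2⟩ := ih
    obtain ⟨F', h3, h4⟩ := hm.rev
    refine ⟨M' + {F'}, h1.trans (Wk.single h3), ?_⟩
    rw [Multiset.add_cons, ← Multiset.cons_add, h4, Multiset.cons_add, h2, ← add_assoc,
      ← Multiset.singleton_add]
    abel

theorem Seg.symm {S : Multiset (Finset ℕ)} {a b : List ℕ} (h : Seg fl S a b) : Seg fl S b a := by
  obtain ⟨M, h1, h2⟩ := h
  obtain ⟨M', h3, h4⟩ := h1.rev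
  exact ⟨M', h3, h4 ▸ h2⟩

theorem Seg.lift (x : ℕ) {S : Multiset (Finset ℕ)} {a b : List ℕ} (h : Seg fl S a b) :
    Seg fl (lift x S) (x :: a) (x :: b) := by
  obtain ⟨M, h1, h2⟩ := h
  exact ⟨_, h1.cons x, by rw [pre_cons, ← lift_add, h2]⟩

theorem bubble (x y : ℕ) (t : List ℕ) : Wk true (t ++ [y]) (x :: t) (pre (x :: t)) := by
  induction t with
  | nil => simpa [pre] using Wk.single (Mv.flip y x rfl)
  | cons a t ih =>
    have h := (ih.cons a).trans (Wk.single (Mv.swap a x t))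
    have e : pre (x :: a :: t) = (pre (x :: t)).map (insert a) + {{x}} := by
      simp only [pre, Multiset.map_cons, map_insert_comm a x]
      rw [add_comm, Multiset.singleton_add, Finset.pair_comm x a]
    rw [e]
    exact h

theorem Seg.join {S S' : Multiset (Finset ℕ)} {a b t : List ℕ} {x y : ℕ}
    (h : Seg true S a (t ++ [y])) (h' : Seg true S' (x :: t) b) : Seg true (S + S') a b := by
  obtain ⟨M, h1, h2⟩ := h
  obtain ⟨M', h3, h4⟩ := h'
  refine ⟨_, (h1.trans (bubble x y t)).trans h3, ?_⟩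
  rw [← h2, ← h4]
  simp only [add_assoc]

theorem Seg.joinP {S S' : Multiset (Finset ℕ)} {a b t : List ℕ} {x y z : ℕ}
    (h : Seg true S a (z :: (t ++ [y]))) (h' : Seg true S' (x :: z :: t) b) :
    Seg true (S + S') a b :=
  Seg.join (t := z :: t) h h'

theorem Seg.joinR {S S' : Multiset (Finset ℕ)} {a b t : List ℕ} {x y z : ℕ}
    (h : Seg true S a (x :: z :: t)) (h' : Seg true S' (z :: (t ++ [y])) b) :
    Seg true (S + S') a b := by
  rw [add_comm]
  exact (Seg.joinP h'.symm h.symm).symm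

theorem bubble0 (x : ℕ) (t : List ℕ) :
    ∃ M, Wk false (t ++ [x]) (x :: t) M ∧ insert x t.toFinset ::ₘ M = pre (x :: t) := by
  induction t with
  | nil => exact ⟨0, Wk.nil _, by simp [pre]⟩
  | cons a t ih =>
    obtain ⟨M, h1, h2⟩ := ih
    refine ⟨_, (h1.cons a).trans (Wk.single (Mv.swap a x t)), ?_⟩
    have h3 := congrArg (Multiset.map (insert a)) h2
    simp only [pre, Multiset.map_cons, map_insert_comm x a] at h3 ⊢
    rw [add_comm, Multiset.singleton_add, Multiset.cons_swap, List.toFinset_cons,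
      Finset.insert_comm x a, h3, Finset.pair_comm x a]

theorem pre_append_single (t : List ℕ) (x : ℕ) :
    pre (t ++ [x]) = insert x t.toFinset ::ₘ pre t := by
  induction t with
  | nil => simp [pre]
  | cons a t ih =>
    simp only [List.cons_append, pre, ih, Multiset.map_cons, List.toFinset_cons]
    rw [Multiset.cons_swap, Finset.insert_comm]

theorem Mv.perm {a b : List ℕ} {F : Finset ℕ} (h : Mv false a b F) : a.Perm b := by
  induction h with
  | swap a b l => exact List.Perm.swap _ _ _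
  | flip a b h => exact absurd h (by simp)
  | cons x _ ih => exact ih.cons x

theorem Wk.perm {a b : List ℕ} {M : Multiset (Finset ℕ)} (h : Wk false a b M) : a.Perm b := by
  induction h with
  | nil l => exact List.Perm.refl _
  | step hm _ ih => exact hm.perm.trans ih

/-- the doubling step for Boolean lattices -/
theorem Seg.cstep {S : Multiset (Finset ℕ)} {a b c : List ℕ} (x : ℕ)
    (h : Seg false S a b) (h' : Seg false S b c) :
    Seg false (S + MP_086a35_co.lift x S) (a ++ [x]) (x :: c) := by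
  obtain ⟨M, h1, h2⟩ := h
  obtain ⟨M', h3, h4⟩ := h'
  obtain ⟨B, h5, h6⟩ := bubble0 x b
  refine ⟨_, ((h1.append [x]).trans h5).trans (h3.cons x), ?_⟩
  have e : a.toFinset = b.toFinset := List.toFinset_eq_of_perm _ _ h1.perm
  nth_rewrite 2 [← h4]
  rw [lift_add, ← pre_cons, ← h6, ← h2, pre_append_single, e]
  simp only [← Multiset.singleton_add]
  abel

section Faces

variable (X : ℕ → ℕ → Prop) [DecidableRel X]

def NC (F : Finset ℕ) : Prop := ∀ a ∈ F, ∀ b ∈ F, ¬ X a b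

instance (F : Finset ℕ) : Decidable (NC X F) := by unfold NC; infer_instance

def faces (D : Finset ℕ) : Finset (Finset ℕ) := D.powerset.filter (fun F => NC X F)

/-- nonempty faces -/
def F1 (D : Finset ℕ) : Multiset (Finset ℕ) := ((faces X D).erase ∅).val

def lk (D : Finset ℕ) (x : ℕ) : Finset ℕ := D.filter (fun a => a ≠ x ∧ ¬ X x a)

variable {X}

theorem mem_F1 {D F : Finset ℕ} : F ∈ F1 X D ↔ F ≠ ∅ ∧ F ⊆ D ∧ NC X F := by
  rw [F1, ← Finset.mem_def, mem_erase, faces, mem_filter, mem_powerset]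

theorem nodup_F1 (D : Finset ℕ) : (F1 X D).Nodup := Finset.nodup _

theorem mem_lift {x : ℕ} {S : Multiset (Finset ℕ)} {F : Finset ℕ} :
    F ∈ lift x S ↔ F = {x} ∨ ∃ G ∈ S, insert x G = F := by
  simp [lift]

theorem F1_decomp (hs : ∀ a b, X a b → X b a) (hi : ∀ a, ¬ X a a) {D : Finset ℕ} {x : ℕ}
    (hx : x ∈ D) : F1 X D = F1 X (D.erase x) + lift x (F1 X (lk X D x)) := by
  have hl : ∀ G ∈ F1 X (lk X D x), x ∉ G := by
    intro G hG hxG
    have := (mem_F1.1 hG).2.1 hxG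
    simp [lk] at this
  have n2 : (lift x (F1 X (lk X D x))).Nodup := by
    unfold lift
    rw [Multiset.nodup_cons]
    constructor
    · simp only [Multiset.mem_map, not_exists, not_and]
      intro G hG e
      obtain ⟨a, ha⟩ := nonempty_iff_ne_empty.2 (mem_F1.1 hG).1
      have : a ∈ ({x} : Finset ℕ) := e ▸ mem_insert_of_mem ha
      rw [mem_singleton] at this
      exact hl G hG (this ▸ ha)
    · refine Multiset.Nodup.map_on ?_ (nodup_F1 _)
      intro G hG G' hG' e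
      rw [← erase_insert (hl G hG), e, erase_insert (hl G' hG')]
  rw [Multiset.Nodup.ext (nodup_F1 _)]
  · intro F
    rw [Multiset.mem_add, mem_lift, mem_F1, mem_F1]
    constructor
    · rintro ⟨h1, h2, h3⟩
      by_cases hF : x ∈ F
      · right
        by_cases h4 : F.erase x = ∅
        · left
          rw [← insert_erase hF, h4]; rfl
        · right
          refine ⟨F.erase x, mem_F1.2 ⟨h4, ?_, ?_⟩, insert_erase hF⟩
          · intro a ha
            rw [mem_erase] at ha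
            exact mem_filter.2 ⟨h2 ha.2, ha.1, h3 x hF a ha.2⟩
          · exact fun a ha b hb => h3 a (mem_of_mem_erase ha) b (mem_of_mem_erase hb)
      · left
        exact ⟨h1, fun a ha => mem_erase.2 ⟨fun e => hF (e ▸ ha), h2 ha⟩, h3⟩
    · rintro (⟨h1, h2, h3⟩ | rfl | ⟨G, hG, rfl⟩)
      · exact ⟨h1, h2.trans (erase_subset _ _), h3⟩
      · refine ⟨singleton_ne_empty _, singleton_subset_iff.2 hx, ?_⟩
        intro a ha b hb
        rw [mem_singleton] at ha hb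
        rw [ha, hb]; exact hi x
      · obtain ⟨_, h2, h3⟩ := mem_F1.1 hG
        refine ⟨insert_ne_empty _ _, insert_subset hx (h2.trans (filter_subset _ _)), ?_⟩
        intro a ha b hb
        rcases mem_insert.1 ha with e1 | ha' <;> rcases mem_insert.1 hb with e2 | hb'
        · rw [e1, e2]; exact hi _
        · rw [e1]; exact (mem_filter.1 (h2 hb')).2.2
        · rw [e2]; exact fun h => (mem_filter.1 (h2 ha')).2.2 (hs _ _ h)
        · exact h3 a ha' b hb'
  · rw [Multiset.nodup_add]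
    refine ⟨nodup_F1 _, n2, ?_⟩
    rw [Multiset.disjoint_left]
    intro F h1 h2
    have h3 : x ∈ F := by
      rcases mem_lift.1 h2 with rfl | ⟨G, _, rfl⟩
      · exact mem_singleton_self _
      · exact mem_insert_self _ _
    exact notMem_erase x D ((mem_F1.1 h1).2.1 h3)

theorem F1_congr {Y : ℕ → ℕ → Prop} [DecidableRel Y] {D : Finset ℕ}
    (h : ∀ a ∈ D, ∀ b ∈ D, X a b ↔ Y a b) : F1 X D = F1 Y D := by
  rw [Multiset.Nodup.ext (nodup_F1 _) (nodup_F1 _)]
  intro F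
  rw [mem_F1, mem_F1]
  refine and_congr_right (fun _ => and_congr_right (fun h2 => ?_))
  exact forall₂_congr (fun a ha => forall₂_congr (fun b hb => not_congr (h a (h2 ha) b (h2 hb))))

end Faces

/-! ### parity of lists -/

def cnt (U : Finset ℕ) (x : ℕ) : ZMod 2 := ((U.filter (· < x)).card : ZMod 2)

def sg : List ℕ → ZMod 2
  | [] => 0
  | a :: l => (l.countP (· < a) : ZMod 2) + sg l

def Ord (T : Finset ℕ) (l : List ℕ) : Prop := l.Nodup ∧ l.toFinset = T

theorem Ord.mem {T : Finset ℕ} {l : List ℕ} (h : Ord T l) {a : ℕ} : a ∈ l ↔ a ∈ T := by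
  rw [← h.2, List.mem_toFinset]

theorem Ord.length {T : Finset ℕ} {l : List ℕ} (h : Ord T l) : l.length = T.card := by
  rw [← h.2, List.toFinset_card_of_nodup h.1]

theorem Ord.perm {T : Finset ℕ} {l l' : List ℕ} (h : Ord T l) (h' : Ord T l') : l.Perm l' :=
  List.perm_of_nodup_nodup_toFinset_eq h.1 h'.1 (h.2.trans h'.2.symm)

theorem Ord.of_perm {T : Finset ℕ} {l l' : List ℕ} (h : Ord T l) (p : l.Perm l') : Ord T l' :=
  ⟨p.nodup_iff.1 h.1, (List.toFinset_eq_of_perm _ _ p).symm.trans h.2⟩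

theorem ord_toList (T : Finset ℕ) : Ord T T.toList := ⟨T.nodup_toList, T.toList_toFinset⟩

theorem Ord.cons {U : Finset ℕ} {l : List ℕ} (h : Ord U l) {x : ℕ} (hx : x ∉ U) :
    Ord (insert x U) (x :: l) :=
  ⟨List.nodup_cons.2 ⟨fun e => hx (h.mem.1 e), h.1⟩, by rw [List.toFinset_cons, h.2]⟩

theorem Ord.snoc {U : Finset ℕ} {l : List ℕ} (h : Ord U l) {x : ℕ} (hx : x ∉ U) :
    Ord (insert x U) (l ++ [x]) :=
  (h.cons hx).of_perm (List.perm_append_singleton x l).symm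

theorem Ord.tail {T : Finset ℕ} {l : List ℕ} {x : ℕ} (h : Ord T (x :: l)) : Ord (T.erase x) l := by
  have h1 := List.nodup_cons.1 h.1
  refine ⟨h1.2, ?_⟩
  rw [← h.2, List.toFinset_cons, erase_insert (fun e => h1.1 (List.mem_toFinset.1 e))]

theorem Ord.init {T : Finset ℕ} {l : List ℕ} {x : ℕ} (h : Ord T (l ++ [x])) :
    Ord (T.erase x) l :=
  (h.of_perm (List.perm_append_singleton x l)).tail

theorem Ord.countP {U : Finset ℕ} {l : List ℕ} (h : Ord U l) (p : ℕ → Prop) [DecidablePred p] :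
    l.countP (fun a => decide (p a)) = (U.filter p).card := by
  rw [List.countP_eq_length_filter, ← h.2, ← List.toFinset_card_of_nodup (h.1.filter _),
    List.toFinset_filter]
  simp

theorem sg_cons {U : Finset ℕ} {l : List ℕ} (h : Ord U l) (x : ℕ) :
    sg (x :: l) = cnt U x + sg l := by
  rw [sg, cnt, h.countP (· < x)]

theorem two_eq : ∀ a : ZMod 2, a + a = 0 := by decide

theorem sg_swap {a b : ℕ} (h : a ≠ b) (l : List ℕ) : sg (a :: b :: l) = sg (b :: a :: l) + 1 := by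
  simp only [sg, List.countP_cons]
  rcases lt_or_gt_of_ne h with h1 | h1
  · have h2 : ¬ b < a := not_lt.2 h1.le
    simp only [h1, h2, decide_true, decide_false, if_true]
    push_cast
    have := two_eq 1
    linear_combination -this
  · have h2 : ¬ a < b := not_lt.2 h1.le
    simp only [h1, h2, decide_true, decide_false, if_true]
    push_cast
    ring

theorem sg_append_swap {a b : ℕ} (h : a ≠ b) (p l : List ℕ) :
    sg (p ++ a :: b :: l) = sg (p ++ b :: a :: l) + 1 := by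
  induction p with
  | nil => exact sg_swap h l
  | cons x p ih =>
    simp only [List.cons_append, sg, ih]
    rw [((List.Perm.swap b a l).append_left p).countP_eq]
    ring

theorem sg_snoc {l : List ℕ} {y : ℕ} (hy : y ∉ l) : sg (l ++ [y]) = sg (y :: l) + l.length := by
  induction l with
  | nil => simp
  | cons a l ih =>
    have h1 : y ≠ a := fun e => hy (e ▸ List.mem_cons_self)
    have h2 := ih (fun e => hy (List.mem_cons_of_mem _ e))
    rw [sg_swap h1, List.cons_append, sg, h2, (List.perm_append_singleton y l).countP_eq]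
    conv_rhs => rw [sg]
    simp only [List.length_cons]
    push_cast
    have := two_eq 1
    linear_combination -this

theorem sg_snoc' {U : Finset ℕ} {l : List ℕ} (h : Ord U l) {y : ℕ} (hy : y ∉ U) :
    sg (l ++ [y]) = cnt U y + U.card + sg l := by
  rw [sg_snoc (fun e => hy (h.mem.1 e)), sg_cons h, h.length]
  ring

theorem sg_map_perm (f : ℕ → ℕ) {l l' : List ℕ} (p : l.Perm l') (hn : (l.map f).Nodup) :
    sg (l.map f) + sg l = sg (l'.map f) + sg l' := by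
  induction p with
  | nil => rfl
  | cons x p ih =>
    rw [List.map_cons, List.nodup_cons] at hn
    simp only [List.map_cons, sg]
    rw [p.countP_eq, (p.map f).countP_eq]
    linear_combination ih hn.2
  | swap x y l =>
    have h1 : f y ≠ f x := by
      intro e
      simp [e] at hn
    have h2 : y ≠ x := fun e => h1 (e ▸ rfl)
    simp only [List.map_cons]
    rw [sg_swap h1, sg_swap h2]
    have := two_eq 1
    linear_combination this
  | trans p1 _ ih1 ih2 =>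
    rw [ih1 hn, ih2 ((p1.map f).nodup_iff.1 hn)]

end Pool.Agent.MP_086a35_co

end

-- part MP_086a35_co.Bool
section

set_option autoImplicit false

namespace Pool.Agent.MP_086a35_co

open Finset

theorem zmod_cases : ∀ a c : ZMod 2, a = c ∨ a + 1 = c := by decide

theorem ord_mid {U : Finset ℕ} (p s : List ℕ) (hn : (p ++ s).Nodup) (hU : ∀ z ∈ p ++ s, z ∈ U) :
    ∃ m, Ord U (p ++ m ++ s) := by
  refine ⟨(U \ (p ++ s).toFinset).toList, ?_⟩
  have h1 : Ord U ((p ++ s) ++ (U \ (p ++ s).toFinset).toList) := by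
    constructor
    · rw [List.nodup_append]
      refine ⟨hn, Finset.nodup_toList _, ?_⟩
      intro a ha b hb e
      rw [Finset.mem_toList, mem_sdiff, List.mem_toFinset] at hb
      exact hb.2 (e ▸ ha)
    · rw [List.toFinset_append, Finset.toList_toFinset, union_sdiff_of_subset]
      intro z hz
      exact hU z (List.mem_toFinset.1 hz)
  refine h1.of_perm ?_
  rw [List.append_assoc, List.append_assoc]
  exact List.perm_append_comm.append_left p

theorem exOrd {U : Finset ℕ} (p s : List ℕ) (a b : ℕ) (hn : (p ++ a :: b :: s).Nodup)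
    (hU : ∀ z ∈ p ++ a :: b :: s, z ∈ U) (c : ZMod 2) :
    ∃ m, (Ord U (p ++ m ++ a :: b :: s) ∧ sg (p ++ m ++ a :: b :: s) = c) ∨
      (Ord U (p ++ m ++ b :: a :: s) ∧ sg (p ++ m ++ b :: a :: s) = c) := by
  obtain ⟨m, hm⟩ := ord_mid p (a :: b :: s) hn hU
  have hab : a ≠ b := by
    intro e
    have := (List.nodup_append.1 hn).2.1
    simp [e] at this
  refine ⟨m, ?_⟩
  rcases zmod_cases (sg (p ++ m ++ b :: a :: s)) c with h | h
  · exact Or.inr ⟨hm.of_perm ((List.Perm.swap b a s).append_left _), h⟩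
  · exact Or.inl ⟨hm, by rw [sg_append_swap hab, h]⟩

theorem ex_notMem {U : Finset ℕ} (L : List ℕ) (h : L.length < U.card) : ∃ a ∈ U, a ∉ L := by
  by_contra hc
  push Not at hc
  have : U ⊆ L.toFinset := fun a ha => List.mem_toFinset.2 (hc a ha)
  have := (card_le_card this).trans (List.toFinset_card_le L)
  omega

theorem E1 {U : Finset ℕ} {z : ℕ} (hz : z ∈ U) (h : 3 ≤ U.card) (c : ZMod 2) :
    ∃ t, Ord U (t ++ [z]) ∧ sg (t ++ [z]) = c := by
  obtain ⟨a, ha, ha'⟩ := ex_notMem (U := U) [z] (by simp; omega)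
  obtain ⟨b, hb, hb'⟩ := ex_notMem (U := U) [a, z] (by simp; omega)
  simp only [List.mem_cons, List.not_mem_nil, or_false, not_or] at ha' hb'
  obtain ⟨m, hm | hm⟩ := exOrd (U := U) [] [z] a b
    (by simp [ha', hb'.2, Ne.symm hb'.1]) (by simp [ha, hb, hz]) c
  · exact ⟨m ++ [a, b], by simpa using hm⟩
  · exact ⟨m ++ [b, a], by simpa using hm⟩

theorem E2 {U : Finset ℕ} {e z : ℕ} (he : e ∈ U) (hz : z ∈ U) (hez : e ≠ z) (h : 4 ≤ U.card)
    (c : ZMod 2) : ∃ t, Ord U (e :: (t ++ [z])) ∧ sg (e :: (t ++ [z])) = c := by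
  obtain ⟨a, ha, ha'⟩ := ex_notMem (U := U) [e, z] (by simp; omega)
  obtain ⟨b, hb, hb'⟩ := ex_notMem (U := U) [a, e, z] (by simp; omega)
  simp only [List.mem_cons, List.not_mem_nil, or_false, not_or] at ha' hb'
  obtain ⟨m, hm | hm⟩ := exOrd (U := U) [e] [z] a b
    (by simp [ha'.2, hb'.2.2, Ne.symm hb'.1, hez, Ne.symm ha'.1, Ne.symm hb'.2.1])
    (by simp [ha, hb, hz, he]) c
  · exact ⟨m ++ [a, b], by simpa using hm⟩
  · exact ⟨m ++ [b, a], by simpa using hm⟩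

/-- fixed initial list, last element one of two -/
theorem E3 {U : Finset ℕ} (p : List ℕ) {a b : ℕ} (hn : (p ++ [a, b]).Nodup)
    (hU : ∀ z ∈ p ++ [a, b], z ∈ U) (c : ZMod 2) :
    ∃ t z, (z = a ∨ z = b) ∧ Ord U (p ++ (t ++ [z])) ∧ sg (p ++ (t ++ [z])) = c := by
  obtain ⟨m, hm | hm⟩ := exOrd (U := U) p [] a b hn hU c
  · exact ⟨m ++ [a], b, Or.inr rfl, by simpa using hm⟩
  · exact ⟨m ++ [b], a, Or.inl rfl, by simpa using hm⟩

theorem E5 {U : Finset ℕ} {e p q : ℕ} (hn : [e, p, q].Nodup) (hU : ∀ z ∈ [e, p, q], z ∈ U)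
    (c : ZMod 2) :
    ∃ t, (Ord U (e :: p :: (t ++ [q])) ∧ sg (e :: p :: (t ++ [q])) = c) ∨
      (Ord U (e :: q :: (t ++ [p])) ∧ sg (e :: q :: (t ++ [p])) = c) := by
  obtain ⟨m, hm⟩ := ord_mid (U := U) [e, p] [q] hn hU
  have hm' : Ord U (e :: p :: (m ++ [q])) := by simpa using hm
  have pp : (p :: (m ++ [q])).Perm (q :: (m ++ [p])) :=
    (((List.perm_append_singleton q m).cons p).trans (List.Perm.swap _ _ _)).trans
      ((List.perm_append_singleton p m).cons q).symm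
  have hm2 : Ord U (e :: q :: (m ++ [p])) := hm'.of_perm (pp.cons e)
  have n1 := (List.nodup_cons.1 hm'.1).2
  have n2 := (List.nodup_cons.1 hm2.1).2
  have hpq : p ≠ q := by
    intro h; simp [h] at hn
  have a1 : q ∉ p :: m := by
    have : ((p :: m) ++ [q]).Nodup := n1
    rw [List.nodup_append] at this
    exact fun h => this.2.2 q h q (by simp) rfl
  have a2 : p ∉ q :: m := by
    have : ((q :: m) ++ [p]).Nodup := n2
    rw [List.nodup_append] at this
    exact fun h => this.2.2 p h p (by simp) rfl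
  have s1 : sg (p :: (m ++ [q])) = sg (q :: p :: m) + (p :: m).length := sg_snoc a1
  have s2 : sg (q :: (m ++ [p])) = sg (p :: q :: m) + (q :: m).length := sg_snoc a2
  have s3 : sg (e :: q :: (m ++ [p])) = sg (e :: p :: (m ++ [q])) + 1 := by
    conv_lhs => rw [sg]
    conv_rhs => rw [sg]
    rw [pp.countP_eq, s1, s2, sg_swap hpq]
    simp only [List.length_cons]
    ring
  refine ⟨m, ?_⟩
  rcases zmod_cases (sg (e :: p :: (m ++ [q]))) c with h | h
  · exact Or.inl ⟨hm', h⟩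
  · exact Or.inr ⟨hm2, s3.trans h⟩

theorem E4 {U : Finset ℕ} {e : ℕ} (he : e ∈ U) (a b : ℕ) (h : 4 ≤ U.card) (c : ZMod 2) :
    ∃ u t z, u ≠ a ∧ z ≠ b ∧ Ord U (e :: u :: (t ++ [z])) ∧ sg (e :: u :: (t ++ [z])) = c := by
  by_cases hab : a = b
  · subst hab
    obtain ⟨p, hp, hp'⟩ := ex_notMem (U := U) [e, a] (by simp; omega)
    obtain ⟨q, hq, hq'⟩ := ex_notMem (U := U) [p, e, a] (by simp; omega)
    simp only [List.mem_cons, List.not_mem_nil, or_false, not_or] at hp' hq'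
    obtain ⟨t, ht | ht⟩ := E5 (U := U) (e := e) (p := p) (q := q)
      (by simp [Ne.symm hp'.1, Ne.symm hq'.1, Ne.symm hq'.2.1]) (by simp [he, hp, hq]) c
    · exact ⟨p, t, q, hp'.2, hq'.2.2, ht⟩
    · exact ⟨q, t, p, hq'.2.2, hp'.2, ht⟩
  · have : ∃ u ∈ U, u ≠ e ∧ u ≠ a ∧ ∀ z ∈ U, z ≠ e → z ≠ u → z ≠ b := by
      by_cases hb : b ∈ U ∧ b ≠ e
      · exact ⟨b, hb.1, hb.2, Ne.symm hab, fun z _ _ h => h⟩
      · obtain ⟨u, hu, hu'⟩ := ex_notMem (U := U) [e, a] (by simp; omega)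
        simp only [List.mem_cons, List.not_mem_nil, or_false, not_or] at hu'
        exact ⟨u, hu, hu'.1, hu'.2, fun z hz h1 _ h2 => hb ⟨h2 ▸ hz, h2 ▸ h1⟩⟩
    obtain ⟨u, hu, h1, h2, h3⟩ := this
    obtain ⟨p, hp, hp'⟩ := ex_notMem (U := U) [e, u] (by simp; omega)
    obtain ⟨q, hq, hq'⟩ := ex_notMem (U := U) [p, e, u] (by simp; omega)
    simp only [List.mem_cons, List.not_mem_nil, or_false, not_or] at hp' hq'
    obtain ⟨t, z, hz, ht⟩ := E3 (U := U) [e, u] (a := p) (b := q)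
      (by simp [Ne.symm h1, Ne.symm hp'.1, Ne.symm hp'.2, Ne.symm hq'.1, Ne.symm hq'.2.1,
        Ne.symm hq'.2.2]) (by simp [he, hu, hp, hq]) c
    refine ⟨u, t, z, h2, ?_, ht⟩
    rcases hz with rfl | rfl
    · exact h3 _ hp hp'.1 hp'.2
    · exact h3 _ hq hq'.2.1 hq'.2.2

/-! ### Boolean lattices -/

def P1 (S : Finset ℕ) : Multiset (Finset ℕ) := F1 (fun _ _ => False) S

theorem F1_eq_P1 {X : ℕ → ℕ → Prop} [DecidableRel X] {S : Finset ℕ} (h : NC X S) :
    F1 X S = P1 S :=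
  F1_congr (fun a ha b hb => ⟨fun e => h a ha b hb e, False.elim⟩)

theorem P1_insert {S : Finset ℕ} {x : ℕ} (hx : x ∉ S) :
    P1 (insert x S) = P1 S + lift x (P1 S) := by
  have h := F1_decomp (X := fun _ _ => False) (fun _ _ h => h) (fun _ h => h)
    (mem_insert_self x S)
  have e : lk (fun _ _ => False) (insert x S) x = S := by
    ext a
    simp only [lk, mem_filter, mem_insert, not_false_eq_true, and_true]
    constructor
    · rintro ⟨h1 | h1, h2⟩
      · exact absurd h1 h2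
      · exact h1
    · exact fun h => ⟨Or.inr h, fun e => hx (e ▸ h)⟩
  rw [erase_insert hx, e] at h
  exact h

theorem P1_empty : P1 ∅ = 0 := by
  rw [Multiset.eq_zero_iff_forall_notMem]
  intro F hF
  have := mem_F1.1 hF
  exact this.1 (subset_empty.1 this.2.1)

theorem Bstep {S : Finset ℕ} {x : ℕ} (hx : x ∉ S) {a b c : List ℕ} (h : Seg false (P1 S) a b)
    (h' : Seg false (P1 S) b c) : Seg false (P1 (insert x S)) (a ++ [x]) (x :: c) := by
  rw [P1_insert hx]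
  exact h.cstep x h'

theorem B0 : Seg false (P1 ∅) [] [] := ⟨0, Wk.nil _, by simp [pre, P1_empty]⟩

theorem B1 (a : ℕ) : Seg false (P1 {a}) [a] [a] := Bstep (notMem_empty a) B0 B0

theorem B2 {a b : ℕ} (h : b ≠ a) : Seg false (P1 {b, a}) [a, b] [b, a] :=
  Bstep (by simpa using h) (B1 a) (B1 a)

theorem B3 {a b c : ℕ} (h : [a, b, c].Nodup) : Seg false (P1 {a, b, c}) [a, b, c] [c, a, b] := by
  simp only [List.nodup_cons, List.mem_cons, List.not_mem_nil, or_false, not_or] at h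
  have h1 := B2 (Ne.symm h.1.1)
  have h2 := Bstep (x := c) (by simp [Ne.symm h.1.2, Ne.symm h.2.1]) h1 h1.symm
  have e : ({a, b, c} : Finset ℕ) = {c, b, a} := by ext; simp; tauto
  rw [e]
  exact h2

theorem list3 {l : List ℕ} (h : l.length = 3) : ∃ a b c, l = [a, b, c] := by
  match l, h with
  | [a, b, c], _ => exact ⟨a, b, c, rfl⟩

theorem G4 {S : Finset ℕ} {x : ℕ} (hx : x ∉ S) (hS : S.card = 3) {t t' : List ℕ} (h : Ord S t)
    (h' : Ord S t') (hs : sg t = sg t') : Seg false (P1 (insert x S)) (t ++ [x]) (x :: t') := by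
  obtain ⟨a, b, c, rfl⟩ := list3 (h.length.trans hS)
  have hn := h.1
  have eS : S = {a, b, c} := by rw [← h.2]; simp
  have hn' := hn
  simp only [List.nodup_cons, List.mem_cons, List.not_mem_nil, or_false, not_or] at hn'
  obtain ⟨⟨ab, ac⟩, bc, -⟩ := hn'
  have s1 : Seg false (P1 S) [a, b, c] [c, a, b] := eS ▸ B3 hn
  have s2 : Seg false (P1 S) [c, a, b] [b, c, a] := by
    have e : S = {c, a, b} := by rw [eS]; ext; simp; tauto
    rw [e]; exact B3 (by simp [ab, Ne.symm ac, Ne.symm bc])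
  have s3 : Seg false (P1 S) [b, c, a] [a, b, c] := by
    have e : S = {b, c, a} := by rw [eS]; ext; simp; tauto
    rw [e]; exact B3 (by simp [bc, Ne.symm ac, Ne.symm ab])
  have hp : t' ∈ [a, b, c].permutations' := List.mem_permutations'.2 (h'.perm h)
  have o1 : sg [a, b, c] = sg [b, a, c] + 1 := sg_swap ab _
  have o2 : sg [a, b, c] = sg [a, c, b] + 1 := sg_append_swap bc [a] []
  have o3 : sg [a, c, b] = sg [c, a, b] + 1 := sg_swap ac _
  have o4 : sg [c, a, b] = sg [c, b, a] + 1 := sg_append_swap ab [c] []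
  have z : ∀ u : ZMod 2, u + 1 ≠ u := by decide
  have z3 : ∀ u : ZMod 2, u + 1 + 1 + 1 ≠ u := by decide
  simp only [List.permutations', List.flatMap_cons, List.flatMap_nil, List.permutations'Aux,
    List.map_cons, List.map_nil, List.cons_append, List.nil_append, List.append_nil,
    List.mem_cons, List.not_mem_nil, or_false] at hp
  rcases hp with rfl | rfl | rfl | rfl | rfl | rfl
  · exact Bstep hx s1 s1.symm
  · exact absurd (o1.symm.trans hs) (z _)
  · exact Bstep hx s1 s2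
  · exact absurd (o2.symm.trans hs) (z _)
  · exact Bstep hx s3.symm s2.symm
  · rw [o2, o3, o4] at hs
    exact absurd hs (z3 _)

theorem cnt_sum {S : Finset ℕ} {x : ℕ} (hx : x ∉ S) {t t' : List ℕ} (h : Ord S t) (h' : Ord S t') :
    sg (t ++ [x]) + sg (x :: t') = S.card + sg t + sg t' := by
  rw [sg_snoc' h hx, sg_cons h']
  have := two_eq (cnt S x)
  linear_combination this

theorem ex_first_last {l : List ℕ} (h : 2 ≤ l.length) : ∃ a m b, l = a :: (m ++ [b]) := by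
  match l, h with
  | a :: b :: l, _ =>
    obtain ⟨m, z, e⟩ : ∃ m z, b :: l = m ++ [z] :=
      ⟨(b :: l).dropLast, (b :: l).getLast (by simp), (List.dropLast_append_getLast _).symm⟩
    exact ⟨a, m, z, by rw [e]⟩

theorem ord_ne {S : Finset ℕ} {a b : ℕ} {m : List ℕ} (h : Ord S (a :: (m ++ [b]))) :
    a ≠ b ∧ a ∈ S ∧ b ∈ S := by
  refine ⟨?_, h.mem.1 (by simp), h.mem.1 (by simp)⟩
  intro e
  have := h.1
  simp [e] at this

/-- the Boolean lemma: last of the start is first of the end -/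
theorem Gbool : ∀ (n : ℕ) (S : Finset ℕ), S.card = n + 4 → ∀ (a x b : ℕ) (m m' : List ℕ),
    Ord S (a :: (m ++ [x])) → Ord S (x :: (m' ++ [b])) → a ≠ b →
    sg (a :: (m ++ [x])) + sg (x :: (m' ++ [b])) = (S.card : ZMod 2) + 1 →
    Seg false (P1 S) (a :: (m ++ [x])) (x :: (m' ++ [b])) := by
  intro n
  induction n with
  | zero =>
    intro S hS a x b m m' h h' _ hs
    have hx : x ∈ S := (ord_ne h).2.2
    have h1 : Ord (S.erase x) (a :: m) := Ord.init (l := a :: m) h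
    have h2 := h'.tail
    have hc : (S.erase x).card = 3 := by rw [card_erase_of_mem hx]; omega
    have h3 := cnt_sum (notMem_erase x S) h1 h2
    have h4 := G4 (notMem_erase x S) hc h1 h2 (by
      rw [List.cons_append, hs, hS, hc] at h3
      revert h3
      generalize sg (a :: m) = u
      generalize sg (m' ++ [b]) = v
      revert u v
      decide)
    rw [insert_erase hx] at h4
    exact h4
  | succ n ih =>
    intro S hS a x b m m' h h' hab hs
    have hx : x ∈ S := (ord_ne h).2.2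
    have h1 : Ord (S.erase x) (a :: m) := Ord.init (l := a :: m) h
    have h2 := h'.tail
    have hc : (S.erase x).card = n + 4 := by rw [card_erase_of_mem hx]; omega
    have h3 := cnt_sum (notMem_erase x S) h1 h2
    set U := S.erase x with hU
    have hpar : sg (a :: m) = sg (m' ++ [b]) := by
      have e : (S.card : ZMod 2) = U.card + 1 := by rw [hS, hc]; push_cast; ring
      rw [List.cons_append, hs, e] at h3
      revert h3
      generalize sg (a :: m) = u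
      generalize sg (m' ++ [b]) = v
      generalize (U.card : ZMod 2) = w
      revert u v w
      decide
    obtain ⟨a1, m1, z1, e1⟩ := ex_first_last (l := a :: m) (by rw [h1.length]; omega)
    obtain ⟨a2, m2, z2, e2⟩ := ex_first_last (l := m' ++ [b]) (by rw [h2.length]; omega)
    have ea : a1 = a := (List.cons.inj e1).1.symm
    have eb : z2 = b := by
      have := congrArg List.getLast? e2
      rw [← List.cons_append, List.getLast?_concat, List.getLast?_concat] at this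
      exact (Option.some.inj this).symm
    subst ea eb
    rw [e1] at h1 hpar
    rw [e2] at h2 hpar
    have key : ∃ t, Seg false (P1 U) (a1 :: (m1 ++ [z1])) t ∧
        Seg false (P1 U) t (a2 :: (m2 ++ [z2])) := by
      obtain ⟨n1, m1a, m1z⟩ := ord_ne h1
      obtain ⟨n2, m2a, m2z⟩ := ord_ne h2
      have par : ∀ u v w : ZMod 2, v = w + 1 + u → (u + v = w + 1 ∧ v + u = w + 1) := by decide
      by_cases c1 : z1 = z2
      · obtain ⟨u, hu, hu'⟩ := ex_notMem (U := U) [z1, a1, a2] (by simp; omega)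
        simp only [List.mem_cons, List.not_mem_nil, or_false, not_or] at hu'
        obtain ⟨t, ht, hst⟩ := E2 m1z hu (Ne.symm hu'.1) (by omega)
          (U.card + 1 + sg (a1 :: (m1 ++ [z1])))
        refine ⟨_, ih U hc _ _ _ _ _ h1 ht (Ne.symm hu'.2.1) (par _ _ _ hst).1, ?_⟩
        subst c1
        rw [hpar] at hst
        exact (ih U hc _ _ _ _ _ h2 ht (Ne.symm hu'.2.2) (par _ _ _ hst).1).symm
      · by_cases c2 : a1 = a2
        · obtain ⟨u, hu, hu'⟩ := ex_notMem (U := U) [a1, z1, z2] (by simp; omega)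
          simp only [List.mem_cons, List.not_mem_nil, or_false, not_or] at hu'
          obtain ⟨t, ht, hst⟩ := E2 hu m1a hu'.1 (by omega)
            (U.card + 1 + sg (a1 :: (m1 ++ [z1])))
          refine ⟨_, (ih U hc _ _ _ _ _ ht h1 hu'.2.1 (par _ _ _ hst).2).symm, ?_⟩
          subst c2
          rw [hpar] at hst
          exact ih U hc _ _ _ _ _ ht h2 hu'.2.2 (par _ _ _ hst).2
        · obtain ⟨t, ht, hst⟩ := E2 m2z m1a (Ne.symm hab) (by omega)
            (U.card + 1 + sg (a1 :: (m1 ++ [z1])))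
          refine ⟨_, (ih U hc _ _ _ _ _ ht h1 (Ne.symm c1) (par _ _ _ hst).2).symm, ?_⟩
          rw [hpar] at hst
          exact (ih U hc _ _ _ _ _ h2 ht (Ne.symm c2) (par _ _ _ hst).1).symm
    obtain ⟨t, k1, k2⟩ := key
    have h4 := Bstep (notMem_erase x S) k1 k2
    rw [insert_erase hx, ← e1, ← e2] at h4
    exact h4

theorem Gb {S : Finset ℕ} (hS : 4 ≤ S.card) {a x b : ℕ} {m m' : List ℕ}
    (h : Ord S (a :: (m ++ [x]))) (h' : Ord S (x :: (m' ++ [b]))) (hab : a ≠ b)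
    (hs : sg (a :: (m ++ [x])) + sg (x :: (m' ++ [b])) = (S.card : ZMod 2) + 1) :
    Seg true (P1 S) (a :: (m ++ [x])) (x :: (m' ++ [b])) :=
  (Gbool (S.card - 4) S (by omega) a x b m m' h h' hab hs).mono

end Pool.Agent.MP_086a35_co

end

-- part MP_086a35_co.Calls
section

set_option autoImplicit false

namespace Pool.Agent.MP_086a35_co

open Finset

def Cl (S : Multiset (Finset ℕ)) (P Q : List ℕ → Prop) (H : List ℕ → List ℕ → Prop) : Prop :=
  ∃ c : ZMod 2, ∀ a b, P a → Q b → H a b → sg a + sg b = c → Seg true S a b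

def Ch (S : Multiset (Finset ℕ)) (P : List ℕ → Prop) (x : ℕ) (Q : List ℕ → Prop) : Prop :=
  ∃ c : ZMod 2, ∀ a b, P a → Q b → sg a + sg b = c → Seg true S a (x :: b)

/-- orders of `T` with initial part `p` and last element in `L` -/
def RP (T : Finset ℕ) (p : List ℕ) (L : ℕ → Prop) (l : List ℕ) : Prop :=
  Ord T l ∧ ∃ t z, l = p ++ (t ++ [z]) ∧ L z

def H2 (h : Prop) (a b : List ℕ) : Prop :=
  h → (b.tail.head? ≠ a.getLast? ∨ b.getLast? = a.getLast?)

def AA (S : Multiset (Finset ℕ)) (T0 : Finset ℕ) (LA : ℕ → Prop) (T : Finset ℕ) (e : ℕ)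
    (LB : ℕ → Prop) (h : Prop) : Prop :=
  Cl S (RP T0 [] LA) (RP T [e] LB) (H2 h)

variable {S S' : Multiset (Finset ℕ)} {P Q P' Q' : List ℕ → Prop}
  {H H' : List ℕ → List ℕ → Prop} {U : Finset ℕ} {x y x' : ℕ}

theorem Cl.symm (h : Cl S P Q H) : Cl S Q P (fun a b => H b a) := by
  obtain ⟨c, h⟩ := h
  exact ⟨c, fun a b h1 h2 h3 h4 => (h b a h2 h1 h3 (by rw [add_comm, h4])).symm⟩

theorem Cl.mono (h : Cl S P Q H) (h1 : ∀ a, P' a → P a) (h2 : ∀ a, Q' a → Q a)
    (h3 : ∀ a b, P' a → Q' b → H' a b → H a b) : Cl S P' Q' H' := by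
  obtain ⟨c, h⟩ := h
  exact ⟨c, fun a b k1 k2 k3 k4 => h a b (h1 a k1) (h2 b k2) (h3 a b k1 k2 k3) k4⟩

theorem Ch.mono (h : Ch S P x Q) (h2 : ∀ a, Q' a → Q a) : Ch S P x Q' := by
  obtain ⟨c, h⟩ := h
  exact ⟨c, fun a b k1 k2 k4 => h a b k1 (h2 b k2) k4⟩

theorem RP.mono {T : Finset ℕ} {p : List ℕ} {L L' : ℕ → Prop} (h : ∀ z, L z → L' z) (l : List ℕ)
    (hl : RP T p L l) : RP T p L' l := by
  obtain ⟨h1, t, z, h2, h3⟩ := hl
  exact ⟨h1, t, z, h2, h z h3⟩

theorem AA.mono {T0 T : Finset ℕ} {LA LA' LB LB' : ℕ → Prop} {e : ℕ} {h h' : Prop}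
    (k : AA S T0 LA T e LB h) (h1 : ∀ z, LA' z → LA z) (h2 : ∀ z, LB' z → LB z) (h3 : h → h') :
    AA S T0 LA' T e LB' h' :=
  Cl.mono k (RP.mono h1) (RP.mono h2) (fun _ _ _ _ k' k'' => k' (h3 k''))

theorem J0 (x : ℕ) (h : Cl S P Q H) (h' : Cl S' P' Q' H') (hy : y ∉ U)
    (hj : ∀ a b, P a → Q' b → ∀ p, ∃ t, Ord U t ∧ sg t = p ∧ Q (t ++ [y]) ∧ H a (t ++ [y]) ∧
      P' t ∧ H' t b) : Ch (S + lift x S') P x Q' := by
  obtain ⟨c, h⟩ := h
  obtain ⟨c', h'⟩ := h'
  refine ⟨c + c' + cnt U y + U.card, fun a b ha hb hs => ?_⟩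
  obtain ⟨t, k1, k2, k3, k4, k5, k6⟩ := hj a b ha hb (c' + sg b)
  have s1 := h a _ ha k3 k4 (by
    rw [sg_snoc' k1 hy, k2]
    have := two_eq (cnt U y + U.card + c')
    linear_combination hs + this)
  have s2 := h' t b k5 hb k6 (by
    rw [k2]
    have := two_eq (sg b)
    linear_combination this)
  exact s1.join (s2.lift x)

theorem JF (x' : ℕ) (h : Ch S P x Q) (h' : Cl S' P' Q' H') (hy : y ∉ U)
    (hj : ∀ b, Q' b → ∀ p, ∃ t, Ord U t ∧ sg t = p ∧ Q (t ++ [y]) ∧ P' (x :: t) ∧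
      H' (x :: t) b) : Ch (S + lift x' S') P x' Q' := by
  obtain ⟨c, h⟩ := h
  obtain ⟨c', h'⟩ := h'
  refine ⟨c + c' + cnt U y + U.card + cnt U x, fun a b ha hb hs => ?_⟩
  obtain ⟨t, k1, k2, k3, k5, k6⟩ := hj b hb (c' + sg b + cnt U x)
  have s1 := h a _ ha k3 (by
    rw [sg_snoc' k1 hy, k2]
    have := two_eq (cnt U y + U.card + c' + cnt U x)
    linear_combination hs + this)
  have s2 := h' _ b k5 hb k6 (by
    rw [sg_cons k1, k2]
    have := two_eq (sg b + cnt U x)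
    linear_combination this)
  exact s1.joinP (s2.lift x')

theorem JR (x : ℕ) (h : Ch S P x' Q) (h' : Cl S' P' Q' H') (hy : y ∉ U)
    (hj : ∀ b, Q' b → ∀ p, ∃ t, Ord U t ∧ sg t = p ∧ Q (x :: t) ∧ P' (t ++ [y]) ∧
      H' (t ++ [y]) b) : Ch (S + lift x S') P x Q' := by
  obtain ⟨c, h⟩ := h
  obtain ⟨c', h'⟩ := h'
  refine ⟨c + c' + cnt U y + U.card + cnt U x, fun a b ha hb hs => ?_⟩
  obtain ⟨t, k1, k2, k3, k5, k6⟩ := hj b hb (c' + sg b + cnt U y + U.card)
  have s1 := h a _ ha k3 (by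
    rw [sg_cons k1, k2]
    have := two_eq (cnt U y + U.card + c' + cnt U x)
    linear_combination hs + this)
  have s2 := h' _ b k5 hb k6 (by
    rw [sg_snoc' k1 hy, k2]
    have := two_eq (sg b + cnt U y + U.card)
    linear_combination this)
  exact s1.joinR (s2.lift x)

theorem Ch.fin {T0 T U : Finset ℕ} {LA LB : ℕ → Prop} {e : ℕ} (h : Prop)
    (k : Ch S (RP T0 [] LA) e (RP U [] LB)) (hT : T = insert e U) (he : e ∉ U) :
    AA S T0 LA T e LB h := by
  obtain ⟨c, k⟩ := k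
  refine ⟨c + cnt U e, fun a b ha hb _ hs => ?_⟩
  obtain ⟨h1, t, z, rfl, h3⟩ := hb
  have h2 : Ord U (t ++ [z]) := by
    have := Ord.tail (x := e) h1
    rwa [hT, erase_insert he] at this
  refine k a (t ++ [z]) ha ⟨h2, t, z, rfl, h3⟩ ?_
  have : sg ([e] ++ (t ++ [z])) = cnt U e + sg (t ++ [z]) := sg_cons h2 e
  rw [this] at hs
  linear_combination hs

theorem lst1 (t : List ℕ) (z : ℕ) : (t ++ [z]).getLast? = some z := List.getLast?_concat

theorem lst2 (a : ℕ) (t : List ℕ) (z : ℕ) : (a :: (t ++ [z])).getLast? = some z :=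
  lst1 (a :: t) z

theorem H2_same (h : Prop) {a b : List ℕ} (e : b.getLast? = a.getLast?) : H2 h a b :=
  fun _ => Or.inr e

/-- first junction: an `A` call followed by a reversed call with the same first element -/
theorem JAB {T0 T T1 : Finset ℕ} {LA LB LA1 LB1 L : ℕ → Prop} {e : ℕ} {h h1 : Prop} (x : ℕ)
    (k : AA S T0 LA T e LB h) (k1 : AA S' T1 LA1 U e LB1 h1) (hh : ¬ h) (hT : T = insert y U)
    (hy : y ∉ U) (hLB : LB y) (he : e ∈ U) (hc : 4 ≤ U.card) (hL : ∀ z, L z → LA1 z)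
    (hl : ∀ z, L z → ∃ l ∈ U, l ≠ e ∧ LB1 l ∧ (h1 → l = z)) :
    Ch (S + lift x S') (RP T0 [] LA) x (RP T1 [] L) := by
  refine J0 (P' := RP U [e] LB1) (H' := fun a b => H2 h1 b a) x k
    (Cl.mono (Cl.symm k1) (fun _ h => h) (RP.mono hL) (fun _ _ _ _ h => h)) hy ?_
  rintro a b - ⟨-, tb, z, rfl, hz⟩ p
  obtain ⟨l, l1, l2, l3, l4⟩ := hl z hz
  obtain ⟨t, ht, hs⟩ := E2 he l1 l2.symm hc p
  refine ⟨_, ht, hs, ⟨hT ▸ ht.snoc hy, t ++ [l], y, rfl, hLB⟩, fun k => absurd k hh,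
    ⟨ht, t, l, rfl, l3⟩, fun k => Or.inr ?_⟩
  rw [lst2, List.nil_append, lst1, l4 k]

/-- forward junction from a free end into a reversed call -/
theorem JBB {T1 T2 T : Finset ℕ} {LA1 LB1 L : ℕ → Prop} {h1 : Prop} (x' : ℕ)
    (k : Ch S P x (RP T1 [] (· = y))) (k1 : AA S' T2 LA1 T x LB1 h1) (hT1 : T1 = insert y U)
    (hT : T = insert x U) (hy : y ∉ U) (hx : x ∉ U) (hc : 3 ≤ U.card) (hL : ∀ z, L z → LA1 z)
    (hl : ∀ z, L z → ∃ l ∈ U, LB1 l ∧ (h1 → l = z)) :
    Ch (S + lift x' S') P x' (RP T2 [] L) := by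
  refine JF (P' := RP T [x] LB1) (H' := fun a b => H2 h1 b a) x' k
    (Cl.mono (Cl.symm k1) (fun _ h => h) (RP.mono hL) (fun _ _ _ _ h => h)) hy ?_
  rintro b ⟨-, tb, z, rfl, hz⟩ p
  obtain ⟨l, l1, l3, l4⟩ := hl z hz
  obtain ⟨t, ht, hs⟩ := E1 l1 hc p
  refine ⟨_, ht, hs, ⟨hT1 ▸ ht.snoc hy, t ++ [l], y, rfl, rfl⟩,
    ⟨hT ▸ ht.cons hx, t, l, rfl, l3⟩, fun k => Or.inr ?_⟩
  rw [lst2, List.nil_append, lst1, l4 k]

/-- a simplex times a quadrilateral -/
theorem S4abs {G : Finset ℕ} (hy : y ∉ G) (hx : x ∉ G) (hc : 4 ≤ G.card) :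
    AA (P1 (insert y G) + lift x (P1 G)) (insert y G) (· ∈ G) (insert x G) x (· ∈ G) True := by
  refine ⟨cnt G y + cnt G x + G.card + 1, ?_⟩
  rintro a b ⟨ha, ta, c, rfl, hc1⟩ ⟨hb, tb, c', rfl, hc2⟩ hH hs
  have hb' : Ord G (tb ++ [c']) := by
    have := Ord.tail (x := x) hb
    rwa [erase_insert hx] at this
  have hcy : (insert y G).card = G.card + 1 := card_insert_of_notMem hy
  obtain ⟨a0, ma, z1, e1⟩ := ex_first_last (l := [] ++ (ta ++ [c])) (by rw [ha.length]; omega)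
  obtain ⟨p, mb, z2, e2⟩ := ex_first_last (l := tb ++ [c']) (by rw [hb'.length]; omega)
  have ez1 : c = z1 := by
    have := congrArg List.getLast? e1
    rw [List.nil_append, lst1, lst2] at this
    exact Option.some.inj this
  have ez2 : c' = z2 := by
    have := congrArg List.getLast? e2
    rw [lst1, lst2] at this
    exact Option.some.inj this
  subst ez1 ez2
  have sb : sg ([x] ++ (tb ++ [c'])) = cnt G x + sg (tb ++ [c']) := sg_cons hb' x
  rw [sb] at hs
  have hH' := hH trivial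
  rw [e2, e1] at hH' hs
  rw [e2] at hb'
  rw [e1] at ha
  rw [e2, e1]
  obtain ⟨n2, hp, -⟩ := ord_ne hb'
  have key : ∃ u t z, Ord G (u :: (t ++ [z])) ∧
      sg (u :: (t ++ [z])) = G.card + 1 + sg (p :: (mb ++ [c'])) ∧
      ((a0 = y ∧ u ≠ c) ∨ (a0 ≠ y ∧ u = c)) ∧ ((z = p ∧ u ≠ c') ∨ (u = c' ∧ z ≠ p)) := by
    by_cases h0 : a0 = y
    · obtain ⟨u, hu, hu'⟩ := ex_notMem (U := G) [c, c', p] (by simp; omega)
      simp only [List.mem_cons, List.not_mem_nil, or_false, not_or] at hu'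
      obtain ⟨t, ht, hst⟩ := E2 hu hp hu'.2.2 hc (G.card + 1 + sg (p :: (mb ++ [c'])))
      exact ⟨u, t, p, ht, hst, Or.inl ⟨h0, hu'.1⟩, Or.inl ⟨rfl, hu'.2.1⟩⟩
    · by_cases h1 : c = c'
      · obtain ⟨u, hu, hu'⟩ := ex_notMem (U := G) [c, p] (by simp; omega)
        simp only [List.mem_cons, List.not_mem_nil, or_false, not_or] at hu'
        obtain ⟨t, ht, hst⟩ := E2 hc1 hu (Ne.symm hu'.1) hc (G.card + 1 + sg (p :: (mb ++ [c'])))
        exact ⟨c, t, u, ht, hst, Or.inr ⟨h0, rfl⟩, Or.inr ⟨h1, hu'.2⟩⟩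
      · have h2 : c ≠ p := by
          rcases hH' with h | h
          · rw [lst2] at h
            exact fun e => h (by rw [e]; rfl)
          · rw [lst2, List.singleton_append, ← List.cons_append, lst2] at h
            exact absurd (Option.some.inj h).symm h1
        obtain ⟨t, ht, hst⟩ := E2 hc1 hp h2 hc (G.card + 1 + sg (p :: (mb ++ [c'])))
        exact ⟨c, t, p, ht, hst, Or.inr ⟨h0, rfl⟩, Or.inl ⟨rfl, h1⟩⟩
  obtain ⟨u, t, z, ht, hst, k1, k2⟩ := key
  have hty : Ord (insert y G) (u :: ((t ++ [z]) ++ [y])) := ht.snoc hy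
  have par : sg (a0 :: (ma ++ [c])) + sg (u :: ((t ++ [z]) ++ [y])) =
      ((insert y G).card : ZMod 2) + 1 := by
    have : sg (u :: ((t ++ [z]) ++ [y])) = cnt G y + G.card + sg (u :: (t ++ [z])) :=
      sg_snoc' ht hy
    rw [this, hst, hcy]
    push_cast
    have := two_eq (cnt G y + G.card + cnt G x + sg (p :: (mb ++ [c'])))
    have h2 := two_eq (sg (p :: (mb ++ [c'])) + cnt G x)
    linear_combination hs + this - h2
  have s1 : Seg true (P1 (insert y G)) (a0 :: (ma ++ [c])) (u :: ((t ++ [z]) ++ [y])) := by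
    rcases k1 with ⟨rfl, k⟩ | ⟨k, rfl⟩
    · exact (Gb (by omega) hty ha k (by rw [add_comm, par])).symm
    · exact Gb (by omega) ha hty k par
  have par2 : sg (u :: (t ++ [z])) + sg (p :: (mb ++ [c'])) = (G.card : ZMod 2) + 1 := by
    rw [hst]
    have := two_eq (sg (p :: (mb ++ [c'])))
    linear_combination this
  have s2 : Seg true (P1 G) (u :: (t ++ [z])) (p :: (mb ++ [c'])) := by
    rcases k2 with ⟨rfl, k⟩ | ⟨rfl, k⟩
    · exact Gb hc ht hb' k par2
    · exact (Gb hc hb' ht k.symm (by rw [add_comm, par2])).symm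
  exact Seg.join (t := u :: (t ++ [z])) s1 (s2.lift x)

/-- a Boolean pass whose start begins with the last element of its end -/
theorem ClBool {G : Finset ℕ} (hc : 4 ≤ G.card) (y : ℕ) :
    Cl (P1 G) (RP G [y] (fun _ => True)) (RP G [] (· = y))
      (fun a b => a.getLast? ≠ b.head?) := by
  refine ⟨G.card + 1, ?_⟩
  rintro a b ⟨ha, ta, z, rfl, -⟩ ⟨hb, tb, z', rfl, rfl⟩ hH hs
  obtain ⟨p, mb, z2, e2⟩ := ex_first_last (l := [] ++ (tb ++ [z'])) (by rw [hb.length]; omega)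
  have ez2 : z' = z2 := by
    have := congrArg List.getLast? e2
    rw [List.nil_append, lst1, lst2] at this
    exact Option.some.inj this
  subst ez2
  rw [e2] at hb hH hs ⊢
  refine (Gb hc hb ha ?_ (by rw [add_comm]; exact hs)).symm
  rw [List.singleton_append, lst2] at hH
  exact fun e => hH (by rw [e]; rfl)

end Pool.Agent.MP_086a35_co

end

-- part MP_086a35_co.Geom
section

set_option autoImplicit false

namespace Pool.Agent.MP_086a35_co

open Finset

def dg (a b : ℕ) : ℕ := Nat.pair (min a b) (max a b)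

def crI (i j k l : ℕ) : Prop :=
  (min i j < min k l ∧ min k l < max i j ∧ max i j < max k l) ∨
  (min k l < min i j ∧ min i j < max k l ∧ max k l < max i j)

instance (i j k l : ℕ) : Decidable (crI i j k l) := by unfold crI; infer_instance

def cr (p q : ℕ) : Prop := crI p.unpair.1 p.unpair.2 q.unpair.1 q.unpair.2

instance : DecidableRel cr := fun p q => by unfold cr; infer_instance

theorem cr_dg (a b c d : ℕ) : cr (dg a b) (dg c d) ↔ crI a b c d := by
  simp only [cr, dg, Nat.unpair_pair, crI]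
  omega

theorem dg_eq {a b c d : ℕ} : dg a b = dg c d ↔ (a = c ∧ b = d) ∨ (a = d ∧ b = c) := by
  simp only [dg, Nat.pair_eq_pair]
  omega

theorem dg_comm (a b : ℕ) : dg a b = dg b a := dg_eq.2 (Or.inr ⟨rfl, rfl⟩)

theorem cr_symm (a b : ℕ) (h : cr a b) : cr b a := Or.symm h

theorem cr_irrefl (a : ℕ) : ¬ cr a a := by
  simp only [cr, crI]
  omega

def Chart (V : ℕ → ℕ) (N : ℕ) : Prop :=
  (∀ i ≤ N, ∀ j ≤ N, V i = V j → i = j) ∧
    ∀ i ≤ N, ∀ j ≤ N, ∀ k ≤ N, ∀ l ≤ N, (crI (V i) (V j) (V k) (V l) ↔ crI i j k l)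

def isD (N i j : ℕ) : Prop :=
  i ≤ N ∧ j ≤ N ∧ (i + 2 ≤ j ∨ j + 2 ≤ i) ∧ ¬ (i = 0 ∧ j = N) ∧ ¬ (j = 0 ∧ i = N)

instance (N i j : ℕ) : Decidable (isD N i j) := by unfold isD; infer_instance

def diag (V : ℕ → ℕ) (N : ℕ) : Finset ℕ :=
  ((range (N + 1) ×ˢ range (N + 1)).filter (fun p => isD N p.1 p.2)).image
    (fun p => dg (V p.1) (V p.2))

theorem mem_diag {V : ℕ → ℕ} {N a : ℕ} :
    a ∈ diag V N ↔ ∃ i j, isD N i j ∧ a = dg (V i) (V j) := by
  simp only [diag, mem_image, mem_filter, mem_product, mem_range, Prod.exists]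
  constructor
  · rintro ⟨i, j, ⟨_, h⟩, rfl⟩
    exact ⟨i, j, h, rfl⟩
  · rintro ⟨i, j, h, rfl⟩
    exact ⟨i, j, ⟨⟨Nat.lt_succ_of_le h.1, Nat.lt_succ_of_le h.2.1⟩, h⟩, rfl⟩

theorem dg_mem_diag (V : ℕ → ℕ) {N i j : ℕ} (h : isD N i j) : dg (V i) (V j) ∈ diag V N :=
  mem_diag.2 ⟨i, j, h, rfl⟩

theorem diag_small (V : ℕ → ℕ) {N : ℕ} (h : N ≤ 2) : diag V N = ∅ := by
  rw [eq_empty_iff_forall_notMem]
  intro a ha
  obtain ⟨i, j, h, -⟩ := mem_diag.1 ha
  unfold isD at h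
  omega

theorem Chart.dg_eq {V : ℕ → ℕ} {N : ℕ} (h : Chart V N) {i j k l : ℕ} (hi : i ≤ N) (hj : j ≤ N)
    (hk : k ≤ N) (hl : l ≤ N) :
    dg (V i) (V j) = dg (V k) (V l) ↔ (i = k ∧ j = l) ∨ (i = l ∧ j = k) := by
  rw [MP_086a35_co.dg_eq]
  constructor
  · rintro (⟨h1, h2⟩ | ⟨h1, h2⟩)
    · exact Or.inl ⟨h.1 _ hi _ hk h1, h.1 _ hj _ hl h2⟩
    · exact Or.inr ⟨h.1 _ hi _ hl h1, h.1 _ hj _ hk h2⟩
  · rintro (⟨rfl, rfl⟩ | ⟨rfl, rfl⟩)
    · exact Or.inl ⟨rfl, rfl⟩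
    · exact Or.inr ⟨rfl, rfl⟩

theorem Chart.cr_iff {V : ℕ → ℕ} {N : ℕ} (h : Chart V N) {i j k l : ℕ} (hi : i ≤ N) (hj : j ≤ N)
    (hk : k ≤ N) (hl : l ≤ N) : cr (dg (V i) (V j)) (dg (V k) (V l)) ↔ crI i j k l := by
  rw [cr_dg, h.2 i hi j hj k hk l hl]

theorem Chart.comp {V τ : ℕ → ℕ} {N M : ℕ} (h : Chart V N) (h1 : ∀ i ≤ M, τ i ≤ N)
    (h2 : Chart τ M) : Chart (fun i => V (τ i)) M :=
  ⟨fun i hi j hj e => h2.1 i hi j hj (h.1 _ (h1 i hi) _ (h1 j hj) e),
    fun i hi j hj k hk l hl =>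
      (h.2 _ (h1 i hi) _ (h1 j hj) _ (h1 k hk) _ (h1 l hl)).trans (h2.2 i hi j hj k hk l hl)⟩

def cyc (a b c : ℕ) : Prop := (a < b ∧ b < c) ∨ (b < c ∧ c < a) ∨ (c < a ∧ a < b)

theorem crI_cyc (i j k l : ℕ) :
    crI i j k l ↔ (cyc i k j ∧ cyc j l i) ∨ (cyc i l j ∧ cyc j k i) := by
  unfold crI cyc
  rcases le_total i j with h1 | h1 <;> rcases le_total k l with h2 | h2 <;>
    simp only [min_eq_left, max_eq_right, min_eq_right, max_eq_left, h1, h2] <;> omega

theorem cyc_rot (a b c : ℕ) : cyc a b c ↔ cyc b c a := by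
  unfold cyc
  tauto

theorem chart_of_cyc {τ : ℕ → ℕ} {M : ℕ} (h1 : ∀ i ≤ M, ∀ j ≤ M, τ i = τ j → i = j)
    (h2 : ∀ i ≤ M, ∀ j ≤ M, ∀ k ≤ M, cyc (τ i) (τ j) (τ k) ↔ cyc i j k) : Chart τ M := by
  refine ⟨h1, fun i hi j hj k hk l hl => ?_⟩
  rw [crI_cyc, crI_cyc, h2 i hi k hk j hj, h2 j hj l hl i hi, h2 i hi l hl j hj,
    h2 j hj k hk i hi]

theorem chart_of_cyc' {τ : ℕ → ℕ} {M : ℕ} (h1 : ∀ i ≤ M, ∀ j ≤ M, τ i = τ j → i = j)
    (h2 : ∀ i ≤ M, ∀ j ≤ M, ∀ k ≤ M, cyc (τ i) (τ j) (τ k) ↔ cyc k j i) : Chart τ M := by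
  refine ⟨h1, fun i hi j hj k hk l hl => ?_⟩
  rw [crI_cyc, crI_cyc, h2 i hi k hk j hj, h2 j hj l hl i hi, h2 i hi l hl j hj,
    h2 j hj k hk i hi]
  tauto

/-- reflection `i ↦ c - i` modulo `M + 1` -/
def rf (M c i : ℕ) : ℕ := if i ≤ c then c - i else M + 1 + c - i

theorem rf_chart {M c : ℕ} (_hc : c ≤ M) : Chart (rf M c) M := by
  apply chart_of_cyc'
  · intro i hi j hj
    unfold rf
    split_ifs <;> omega
  · intro i hi j hj k hk
    unfold rf cyc
    split_ifs <;> omega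

theorem rf_le {M c : ℕ} (_hc : c ≤ M) (i : ℕ) (hi : i ≤ M) : rf M c i ≤ M := by
  unfold rf
  split_ifs <;> omega

theorem rf_rf {M c : ℕ} (_hc : c ≤ M) (i : ℕ) (hi : i ≤ M) : rf M c (rf M c i) = i := by
  unfold rf
  split_ifs <;> omega

theorem rf_isD {M c : ℕ} (hc : c ≤ M) {i j : ℕ} (h : isD M i j) : isD M (rf M c i) (rf M c j) := by
  unfold rf isD at *
  split_ifs <;> omega

def RF (V : ℕ → ℕ) (M c : ℕ) : ℕ → ℕ := fun i => V (rf M c i)

theorem Chart.rf {V : ℕ → ℕ} {M c : ℕ} (h : Chart V M) (hc : c ≤ M) : Chart (RF V M c) M :=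
  h.comp (rf_le hc) (rf_chart hc)

theorem diag_RF (V : ℕ → ℕ) {M c : ℕ} (hc : c ≤ M) : diag (RF V M c) M = diag V M := by
  ext a
  simp only [mem_diag, RF]
  constructor
  · rintro ⟨i, j, h, rfl⟩
    exact ⟨_, _, rf_isD hc h, rfl⟩
  · rintro ⟨i, j, h, rfl⟩
    exact ⟨_, _, rf_isD hc h, by rw [rf_rf hc i h.1, rf_rf hc j h.2.1]⟩

def lam (N w i : ℕ) : ℕ := if i ≤ w then i else N

def rho (N w i : ℕ) : ℕ := if i = 0 then N - 1 else w + i - 1

def VL (V : ℕ → ℕ) (N w : ℕ) : ℕ → ℕ := fun i => V (lam N w i)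

def VR (V : ℕ → ℕ) (N w : ℕ) : ℕ → ℕ := fun i => V (rho N w i)

theorem Chart.vl {V : ℕ → ℕ} {N w : ℕ} (h : Chart V N) (hw : w + 2 ≤ N) :
    Chart (VL V N w) (w + 1) := by
  refine h.comp (fun i _ => by unfold lam; split_ifs <;> omega) (chart_of_cyc ?_ ?_)
  · intro i hi j hj
    unfold lam
    split_ifs <;> omega
  · intro i hi j hj k hk
    unfold lam cyc
    split_ifs <;> omega

theorem Chart.vr {V : ℕ → ℕ} {N w : ℕ} (h : Chart V N) (hw : w + 2 ≤ N) :
    Chart (VR V N w) (N - 1 - w) := by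
  refine h.comp (fun i _ => by unfold rho; split_ifs <;> omega) (chart_of_cyc ?_ ?_)
  · intro i hi j hj
    unfold rho
    split_ifs <;> omega
  · intro i hi j hj k hk
    unfold rho cyc
    split_ifs <;> omega

theorem mem_diag_VL {V : ℕ → ℕ} {N w a : ℕ} (hw : w + 2 ≤ N) :
    a ∈ diag (VL V N w) (w + 1) ↔ ∃ i j, isD N i j ∧ (i ≤ w ∨ i = N) ∧ (j ≤ w ∨ j = N) ∧
      ¬ (i = w ∧ j = N) ∧ ¬ (j = w ∧ i = N) ∧ a = dg (V i) (V j) := by
  simp only [mem_diag, VL]
  constructor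
  · rintro ⟨i, j, h, rfl⟩
    refine ⟨_, _, ?_, ?_, ?_, ?_, ?_, rfl⟩ <;> unfold lam <;> unfold isD at * <;>
      split_ifs <;> omega
  · rintro ⟨i, j, h, h1, h2, h3, h4, rfl⟩
    refine ⟨if i ≤ w then i else w + 1, if j ≤ w then j else w + 1, ?_, ?_⟩
    · unfold isD at *
      split_ifs <;> omega
    · congr 2 <;> unfold lam <;> split_ifs <;> omega

theorem mem_diag_VR {V : ℕ → ℕ} {N w a : ℕ} (hw : w + 2 ≤ N) :
    a ∈ diag (VR V N w) (N - 1 - w) ↔ ∃ i j, isD N i j ∧ w ≤ i ∧ i < N ∧ w ≤ j ∧ j < N ∧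
      ¬ (i = w ∧ j + 1 = N) ∧ ¬ (j = w ∧ i + 1 = N) ∧ a = dg (V i) (V j) := by
  simp only [mem_diag, VR]
  constructor
  · rintro ⟨i, j, h, rfl⟩
    refine ⟨_, _, ?_, ?_, ?_, ?_, ?_, ?_, ?_, rfl⟩ <;> unfold rho <;> unfold isD at * <;>
      split_ifs <;> omega
  · rintro ⟨i, j, h, h1, h2, h3, h4, h5, h6, rfl⟩
    refine ⟨if i + 1 = N then 0 else i + 1 - w, if j + 1 = N then 0 else j + 1 - w, ?_, ?_⟩
    · unfold isD at *
      split_ifs <;> omega
    · congr 2 <;> unfold rho <;> split_ifs <;> omega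

def fanAt (V : ℕ → ℕ) (r : ℕ) (S : Finset ℕ) : Finset ℕ := S.image (fun j => dg (V r) (V j))

def fanL (V : ℕ → ℕ) (w : ℕ) (b : Bool) : Finset ℕ :=
  if b then fanAt V w (range (w - 1)) else fanAt V 0 (Ico 2 (w + 1))

theorem mem_fanAt {V : ℕ → ℕ} {r a : ℕ} {S : Finset ℕ} :
    a ∈ fanAt V r S ↔ ∃ j ∈ S, a = dg (V r) (V j) := by
  simp only [fanAt, mem_image, eq_comm]

theorem fanAt_congr {V W : ℕ → ℕ} {r r' : ℕ} {S S' : Finset ℕ} (hr : V r = W r')
    (h1 : ∀ j ∈ S, ∃ j' ∈ S', V j = W j') (h2 : ∀ j' ∈ S', ∃ j ∈ S, V j = W j') :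
    fanAt V r S = fanAt W r' S' := by
  ext a
  simp only [mem_fanAt]
  constructor
  · rintro ⟨j, hj, rfl⟩
    obtain ⟨j', h3, h4⟩ := h1 j hj
    exact ⟨j', h3, by rw [hr, h4]⟩
  · rintro ⟨j', hj', rfl⟩
    obtain ⟨j, h3, h4⟩ := h2 j' hj'
    exact ⟨j, h3, by rw [hr, h4]⟩

theorem Chart.card_fanAt {V : ℕ → ℕ} {N r : ℕ} {S : Finset ℕ} (h : Chart V N) (hr : r ≤ N)
    (hS : ∀ j ∈ S, j ≤ N) : (fanAt V r S).card = S.card := by
  refine card_image_of_injOn (fun i hi j hj e => ?_)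
  have := (h.dg_eq hr (hS i hi) hr (hS j hj)).1 e
  omega

theorem Chart.mem_fanAt {V : ℕ → ℕ} {N r i j : ℕ} {S : Finset ℕ} (h : Chart V N) (hr : r ≤ N)
    (hS : ∀ j ∈ S, j ≤ N) (hi : i ≤ N) (hj : j ≤ N) :
    dg (V i) (V j) ∈ fanAt V r S ↔ (i = r ∧ j ∈ S) ∨ (j = r ∧ i ∈ S) := by
  rw [MP_086a35_co.mem_fanAt]
  constructor
  · rintro ⟨k, hk, e⟩
    rcases (h.dg_eq hi hj hr (hS k hk)).1 e with ⟨rfl, rfl⟩ | ⟨rfl, rfl⟩
    · exact Or.inl ⟨rfl, hk⟩
    · exact Or.inr ⟨rfl, hk⟩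
  · rintro (⟨rfl, h1⟩ | ⟨rfl, h1⟩)
    · exact ⟨j, h1, rfl⟩
    · exact ⟨i, h1, dg_comm _ _⟩

theorem Chart.card_fanL {V : ℕ → ℕ} {N w : ℕ} (h : Chart V N) (hw : w ≤ N) (b : Bool) :
    (fanL V w b).card = w - 1 := by
  unfold fanL
  split_ifs
  · rw [h.card_fanAt hw (fun j hj => by rw [mem_range] at hj; omega), card_range]
  · rw [h.card_fanAt (Nat.zero_le _) (fun j hj => by rw [mem_Ico] at hj; omega), Nat.card_Ico]
    omega

theorem Chart.mem_fanL {V : ℕ → ℕ} {N w i j : ℕ} (h : Chart V N) (hw : w ≤ N) (b : Bool)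
    (hi : i ≤ N) (hj : j ≤ N) : dg (V i) (V j) ∈ fanL V w b ↔
      (if b then (i = w ∧ j + 1 < w) ∨ (j = w ∧ i + 1 < w)
        else (i = 0 ∧ 2 ≤ j ∧ j ≤ w) ∨ (j = 0 ∧ 2 ≤ i ∧ i ≤ w)) := by
  unfold fanL
  split_ifs
  · rw [h.mem_fanAt hw (fun j hj => by rw [mem_range] at hj; omega) hi hj]
    simp only [mem_range]
    omega
  · rw [h.mem_fanAt (Nat.zero_le _) (fun j hj => by rw [mem_Ico] at hj; omega) hi hj]
    simp only [mem_Ico]
    omega

theorem fanL_sub (V : ℕ → ℕ) {N w : ℕ} (hw : w + 1 ≤ N) (b : Bool) : fanL V w b ⊆ diag V N := by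
  intro a ha
  unfold fanL at ha
  split_ifs at ha
  · obtain ⟨j, hj, rfl⟩ := mem_fanAt.1 ha
    rw [mem_range] at hj
    exact dg_mem_diag V (by unfold isD; omega)
  · obtain ⟨j, hj, rfl⟩ := mem_fanAt.1 ha
    rw [mem_Ico] at hj
    exact dg_mem_diag V (by unfold isD; omega)

theorem fanL_VL (V : ℕ → ℕ) (N : ℕ) {w u : ℕ} (h : u ≤ w) (b : Bool) :
    fanL (VL V N w) u b = fanL V u b := by
  have e : ∀ i ≤ w, VL V N w i = V i := fun i hi => by simp [VL, lam, hi]
  unfold fanL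
  split_ifs
  · refine fanAt_congr (e u h) (fun j hj => ⟨j, hj, e j ?_⟩) (fun j hj => ⟨j, hj, e j ?_⟩) <;>
      rw [mem_range] at hj <;> omega
  · refine fanAt_congr (e 0 (Nat.zero_le _)) (fun j hj => ⟨j, hj, e j ?_⟩)
      (fun j hj => ⟨j, hj, e j ?_⟩) <;> rw [mem_Ico] at hj <;> omega

/-- the diagonals `y u` with `w ≤ u` -/
def YY (V : ℕ → ℕ) (N w : ℕ) : Finset ℕ := fanAt V (N - 1) (Ico w (N - 2))

def xx (V : ℕ → ℕ) (N w : ℕ) : ℕ := dg (V w) (V N)

def yy (V : ℕ → ℕ) (N w : ℕ) : ℕ := dg (V (N - 1)) (V w)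

theorem YY_succ (V : ℕ → ℕ) {N w : ℕ} (h : w + 2 < N) :
    YY V N w = insert (yy V N w) (YY V N (w + 1)) := by
  unfold YY fanAt yy
  rw [← Finset.insert_Ico_add_one_left_eq_Ico (a := w) (by omega), image_insert]

theorem YY_top (V : ℕ → ℕ) {N w : ℕ} (h : N ≤ w + 2) : YY V N w = ∅ := by
  unfold YY fanAt
  rw [Ico_eq_empty (by omega), image_empty]

theorem fanL_true_YY (V : ℕ → ℕ) (N : ℕ) : fanL V (N - 1) true = YY V N 0 := by
  unfold fanL YY
  simp only [if_true, Nat.Ico_zero_eq_range]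
  rfl

theorem YY_sub (V : ℕ → ℕ) (N w : ℕ) : YY V N w ⊆ diag V N := by
  intro a ha
  obtain ⟨j, hj, rfl⟩ := mem_fanAt.1 ha
  rw [mem_Ico] at hj
  exact dg_mem_diag V (by unfold isD; omega)

theorem Chart.mem_YY {V : ℕ → ℕ} {N w i j : ℕ} (h : Chart V N) (hi : i ≤ N) (hj : j ≤ N) :
    dg (V i) (V j) ∈ YY V N w ↔
      (i = N - 1 ∧ w ≤ j ∧ j + 2 < N) ∨ (j = N - 1 ∧ w ≤ i ∧ i + 2 < N) := by
  unfold YY
  rw [h.mem_fanAt (Nat.sub_le _ _) (fun j hj => by rw [mem_Ico] at hj; omega) hi hj]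
  simp only [mem_Ico]
  omega

theorem Chart.card_YY {V : ℕ → ℕ} {N : ℕ} (h : Chart V N) (w : ℕ) :
    (YY V N w).card = N - 2 - w := by
  unfold YY
  rw [h.card_fanAt (Nat.sub_le _ _) (fun j hj => by rw [mem_Ico] at hj; omega), Nat.card_Ico]

abbrev Pl := ℕ × (ℕ → ℕ)

def fan0 (p : Pl) : Finset ℕ := fanAt p.2 0 (Ico 2 p.1)

theorem fan0_sub (p : Pl) : fan0 p ⊆ diag p.2 p.1 := by
  intro a ha
  obtain ⟨j, hj, rfl⟩ := mem_fanAt.1 ha
  rw [mem_Ico] at hj
  exact dg_mem_diag _ (by unfold isD; omega)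

theorem fan0_eq (V : ℕ → ℕ) {N : ℕ} (h : 1 ≤ N) : fan0 (N, V) = fanL V (N - 1) false := by
  unfold fan0 fanL
  simp only [Bool.false_eq_true, if_false]
  rw [Nat.sub_add_cancel h]

theorem fan0_VR (V : ℕ → ℕ) {N w : ℕ} : fan0 (N - 1 - w, VR V N w) = YY V N (w + 1) := by
  unfold fan0 YY
  refine fanAt_congr (by simp [VR, rho]) (fun j hj => ⟨w + j - 1, ?_, ?_⟩)
    (fun j hj => ⟨j + 1 - w, ?_, ?_⟩) <;> simp only [mem_Ico] at hj ⊢
  · omega
  · simp only [VR, rho]; rw [if_neg (by omega)]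
  · omega
  · simp only [VR, rho]; rw [if_neg (by omega)]; congr 1; omega

theorem fan0_RF0 (V : ℕ → ℕ) (N : ℕ) : fan0 (N, RF V N 0) = fan0 (N, V) := by
  unfold fan0
  refine fanAt_congr (by simp [RF, rf]) (fun j hj => ⟨N + 1 - j, ?_, ?_⟩)
    (fun j hj => ⟨N + 1 - j, ?_, ?_⟩) <;> simp only [mem_Ico] at hj ⊢
  · omega
  · simp only [RF, rf]; rw [if_neg (by omega)]
  · omega
  · simp only [RF, rf]; rw [if_neg (by omega)]; congr 1; omega

theorem fanL_RF1 (V : ℕ → ℕ) {N : ℕ} (h : 1 ≤ N) :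
    fanL (RF V N (N - 1)) (N - 1) true = fan0 (N, V) := by
  unfold fan0 fanL
  simp only [if_true]
  refine fanAt_congr (by simp [RF, rf]) (fun j hj => ⟨N - 1 - j, ?_, ?_⟩)
    (fun j hj => ⟨N - 1 - j, ?_, ?_⟩) <;> simp only [mem_Ico, mem_range] at hj ⊢
  · omega
  · simp only [RF, rf]; rw [if_pos (by omega)]
  · omega
  · simp only [RF, rf]; rw [if_pos (by omega)]; congr 1; omega

def DR : List Pl → Finset ℕ
  | [] => ∅
  | p :: l => diag p.2 p.1 ∪ DR l

def TR : List Pl → Finset ℕ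
  | [] => ∅
  | p :: l => fan0 p ∪ TR l

def kR (l : List Pl) : ℕ := (l.map (fun p => p.1 - 2)).sum

theorem mem_DR {l : List Pl} {a : ℕ} : a ∈ DR l ↔ ∃ p ∈ l, a ∈ diag p.2 p.1 := by
  induction l with
  | nil => simp [DR]
  | cons p l ih => simp [DR, ih]

theorem mem_TR {l : List Pl} {a : ℕ} : a ∈ TR l ↔ ∃ p ∈ l, a ∈ fan0 p := by
  induction l with
  | nil => simp [TR]
  | cons p l ih => simp [TR, ih]

theorem TR_sub (l : List Pl) : TR l ⊆ DR l := by
  intro a ha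
  obtain ⟨p, hp, h⟩ := mem_TR.1 ha
  exact mem_DR.2 ⟨p, hp, fan0_sub p h⟩

theorem DR_perm {l l' : List Pl} (h : l.Perm l') : DR l = DR l' := by
  ext a
  simp only [mem_DR, h.mem_iff]

theorem TR_perm {l l' : List Pl} (h : l.Perm l') : TR l = TR l' := by
  ext a
  simp only [mem_TR, h.mem_iff]

theorem kR_perm {l l' : List Pl} (h : l.Perm l') : kR l = kR l' := (h.map _).sum_eq

theorem kR_cons (p : Pl) (l : List Pl) : kR (p :: l) = p.1 - 2 + kR l := by simp [kR]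

theorem kR_zero {l : List Pl} (h : kR l = 0) : ∀ p ∈ l, p.1 ≤ 2 := by
  induction l with
  | nil => simp
  | cons q l ih =>
    rw [kR_cons] at h
    intro p hp
    rcases List.mem_cons.1 hp with rfl | hp
    · omega
    · exact ih (by omega) p hp

theorem DR_zero {l : List Pl} (h : kR l = 0) : DR l = ∅ := by
  rw [eq_empty_iff_forall_notMem]
  intro a ha
  obtain ⟨p, hp, h1⟩ := mem_DR.1 ha
  rw [diag_small _ (kR_zero h p hp)] at h1
  exact notMem_empty _ h1

theorem TR_zero {l : List Pl} (h : kR l = 0) : TR l = ∅ :=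
  subset_empty.1 (DR_zero h ▸ TR_sub l)

theorem ex_nontriv {l : List Pl} (h : kR l ≠ 0) : ∃ p ∈ l, 3 ≤ p.1 := by
  induction l with
  | nil => simp [kR] at h
  | cons q l ih =>
    rw [kR_cons] at h
    by_cases h1 : 3 ≤ q.1
    · exact ⟨q, List.mem_cons_self, h1⟩
    · obtain ⟨p, hp, h2⟩ := ih (by omega)
      exact ⟨p, List.mem_cons_of_mem _ hp, h2⟩

theorem perm_of_mem {l : List Pl} {p : Pl} (h : p ∈ l) : ∃ o, l.Perm (p :: o) := by
  obtain ⟨s, t, rfl⟩ := List.append_of_mem h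
  exact ⟨s ++ t, List.perm_middle⟩

def Ind (A B : Finset ℕ) : Prop := ∀ a ∈ A, ∀ b ∈ B, a ≠ b ∧ ¬ cr a b

theorem Ind.symm {A B : Finset ℕ} (h : Ind A B) : Ind B A :=
  fun a ha b hb => ⟨(h b hb a ha).1.symm, fun e => (h b hb a ha).2 (cr_symm _ _ e)⟩

theorem Ind.mono {A B A' B' : Finset ℕ} (h : Ind A B) (h1 : A' ⊆ A) (h2 : B' ⊆ B) : Ind A' B' :=
  fun a ha b hb => h a (h1 ha) b (h2 hb)

theorem Ind.disjoint {A B : Finset ℕ} (h : Ind A B) : Disjoint A B :=
  disjoint_left.2 (fun a ha hb => (h a ha a hb).1 rfl)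

structure WF (G : Finset ℕ) (L : List Pl) : Prop where
  nc : NC cr G
  ch : ∀ p ∈ L, Chart p.2 p.1
  ind : ∀ p ∈ L, Ind G (diag p.2 p.1)
  pw : L.Pairwise (fun p q => Ind (diag p.2 p.1) (diag q.2 q.1))

theorem WF.perm {G : Finset ℕ} {L L' : List Pl} (h : WF G L) (p : L.Perm L') : WF G L' :=
  ⟨h.nc, fun q hq => h.ch q (p.mem_iff.2 hq), fun q hq => h.ind q (p.mem_iff.2 hq),
    (p.pairwise_iff (fun h => h.symm)).1 h.pw⟩

theorem WF.tail {G : Finset ℕ} {p : Pl} {L : List Pl} (h : WF G (p :: L)) : WF G L :=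
  ⟨h.nc, fun q hq => h.ch q (List.mem_cons_of_mem _ hq),
    fun q hq => h.ind q (List.mem_cons_of_mem _ hq), h.pw.of_cons⟩

theorem WF.head {G : Finset ℕ} {N : ℕ} {V : ℕ → ℕ} {L : List Pl} (h : WF G ((N, V) :: L)) :
    Chart V N := h.ch (N, V) List.mem_cons_self

theorem WF.indG {G : Finset ℕ} {N : ℕ} {V : ℕ → ℕ} {L : List Pl} (h : WF G ((N, V) :: L)) :
    Ind G (diag V N) := h.ind (N, V) List.mem_cons_self

theorem WF.indR {G : Finset ℕ} {N : ℕ} {V : ℕ → ℕ} {L : List Pl} (h : WF G ((N, V) :: L)) :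
    Ind (diag V N) (DR L) := by
  intro a ha b hb
  obtain ⟨p, hp, h1⟩ := mem_DR.1 hb
  exact (List.pairwise_cons.1 h.pw).1 p hp a ha b h1

theorem WF.indGR {G : Finset ℕ} {L : List Pl} (h : WF G L) : Ind G (DR L) := by
  intro a ha b hb
  obtain ⟨p, hp, h1⟩ := mem_DR.1 hb
  exact h.ind p hp a ha b h1

theorem WF.cons {G : Finset ℕ} {N : ℕ} {V : ℕ → ℕ} {L : List Pl} (h : WF G L) (h1 : Chart V N)
    (h2 : Ind G (diag V N)) (h3 : Ind (diag V N) (DR L)) : WF G ((N, V) :: L) := by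
  refine ⟨h.nc, ?_, ?_, List.pairwise_cons.2 ⟨fun p hp => h3.mono (subset_refl _) ?_, h.pw⟩⟩
  · intro p hp
    rcases List.mem_cons.1 hp with rfl | hp
    · exact h1
    · exact h.ch p hp
  · intro p hp
    rcases List.mem_cons.1 hp with rfl | hp
    · exact h2
    · exact h.ind p hp
  · exact fun a ha => mem_DR.2 ⟨p, hp, ha⟩

theorem WF.rf {G : Finset ℕ} {N c : ℕ} {V : ℕ → ℕ} {L : List Pl} (h : WF G ((N, V) :: L))
    (hc : c ≤ N) : WF G ((N, RF V N c) :: L) :=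
  h.tail.cons (h.head.rf hc) (by rw [diag_RF V hc]; exact h.indG)
    (by rw [diag_RF V hc]; exact h.indR)

theorem WF.addCone {G : Finset ℕ} {L : List Pl} (h : WF G L) {y : ℕ} (h1 : ∀ a ∈ G, ¬ cr y a)
    (h2 : ∀ a ∈ DR L, y ≠ a ∧ ¬ cr y a) : WF (insert y G) L := by
  refine ⟨?_, h.ch, ?_, h.pw⟩
  · intro a ha b hb
    rcases mem_insert.1 ha with e1 | ha' <;> rcases mem_insert.1 hb with e2 | hb'
    · rw [e1, e2]; exact cr_irrefl _
    · rw [e1]; exact h1 b hb'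
    · rw [e2]; exact fun e => h1 a ha' (cr_symm _ _ e)
    · exact h.nc a ha' b hb'
  · intro p hp a ha b hb
    rcases mem_insert.1 ha with rfl | ha'
    · exact h2 b (mem_DR.2 ⟨p, hp, hb⟩)
    · exact h.ind p hp a ha' b hb

theorem WF.card_TR {G : Finset ℕ} {L : List Pl} (h : WF G L) : (TR L).card = kR L := by
  induction L with
  | nil => simp [TR, kR]
  | cons p L ih =>
    obtain ⟨N, V⟩ := p
    rw [TR, kR_cons, card_union_of_disjoint (h.indR.mono (fan0_sub (N, V)) (TR_sub _)).disjoint,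
      ih h.tail, fan0, h.head.card_fanAt (Nat.zero_le _)
        (fun j hj => by rw [mem_Ico] at hj; exact hj.2.le), Nat.card_Ico]

theorem WF.card_ctx {G : Finset ℕ} {N : ℕ} {V : ℕ → ℕ} {L : List Pl} (h : WF G ((N, V) :: L))
    {A : Finset ℕ} (hA : A ⊆ diag V N) : (G ∪ A ∪ TR L).card = G.card + A.card + kR L := by
  rw [card_union_of_disjoint, card_union_of_disjoint (h.indG.mono (subset_refl _) hA).disjoint,
    h.tail.card_TR]
  rw [disjoint_union_left]
  exact ⟨(h.tail.indGR.mono (subset_refl _) (TR_sub _)).disjoint,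
    (h.indR.mono hA (TR_sub _)).disjoint⟩

theorem WF.notMem_ctx {G : Finset ℕ} {N : ℕ} {V : ℕ → ℕ} {L : List Pl} (h : WF G ((N, V) :: L))
    {A : Finset ℕ} {a : ℕ} (ha : a ∈ diag V N) (hA : a ∉ A) : a ∉ G ∪ A ∪ TR L := by
  simp only [mem_union, not_or]
  exact ⟨⟨fun e => (h.indG a e a ha).1 rfl, hA⟩, fun e => (h.indR a ha a (TR_sub _ e)).1 rfl⟩

end Pool.Agent.MP_086a35_co

end

-- part MP_086a35_co.Pass
section

set_option autoImplicit false

namespace Pool.Agent.MP_086a35_co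

open Finset

def Gw (G : Finset ℕ) (V : ℕ → ℕ) (N w : ℕ) : Finset ℕ :=
  if w + 2 < N then insert (yy V N w) G else G

def Rw (V : ℕ → ℕ) (N w : ℕ) (rest : List Pl) : List Pl := (N - 1 - w, VR V N w) :: rest

def Cw (G : Finset ℕ) (V : ℕ → ℕ) (N : ℕ) (rest : List Pl) (w : ℕ) : Finset ℕ :=
  Gw G V N w ∪ diag (VL V N w) (w + 1) ∪ DR (Rw V N w rest)

def PS (G : Finset ℕ) (V : ℕ → ℕ) (N : ℕ) (rest : List Pl) : ℕ → Multiset (Finset ℕ)
  | 0 => F1 cr (Cw G V N rest 0)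
  | w + 1 => PS G V N rest w + lift (xx V N (w + 1)) (F1 cr (Cw G V N rest (w + 1)))

variable {G : Finset ℕ} {V : ℕ → ℕ} {N : ℕ} {rest : List Pl}

theorem VL_sub (V : ℕ → ℕ) {w : ℕ} (hw : w + 2 ≤ N) : diag (VL V N w) (w + 1) ⊆ diag V N := by
  intro a ha
  obtain ⟨i, j, h, -, -, -, -, rfl⟩ := (mem_diag_VL hw).1 ha
  exact dg_mem_diag V h

theorem VR_sub (V : ℕ → ℕ) {w : ℕ} (hw : w + 2 ≤ N) : diag (VR V N w) (N - 1 - w) ⊆ diag V N := by
  intro a ha
  obtain ⟨i, j, h, -, -, -, -, -, -, rfl⟩ := (mem_diag_VR hw).1 ha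
  exact dg_mem_diag V h

theorem yy_mem (V : ℕ → ℕ) {w : ℕ} (hw : w + 2 < N) : yy V N w ∈ diag V N :=
  dg_mem_diag V (by unfold isD; omega)

theorem xx_mem (V : ℕ → ℕ) {w : ℕ} (h1 : 1 ≤ w) (hw : w + 2 ≤ N) : xx V N w ∈ diag V N :=
  dg_mem_diag V (by unfold isD; omega)

theorem G_sub_Gw (G : Finset ℕ) (V : ℕ → ℕ) (N w : ℕ) : G ⊆ Gw G V N w := by
  unfold Gw
  split_ifs
  · exact subset_insert _ _
  · exact subset_refl _

theorem mem_Gw {w a : ℕ} : a ∈ Gw G V N w ↔ a ∈ G ∨ (w + 2 < N ∧ a = yy V N w) := by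
  unfold Gw
  split_ifs with h
  · simp [h, or_comm]
  · simp [h]

theorem Gw_lt {w : ℕ} (h : w + 2 < N) : Gw G V N w = insert (yy V N w) G := if_pos h

theorem Gw_top {w : ℕ} (h : N ≤ w + 2) : Gw G V N w = G := if_neg (by omega)

theorem WF.pass (h : WF G ((N, V) :: rest)) {w : ℕ} (hw : w + 2 ≤ N) :
    WF (Gw G V N w) ((w + 1, VL V N w) :: Rw V N w rest) := by
  have hc := h.head
  have h1 : WF G (Rw V N w rest) :=
    h.tail.cons (hc.vr hw) (h.indG.mono (subset_refl _) (VR_sub V hw))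
      (h.indR.mono (VR_sub V hw) (subset_refl _))
  have h2 : WF G ((w + 1, VL V N w) :: Rw V N w rest) := by
    refine h1.cons (hc.vl hw) (h.indG.mono (subset_refl _) (VL_sub V hw)) ?_
    intro a ha b hb
    rcases mem_union.1 hb with hb | hb
    · obtain ⟨i, j, d1, a1, a2, a3, a4, rfl⟩ := (mem_diag_VL hw).1 ha
      obtain ⟨k, l, d2, b1, b2, b3, b4, b5, b6, rfl⟩ := (mem_diag_VR hw).1 hb
      rw [Ne, hc.dg_eq d1.1 d1.2.1 d2.1 d2.2.1, hc.cr_iff d1.1 d1.2.1 d2.1 d2.2.1, crI_cyc]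
      unfold isD at d1 d2
      unfold cyc
      omega
    · exact h.indR a (VL_sub V hw ha) b hb
  unfold Gw
  split_ifs with h3
  · refine h2.addCone (fun a ha e => (h.indG a ha _ (yy_mem V h3)).2 (cr_symm _ _ e)) ?_
    intro a ha
    rcases mem_union.1 ha with ha | ha
    · obtain ⟨i, j, d1, a1, a2, a3, a4, rfl⟩ := (mem_diag_VL hw).1 ha
      unfold yy
      rw [Ne, hc.dg_eq (by omega) (by omega) d1.1 d1.2.1,
        hc.cr_iff (by omega) (by omega) d1.1 d1.2.1, crI_cyc]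
      unfold isD at d1
      unfold cyc
      omega
    · rcases mem_union.1 ha with ha | ha
      · obtain ⟨i, j, d1, b1, b2, b3, b4, b5, b6, rfl⟩ := (mem_diag_VR hw).1 ha
        unfold yy
        rw [Ne, hc.dg_eq (by omega) (by omega) d1.1 d1.2.1,
          hc.cr_iff (by omega) (by omega) d1.1 d1.2.1, crI_cyc]
        unfold isD at d1
        unfold cyc
        omega
      · exact h.indR _ (yy_mem V h3) a ha
  · exact h2

theorem mem_Cw_diag (h : WF G ((N, V) :: rest)) {w i j : ℕ} (hw : w + 2 ≤ N) (d : isD N i j) :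
    dg (V i) (V j) ∈ Cw G V N rest w ↔
      ((i ≤ w ∨ i = N) ∧ (j ≤ w ∨ j = N) ∧ ¬ (i = w ∧ j = N) ∧ ¬ (j = w ∧ i = N)) ∨
        (w ≤ i ∧ i < N ∧ w ≤ j ∧ j < N) := by
  have hc := h.head
  have hm := dg_mem_diag V d
  have n1 : dg (V i) (V j) ∉ G := fun e => (h.indG _ e _ hm).1 rfl
  have n2 : dg (V i) (V j) ∉ DR rest := fun e => (h.indR _ hm _ e).1 rfl
  simp only [Cw, Rw, DR, mem_union, mem_Gw, n1, n2, false_or, or_false, mem_diag_VL hw,
    mem_diag_VR hw, yy]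
  rw [hc.dg_eq d.1 d.2.1 (by omega) (by omega)]
  constructor
  · rintro ((h1 | ⟨k, l, d1, a1, a2, a3, a4, e⟩) | ⟨k, l, d1, b1, b2, b3, b4, b5, b6, e⟩)
    · omega
    · have := (hc.dg_eq d.1 d.2.1 d1.1 d1.2.1).1 e
      omega
    · have := (hc.dg_eq d.1 d.2.1 d1.1 d1.2.1).1 e
      omega
  · rintro (⟨a1, a2, a3, a4⟩ | ⟨b1, b2, b3, b4⟩)
    · exact Or.inl (Or.inr ⟨i, j, d, a1, a2, a3, a4, rfl⟩)
    · by_cases h5 : (i = w ∧ j + 1 = N) ∨ (j = w ∧ i + 1 = N)
      · refine Or.inl (Or.inl ?_)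
        unfold isD at d
        omega
      · exact Or.inr ⟨i, j, d, b1, b2, b3, b4, by omega, by omega, rfl⟩

theorem Cw_sub {w : ℕ} (hw : w + 2 ≤ N) : Cw G V N rest w ⊆ G ∪ diag V N ∪ DR rest := by
  intro a ha
  simp only [Cw, Rw, DR, mem_union, mem_Gw] at ha ⊢
  rcases ha with ((h | ⟨h1, rfl⟩) | h) | h | h
  · exact Or.inl (Or.inl h)
  · exact Or.inl (Or.inr (yy_mem V h1))
  · exact Or.inl (Or.inr (VL_sub V hw h))
  · exact Or.inl (Or.inr (VR_sub V hw h))
  · exact Or.inr h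

def Dle (G : Finset ℕ) (V : ℕ → ℕ) (N : ℕ) (rest : List Pl) (w : ℕ) : Finset ℕ :=
  (G ∪ diag V N ∪ DR rest) \ (Ico (w + 1) (N - 1)).image (xx V N)

theorem mem_Dle {w a : ℕ} : a ∈ Dle G V N rest w ↔
    a ∈ G ∪ diag V N ∪ DR rest ∧ ∀ u ∈ Ico (w + 1) (N - 1), a ≠ xx V N u := by
  simp only [Dle, mem_sdiff, mem_image, not_exists, not_and]
  exact and_congr_right (fun _ => forall₂_congr (fun u _ => ne_comm))

theorem Dle_sub {w : ℕ} : Dle G V N rest w ⊆ G ∪ diag V N ∪ DR rest := sdiff_subset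

theorem ext_ctx (h : WF G ((N, V) :: rest)) {A B : Finset ℕ} (hA : A ⊆ G ∪ diag V N ∪ DR rest)
    (hB : B ⊆ G ∪ diag V N ∪ DR rest) (h1 : ∀ a, a ∈ G ∨ a ∈ DR rest → a ∈ A ∧ a ∈ B)
    (h2 : ∀ i j, isD N i j → (dg (V i) (V j) ∈ A ↔ dg (V i) (V j) ∈ B)) : A = B := by
  have _ := h
  ext a
  by_cases h3 : a ∈ diag V N
  · obtain ⟨i, j, d, rfl⟩ := mem_diag.1 h3
    exact h2 i j d
  · constructor
    · intro ha
      have := hA ha
      simp only [mem_union, h3, or_false] at this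
      exact (h1 a this).2
    · intro ha
      have := hB ha
      simp only [mem_union, h3, or_false] at this
      exact (h1 a this).1

theorem ctx_ind (h : WF G ((N, V) :: rest)) {a b : ℕ} (ha : a ∈ G ∨ a ∈ DR rest)
    (hb : b ∈ diag V N) : a ≠ b ∧ ¬ cr b a := by
  rcases ha with ha | ha
  · exact ⟨(h.indG a ha b hb).1, fun e => (h.indG a ha b hb).2 (cr_symm _ _ e)⟩
  · exact ⟨(h.indR b hb a ha).1.symm, (h.indR b hb a ha).2⟩

theorem ctx_Dle (h : WF G ((N, V) :: rest)) (w : ℕ) {a : ℕ} (ha : a ∈ G ∨ a ∈ DR rest) :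
    a ∈ Dle G V N rest w := by
  refine mem_Dle.2 ⟨by simp only [mem_union]; tauto, fun u hu => ?_⟩
  rw [mem_Ico] at hu
  exact (ctx_ind h ha (xx_mem V (by omega) (by omega))).1

theorem ctx_Cw (w : ℕ) {a : ℕ} (ha : a ∈ G ∨ a ∈ DR rest) : a ∈ Cw G V N rest w := by
  simp only [Cw, Rw, DR, mem_union, mem_Gw]
  tauto

theorem mem_Dle_diag (h : WF G ((N, V) :: rest)) {w i j : ℕ} (d : isD N i j) :
    dg (V i) (V j) ∈ Dle G V N rest w ↔ ¬ (w < i ∧ j = N) ∧ ¬ (w < j ∧ i = N) := by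
  have hc := h.head
  simp only [mem_Dle, mem_union, dg_mem_diag V d, or_true, true_or, true_and, mem_Ico, xx]
  constructor
  · intro k
    constructor
    · rintro ⟨h1, rfl⟩
      exact k i ⟨h1, by unfold isD at d; omega⟩ rfl
    · rintro ⟨h1, rfl⟩
      exact k j ⟨h1, by unfold isD at d; omega⟩ (dg_comm _ _)
  · intro k u hu e
    have := (hc.dg_eq d.1 d.2.1 (by omega) le_rfl).1 e
    omega

theorem Dle_zero (h : WF G ((N, V) :: rest)) (hN : 2 ≤ N) :
    Dle G V N rest 0 = Cw G V N rest 0 := by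
  refine ext_ctx h Dle_sub (Cw_sub hN) (fun a ha => ⟨ctx_Dle h 0 ha, ctx_Cw 0 ha⟩) ?_
  intro i j d
  rw [mem_Dle_diag h d, mem_Cw_diag h hN d]
  unfold isD at d
  omega

theorem Dle_erase (h : WF G ((N, V) :: rest)) {w : ℕ} (hw : w + 3 ≤ N) :
    (Dle G V N rest (w + 1)).erase (xx V N (w + 1)) = Dle G V N rest w := by
  refine ext_ctx h ((erase_subset _ _).trans Dle_sub) Dle_sub
    (fun a ha => ⟨mem_erase.2 ⟨(ctx_ind h ha (xx_mem V (by omega) (by omega))).1,
      ctx_Dle h _ ha⟩, ctx_Dle h _ ha⟩) ?_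
  intro i j d
  rw [mem_erase, mem_Dle_diag h d, mem_Dle_diag h d, xx, Ne,
    h.head.dg_eq d.1 d.2.1 (by omega) le_rfl]
  unfold isD at d
  omega

theorem Dle_lk (h : WF G ((N, V) :: rest)) {w : ℕ} (h1 : 1 ≤ w) (hw : w + 2 ≤ N) :
    lk cr (Dle G V N rest w) (xx V N w) = Cw G V N rest w := by
  refine ext_ctx h ((filter_subset _ _).trans Dle_sub) (Cw_sub hw)
    (fun a ha => ⟨mem_filter.2 ⟨ctx_Dle h _ ha, ctx_ind h ha (xx_mem V h1 hw)⟩,
      ctx_Cw w ha⟩) ?_
  intro i j d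
  rw [lk, mem_filter, mem_Dle_diag h d, mem_Cw_diag h hw d, xx, Ne,
    h.head.dg_eq d.1 d.2.1 (by omega) le_rfl, h.head.cr_iff (by omega) le_rfl d.1 d.2.1, crI_cyc]
  unfold isD at d
  unfold cyc
  omega

theorem F1_Dle (h : WF G ((N, V) :: rest)) : ∀ w, w + 2 ≤ N →
    F1 cr (Dle G V N rest w) = PS G V N rest w
  | 0, hw => by rw [Dle_zero h hw, PS]
  | w + 1, hw => by
    have hx : xx V N (w + 1) ∈ Dle G V N rest (w + 1) := by
      rw [xx, mem_Dle_diag h (by unfold isD; omega)]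
      omega
    rw [F1_decomp cr_symm cr_irrefl hx, Dle_erase h hw, Dle_lk h (by omega) hw,
      F1_Dle h w (by omega), PS]

theorem F1_passes (h : WF G ((N, V) :: rest)) (hN : 2 ≤ N) :
    F1 cr (G ∪ diag V N ∪ DR rest) = PS G V N rest (N - 2) := by
  rw [← F1_Dle h (N - 2) (by omega), Dle, Ico_eq_empty (by omega), image_empty, sdiff_empty]

/-- complex of a pass with trivial left polygon -/
theorem Cw_low {w : ℕ} (hw : w ≤ 1) : Cw G V N rest w = Gw G V N w ∪ DR (Rw V N w rest) := by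
  rw [Cw, diag_small _ (by omega), union_empty]

end Pool.Agent.MP_086a35_co

end

-- part MP_086a35_co.Chain
section

set_option autoImplicit false

namespace Pool.Agent.MP_086a35_co

open Finset

def Ear (rest : List Pl) (c : ℕ) : Prop :=
  ∃ p ∈ rest, 3 ≤ p.1 ∧ (c = dg (p.2 0) (p.2 2) ∨ c = dg (p.2 0) (p.2 (p.1 - 1)))

def LA (G : Finset ℕ) (V : ℕ → ℕ) (N : ℕ) (rest : List Pl) (c : ℕ) : Prop :=
  c ∈ G ∨ (c = yy V N 0 ∧ 2 ≤ N - 2 + kR rest ∧ ¬ (G.card = 1 ∧ N - 2 + kR rest = 3))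

def LB (G : Finset ℕ) (V : ℕ → ℕ) (N : ℕ) (rest : List Pl) (z c : ℕ) : Prop :=
  c ∈ G ∨ (G = ∅ ∧ ((4 ≤ N ∧ c = dg (V (N - 2)) (V 0)) ∨ (N = 3 ∧ Ear rest c ∧ c = z)))

def hH (G : Finset ℕ) (N : ℕ) (rest : List Pl) : Prop := N = 3 ∧ kR rest = 0 ∧ 4 ≤ G.card

def St (G : Finset ℕ) (V : ℕ → ℕ) (N : ℕ) (rest : List Pl) (a b : Bool) : Prop :=
  ∀ z, AA (F1 cr (G ∪ diag V N ∪ DR rest)) (G ∪ fanL V (N - 1) a ∪ TR rest) (LA G V N rest)
    (insert (xx V N (N - 2)) (G ∪ fanL V (N - 2) b ∪ TR rest)) (xx V N (N - 2))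
    (LB G V N rest z) (hH G N rest)

def Val (N k : ℕ) (a b : Bool) : Prop :=
  3 ≤ N ∧ (N = 3 ∨ ((k ≠ 0 → a = true ∧ (N = 4 ∨ b = true)) ∧
    (k = 0 → (N = 4 → a = false) ∧ (N = 5 → (a = true ∨ b = false)))))

def IH (n : ℕ) : Prop :=
  ∀ (G : Finset ℕ) (V : ℕ → ℕ) (N : ℕ) (rest : List Pl) (a b : Bool),
    WF G ((N, V) :: rest) → Val N (kR rest) a b → 4 ≤ G.card + (N - 2) + kR rest →
    G.card + 2 * (N - 2 + kR rest) < n → St G V N rest a b

def TT (G : Finset ℕ) (V : ℕ → ℕ) (N : ℕ) (rest : List Pl) (w : ℕ) (b : Bool) : Finset ℕ :=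
  G ∪ (fanL V w b ∪ YY V N w) ∪ TR rest

def UU (G : Finset ℕ) (V : ℕ → ℕ) (N : ℕ) (rest : List Pl) (w : ℕ) (b : Bool) : Finset ℕ :=
  G ∪ (fanL V w b ∪ YY V N (w + 1)) ∪ TR rest

variable {G : Finset ℕ} {V : ℕ → ℕ} {N n : ℕ} {rest : List Pl}

theorem kR_Rw (w : ℕ) : kR (Rw V N w rest) = N - 3 - w + kR rest := by
  rw [Rw, kR_cons]
  simp only
  omega

theorem TR_Rw (w : ℕ) : TR (Rw V N w rest) = YY V N (w + 1) ∪ TR rest := by
  rw [Rw, TR, fan0_VR]

theorem nf (A : Finset ℕ) {w : ℕ} (hw : w + 2 ≤ N) :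
    Gw G V N w ∪ A ∪ TR (Rw V N w rest) = G ∪ (A ∪ YY V N w) ∪ TR rest := by
  rw [TR_Rw]
  by_cases h : w + 2 < N
  · rw [Gw_lt h, YY_succ V h]
    ext; simp only [mem_union, mem_insert]; tauto
  · rw [Gw_top (by omega), YY_top V (w := w) (by omega), YY_top V (w := w + 1) (by omega)]
    ext; simp only [mem_union, notMem_empty]; tauto

theorem WF.yy_notMem (h : WF G ((N, V) :: rest)) {w : ℕ} (hw : w + 2 < N) : yy V N w ∉ G :=
  fun e => (h.indG _ e _ (yy_mem V hw)).1 rfl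

theorem WF.card_Gw (h : WF G ((N, V) :: rest)) (w : ℕ) :
    (Gw G V N w).card = G.card + (if w + 2 < N then 1 else 0) := by
  split_ifs with h1
  · rw [Gw_lt h1, card_insert_of_notMem (h.yy_notMem h1)]
  · rw [Gw_top (by omega), add_zero]

theorem TT_eq {w : ℕ} (hw : w + 2 < N) (b : Bool) :
    TT G V N rest w b = insert (yy V N w) (UU G V N rest w b) := by
  rw [TT, UU, YY_succ V hw]
  ext; simp only [mem_union, mem_insert]; tauto

theorem WF.yy_UU (h : WF G ((N, V) :: rest)) {w : ℕ} (hw : w + 2 < N) (b : Bool) :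
    yy V N w ∉ UU G V N rest w b := by
  refine h.notMem_ctx (yy_mem V hw) ?_
  rw [mem_union, yy, h.head.mem_fanL (by omega) b (by omega) (by omega),
    h.head.mem_YY (by omega) (by omega)]
  split_ifs <;> omega

theorem WF.xx_UU (h : WF G ((N, V) :: rest)) {w : ℕ} (h1 : 1 ≤ w) (hw : w + 2 < N) (b : Bool) :
    xx V N w ∉ UU G V N rest w b := by
  refine h.notMem_ctx (xx_mem V h1 hw.le) ?_
  rw [mem_union, xx, h.head.mem_fanL (by omega) b (by omega) (by omega),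
    h.head.mem_YY (by omega) (by omega)]
  split_ifs <;> omega

theorem WF.card_UU (h : WF G ((N, V) :: rest)) {w : ℕ} (h1 : 1 ≤ w) (hw : w + 2 < N) (b : Bool) :
    (UU G V N rest w b).card = G.card + (N - 4) + kR rest := by
  have hp := h.pass (w := w + 1) hw
  have := hp.card_ctx (A := fanL (VL V N (w + 1)) w b) (fanL_sub _ (by omega) b)
  rw [hp.head.card_fanL (by omega), fanL_VL V N (by omega), nf _ hw, h.card_Gw, kR_Rw] at this
  rw [UU, this]
  split_ifs <;> omega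

theorem xx_VL (w : ℕ) : xx (VL V N (w + 1)) (w + 2) w = xx V N w := by
  simp [xx, VL, lam]

theorem callB (ih : IH n) (h : WF G ((N, V) :: rest)) (hd : 5 ≤ G.card + (N - 2) + kR rest)
    (hn : G.card + 2 * (N - 2 + kR rest) ≤ n) {w : ℕ} (h1 : 1 ≤ w) (hw : w + 2 < N) {a b : Bool}
    (hv : Val (w + 2) (N - 4 - w + kR rest) a b) (z : ℕ) :
    AA (F1 cr (Cw G V N rest (w + 1))) (TT G V N rest (w + 1) a)
      (LA (Gw G V N (w + 1)) (VL V N (w + 1)) (w + 2) (Rw V N (w + 1) rest))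
      (insert (xx V N w) (UU G V N rest w b)) (xx V N w)
      (LB (Gw G V N (w + 1)) (VL V N (w + 1)) (w + 2) (Rw V N (w + 1) rest) z)
      (hH (Gw G V N (w + 1)) (w + 2) (Rw V N (w + 1) rest)) := by
  have hp := h.pass (w := w + 1) hw
  have hk : kR (Rw V N (w + 1) rest) = N - 4 - w + kR rest := by rw [kR_Rw]; omega
  have hc := h.card_Gw (w + 1)
  have := ih _ _ _ _ a b hp (hk ▸ hv) (by rw [hk, hc]; split_ifs <;> omega)
    (by rw [hk, hc]; split_ifs <;> omega) z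
  simp only [Nat.add_sub_cancel, show w + 1 + 1 - 2 = w from rfl] at this
  rw [fanL_VL V N le_rfl, fanL_VL V N (by omega), nf _ hw, nf _ hw, xx_VL] at this
  exact this

theorem chain_mid (ih : IH n) (h : WF G ((N, V) :: rest)) (hd : 5 ≤ G.card + (N - 2) + kR rest)
    (hn : G.card + 2 * (N - 2 + kR rest) ≤ n) {w : ℕ} (h1 : 1 ≤ w) (hw : w + 3 < N) {a b : Bool}
    (hv : Val (w + 2) (N - 4 - w + kR rest) a b) {S : Multiset (Finset ℕ)} {P : List ℕ → Prop}
    (k : Ch S P (xx V N w) (RP (TT G V N rest w b) [] (· = yy V N w))) :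
    Ch (S + lift (xx V N (w + 1)) (F1 cr (Cw G V N rest (w + 1)))) P (xx V N (w + 1))
      (RP (TT G V N rest (w + 1) a) [] (· = yy V N (w + 1))) := by
  have hy : yy V N (w + 1) ∈ Gw G V N (w + 1) := mem_Gw.2 (Or.inr ⟨hw, rfl⟩)
  refine JBB _ k (callB ih h hd hn h1 (by omega) hv 0) (TT_eq (by omega) b) rfl
    (h.yy_UU (by omega) b) (h.xx_UU h1 (by omega) b) (by rw [h.card_UU h1 (by omega)]; omega)
    (by rintro z rfl; exact Or.inl hy) ?_
  rintro z rfl
  refine ⟨_, ?_, Or.inl hy, fun _ => rfl⟩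
  rw [UU, YY_succ V hw]
  simp

theorem Ear.mem_TR {c : ℕ} (h : Ear rest c) : c ∈ TR rest := by
  obtain ⟨p, hp, h3, h⟩ := h
  refine MP_086a35_co.mem_TR.2 ⟨p, hp, mem_fanAt.2 ?_⟩
  rcases h with rfl | rfl
  · exact ⟨2, by rw [mem_Ico]; omega, rfl⟩
  · exact ⟨p.1 - 1, by rw [mem_Ico]; omega, rfl⟩

theorem ex_Ear (h : kR rest ≠ 0) : ∃ c, Ear rest c := by
  obtain ⟨p, hp, h3⟩ := ex_nontriv h
  exact ⟨_, p, hp, h3, Or.inl rfl⟩

theorem Ear.cons {c : ℕ} (h : Ear rest c) (p : Pl) : Ear (p :: rest) c := by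
  obtain ⟨q, hq, h⟩ := h
  exact ⟨q, List.mem_cons_of_mem _ hq, h⟩

theorem WF.e_notMem (h : WF G ((N, V) :: rest)) (hN : 3 ≤ N) (b : Bool) :
    xx V N (N - 2) ∉ G ∪ fanL V (N - 2) b ∪ TR rest := by
  refine h.notMem_ctx (xx_mem V (by omega) (by omega)) ?_
  rw [xx, h.head.mem_fanL (by omega) b (by omega) (by omega)]
  split_ifs <;> omega

theorem chain_top (ih : IH n) (h : WF G ((N, V) :: rest)) (hd : 5 ≤ G.card + (N - 2) + kR rest)
    (hn : G.card + 2 * (N - 2 + kR rest) ≤ n) {w : ℕ} (h1 : 1 ≤ w) (hw : w + 3 = N) {a b : Bool}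
    (hv : Val (w + 2) (kR rest) a b) {S : Multiset (Finset ℕ)} {P : List ℕ → Prop}
    (k : Ch S P (xx V N w) (RP (TT G V N rest w b) [] (· = yy V N w))) (z0 : ℕ) :
    Ch (S + lift (xx V N (w + 1)) (F1 cr (Cw G V N rest (w + 1)))) P (xx V N (w + 1))
      (RP (G ∪ fanL V (w + 1) a ∪ TR rest) [] (LB G V N rest z0)) := by
  obtain ⟨c, hc⟩ : ∃ c, kR rest ≠ 0 → Ear rest c := by
    by_cases h0 : kR rest = 0
    · exact ⟨0, fun h => absurd h0 h⟩
    · obtain ⟨c, hc⟩ := ex_Ear h0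
      exact ⟨c, fun _ => hc⟩
  have hG : Gw G V N (w + 1) = G := Gw_top (by omega)
  have hT : TT G V N rest (w + 1) a = G ∪ fanL V (w + 1) a ∪ TR rest := by
    rw [TT, YY_top V (by omega), union_empty]
  have hk : kR (Rw V N (w + 1) rest) = kR rest := by rw [kR_Rw]; omega
  have call := callB ih h hd hn h1 (by omega) (a := a) (b := b)
    (by rw [show N - 4 - w + kR rest = kR rest by omega]; exact hv) c
  rw [hG, hT] at call
  refine JBB _ k call (TT_eq (by omega) b) rfl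
    (h.yy_UU (by omega) b) (h.xx_UU h1 (by omega) b) (by rw [h.card_UU h1 (by omega)]; omega)
    ?_ ?_
  · rintro z (hz | ⟨h0, ⟨-, rfl⟩ | ⟨h3, -⟩⟩)
    · exact Or.inl hz
    · refine Or.inr ⟨?_, ?_, ?_⟩
      · subst hw
        simp [yy, VL, lam]
      · rw [hk]; rw [h0, card_empty] at hd; omega
      · rw [h0, card_empty]; omega
    · omega
  · rintro z (hz | ⟨h0, -⟩)
    · exact ⟨z, by simp [UU, hz], Or.inl hz, fun _ => rfl⟩
    · have hh : ¬ hH G (w + 2) (Rw V N (w + 1) rest) := by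
        rintro ⟨-, -, h4⟩
        rw [h0, card_empty] at h4; omega
      rw [h0, card_empty] at hd
      by_cases h2 : 2 ≤ w
      · refine ⟨dg (V w) (V 0), ?_, Or.inr ⟨h0, Or.inl ⟨by omega, ?_⟩⟩, fun k => absurd k hh⟩
        · rw [UU, mem_union, mem_union, mem_union,
            h.head.mem_fanL (by omega) b (by omega) (by omega)]
          refine Or.inl (Or.inr (Or.inl ?_))
          split_ifs <;> omega
        · simp [VL, lam]
      · have hc := hc (by omega)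
        exact ⟨c, by simp [UU, hc.mem_TR], Or.inr ⟨h0, Or.inr ⟨by omega, hc.cons _, rfl⟩⟩,
          fun k => absurd k hh⟩

theorem chain_up (ih : IH n) (h : WF G ((N, V) :: rest)) (hd : 5 ≤ G.card + (N - 2) + kR rest)
    (hn : G.card + 2 * (N - 2 + kR rest) ≤ n) {w : ℕ} (h1 : 1 ≤ w) {β : Bool}
    (hv : ∀ u, w ≤ u → u + 3 < N → Val (u + 2) (N - 4 - u + kR rest) β β) {P : List ℕ → Prop}
    (k : Ch (PS G V N rest w) P (xx V N w) (RP (TT G V N rest w β) [] (· = yy V N w))) :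
    ∀ j, w + j + 2 < N → Ch (PS G V N rest (w + j)) P (xx V N (w + j))
      (RP (TT G V N rest (w + j) β) [] (· = yy V N (w + j)))
  | 0, _ => k
  | j + 1, hj => chain_mid ih h hd hn (w := w + j) (by omega) (by omega)
      (hv _ (by omega) (by omega)) (chain_up ih h hd hn h1 hv k j (by omega))

theorem finish (h : WF G ((N, V) :: rest)) (hN : 3 ≤ N) {a b : Bool}
    (k : ∀ z, Ch (PS G V N rest (N - 2)) (RP (G ∪ fanL V (N - 1) a ∪ TR rest) [] (LA G V N rest))
      (xx V N (N - 2)) (RP (G ∪ fanL V (N - 2) b ∪ TR rest) [] (LB G V N rest z))) :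
    St G V N rest a b := by
  intro z
  rw [F1_passes h (by omega)]
  exact (k z).fin _ rfl (h.e_notMem hN b)

theorem chain_all (ih : IH n) (h : WF G ((N, V) :: rest)) (hd : 5 ≤ G.card + (N - 2) + kR rest)
    (hn : G.card + 2 * (N - 2 + kR rest) ≤ n) {w : ℕ} (h1 : 1 ≤ w) (hw : w + 2 < N) {a b β : Bool}
    (hv : ∀ u, w ≤ u → u + 3 < N → Val (u + 2) (N - 4 - u + kR rest) β β)
    (hv' : Val (N - 1) (kR rest) b β)
    (k : Ch (PS G V N rest w) (RP (G ∪ fanL V (N - 1) a ∪ TR rest) [] (LA G V N rest))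
      (xx V N w) (RP (TT G V N rest w β) [] (· = yy V N w))) : St G V N rest a b := by
  obtain ⟨j, hj⟩ : ∃ j, w + j + 3 = N := ⟨N - 3 - w, by omega⟩
  have k1 := chain_up ih h hd hn h1 hv k j (by omega)
  have k2 := chain_top ih h hd hn (w := w + j) (by omega) hj (a := b)
    (by rw [show w + j + 2 = N - 1 by omega]; exact hv') k1
  refine finish h (by omega) (fun z => ?_)
  rw [show N - 2 = w + j + 1 by omega]
  exact k2 z

end Pool.Agent.MP_086a35_co

end

-- part MP_086a35_co.BaseChk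
section

set_option autoImplicit false

namespace Pool.Agent.MP_086a35_co

open Finset

/-- the face coded by the bits of `c`, transported by `f` -/
def decf (f : ℕ → ℕ) (c : ℕ) : Finset ℕ := ((range c).filter (fun i => c.testBit i)).image f

theorem mem_decf {f : ℕ → ℕ} {c a : ℕ} : a ∈ decf f c ↔ ∃ i, c.testBit i = true ∧ f i = a := by
  simp only [decf, mem_image, mem_filter, mem_range]
  constructor
  · rintro ⟨i, ⟨-, h⟩, rfl⟩
    exact ⟨i, h, rfl⟩
  · rintro ⟨i, h, rfl⟩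
    exact ⟨i, ⟨lt_of_lt_of_le Nat.lt_two_pow_self (Nat.ge_two_pow_of_testBit h), h⟩, rfl⟩

theorem decf_pow (f : ℕ → ℕ) (x : ℕ) : decf f (2 ^ x) = {f x} := by
  ext a
  simp only [mem_decf, Nat.testBit_two_pow, decide_eq_true_eq, mem_singleton]
  constructor
  · rintro ⟨i, rfl, rfl⟩
    rfl
  · rintro rfl
    exact ⟨x, rfl, rfl⟩

theorem decf_or (f : ℕ → ℕ) (x c : ℕ) : decf f (2 ^ x ||| c) = insert (f x) (decf f c) := by
  ext a
  simp only [mem_decf, Nat.testBit_or, Nat.testBit_two_pow, Bool.or_eq_true, decide_eq_true_eq,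
    mem_insert]
  constructor
  · rintro ⟨i, rfl | h, rfl⟩
    · exact Or.inl rfl
    · exact Or.inr ⟨i, h, rfl⟩
  · rintro (rfl | ⟨i, h, rfl⟩)
    · exact ⟨x, Or.inl rfl, rfl⟩
    · exact ⟨i, Or.inr h, rfl⟩

def Gd (m : ℕ) (cs : List ℕ) : Prop := cs.Nodup ∧ ∀ x, x ∈ cs ↔ m.testBit x = true

theorem Gd.nil : Gd 0 [] := ⟨List.nodup_nil, fun x => by simp⟩

theorem Gd.cons {m c : ℕ} {cs : List ℕ} (h : m.testBit c = true) (k : Gd (m ^^^ 2 ^ c) cs) :
    Gd m (c :: cs) := by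
  constructor
  · refine List.nodup_cons.2 ⟨fun e => ?_, k.1⟩
    have := (k.2 c).1 e
    simp [Nat.testBit_xor, h] at this
  · intro x
    rw [List.mem_cons, k.2, Nat.testBit_xor, Nat.testBit_two_pow]
    by_cases e : c = x
    · subst e
      simp [h]
    · simp [e, Ne.symm e]

theorem Gd.perm {m : ℕ} {l l' : List ℕ} (h : Gd m l) (h' : Gd m l') : l.Perm l' :=
  (List.perm_ext_iff_of_nodup h.1 h'.1).2 fun x => (h.2 x).trans (h'.2 x).symm

def remL : ℕ → List ℕ → Bool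
  | m, [] => m == 0
  | m, c :: cs => m.testBit c && remL (m ^^^ 2 ^ c) cs

theorem remL_sound : ∀ (cs : List ℕ) (m : ℕ), remL m cs = true → Gd m cs
  | [], m, h => by
    have : m = 0 := by simpa [remL] using h
    subst this
    exact Gd.nil
  | c :: cs, m, h => by
    simp only [remL, Bool.and_eq_true] at h
    exact Gd.cons h.1 (remL_sound cs _ h.2)

def run (t : List ℕ) : ℕ → ℕ → ℕ → ℕ → ℕ → ℕ → ℕ → Bool
  | 0, _, a, b, c, d, m => ([a, b, c, d] == t) && m == 0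
  | k + 1, mv, a, b, c, d, m =>
    bif mv % 32 == 0 then
      m.testBit (2 ^ b) && run t k (mv / 32) b a c d (m ^^^ 2 ^ (2 ^ b))
    else bif mv % 32 == 1 then
      m.testBit (2 ^ a ||| 2 ^ c) && run t k (mv / 32) a c b d (m ^^^ 2 ^ (2 ^ a ||| 2 ^ c))
    else bif mv % 32 == 2 then
      m.testBit (2 ^ a ||| (2 ^ b ||| 2 ^ d)) &&
        run t k (mv / 32) a b d c (m ^^^ 2 ^ (2 ^ a ||| (2 ^ b ||| 2 ^ d)))
    else
      m.testBit (2 ^ a ||| (2 ^ b ||| (2 ^ c ||| 2 ^ (mv % 32 - 3)))) &&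
        run t k (mv / 32) a b c (mv % 32 - 3)
          (m ^^^ 2 ^ (2 ^ a ||| (2 ^ b ||| (2 ^ c ||| 2 ^ (mv % 32 - 3)))))

theorem run_step (f : ℕ → ℕ) {l l' t : List ℕ} {m c : ℕ} (hm : m.testBit c = true)
    (hv : Mv true l l' (decf f c))
    (h : ∃ cs : List ℕ, Wk true l' t ((cs.map (decf f) : List _) : Multiset _) ∧
      Gd (m ^^^ 2 ^ c) cs) :
    ∃ cs : List ℕ, Wk true l t ((cs.map (decf f) : List _) : Multiset _) ∧ Gd m cs := by
  obtain ⟨cs, h1, h2⟩ := h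
  exact ⟨c :: cs, Wk.step hv h1, Gd.cons hm h2⟩

theorem run_sound (f : ℕ → ℕ) (t : List ℕ) : ∀ (k mv a b c d m : ℕ), run t k mv a b c d m = true →
    ∃ cs : List ℕ, Wk true [f a, f b, f c, f d] (t.map f) ((cs.map (decf f) : List _) : Multiset _) ∧
      Gd m cs
  | 0, _, a, b, c, d, m, h => by
    simp only [run, Bool.and_eq_true, beq_iff_eq] at h
    obtain ⟨rfl, rfl⟩ := h
    exact ⟨[], Wk.nil _, Gd.nil⟩
  | k + 1, mv, a, b, c, d, m, h => by
    rw [run] at h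
    cases h0 : (mv % 32 == 0)
    · cases h1 : (mv % 32 == 1)
      · cases h2 : (mv % 32 == 2)
        · simp only [h0, h1, h2, cond_false, Bool.and_eq_true] at h
          refine run_step f h.1 ?_ (run_sound f t _ _ _ _ _ _ _ h.2)
          rw [decf_or, decf_or, decf_or, decf_pow]
          exact ((( Mv.flip _ _ rfl).cons _).cons _).cons _
        · simp only [h0, h1, h2, cond_false, cond_true, Bool.and_eq_true] at h
          refine run_step f h.1 ?_ (run_sound f t _ _ _ _ _ _ _ h.2)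
          rw [decf_or, decf_or, decf_pow]
          exact ((Mv.swap _ _ _).cons _).cons _
      · simp only [h0, h1, cond_false, cond_true, Bool.and_eq_true] at h
        refine run_step f h.1 ?_ (run_sound f t _ _ _ _ _ _ _ h.2)
        rw [decf_or, decf_pow]
        exact (Mv.swap _ _ _).cons _
    · simp only [h0, cond_true, Bool.and_eq_true] at h
      refine run_step f h.1 ?_ (run_sound f t _ _ _ _ _ _ _ h.2)
      rw [decf_pow]
      exact Mv.swap _ _ _

def sweep (m k mv : ℕ) (t : List ℕ) : List ℕ → Bool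
  | [a, b, c, d] =>
    m.testBit (2 ^ a) && ((m ^^^ 2 ^ (2 ^ a)).testBit (2 ^ a ||| 2 ^ b) &&
      (((m ^^^ 2 ^ (2 ^ a)) ^^^ 2 ^ (2 ^ a ||| 2 ^ b)).testBit (2 ^ a ||| (2 ^ b ||| 2 ^ c)) &&
      ((((m ^^^ 2 ^ (2 ^ a)) ^^^ 2 ^ (2 ^ a ||| 2 ^ b)) ^^^
        2 ^ (2 ^ a ||| (2 ^ b ||| 2 ^ c))).testBit (2 ^ a ||| (2 ^ b ||| (2 ^ c ||| 2 ^ d))) &&
      run t k mv a b c d ((((m ^^^ 2 ^ (2 ^ a)) ^^^ 2 ^ (2 ^ a ||| 2 ^ b)) ^^^
        2 ^ (2 ^ a ||| (2 ^ b ||| 2 ^ c))) ^^^ 2 ^ (2 ^ a ||| (2 ^ b ||| (2 ^ c ||| 2 ^ d)))))))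
  | _ => false

theorem sweep_sound (f : ℕ → ℕ) {m k mv : ℕ} {t s fs : List ℕ} (hf : Gd m fs)
    (h : sweep m k mv t s = true) :
    Seg true ((fs.map (decf f) : List _) : Multiset _) (s.map f) (t.map f) := by
  match s, h with
  | [a, b, c, d], h =>
    simp only [sweep, Bool.and_eq_true] at h
    obtain ⟨h1, h2, h3, h4, h5⟩ := h
    obtain ⟨cs, w, g⟩ := run_sound f t _ _ _ _ _ _ _ h5
    have g' := Gd.cons h1 (Gd.cons h2 (Gd.cons h3 (Gd.cons h4 g)))
    refine ⟨_, w, ?_⟩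
    rw [← Multiset.coe_eq_coe.2 ((g'.perm hf).map (decf f))]
    simp only [List.map_cons, List.map_nil, decf_or, decf_pow, pre, Multiset.map_cons,
      Multiset.map_zero, ← Multiset.cons_coe, Multiset.cons_add, zero_add]

def facesC (X : ℕ → ℕ → Bool) : ℕ → List ℕ → List ℕ
  | 0, _ => []
  | _ + 1, [] => []
  | k + 1, x :: D =>
    facesC X k D ++ (2 ^ x :: (facesC X k (D.filter (fun y => !X x y))).map (fun c => 2 ^ x ||| c))

theorem F1_empty : F1 cr ∅ = 0 := by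
  rw [Multiset.eq_zero_iff_forall_notMem]
  intro F hF
  obtain ⟨h1, h2, -⟩ := mem_F1.1 hF
  exact h1 (subset_empty.1 h2)

theorem facesC_sound (f : ℕ → ℕ) (X : ℕ → ℕ → Bool) : ∀ (k : ℕ) (D : List ℕ), D.length ≤ k →
    (D.map f).Nodup → (∀ i ∈ D, ∀ j ∈ D, cr (f i) (f j) ↔ X i j = true) →
    (((facesC X k D).map (decf f) : List _) : Multiset _) = F1 cr (D.map f).toFinset
  | 0, D, h, _, _ => by
    have : D = [] := List.length_eq_zero_iff.1 (by omega)
    subst this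
    simp [facesC, F1_empty]
  | k + 1, [], _, _, _ => by simp [facesC, F1_empty]
  | k + 1, x :: D, h, hn, hc => by
    rw [List.map_cons, List.nodup_cons] at hn
    have hl : D.length ≤ k := by simpa using h
    have i1 := facesC_sound f X k D hl hn.2
      (fun i hi j hj => hc i (List.mem_cons_of_mem _ hi) j (List.mem_cons_of_mem _ hj))
    have i2 := facesC_sound f X k (D.filter (fun y => !X x y))
      ((List.length_filter_le _ _).trans hl) (hn.2.sublist (List.filter_sublist.map f))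
      (fun i hi j hj => hc i (List.mem_cons_of_mem _ (List.mem_of_mem_filter hi)) j
        (List.mem_cons_of_mem _ (List.mem_of_mem_filter hj)))
    have e1 : (List.map f (x :: D)).toFinset.erase (f x) = (D.map f).toFinset := by
      rw [List.map_cons, List.toFinset_cons,
        erase_insert (fun e => hn.1 (List.mem_toFinset.1 e))]
    have e2 : lk cr (List.map f (x :: D)).toFinset (f x)
        = ((D.filter (fun y => !X x y)).map f).toFinset := by
      ext a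
      simp only [lk, mem_filter, List.mem_toFinset, List.mem_map, List.mem_cons, List.mem_filter]
      constructor
      · rintro ⟨⟨i, rfl | hi, rfl⟩, h1, h2⟩
        · exact absurd rfl h1
        · refine ⟨i, ⟨hi, ?_⟩, rfl⟩
          rw [hc x List.mem_cons_self i (List.mem_cons_of_mem _ hi)] at h2
          simpa using h2
      · rintro ⟨i, ⟨hi, h1⟩, rfl⟩
        refine ⟨⟨i, Or.inr hi, rfl⟩, fun e => hn.1 (e ▸ List.mem_map_of_mem hi), ?_⟩
        rw [hc x List.mem_cons_self i (List.mem_cons_of_mem _ hi)]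
        simpa using h1
    rw [F1_decomp cr_symm cr_irrefl (x := f x) (by simp), e1, e2, ← i1, ← i2, facesC,
      List.map_append, ← Multiset.coe_add]
    congr 1
    simp only [lift, List.map_cons, decf_pow, ← Multiset.cons_coe, Multiset.map_coe, List.map_map,
      Function.comp_def, decf_or]

def inv : List ℕ → ℕ
  | [] => 0
  | a :: l => l.countP (· < a) + inv l

theorem sg_inv : ∀ l : List ℕ, sg l = (inv l : ZMod 2)
  | [] => by simp [sg, inv]
  | a :: l => by simp [sg, inv, sg_inv l]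

def ends (T p L : List ℕ) : List (List ℕ) :=
  T.permutations'.filter (fun a => (a.take p.length == p) && L.contains (a.getLastD 0))

def prs (T0 p LA T q LB : List ℕ) (c : ℕ) : List (List ℕ × List ℕ) :=
  (ends T0 p LA).flatMap (fun a =>
    ((ends T q LB).filter (fun b => (inv a + inv b) % 2 == c)).map (fun b => (a, b)))

def chkAll (m k : ℕ) : List (List ℕ × List ℕ) → List ℕ → Bool
  | [], _ => true
  | _ :: _, [] => false
  | x :: P, mv :: tb => sweep m k mv x.2 x.1 && chkAll m k P tb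

theorem chkAll_sound {m k : ℕ} : ∀ (P : List (List ℕ × List ℕ)) (tb : List ℕ),
    chkAll m k P tb = true → ∀ x ∈ P, ∃ mv, sweep m k mv x.2 x.1 = true
  | [], _, _ => by simp
  | _ :: _, [], h => by simp [chkAll] at h
  | x :: P, mv :: tb, h => by
    simp only [chkAll, Bool.and_eq_true] at h
    intro y hy
    rcases List.mem_cons.1 hy with rfl | hy
    · exact ⟨mv, h.1⟩
    · exact chkAll_sound P tb h.2 y hy

theorem map_inj_on {f : ℕ → ℕ} {n : ℕ} (hf : ∀ i < n, ∀ j < n, f i = f j → i = j) :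
    ∀ (l l' : List ℕ), (∀ x ∈ l, x < n) → (∀ x ∈ l', x < n) → l.map f = l'.map f → l = l'
  | [], [], _, _, _ => rfl
  | [], _ :: _, _, _, h => by simp at h
  | _ :: _, [], _, _, h => by simp at h
  | a :: l, b :: l', h1, h2, h => by
    simp only [List.map_cons, List.cons.injEq] at h
    rw [hf a (h1 a List.mem_cons_self) b (h2 b List.mem_cons_self) h.1,
      map_inj_on hf l l' (fun x hx => h1 x (List.mem_cons_of_mem _ hx))
        (fun x hx => h2 x (List.mem_cons_of_mem _ hx)) h.2]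

theorem nodup_map_on {f : ℕ → ℕ} {n : ℕ} (hf : ∀ i < n, ∀ j < n, f i = f j → i = j)
    {l : List ℕ} (h : ∀ x ∈ l, x < n) (hn : l.Nodup) : (l.map f).Nodup :=
  hn.map_on fun x hx y hy e => hf x (h x hx) y (h y hy) e

theorem ends_sound {f : ℕ → ℕ} {n : ℕ} (hf : ∀ i < n, ∀ j < n, f i = f j → i = j)
    {T p L : List ℕ} (hT : ∀ x ∈ T, x < n) (hp : ∀ x ∈ p, x < n) (hL : ∀ x ∈ L, x < n)
    (hn : T.Nodup) {a : List ℕ} (h : RP (T.map f).toFinset (p.map f) (· ∈ L.map f) a) :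
    ∃ a0 ∈ ends T p L, a0.map f = a ∧ a0.Perm T := by
  obtain ⟨h1, t, z, h2, h3⟩ := h
  have h4 : a.Perm (T.map f) := h1.perm ⟨nodup_map_on hf hT hn, rfl⟩
  rw [← List.mem_permutations', ← List.map_permutations', List.mem_map] at h4
  obtain ⟨a0, k1, rfl⟩ := h4
  have k2 := List.mem_permutations'.1 k1
  have k3 : ∀ x ∈ a0, x < n := fun x hx => hT x (k2.mem_iff.1 hx)
  refine ⟨a0, List.mem_filter.2 ⟨k1, ?_⟩, rfl, k2⟩
  simp only [Bool.and_eq_true, beq_iff_eq, List.contains_iff_mem]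
  constructor
  · refine map_inj_on hf _ _ (fun x hx => k3 x (List.mem_of_mem_take hx)) hp ?_
    rw [List.map_take, h2, List.take_left' (by simp)]
  · obtain ⟨y, hy, e⟩ := List.mem_map.1 h3
    have k4 : (a0.map f).getLast? = some z := by
      rw [h2, ← List.append_assoc, List.getLast?_concat]
    rw [List.getLast?_map] at k4
    obtain ⟨w, k5, k6⟩ := Option.map_eq_some_iff.1 k4
    have k7 : w ∈ a0 := List.mem_of_getLast? k5
    rw [List.getLastD_eq_getLast?, k5, Option.getD_some,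
      hf w (k3 w k7) y (hL y hy) (k6.trans e.symm)]
    exact hy

def chkF (n : ℕ) (X : ℕ → ℕ → Bool) (m : ℕ) : Bool := remL m (facesC X n (List.range n))

def chkS (n : ℕ) (T0 p LA T q LB : List ℕ) (m k c : ℕ) (tb : List ℕ) : Bool :=
  (T0 ++ p ++ LA ++ T ++ q ++ LB).all (· < n) && (decide T0.Nodup && (decide T.Nodup &&
    ((c < 2 : Bool) && chkAll m k (prs T0 p LA T q LB c) tb)))

theorem Cl_of_chk {f : ℕ → ℕ} {n : ℕ} {X : ℕ → ℕ → Bool}
    (hf : ∀ i < n, ∀ j < n, f i = f j → i = j)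
    (hc : ∀ i < n, ∀ j < n, cr (f i) (f j) ↔ X i j = true) {T0 p LA T q LB tb : List ℕ}
    {m k c : ℕ} (h1 : chkF n X m = true) (h2 : chkS n T0 p LA T q LB m k c tb = true) :
    Cl (F1 cr ((List.range n).map f).toFinset) (RP (T0.map f).toFinset (p.map f) (· ∈ LA.map f))
      (RP (T.map f).toFinset (q.map f) (· ∈ LB.map f)) (fun _ _ => True) := by
  simp only [chkS, Bool.and_eq_true, List.all_eq_true, decide_eq_true_eq, List.mem_append] at h2
  obtain ⟨b, n0, n1, hc2, h3⟩ := h2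
  have bT0 : ∀ x ∈ T0, x < n := fun x hx => b x (by simp [hx])
  have bT : ∀ x ∈ T, x < n := fun x hx => b x (by simp [hx])
  have g := remL_sound _ _ h1
  have e := facesC_sound f X n (List.range n) (by simp)
    (nodup_map_on hf (fun x hx => List.mem_range.1 hx) List.nodup_range)
    (fun i hi j hj => hc i (List.mem_range.1 hi) j (List.mem_range.1 hj))
  refine ⟨(c : ZMod 2) + (sg (T0.map f) + sg T0) + (sg (T.map f) + sg T),
    fun a b' ha hb _ hs => ?_⟩
  obtain ⟨a0, a1, rfl, a2⟩ := ends_sound hf bT0 (fun x hx => b x (by simp [hx]))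
    (fun x hx => b x (by simp [hx])) n0 ha
  obtain ⟨b0, b1, rfl, b2⟩ := ends_sound hf bT (fun x hx => b x (by simp [hx]))
    (fun x hx => b x (by simp [hx])) n1 hb
  have s1 := sg_map_perm f a2 ha.1.1
  have s2 := sg_map_perm f b2 hb.1.1
  have s3 : sg a0 + sg b0 = (c : ZMod 2) := by
    have t1 := two_eq (sg a0)
    have t2 := two_eq (sg b0)
    linear_combination hs - s1 - s2 + t1 + t2
  have s4 : (inv a0 + inv b0) % 2 = c := by
    rw [sg_inv, sg_inv, ← Nat.cast_add, ZMod.natCast_eq_natCast_iff', Nat.mod_eq_of_lt hc2] at s3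
    exact s3
  have mem : (a0, b0) ∈ prs T0 p LA T q LB c := by
    simp only [prs, List.mem_flatMap, List.mem_map, List.mem_filter, beq_iff_eq]
    exact ⟨a0, a1, b0, ⟨b1, s4⟩, rfl⟩
  obtain ⟨mv, hm⟩ := chkAll_sound _ _ h3 _ mem
  rw [← e]
  exact sweep_sound f g hm

end Pool.Agent.MP_086a35_co

end
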