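import Pool.Agent.MP_086a35_co.Mg.Step4
import Pool.Agent.MP_086a35_co.Mg.BaseChk

-- part MP_086a35_co.Step5
section

set_option autoImplicit false

namespace Pool.Agent.MP_086a35_co

open Finset

variable {G : Finset ℕ} {V W U : ℕ → ℕ} {N M n : ℕ} {rest oth : List Pl}

theorem X1big (ih : IH n) {Q : ℕ → ℕ} (h : WF G [(4, U), (3, Q)]) (hd : 2 ≤ G.card)
    (hn : G.card + 5 < n) :
    AA (F1 cr (G ∪ diag U 4 ∪ DR [(3, Q)]))
      (insert (dg (U 0) (U 2)) (insert (dg (Q 0) (Q 2)) (insert (yy U 4 0) G)))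
      (· ∈ insert (yy U 4 0) G)
      (insert (xx U 4 2) (insert (dg (U 0) (U 2)) (insert (dg (Q 1) (Q 3)) G))) (xx U 4 2)
      (· = dg (U 0) (U 2)) False := by
  have hc := h.head
  obtain ⟨w0, e0⟩ := h.lowW (w := 0) (M := 3) (by omega) (by omega) rfl
    ((hc.vr (w := 0) (by omega)).rf (c := 1) (by omega)) (diag_RF _ (by omega))
  have w1 : WF (insert (yy U 4 1) G) [(3, Q)] := by
    rw [← Gw_lt (by omega)]
    exact (h.pass (w := 1) (by omega)).tail.tail
  have e1 : Cw G U 4 [(3, Q)] 1 = insert (yy U 4 1) G ∪ diag Q 3 := by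
    rw [Cw_low le_rfl, Gw_lt (by omega)]
    simp only [Rw, DR, diag_small _ (N := 4 - 1 - 1) le_rfl, empty_union, union_empty]
  obtain ⟨w2, e2⟩ := h.highL (w := 2) (by omega) (by omega) (hc.vl (w := 2) (by omega)) rfl
  rw [Gw_top (by omega)] at w2 e2
  have c0 : (insert (yy U 4 0) G).card = G.card + 1 :=
    card_insert_of_notMem (h.yy_notMem (by omega))
  have c1 : (insert (yy U 4 1) G).card = G.card + 1 :=
    card_insert_of_notMem (h.yy_notMem (by omega))
  have k0 := callQQ ih w0 (by omega) (by omega) (p := dg (U 0) (U 2)) (q := yy U 4 1) rfl rfl rfl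
  have k1 := callQ ih w1 (by omega) (by omega) rfl rfl
  have k2 := callQQ ih (w2.swap.rf (c := 1) (by omega)).swap hd (by omega)
    (p := dg (U 0) (U 2)) (q := xx U 4 1) (r := dg (Q 1) (Q 3)) rfl rfl rfl
  have n0 : dg (Q 0) (Q 2) ∉ insert (yy U 4 1) G := w1.nG (by decide)
  have n1 : dg (Q 1) (Q 3) ∉ G := h.tail.nG (by decide)
  have hy : yy U 4 0 ∉ insert (dg (Q 0) (Q 2)) (insert (yy U 4 1) G) := by
    simp only [mem_insert, not_or]
    exact ⟨h.ne2 (by decide) (by decide), hc.ne (by decide), h.yy_notMem (by omega)⟩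
  have s1 := J0 (xx U 4 1) k0 (Cl.mono (P' := RP _ [] (· ∈ insert (yy U 4 1) G))
    (Q' := RP (insert (yy U 4 1) (insert (dg (Q 1) (Q 3)) G)) [dg (Q 1) (Q 3)] (· = yy U 4 1))
    k1 (fun _ h => h) (fun a k => by
      rw [insert_comm] at k
      exact RP.mono (by rintro z rfl; exact mem_insert_self _ _) a k) (fun _ _ _ _ h => h)) hy (by
      intro a b _ _ p
      obtain ⟨l, hl, hl'⟩ := ex_notMem (U := G) [b.tail.headD 0] (by simp; omega)
      obtain ⟨t, ht, hs⟩ := E2 (U := insert (dg (Q 0) (Q 2)) (insert (yy U 4 1) G))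
        (e := yy U 4 1) (z := l) (by simp) (by simp [hl])
        (fun e => h.yy_notMem (w := 1) (by omega) (e ▸ hl))
        (by rw [card_insert_of_notMem n0]; omega) p
      refine ⟨_, ht, hs, ⟨?_, t ++ [l], _, rfl, mem_insert_self _ _⟩, False.elim,
        ⟨ht, yy U 4 1 :: t, l, rfl, mem_insert_of_mem hl⟩, fun _ => Or.inl ?_⟩
      · have := ht.snoc hy
        rwa [show insert (yy U 4 0) (insert (dg (Q 0) (Q 2)) (insert (yy U 4 1) G)) =
          insert (yy U 4 1) (insert (dg (Q 0) (Q 2)) (insert (yy U 4 0) G)) by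
            ext; simp only [mem_insert]; tauto] at this
      · rw [lst2]
        intro e
        rw [List.headD_eq_head?_getD, e] at hl'
        simp at hl')
  have s2 := JEB (xx U 4 2) s1 (k2.toEnd not_false (fun _ h => h))
    (by simp only [mem_insert, not_or]; exact ⟨h.ne2 (by decide) (by decide),
      h.yy_notMem (by omega)⟩)
    (by simp only [mem_insert, not_or]; exact ⟨h.ne2 (by decide) (by decide), h.nG (by decide)⟩)
    (two_cones hd n1)
  rw [diag_RF Q (by omega)] at s2
  rw [DR, DR, union_empty] at e0 e2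
  rw [← e0, ← e1, ← e2] at s2
  rw [F1_passes h (by omega)]
  refine ((s2.start rfl (fun _ => Or.inl)).mono (RP.mono (fun _ => Or.inr))).fin _ rfl ?_
  simp only [mem_insert, not_or]
  exact ⟨hc.ne (by decide), h.ne2 (by decide) (by decide), h.nG (by decide)⟩

theorem X1 (ih : IH n) {Q : ℕ → ℕ} (h : WF G [(4, U), (3, Q)]) (hd : 1 ≤ G.card)
    (hn : G.card + 5 < n) :
    Cl (F1 cr (G ∪ diag U 4 ∪ diag Q 3))
      (RP (insert (dg (Q 0) (Q 2)) (insert (dg (U 0) (U 2)) (insert (dg (U 0) (U 3)) G)))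
        [dg (Q 0) (Q 2), dg (U 0) (U 2)] (· ∈ insert (dg (U 0) (U 3)) G))
      (RP (insert (dg (U 2) (U 4)) (insert (dg (U 0) (U 2)) (insert (dg (Q 1) (Q 3)) G)))
        [dg (U 2) (U 4)] (· = dg (U 0) (U 2))) (fun _ _ => True) := by
  by_cases h2 : 2 ≤ G.card
  · have k := X1big ih h h2 hn
    rw [DR, DR, union_empty, yy, dg_comm (U (4 - 1))] at k
    exact (k.toEnd not_false (fun _ h => h)).startP _ (insert_comm _ _ _) (fun _ h => h)
  · obtain ⟨c, rfl⟩ := card_eq_one.1 (show G.card = 1 by omega)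
    refine (Cl.mono (Y2 h) (fun a k => ?_) (fun _ h => h) (fun _ _ _ _ h => h)).stop ?_
    · refine RP.mono (L := (· ∈ insert (dg (U 0) (U 3)) ({c} : Finset ℕ)))
        (fun _ _ => trivial) a ?_
      rwa [show ({c, dg (U 0) (U 2), dg (U 0) (U 3), dg (Q 0) (Q 2)} : Finset ℕ) =
        insert (dg (Q 0) (Q 2)) (insert (dg (U 0) (U 2)) (insert (dg (U 0) (U 3)) {c})) by
          ext; simp only [mem_insert, mem_singleton]; tauto]
    · ext; simp only [mem_insert, mem_singleton]; tauto

theorem X2aux (ih : IH n) (h : WF G [(4, V), (4, W)]) (hd : 1 ≤ G.card) (hn : G.card + 8 ≤ n) :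
    Ch (F1 cr (G ∪ diag V 4 ∪ DR [(4, W)]))
      (RP (insert (yy V 4 0) G ∪ fan0 (4, W) ∪ {dg (V 0) (V 2)}) [] (· ∈ insert (yy V 4 0) G))
      (xx V 4 1)
      (RP (insert (dg (W 3) (W 0)) (insert (dg (W 0) (W 2)) (insert (yy V 4 1) G))) []
        (· ∈ G)) := by
  have hc := h.head
  have hw := h.tail.head
  obtain ⟨c, hcG⟩ := card_pos.1 hd
  obtain ⟨w0, e0⟩ := h.lowW (w := 0) (M := 3) (by omega) (by omega) rfl
    ((hc.vr (w := 0) (by omega)).rf (c := 1) (by omega)) (diag_RF _ (by omega))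
  have w1 : WF (insert (yy V 4 1) G) [(4, W)] := by
    rw [← Gw_lt (by omega)]
    exact (h.pass (w := 1) (by omega)).tail.tail
  have e1 : Cw G V 4 [(4, W)] 1 = insert (yy V 4 1) G ∪ diag W 4 := by
    rw [Cw_low le_rfl, Gw_lt (by omega)]
    simp only [Rw, DR, diag_small _ (N := 4 - 1 - 1) le_rfl, empty_union, union_empty]
  obtain ⟨w2, e2⟩ := h.highL (w := 2) (by omega) (by omega)
    ((hc.vl (w := 2) (by omega)).rf (c := 1) (by omega)) (diag_RF _ (by omega))
  rw [Gw_top (by omega)] at w2 e2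
  have c0 : (insert (yy V 4 0) G).card = G.card + 1 :=
    card_insert_of_notMem (h.yy_notMem (by omega))
  have c1 : (insert (yy V 4 1) G).card = G.card + 1 :=
    card_insert_of_notMem (h.yy_notMem (by omega))
  have k0 := ih _ _ _ _ true true (w0.swap.rf (c := 3) (by omega))
    ⟨by omega, Or.inr (by simp [kR])⟩ (by simp only [kR, c0]; simp)
    (by simp only [kR, c0]; simp; omega) 0
  have k1 := callP ih (w1.rf (c := 0) (by omega)) (by omega) (by omega) (p := dg (W 3) (W 0))
    (q := dg (W 0) (W 2)) (r := dg (W 3) (W 1)) (dg_comm _ _) rfl rfl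
  have k2 : Cl _ (RP (insert (xx V 4 1) (insert (dg (W 3) (W 1)) (insert (dg (W 3) (W 0)) G)))
        [xx V 4 1, dg (W 3) (W 1)] (· ∈ insert (dg (W 3) (W 0)) G))
      (RP (insert (dg (W 1) (W 4)) (insert (dg (W 3) (W 1)) (insert (dg (V 0) (V 2)) G)))
        [dg (W 1) (W 4)] (· = dg (W 3) (W 1))) _ :=
    X1 ih (w2.swap.rf (c := 3) (by omega)) hd (by omega)
  have f0 := fanL_RF1 W (N := 4) (by omega)
  simp only [show 4 - 1 = 3 from rfl, show 4 - 2 = 2 from rfl] at k0 f0
  rw [f0, fanL_2, diag_RF W (by omega), TR, TR, fan0_3, union_empty] at k0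
  rw [diag_RF W (by omega)] at k1 k2
  have n1 : dg (V 0) (V 2) ∉ G := h.nG (by decide)
  have n2 : dg (W 3) (W 1) ∉ insert (dg (V 0) (V 2)) G := by
    simp only [mem_insert, not_or]
    exact ⟨(h.ne2 (by decide) (by decide)).symm, h.tail.nG (by decide)⟩
  have n3 : dg (W 1) (W 4) ∉ insert (dg (W 3) (W 1)) (insert (dg (V 0) (V 2)) G) := by
    simp only [mem_insert, not_or]
    exact ⟨hw.ne (by decide), (h.ne2 (by decide) (by decide)).symm, h.tail.nG (by decide)⟩
  have s1 := JAA (y := yy V 4 0) (xx V 4 2) (((k0.toEnd (fun k => by have := k.1; omega)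
    (by rintro z rfl; exact LB.ofG (mem_insert_self _ _))).startP [] rfl
      (fun _ => LA.ofG)).stop (by
      change _ = insert (dg (W 1) (W 4))
        (insert (yy V 4 0) G ∪ {dg (W 3) (W 1)} ∪ {dg (V 0) (V 2)})
      ext; simp only [mem_union, mem_insert, mem_singleton]; tauto)) (Cl.symm k2)
    (by
      simp only [mem_insert, not_or]
      exact ⟨h.ne2 (by decide) (by decide), h.ne2 (by decide) (by decide), hc.ne (by decide),
        h.yy_notMem (by omega)⟩) (mem_insert_self _ _) (by simp) (hw.ne (by decide))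
    (by rw [card_insert_of_notMem n3, card_insert_of_notMem n2, card_insert_of_notMem n1]; omega)
  have s2 := JRB (y := yy V 4 1) (L := (· ∈ G)) s1 k1 rfl
    (by ext; simp only [mem_insert]; tauto)
    (by
      simp only [mem_insert, not_or]
      exact ⟨h.ne2 (by decide) (by decide), h.ne2 (by decide) (by decide), h.yy_notMem (by omega)⟩)
    (by
      simp only [mem_insert, not_or]
      exact ⟨h.ne2 (by decide) (by decide), h.ne2 (by decide) (by decide), h.nG (by decide)⟩)
    (mem_insert_self _ _) (fun _ k => Or.inl (mem_insert_of_mem k)) (by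
      intro z _ p
      have m1 : dg (W 3) (W 1) ≠ dg (W 3) (W 0) := hw.ne (by decide)
      have m2 : dg (W 3) (W 1) ≠ c := fun e => h.tail.nG (by decide) (e ▸ hcG)
      have m3 : dg (W 3) (W 0) ≠ c := fun e => h.tail.nG (by decide) (e ▸ hcG)
      obtain ⟨t, s, h1, h2, h3⟩ := E3 (U := insert (dg (W 3) (W 1)) (insert (dg (W 3) (W 0)) G))
        [dg (W 3) (W 1)] (a := dg (W 3) (W 0)) (b := c) (by simp [m1, m2, m3]) (by simp [hcG]) p
      exact ⟨t, s, by rcases h1 with rfl | rfl <;> simp [hcG], h2, h3, False.elim⟩)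
  have e0' : insert (yy V 4 0) G ∪ diag W 4 ∪ DR [(3, RF (VR V 4 0) 3 1)] =
      Cw G V 4 [(4, W)] 0 := by
    rw [e0]
    simp only [DR, union_empty]
    exact union_right_comm _ _ _
  have e2' : G ∪ diag W 4 ∪ diag (RF (VL V 4 2) 3 1) 3 = Cw G V 4 [(4, W)] 2 := by
    rw [e2]
    simp only [DR, union_empty]
    exact union_right_comm _ _ _
  rw [F1_passes h (by omega)]
  rw [← e1, add_right_comm] at s2
  rw [show PS G V 4 [(4, W)] (4 - 2) = F1 cr (Cw G V 4 [(4, W)] 0) +
    lift (xx V 4 1) (F1 cr (Cw G V 4 [(4, W)] 1)) +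
    lift (xx V 4 2) (F1 cr (Cw G V 4 [(4, W)] 2)) from rfl, ← e0', ← e2']
  exact s2

theorem step_X2 (ih : IH n) (h : WF G [(4, V), (4, W)]) (hd : 1 ≤ G.card) (hn : G.card + 8 ≤ n)
    (b : Bool) (z : ℕ) : StZ G V 4 [(4, W)] true b z := by
  refine finishG h (by omega) (X2aux ih (h.rf (c := 3) (by omega)) hd hn)
    (by rw [diag_RF _ (by omega)]) rfl ?_ ?_ ?_ (fun c k => k.mem hd)
  · change _ = insert (dg (V 0) (V 3)) G ∪ fan0 (4, W) ∪ {dg (V 3) (V 1)}
    rw [show 4 - 1 = 3 from rfl, fanL_3t, dg_comm (V 0)]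
    ext; simp only [mem_union, mem_insert, mem_singleton, TR, notMem_empty]; tauto
  · change _ = insert (dg (W 3) (W 0)) (insert (dg (W 0) (W 2)) (insert (dg (V 0) (V 2)) G))
    rw [show 4 - 2 = 2 from rfl, fanL_2, dg_comm (W 3)]
    ext; simp only [mem_union, mem_insert, mem_singleton, TR, notMem_empty, fan0_4]; tauto
  · rintro c (k | ⟨k, -⟩)
    · exact mem_insert_of_mem k
    · exact mem_insert.2 (Or.inl (k.trans (dg_comm _ _)))

theorem step_single (ih : IH n) (h : WF G [(N, V)]) {a b : Bool} (hv : Val N 0 a b)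
    (hd : 5 ≤ G.card + (N - 2)) (hn : G.card + 2 * (N - 2) ≤ n) : St G V N [] a b := by
  obtain ⟨h3, hv⟩ := hv
  by_cases e3 : N = 3
  · subst e3
    exact step_S4 h (by omega) a b
  obtain ⟨h4, h5⟩ := (hv.resolve_left e3).2 rfl
  by_cases e4 : N = 4
  · subst e4
    rw [h4 rfl]
    exact step_S5 ih h (by omega) hn b
  obtain ⟨m, rfl⟩ : ∃ m, N = m + 5 := ⟨N - 5, by omega⟩
  cases a
  · match m, h, hd, hn, h5 with
    | 0, h, hd, hn, h5 =>
      rw [(h5 rfl).resolve_left (by simp)]
      exact step_P6b ih h (by omega) hn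
    | 1, h, hd, hn, _ => exact step_iv ih h (by omega) hn b
    | m + 2, h, _, hn, _ => exact step_iii ih h hn b
  · by_cases e5 : m = 0 ∧ b = true
    · obtain ⟨rfl, rfl⟩ := e5
      exact step_P6a ih h (by omega) hn
    · exact step_ii ih h (by omega) hn (fun k => by simpa [k] using e5)

theorem step_all (ih : IH n) (h : WF G ((N, V) :: rest)) {a b : Bool} (hv : Val N (kR rest) a b)
    (hd : 5 ≤ G.card + (N - 2) + kR rest) (hn : G.card + 2 * (N - 2 + kR rest) ≤ n) :
    St G V N rest a b := by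
  intro z
  by_cases hk : kR rest = 0
  · rw [hk] at hv hd hn
    exact StZ.nil hk (step_single ih (h.sub ((List.nil_sublist _).cons_cons _)) hv hd hn z)
  obtain ⟨M, W, oth, hM, hw, hk', hz, fin⟩ := extract h hk z
  refine fin a b ?_
  rw [← hk'] at hv hd hn hk
  have hs : WF G [(N, V), (M, W)] := hw.sub (((List.nil_sublist _).cons_cons _).cons_cons _)
  have hc := kR_cons (M, W) oth
  simp only at hc
  by_cases e3 : N = 3
  · subst e3
    by_cases e : M = 3 ∧ kR oth = 0
    · obtain ⟨rfl, e⟩ := e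
      exact StZ.one e (step_S44 ih hs (by omega) (by omega) a b z)
    · exact step_i3 ih hw hd hn hM e a b hz
  · obtain ⟨rfl, hb⟩ := (hv.2.resolve_left e3).1 hk
    have h3 := hv.1
    by_cases e : N = 4 ∧ M = 4 ∧ kR oth = 0
    · obtain ⟨rfl, rfl, e⟩ := e
      exact StZ.one e (step_X2 ih hs (by omega) (by omega) b z)
    · exact step_i4 ih hw hd hn (by omega) hM e hb z

theorem IH_all : ∀ n, IH n
  | 0 => fun _ _ _ _ _ _ _ _ _ h => absurd h (Nat.not_lt_zero _)
  | n + 1 => fun _ _ _ _ _ _ h hv hd hn => by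
    rcases hd.eq_or_lt with e | e
    · exact base4 h hv e.symm
    · exact step_all (IH_all n) h hv e (Nat.lt_succ_iff.1 hn)

theorem St_main (n : ℕ) (hn : 7 ≤ n) : St ∅ id (n - 1) [] false false := by
  refine IH_all _ ∅ id (n - 1) [] false false ⟨fun _ h => absurd h (notMem_empty _), ?_, ?_,
    List.pairwise_singleton _ _⟩ ⟨by omega, Or.inr (by simp [kR_nil])⟩
    (by rw [kR_nil, card_empty]; omega) (Nat.lt_succ_self _)
  · intro p hp
    rw [List.mem_singleton.1 hp]
    exact ⟨fun _ _ _ _ h => h, fun _ _ _ _ _ _ _ _ => Iff.rfl⟩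
  · exact fun _ _ _ h => absurd h (notMem_empty _)

end Pool.Agent.MP_086a35_co

end

-- part MP_086a35_co.Walk
section

set_option autoImplicit false

namespace Pool.Agent.MP_086a35_co

/-- walks through duplicate-free lists, recording the introduced faces in order -/
inductive Wn : List ℕ → List ℕ → List (Finset ℕ) → Prop
  | nil (l : List ℕ) : Wn l l []
  | step {l l' l'' : List ℕ} {F : Finset ℕ} {Fs : List (Finset ℕ)} :
      Mv true l l' F → l'.Nodup → Wn l' l'' Fs → Wn l l'' (F :: Fs)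

/-- a closed walk of ordered triangulations of the `n`-gon introducing every nonempty
dissection exactly once -/
def ClosedWalk (n : ℕ) : Prop :=
  ∃ (l : List ℕ) (Fs : List (Finset ℕ)), l.Nodup ∧ l.length = n - 3 ∧ Wn l l Fs ∧
    (Fs : Multiset (Finset ℕ)) = F1 cr (diag id (n - 1))

end Pool.Agent.MP_086a35_co

end

-- part MP_086a35_co.Close
section

set_option autoImplicit false

namespace Pool.Agent.MP_086a35_co

open Finset

/-! ### initial segments -/

theorem cl_card_pre (l : List ℕ) : Multiset.card (pre l) = l.length := by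
  induction l with
  | nil => rfl
  | cons a l ih => simp [pre, ih]

theorem cl_mem_pre {l : List ℕ} {F : Finset ℕ} (h : F ∈ pre l) : F ≠ ∅ ∧ F ⊆ l.toFinset := by
  induction l generalizing F with
  | nil => simp [pre] at h
  | cons a l ih =>
    rw [List.toFinset_cons]
    rcases mem_lift.1 h with rfl | ⟨G, hG, rfl⟩
    · exact ⟨singleton_ne_empty _, by simp⟩
    · exact ⟨insert_ne_empty _ _, insert_subset_insert _ (ih hG).2⟩

theorem cl_head_mem_pre {l : List ℕ} {a : ℕ} {F : Finset ℕ} (h : F ∈ pre (a :: l)) : a ∈ F := by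
  rcases mem_lift.1 h with rfl | ⟨G, _, rfl⟩
  · exact mem_singleton_self _
  · exact mem_insert_self _ _

theorem cl_notMem_of_pre {l : List ℕ} {a : ℕ} (h : (pre (a :: l)).Nodup) : a ∉ l := by
  induction l with
  | nil => simp
  | cons b l ih =>
    have e : pre (a :: b :: l) = {a} ::ₘ (pre (a :: l)).map (insert b) := by
      simp only [pre, Multiset.map_cons, map_insert_comm a b]
      rw [Finset.pair_comm a b]
    rw [e, Multiset.nodup_cons] at h
    intro hm
    rcases List.mem_cons.1 hm with rfl | hm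
    · exact h.1 (Multiset.mem_map.2 ⟨{a}, by simp [pre], by simp⟩)
    · exact ih (Multiset.Nodup.of_map _ h.2) hm

theorem cl_nodup_of_pre {l : List ℕ} (h : (pre l).Nodup) : l.Nodup := by
  induction l with
  | nil => simp
  | cons a l ih =>
    exact List.nodup_cons.2 ⟨cl_notMem_of_pre h,
      ih (Multiset.Nodup.of_map _ (Multiset.nodup_cons.1 h).2)⟩

theorem cl_pre_nodup {l : List ℕ} (h : l.Nodup) : (pre l).Nodup := by
  induction l with
  | nil => simp [pre]
  | cons a l ih =>
    obtain ⟨h1, h2⟩ := List.nodup_cons.1 h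
    have hl : ∀ G ∈ pre l, a ∉ G := fun G hG e => h1 (List.mem_toFinset.1 ((cl_mem_pre hG).2 e))
    rw [pre, Multiset.nodup_cons]
    constructor
    · simp only [Multiset.mem_map, not_exists, not_and]
      intro G hG e
      obtain ⟨b, hb⟩ := nonempty_iff_ne_empty.2 (cl_mem_pre hG).1
      have : b ∈ ({a} : Finset ℕ) := e ▸ mem_insert_of_mem hb
      rw [mem_singleton] at this
      exact hl G hG (this ▸ hb)
    · refine Multiset.Nodup.map_on ?_ (ih h2)
      intro G hG G' hG' e
      rw [← erase_insert (hl G hG), e, erase_insert (hl G' hG')]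

theorem Mv.cl_le {a b : List ℕ} {F : Finset ℕ} (h : Mv true a b F) (M : Multiset (Finset ℕ)) :
    pre b + M ≤ pre a + F ::ₘ M := by
  obtain ⟨F', -, e⟩ := h.rev
  rw [Multiset.add_cons, ← Multiset.cons_add, e]
  exact add_le_add_left (Multiset.le_cons_self _ _) _

theorem Mv.cl_len {a b : List ℕ} {F : Finset ℕ} (h : Mv true a b F) :
    b.length = a.length ∧ F.card ≤ a.length := by
  induction h with
  | swap a b l => simp
  | flip a b h => simp
  | cons x _ ih =>
    exact ⟨by simp [ih.1], (card_insert_le _ _).trans (by simpa using ih.2)⟩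

theorem Wk.cl_card_le {a b : List ℕ} {M : Multiset (Finset ℕ)} (h : Wk true a b M) :
    ∀ F ∈ M, F.card ≤ a.length := by
  induction h with
  | nil l => simp
  | step hm _ ih =>
    intro G hG
    rcases Multiset.mem_cons.1 hG with rfl | hG
    · exact hm.cl_len.2
    · exact hm.cl_len.1 ▸ ih G hG

theorem Mv.cl_cases {a b : List ℕ} {F : Finset ℕ} (h : Mv true a b F) :
    (∃ p x y r, a = p ++ x :: y :: r ∧ b = p ++ y :: x :: r) ∨
      (∃ p x y, a = p ++ [x] ∧ b = p ++ [y] ∧ F = insert y p.toFinset) := by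
  induction h with
  | swap a b l => exact Or.inl ⟨[], a, b, l, rfl, rfl⟩
  | flip a b h => exact Or.inr ⟨[], a, b, rfl, rfl, by simp⟩
  | cons z _ ih =>
    rcases ih with ⟨p, x, y, r, rfl, rfl⟩ | ⟨p, x, y, rfl, rfl, rfl⟩
    · exact Or.inl ⟨z :: p, x, y, r, rfl, rfl⟩
    · exact Or.inr ⟨z :: p, x, y, rfl, rfl, by rw [List.toFinset_cons, insert_comm]⟩

theorem Wk.cl_toWn {a b : List ℕ} {M : Multiset (Finset ℕ)} (h : Wk true a b M)
    (hn : (pre a + M).Nodup) : ∃ Fs : List (Finset ℕ), Wn a b Fs ∧ (Fs : Multiset _) = M := by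
  induction h with
  | nil l => exact ⟨[], Wn.nil l, rfl⟩
  | @step l l' l'' F M hm _ ih =>
    have h1 := Multiset.nodup_of_le (hm.cl_le M) hn
    obtain ⟨Fs, h2, h3⟩ := ih h1
    exact ⟨F :: Fs, Wn.step hm (cl_nodup_of_pre (Multiset.nodup_add.1 h1).1) h2, by rw [← h3]; rfl⟩

theorem Wn.cl_trans {a b c : List ℕ} {Fs Gs : List (Finset ℕ)} (h : Wn a b Fs) (h' : Wn b c Gs) :
    Wn a c (Fs ++ Gs) := by
  induction h with
  | nil l => simpa using h'
  | step hm hn _ ih => exact Wn.step hm hn (ih h')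

/-! ### orientation -/

abbrev cl_EA : Type := CliffordAlgebra (0 : QuadraticForm ℚ (ℕ → ℚ))

def cl_vv (x : ℕ) : ℕ → ℚ := fun k => if x.unpair.1 < k ∧ k < x.unpair.2 then 1 else 0

noncomputable def cl_io (u : ℕ → ℚ) : cl_EA := CliffordAlgebra.ι (0 : QuadraticForm ℚ (ℕ → ℚ)) u

noncomputable def cl_PP : List ℕ → cl_EA
  | [] => 1
  | a :: l => cl_io (cl_vv a) * cl_PP l

theorem cl_io_sq (u : ℕ → ℚ) : cl_io u * cl_io u = 0 := by
  simp [cl_io, CliffordAlgebra.ι_sq_scalar]

theorem cl_io_add (u w : ℕ → ℚ) : cl_io (u + w) = cl_io u + cl_io w := map_add _ _ _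

theorem cl_io_swap (u w : ℕ → ℚ) : cl_io u * cl_io w = -(cl_io w * cl_io u) := by
  have h := cl_io_sq (u + w)
  rw [cl_io_add, add_mul, mul_add, mul_add, cl_io_sq, cl_io_sq] at h
  rw [eq_neg_iff_add_eq_zero]
  simpa using h

theorem cl_PP_append (p q : List ℕ) : cl_PP (p ++ q) = cl_PP p * cl_PP q := by
  induction p with
  | nil => simp [cl_PP]
  | cons a p ih => simp [cl_PP, ih, mul_assoc]

theorem cl_PP_swap (p : List ℕ) (x y : ℕ) (r : List ℕ) :
    cl_PP (p ++ y :: x :: r) = -cl_PP (p ++ x :: y :: r) := by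
  simp only [cl_PP_append, cl_PP, ← mul_assoc (cl_io _) (cl_io _)]
  rw [cl_io_swap (cl_vv y), neg_mul, mul_neg]

theorem cl_io_PP_io (u : ℕ → ℚ) (q : List ℕ) : cl_io u * (cl_PP q * cl_io u) = 0 := by
  induction q with
  | nil => simp [cl_PP, cl_io_sq]
  | cons a q ih =>
    rw [cl_PP, mul_assoc, ← mul_assoc (cl_io u), cl_io_swap, neg_mul, mul_assoc, ih, mul_zero, neg_zero]

theorem cl_PP_kill {q : List ℕ} {y : ℕ} (h : y ∈ q) : cl_PP q * cl_io (cl_vv y) = 0 := by
  induction q with
  | nil => simp at h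
  | cons a q ih =>
    rw [cl_PP, mul_assoc]
    rcases List.mem_cons.1 h with rfl | h
    · exact cl_io_PP_io _ _
    · rw [ih h, mul_zero]

theorem cl_PP_perm {l l' : List ℕ} (h : l.Perm l') : cl_PP l = cl_PP l' ∨ cl_PP l = -cl_PP l' := by
  induction h with
  | nil => exact Or.inl rfl
  | cons x _ ih =>
    rcases ih with ih | ih
    · exact Or.inl (by rw [cl_PP, cl_PP, ih])
    · exact Or.inr (by rw [cl_PP, cl_PP, ih, mul_neg])
  | swap x y l => exact Or.inr (cl_PP_swap [] x y l)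
  | trans _ _ ih1 ih2 => rcases ih1 with h | h <;> rcases ih2 with h' | h' <;> simp [h, h']

theorem cl_vv_dg (i j k : ℕ) : cl_vv (dg i j) k = if min i j < k ∧ k < max i j then 1 else 0 := by
  simp [cl_vv, dg]

def cl_fl : ℕ → List ℕ
  | 0 => []
  | k + 1 => dg 0 (k + 2) :: cl_fl k

theorem cl_fl_contr (k m : ℕ) (h : k < m) :
    CliffordAlgebra.contractLeft (LinearMap.proj m) (cl_PP (cl_fl k)) = 0 := by
  induction k with
  | zero => simp [cl_fl, cl_PP]
  | succ k ih =>
    rw [cl_fl, cl_PP, cl_io, CliffordAlgebra.contractLeft_ι_mul, ih (by omega), LinearMap.proj_apply, cl_vv_dg,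
      if_neg (by omega)]
    simp

theorem cl_fl_ne (k : ℕ) : cl_PP (cl_fl k) ≠ 0 := by
  induction k with
  | zero => simp [cl_fl, cl_PP]
  | succ k ih =>
    intro h
    have := congrArg (CliffordAlgebra.contractLeft (LinearMap.proj (k + 1))) h
    rw [cl_fl, cl_PP, cl_io, CliffordAlgebra.contractLeft_ι_mul, cl_fl_contr k _ (by omega),
      LinearMap.proj_apply, cl_vv_dg, if_pos (by omega)] at this
    exact ih (by simpa using this)

theorem cl_fl_ord (k : ℕ) : Ord (fanAt id 0 (Ico 2 (k + 2))) (cl_fl k) := by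
  induction k with
  | zero => simp [cl_fl, Ord, fanAt]
  | succ k ih =>
    have e : fanAt id 0 (Ico 2 (k + 1 + 2)) = insert (dg 0 (k + 2)) (fanAt id 0 (Ico 2 (k + 2))) := by
      unfold fanAt
      rw [show k + 1 + 2 = (k + 2) + 1 from rfl, ← Finset.insert_Ico_right_eq_Ico_add_one (by omega),
        image_insert]
      rfl
    rw [e]
    refine ih.cons ?_
    rw [mem_fanAt]
    rintro ⟨j, hj, e⟩
    rw [mem_Ico] at hj
    rw [dg_eq] at e
    simp only [id] at e
    omega

theorem cl_mem_of_max {N d : ℕ} (hb : ∀ F ∈ F1 cr (diag id N), F.card ≤ d) {T : Finset ℕ}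
    (hT : T ∈ F1 cr (diag id N)) (hc : T.card = d) {s : ℕ} (hs : s ∈ diag id N)
    (h : ∀ y ∈ T, ¬ cr s y) : s ∈ T := by
  by_contra hn
  obtain ⟨-, h2, h3⟩ := mem_F1.1 hT
  have := hb (insert s T) (mem_F1.2 ⟨insert_ne_empty _ _, insert_subset hs h2, ?_⟩)
  · rw [card_insert_of_notMem hn] at this
    omega
  · intro a ha b hb
    rcases mem_insert.1 ha with e1 | ha' <;> rcases mem_insert.1 hb with e2 | hb'
    · rw [e1, e2]; exact cr_irrefl _
    · rw [e1]; exact h b hb'
    · rw [e2]; exact fun e => h a ha' (cr_symm _ _ e)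
    · exact h3 a ha' b hb'

theorem cl_flip_core {N d : ℕ} (hb : ∀ F ∈ F1 cr (diag id N), F.card ≤ d) {p : List ℕ} {a b c e : ℕ}
    (h1 : a < b) (h2 : b < c) (h3 : c < e) (h4 : e ≤ N)
    (hT : insert (dg a c) p.toFinset ∈ F1 cr (diag id N))
    (hc : (insert (dg a c) p.toFinset).card = d)
    (hT' : insert (dg b e) p.toFinset ∈ F1 cr (diag id N)) :
    cl_PP (dg 0 N :: p) * cl_io (cl_vv (dg a c)) + cl_PP (dg 0 N :: p) * cl_io (cl_vv (dg b e)) = 0 := by
  have key : ∀ y ∈ p, ∃ i j, y = dg i j ∧ ¬ crI a c i j ∧ ¬ crI b e i j := by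
    intro y hy
    have hy' := List.mem_toFinset.2 hy
    obtain ⟨i, j, -, rfl⟩ := mem_diag.1 ((mem_F1.1 hT).2.1 (mem_insert_of_mem hy'))
    exact ⟨i, j, rfl,
      fun k => (mem_F1.1 hT).2.2 _ (mem_insert_self _ _) _ (mem_insert_of_mem hy')
        ((cr_dg _ _ _ _).2 k),
      fun k => (mem_F1.1 hT').2.2 _ (mem_insert_self _ _) _ (mem_insert_of_mem hy')
        ((cr_dg _ _ _ _).2 k)⟩
  have e1 : cl_vv (dg a c) + cl_vv (dg b e) = cl_vv (dg a e) + cl_vv (dg b c) := by
    funext k
    simp only [Pi.add_apply, cl_vv_dg]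
    split_ifs <;> first | rfl | omega | simp
  have k1 : cl_PP (dg 0 N :: p) * cl_io (cl_vv (dg a e)) = 0 := by
    apply cl_PP_kill
    by_cases h : a = 0 ∧ e = N
    · rw [h.1, h.2]; exact List.mem_cons_self
    · have := cl_mem_of_max hb hT hc (s := dg a e) (dg_mem_diag id (by unfold isD; omega)) (by
        intro y hy
        rcases mem_insert.1 hy with rfl | hy
        · rw [cr_dg]; unfold crI; omega
        · obtain ⟨i, j, rfl, k, k'⟩ := key y (List.mem_toFinset.1 hy)
          rw [cr_dg]; unfold crI at *; omega)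
      rcases mem_insert.1 this with k | k
      · rw [dg_eq] at k; omega
      · exact List.mem_cons_of_mem _ (List.mem_toFinset.1 k)
  have k2 : cl_PP (dg 0 N :: p) * cl_io (cl_vv (dg b c)) = 0 := by
    by_cases h : c = b + 1
    · have : cl_vv (dg b c) = 0 := by
        funext k
        rw [cl_vv_dg, if_neg (by omega)]; rfl
      rw [this, cl_io, map_zero, mul_zero]
    · apply cl_PP_kill
      have := cl_mem_of_max hb hT hc (s := dg b c) (dg_mem_diag id (by unfold isD; omega)) (by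
        intro y hy
        rcases mem_insert.1 hy with rfl | hy
        · rw [cr_dg]; unfold crI; omega
        · obtain ⟨i, j, rfl, k, k'⟩ := key y (List.mem_toFinset.1 hy)
          rw [cr_dg]; unfold crI at *; omega)
      rcases mem_insert.1 this with k | k
      · rw [dg_eq] at k; omega
      · exact List.mem_cons_of_mem _ (List.mem_toFinset.1 k)
  rw [← mul_add, ← cl_io_add, e1, cl_io_add, mul_add, k1, k2, add_zero]

theorem cl_ex_sorted {N x : ℕ} (h : x ∈ diag id N) : ∃ i j, i < j ∧ j ≤ N ∧ x = dg i j := by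
  obtain ⟨i, j, d, rfl⟩ := mem_diag.1 h
  unfold isD at d
  rcases lt_or_gt_of_ne (show i ≠ j by omega) with h | h
  · exact ⟨i, j, h, d.2.1, rfl⟩
  · exact ⟨j, i, h, d.1, dg_comm _ _⟩

theorem Mv.cl_orient {N d : ℕ} (hb : ∀ F ∈ F1 cr (diag id N), F.card ≤ d) {a b : List ℕ}
    {F : Finset ℕ} (h : Mv true a b F) (ha : a.length = d) (hn : (F ::ₘ pre a).Nodup)
    (hF : ∀ G ∈ F ::ₘ pre a, G ∈ F1 cr (diag id N)) : cl_PP (dg 0 N :: b) = -cl_PP (dg 0 N :: a) := by
  have nb : b.Nodup := by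
    have := h.cl_le 0
    rw [add_zero, Multiset.add_cons, add_zero] at this
    exact cl_nodup_of_pre (Multiset.nodup_of_le this hn)
  have na := cl_nodup_of_pre (Multiset.nodup_cons.1 hn).2
  rcases h.cl_cases with ⟨p, x, y, r, rfl, rfl⟩ | ⟨p, x, y, rfl, rfl, rfl⟩
  · exact cl_PP_swap (dg 0 N :: p) x y r
  · have m1 : insert x p.toFinset ∈ pre (p ++ [x]) := by
      rw [pre_append_single]; exact Multiset.mem_cons_self _ _
    have t1 := hF _ (Multiset.mem_cons_of_mem m1)
    have t2 := hF _ (Multiset.mem_cons_self _ _)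
    have cd : ∀ z, (p ++ [z]).Nodup → (insert z p.toFinset).card = d := by
      intro z hz
      have := List.toFinset_card_of_nodup hz
      rw [List.toFinset_append, union_comm] at this
      simp only [List.length_append, List.length_singleton] at this ha
      rw [← ha, ← this]
      rfl
    have c1 := cd x na
    have c2 := cd y nb
    have hxy : y ≠ x := by
      rintro rfl
      exact (Multiset.nodup_cons.1 hn).1 m1
    have hyp : y ∉ p := by
      intro e
      exact (List.nodup_append.1 nb).2.2 y e y (List.mem_singleton_self _) rfl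
    have hcr : cr y x := by
      by_contra hc
      have := cl_mem_of_max hb t1 c1 ((mem_F1.1 t2).2.1 (mem_insert_self _ _)) (by
        intro z hz
        rcases mem_insert.1 hz with rfl | hz
        · exact hc
        · exact (mem_F1.1 t2).2.2 _ (mem_insert_self _ _) _ (mem_insert_of_mem hz))
      rcases mem_insert.1 this with k | k
      · exact hxy k
      · exact hyp (List.mem_toFinset.1 k)
    obtain ⟨i, j, h1, h2, rfl⟩ := cl_ex_sorted ((mem_F1.1 t1).2.1 (mem_insert_self _ _))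
    obtain ⟨k, l, h3, h4, rfl⟩ := cl_ex_sorted ((mem_F1.1 t2).2.1 (mem_insert_self _ _))
    rw [cr_dg] at hcr
    rw [← List.cons_append, ← List.cons_append, cl_PP_append, cl_PP_append, eq_neg_iff_add_eq_zero]
    simp only [cl_PP, mul_one]
    have hcr' : (k < i ∧ i < l ∧ l < j) ∨ (i < k ∧ k < j ∧ j < l) := by unfold crI at hcr; omega
    rcases hcr' with ⟨a1, a2, a3⟩ | ⟨a1, a2, a3⟩
    · exact cl_flip_core hb a1 a2 a3 h2 t2 c2 t1
    · rw [add_comm]; exact cl_flip_core hb a1 a2 a3 h4 t1 c1 t2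

theorem Wk.cl_orient {N d : ℕ} (hb : ∀ F ∈ F1 cr (diag id N), F.card ≤ d) {a b : List ℕ}
    {M : Multiset (Finset ℕ)} (h : Wk true a b M) (ha : a.length = d) (hn : (pre a + M).Nodup)
    (hF : ∀ G ∈ pre a + M, G ∈ F1 cr (diag id N)) :
    cl_PP (dg 0 N :: b) = (-1) ^ Multiset.card M * cl_PP (dg 0 N :: a) := by
  induction h with
  | nil l => simp
  | @step l l' l'' F M hm _ ih =>
    have le2 : F ::ₘ pre l ≤ pre l + F ::ₘ M := by
      rw [Multiset.add_cons, ← Multiset.cons_add]; exact Multiset.le_add_right _ _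
    rw [ih (hm.cl_len.1.trans ha) (Multiset.nodup_of_le (hm.cl_le M) hn)
      (fun G hG => hF G (Multiset.mem_of_le (hm.cl_le M) hG)),
      hm.cl_orient hb ha (Multiset.nodup_of_le le2 hn) (fun G hG => hF G (Multiset.mem_of_le le2 hG)),
      Multiset.card_cons, pow_succ]
    simp

/-! ### parity of the number of faces -/

theorem cl_card_lift (x : ℕ) (S : Multiset (Finset ℕ)) :
    Multiset.card (lift x S) = Multiset.card S + 1 := by simp [lift]

theorem cl_odd_cone {D : Finset ℕ} {y : ℕ} (hy : y ∈ D) (h : ∀ a ∈ D, ¬ cr y a) :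
    Multiset.card (F1 cr D) % 2 = 1 := by
  have e : lk cr D y = D.erase y := by
    ext a
    simp only [lk, mem_filter, mem_erase]
    exact ⟨fun k => ⟨k.2.1, k.1⟩, fun k => ⟨k.2, k.1, h a k.2⟩⟩
  rw [F1_decomp cr_symm cr_irrefl hy, e, Multiset.card_add, cl_card_lift]
  omega

theorem cl_odd_Cw {V : ℕ → ℕ} {N w : ℕ} {rest : List Pl} (h : WF ∅ ((N, V) :: rest))
    (hw : w + 2 < N) : Multiset.card (F1 cr (Cw ∅ V N rest w)) % 2 = 1 := by
  have hp := h.pass hw.le
  have hy : yy V N w ∈ Gw ∅ V N w := mem_Gw.2 (Or.inr ⟨hw, rfl⟩)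
  refine cl_odd_cone (y := yy V N w) (mem_union_left _ (mem_union_left _ hy)) ?_
  intro a ha
  rcases mem_union.1 ha with ha | ha
  · rcases mem_union.1 ha with ha | ha
    · exact hp.nc _ hy _ ha
    · exact (hp.indG _ hy _ ha).2
  · exact (hp.tail.indGR _ hy _ ha).2

theorem cl_odd_PS {V : ℕ → ℕ} {N : ℕ} {rest : List Pl} (h : WF ∅ ((N, V) :: rest)) :
    ∀ w, w + 2 < N → Multiset.card (PS ∅ V N rest w) % 2 = 1
  | 0, hw => cl_odd_Cw h hw
  | w + 1, hw => by
    have h1 := cl_odd_PS h w (by omega)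
    have h2 := cl_odd_Cw h hw
    rw [PS, Multiset.card_add, cl_card_lift]
    omega

theorem cl_even_faces (k : ℕ) : ∀ L : List Pl, kR L = k → WF ∅ L →
    Multiset.card (F1 cr (DR L)) % 2 = 0 := by
  induction k using Nat.strong_induction_on with
  | _ k ih =>
    intro L hk h
    by_cases h0 : kR L = 0
    · rw [DR_zero h0]
      have : F1 cr ∅ = 0 := by
        rw [Multiset.eq_zero_iff_forall_notMem]
        intro F hF
        exact (mem_F1.1 hF).1 (subset_empty.1 (mem_F1.1 hF).2.1)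
      simp [this]
    · obtain ⟨⟨N, V⟩, hp, h3⟩ := ex_nontriv h0
      obtain ⟨rest, hr⟩ := perm_of_mem hp
      have h' := h.perm hr
      rw [kR_perm hr, kR_cons] at hk
      simp only at h3 hk
      obtain ⟨w, rfl⟩ : ∃ w, N = w + 3 := ⟨N - 3, by omega⟩
      have e := F1_passes h' (by omega)
      rw [empty_union] at e
      rw [DR_perm hr, DR, e, show w + 3 - 2 = w + 1 from rfl, PS, Multiset.card_add, cl_card_lift]
      have h1 := cl_odd_PS h' w (by omega)
      have hp := h'.pass (w := w + 1) le_rfl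
      rw [Gw_top le_rfl] at hp
      have h2 := ih _ (by rw [kR_cons, kR_Rw]; simp only; omega) _ rfl hp
      rw [DR] at h2
      rw [Cw, Gw_top le_rfl, empty_union]
      simp only at h2
      omega

theorem closed_of_St (n : ℕ) (hn : 7 ≤ n) (h : St ∅ id (n - 1) [] false false) :
    ClosedWalk n := by
  obtain ⟨N, rfl⟩ : ∃ N, n = N + 1 := ⟨n - 1, by omega⟩
  rw [Nat.add_sub_cancel] at h
  have ch : Chart id N := ⟨fun i _ j _ e => e, fun _ _ _ _ _ _ _ _ => Iff.rfl⟩
  have wf : WF ∅ [(N, id)] := WF.cons ⟨by simp [NC], by simp, by simp, List.Pairwise.nil⟩ ch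
    (by simp [Ind]) (by simp [Ind, DR])
  obtain ⟨c, hc⟩ := h 0
  have he := wf.e_notMem (by omega) false
  simp only [DR, TR, empty_union, union_empty] at hc he
  generalize hE : xx id N (N - 2) = e at hc he
  have hz : dg (id (N - 2)) (id 0) ∈ fanL id (N - 2) false := by
    rw [ch.mem_fanL (by omega) false (by omega) (by omega)]
    simp; omega
  have hy : yy id N 0 ∉ fanL id (N - 2) false := by
    rw [yy, ch.mem_fanL (by omega) false (by omega) (by omega)]
    simp; omega
  have hT : fanL id (N - 1) false = insert (yy id N 0) (fanL id (N - 2) false) := by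
    unfold fanL fanAt yy
    simp only [Bool.false_eq_true, if_false]
    rw [show N - 1 + 1 = (N - 2 + 1) + 1 by omega,
      ← Finset.insert_Ico_right_eq_Ico_add_one (by omega), image_insert, dg_comm,
      show N - 2 + 1 = N - 1 by omega]
  have hey : e ≠ yy id N 0 := by
    rw [← hE, xx, yy, Ne, dg_eq]; simp only [id]; omega
  have hU := ch.card_fanL (w := N - 2) (by omega) false
  have hfan : insert (dg 0 N) (fanL id (N - 1) false) = fanAt id 0 (Ico 2 (N - 1 + 2)) := by
    unfold fanL fanAt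
    simp only [Bool.false_eq_true, if_false]
    rw [show N - 1 + 2 = (N - 1 + 1) + 1 by omega,
      ← Finset.insert_Ico_right_eq_Ico_add_one (a := 2) (b := N - 1 + 1) (by omega), image_insert,
      show N - 1 + 1 = N by omega]
    rfl
  have hN0 : dg 0 N ∉ fanL id (N - 1) false := by
    have := ch.mem_fanL (w := N - 1) (i := 0) (j := N) (by omega) false (by omega) le_rfl
    simp only [id] at this
    rw [this]
    simp; omega
  rw [hT] at hc hfan hN0
  generalize hZ : dg (id (N - 2)) (id 0) = z at hz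
  generalize hY : yy id N 0 = y at *
  generalize fanL id (N - 2) false = U at *
  have o1 := ord_toList (U.erase z)
  have l1 := o1.length
  rw [card_erase_of_mem hz, hU] at l1
  obtain ⟨t1, t2, r, hr⟩ : ∃ t1 t2 r, (U.erase z).toList = t1 :: t2 :: r := by
    rcases hl : (U.erase z).toList with _ | ⟨t1, _ | ⟨t2, r⟩⟩
    · rw [hl] at l1; simp at l1; omega
    · rw [hl] at l1; simp at l1; omega
    · exact ⟨t1, t2, r, rfl⟩
  rw [hr] at o1 l1
  have t12 : t1 ≠ t2 := by
    rintro rfl
    simpa using o1.1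
  have o2 : Ord U (t1 :: t2 :: r ++ [z]) := by
    have := o1.snoc (notMem_erase z U)
    rwa [insert_erase hz] at this
  have o2' : Ord U (t2 :: t1 :: r ++ [z]) := o2.of_perm (List.Perm.swap _ _ _)
  have oa := o2.snoc hy
  have ob := o2.cons he
  have ob' := o2'.cons he
  have la : (t1 :: t2 :: r ++ [z] ++ [y]).length = N - 2 := by
    rw [oa.length, card_insert_of_notMem hy]; omega
  have lb : (e :: (t1 :: t2 :: r ++ [z])).length = N - 2 := by
    rw [ob.length, card_insert_of_notMem he]; omega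
  have ra : RP (insert y U) [] (LA ∅ id N []) (t1 :: t2 :: r ++ [z] ++ [y]) :=
    ⟨oa, t1 :: t2 :: r ++ [z], y, rfl, Or.inr ⟨hY.symm, by omega, by simp⟩⟩
  have lz : LB ∅ id N [] 0 z := Or.inr ⟨rfl, Or.inl ⟨by omega, hZ.symm⟩⟩
  have hh : ∀ a b, H2 (hH ∅ N []) a b := fun a b k => absurd k.1 (by omega)
  have bub := bubble e y (t1 :: t2 :: r ++ [z])
  have nb : (pre (t1 :: t2 :: r ++ [z] ++ [y]) + pre (e :: (t1 :: t2 :: r ++ [z]))).Nodup := by
    refine Multiset.nodup_add.2 ⟨cl_pre_nodup oa.1, cl_pre_nodup ob.1, Multiset.disjoint_left.2 ?_⟩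
    intro F h1 h2
    have := (cl_mem_pre h1).2 (cl_head_mem_pre h2)
    rw [oa.2] at this
    rcases mem_insert.1 this with k | k
    · exact hey k
    · exact he k
  by_cases good : sg (t1 :: t2 :: r ++ [z] ++ [y]) + sg (e :: (t1 :: t2 :: r ++ [z])) = c
  · obtain ⟨M, w, hM⟩ := (hc _ _ ra ⟨ob, t1 :: t2 :: r, z, rfl, lz⟩ (hh _ _) good).symm
    obtain ⟨F1', w1, e1⟩ := w.cl_toWn (hM ▸ nodup_F1 _)
    obtain ⟨F2, w2, e2⟩ := bub.cl_toWn nb
    refine ⟨_, F1' ++ F2, ob.1, by rw [lb]; omega, w1.cl_trans w2, ?_⟩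
    rw [← Multiset.coe_add, e1, e2, add_comm, hM]
    rfl
  · exfalso
    have bad : sg (t1 :: t2 :: r ++ [z] ++ [y]) + sg (e :: (t2 :: t1 :: r ++ [z])) = c := by
      have s := sg_append_swap t12 [e] (r ++ [z])
      have z2 : ∀ u v w c : ZMod 2, v = w + 1 → ¬ u + v = c → u + w = c := by decide
      exact z2 _ _ _ _ s good
    have sg1 := hc _ _ ra ⟨ob', t2 :: t1 :: r, z, rfl, lz⟩ (hh _ _) bad
    obtain ⟨M', -, hM'⟩ := sg1.symm
    obtain ⟨M, w, hM⟩ := sg1
    have hb : ∀ F ∈ F1 cr (diag id N), F.card ≤ N - 2 := by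
      intro F hF
      rw [← hM, Multiset.mem_add] at hF
      rw [← la]
      rcases hF with hF | hF
      · exact (card_le_card (cl_mem_pre hF).2).trans (List.toFinset_card_le _)
      · exact w.cl_card_le F hF
    have top : insert e U ∈ F1 cr (diag id N) := by
      rw [← hM', ← ob'.2]
      apply Multiset.mem_add.2 (Or.inl _)
      rw [← List.cons_append, pre_append_single, List.toFinset_append, union_comm]
      exact Multiset.mem_cons_self _ _
    have k1 := w.cl_orient hb la (hM ▸ nodup_F1 _) (fun G hG => hM ▸ hG)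
    have k2 := bub.cl_orient hb la nb (by
      intro G hG
      rcases Multiset.mem_add.1 hG with hG | hG
      · exact hM ▸ Multiset.mem_add.2 (Or.inl hG)
      · obtain ⟨a1, a2⟩ := cl_mem_pre hG
        rw [ob.2] at a2
        obtain ⟨-, b2, b3⟩ := mem_F1.1 top
        exact mem_F1.2 ⟨a1, a2.trans b2, fun a ha b hb => b3 a (a2 ha) b (a2 hb)⟩)
    have k3 := cl_PP_swap [dg 0 N, e] t1 t2 (r ++ [z])
    have ev := cl_even_faces _ _ rfl wf
    simp only [DR, union_empty] at ev
    rw [← hM, Multiset.card_add, cl_card_pre, la] at ev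
    rw [cl_card_pre, lb] at k2
    have par : (-1 : cl_EA) ^ Multiset.card M = (-1) ^ (N - 2) := by
      rw [neg_one_pow_eq_pow_mod_two, neg_one_pow_eq_pow_mod_two (N - 2)]
      congr 1
      omega
    have nz : cl_PP (dg 0 N :: (t1 :: t2 :: r ++ [z] ++ [y])) ≠ 0 := by
      have p := (oa.cons hN0).perm (hfan ▸ cl_fl_ord (N - 1))
      rcases cl_PP_perm p with k | k
      · rw [k]; exact cl_fl_ne _
      · rw [k]; exact neg_ne_zero.2 (cl_fl_ne _)
    rw [par, ← k2] at k1
    have k4 : cl_PP (dg 0 N :: e :: (t1 :: t2 :: r ++ [z])) = 0 := by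
      have : (2 : ℚ) • cl_PP (dg 0 N :: e :: (t1 :: t2 :: r ++ [z])) = 0 := by
        rw [two_smul]
        nth_rewrite 1 [← k1]
        exact add_eq_zero_iff_eq_neg.2 k3
      simpa using this
    rw [k4] at k2
    exact nz ((((isUnit_one.neg).pow _).mul_right_eq_zero).1 k2.symm)

end Pool.Agent.MP_086a35_co

end
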