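import Pool.Agent.MP_086a35_co.Mg.BaseChk
import Pool.Agent.MP_086a35_co.Mg.BaseCfg

-- part MP_086a35_co.Step0
section

set_option autoImplicit false

namespace Pool.Agent.MP_086a35_co

open Finset

variable {G : Finset ℕ} {V W U : ℕ → ℕ} {N M n : ℕ} {rest oth : List Pl}

def StZ (G : Finset ℕ) (V : ℕ → ℕ) (N : ℕ) (rest : List Pl) (a b : Bool) (z : ℕ) : Prop :=
  AA (F1 cr (G ∪ diag V N ∪ DR rest)) (G ∪ fanL V (N - 1) a ∪ TR rest) (LA G V N rest)
    (insert (xx V N (N - 2)) (G ∪ fanL V (N - 2) b ∪ TR rest)) (xx V N (N - 2))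
    (LB G V N rest z) (hH G N rest)

theorem StZ.congr {r r' : List Pl} {a b : Bool} {z : ℕ} (h1 : DR r = DR r') (h2 : TR r = TR r')
    (h3 : kR r = kR r') (h4 : ∀ c, Ear r' c → Ear r c) (h : StZ G V N r a b z) :
    StZ G V N r' a b z := by
  unfold StZ at *
  rw [← h1, ← h2]
  refine h.mono ?_ ?_ ?_
  · intro c hc
    unfold LA at *
    rwa [h3]
  · rintro c (hc | ⟨k1, k2 | ⟨k2, k3, k4⟩⟩)
    · exact Or.inl hc
    · exact Or.inr ⟨k1, Or.inl k2⟩
    · exact Or.inr ⟨k1, Or.inr ⟨k2, h4 c k3, k4⟩⟩
  · unfold hH
    rw [h3]
    exact id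

theorem StZ.perm {r r' : List Pl} {a b : Bool} {z : ℕ} (p : r.Perm r') (h : StZ G V N r a b z) :
    StZ G V N r' a b z :=
  h.congr (DR_perm p) (TR_perm p) (kR_perm p)
    (fun _ ⟨q, hq, k⟩ => ⟨q, p.mem_iff.2 hq, k⟩)

theorem not_Ear (h : kR rest = 0) (c : ℕ) : ¬ Ear rest c := by
  rintro ⟨q, hq, k, -⟩
  have := kR_zero h q hq
  omega

theorem StZ.nil {a b : Bool} {z : ℕ} (h0 : kR rest = 0) (h : StZ G V N [] a b z) :
    StZ G V N rest a b z :=
  StZ.congr (r := []) (DR_zero h0).symm (TR_zero h0).symm h0.symm
    (fun c k => absurd k (not_Ear h0 c)) h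

theorem StZ.one {a b : Bool} {z : ℕ} {p : Pl} (h0 : kR oth = 0) (h : StZ G V N [p] a b z) :
    StZ G V N (p :: oth) a b z := by
  refine h.congr ?_ ?_ ?_ ?_
  · simp only [DR, DR_zero h0]
  · simp only [TR, TR_zero h0]
  · rw [kR_cons, kR_cons, h0]; rfl
  · rintro c ⟨q, hq, k, k'⟩
    rcases List.mem_cons.1 hq with rfl | hq
    · exact ⟨q, List.mem_cons_self, k, k'⟩
    · have := kR_zero h0 q hq
      omega

theorem WF.sub {L L' : List Pl} (h : WF G L) (s : L'.Sublist L) : WF G L' :=
  ⟨h.nc, fun q hq => h.ch q (s.subset hq), fun q hq => h.ind q (s.subset hq), h.pw.sublist s⟩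

theorem WF.rechart {L : List Pl} (h : WF G ((M, W) :: L)) (hU : Chart U M)
    (hD : diag U M = diag W M) : WF G ((M, U) :: L) :=
  h.tail.cons hU (by rw [hD]; exact h.indG) (by rw [hD]; exact h.indR)

theorem WF.swap {p q : Pl} {L : List Pl} (h : WF G (p :: q :: L)) : WF G (q :: p :: L) :=
  h.perm (List.Perm.swap _ _ _)

theorem WF.nG (h : WF G ((N, V) :: rest)) {i j : ℕ} (d : isD N i j) : dg (V i) (V j) ∉ G :=
  fun e => (h.indG _ e _ (dg_mem_diag V d)).1 rfl

theorem Chart.ne (h : Chart V N) {i j k l : ℕ}
    (d : i ≤ N ∧ j ≤ N ∧ k ≤ N ∧ l ≤ N ∧ ¬ ((i = k ∧ j = l) ∨ (i = l ∧ j = k))) :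
    dg (V i) (V j) ≠ dg (V k) (V l) :=
  fun e => d.2.2.2.2 ((h.dg_eq d.1 d.2.1 d.2.2.1 d.2.2.2.1).1 e)

theorem WF.ne2 (h : WF G ((N, V) :: (M, W) :: rest)) {i j k l : ℕ} (d : isD N i j)
    (d' : isD M k l) : dg (V i) (V j) ≠ dg (W k) (W l) :=
  (h.indR _ (dg_mem_diag V d) _ (mem_union_left _ (dg_mem_diag W d'))).1

theorem finishZ (h : WF G ((N, V) :: rest)) (hN : 3 ≤ N) {a b : Bool} {z : ℕ}
    (k : Ch (PS G V N rest (N - 2)) (RP (G ∪ fanL V (N - 1) a ∪ TR rest) [] (LA G V N rest))
      (xx V N (N - 2)) (RP (G ∪ fanL V (N - 2) b ∪ TR rest) [] (LB G V N rest z))) :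
    StZ G V N rest a b z := by
  unfold StZ
  rw [F1_passes h (by omega)]
  exact k.fin _ rfl (h.e_notMem hN b)

theorem fanL_1 (V : ℕ → ℕ) (b : Bool) : fanL V 1 b = ∅ := by
  cases b <;> simp [fanL, fanAt]

theorem fanL_2 (V : ℕ → ℕ) (b : Bool) : fanL V 2 b = {dg (V 0) (V 2)} := by
  cases b <;> simp [fanL, fanAt, dg_comm]

theorem fanL_3f (V : ℕ → ℕ) : fanL V 3 false = {dg (V 0) (V 2), dg (V 0) (V 3)} := by
  have : Ico 2 4 = {2, 3} := by decide
  simp [fanL, fanAt, this]

theorem fanL_3t (V : ℕ → ℕ) : fanL V 3 true = {dg (V 3) (V 0), dg (V 3) (V 1)} := by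
  have : range 2 = {0, 1} := by decide
  simp [fanL, fanAt, this]

theorem fanL_4f (V : ℕ → ℕ) :
    fanL V 4 false = {dg (V 0) (V 2), dg (V 0) (V 3), dg (V 0) (V 4)} := by
  have : Ico 2 5 = {2, 3, 4} := by decide
  simp [fanL, fanAt, this]

theorem fanL_4t (V : ℕ → ℕ) :
    fanL V 4 true = {dg (V 4) (V 0), dg (V 4) (V 1), dg (V 4) (V 2)} := by
  have : range 3 = {0, 1, 2} := by decide
  simp [fanL, fanAt, this]

theorem fan0_3 (V : ℕ → ℕ) : fan0 (3, V) = {dg (V 0) (V 2)} := by
  rw [fan0_eq V (by omega), fanL_2]

theorem fan0_4 (V : ℕ → ℕ) : fan0 (4, V) = {dg (V 0) (V 2), dg (V 0) (V 3)} := by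
  rw [fan0_eq V (by omega), fanL_3f]

theorem kR_nil : kR [] = 0 := rfl

theorem LA.ofG {c : ℕ} (h : c ∈ G) : LA G V N rest c := Or.inl h

theorem LB.ofG {c z : ℕ} (h : c ∈ G) : LB G V N rest z c := Or.inl h

theorem LB.mem {c z : ℕ} (h : LB G V N rest z c) (hG : 1 ≤ G.card) : c ∈ G := by
  rcases h with h | ⟨h, -⟩
  · exact h
  · rw [h, card_empty] at hG
    omega

theorem LA.mem0 {c : ℕ} (h : LA G V N rest c) (hN : 3 ≤ N) : c ∈ Gw G V N 0 := by
  rcases h with h | ⟨h, -⟩
  · exact mem_Gw.2 (Or.inl h)
  · exact mem_Gw.2 (Or.inr ⟨hN, h⟩)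

/-- call on a member of `rest` during pass `0` or `1` -/
theorem callR (ih : IH n) (h : WF G ((N, V) :: (M, W) :: oth))
    (hd : 5 ≤ G.card + (N - 2) + kR ((M, W) :: oth))
    (hn : G.card + 2 * (N - 2 + kR ((M, W) :: oth)) ≤ n) {w : ℕ} (hw : w ≤ 1) (hN : 3 ≤ N)
    (hU : Chart U M) (hD : diag U M = diag W M) {a b : Bool}
    (hv : Val M (N - 3 - w + kR oth) a b) (z : ℕ) :
    AA (F1 cr (Cw G V N ((M, W) :: oth) w)) (G ∪ (fanL U (M - 1) a ∪ YY V N w) ∪ TR oth)
      (LA (Gw G V N w) U M (Rw V N w oth))
      (insert (xx U M (M - 2)) (G ∪ (fanL U (M - 2) b ∪ YY V N w) ∪ TR oth)) (xx U M (M - 2))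
      (LB (Gw G V N w) U M (Rw V N w oth) z) (hH (Gw G V N w) M (Rw V N w oth)) := by
  have hp : WF (Gw G V N w) ((M, U) :: Rw V N w oth) :=
    (h.pass (w := w) (by omega)).tail.swap.rechart hU hD
  have hc := h.card_Gw w
  have hM := hv.1
  rw [kR_cons] at hd hn
  simp only at hd hn
  have := ih _ _ _ _ a b hp (by rw [kR_Rw]; exact hv)
    (by rw [kR_Rw, hc]; split_ifs <;> omega) (by rw [kR_Rw, hc]; split_ifs <;> omega) z
  rw [nf _ (by omega), nf _ (by omega)] at this
  have e : Cw G V N ((M, W) :: oth) w = Gw G V N w ∪ diag U M ∪ DR (Rw V N w oth) := by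
    rw [Cw_low hw, hD]
    simp only [Rw, DR]
    ext; simp only [mem_union]; tauto
  rw [e]
  exact this

/-- call on the right polygon during pass `0` or `1` -/
theorem callW (ih : IH n) (h : WF G ((N, V) :: rest)) (hd : 5 ≤ G.card + (N - 2) + kR rest)
    (hn : G.card + 2 * (N - 2 + kR rest) ≤ n) {w : ℕ} (hw : w ≤ 1) (hM : N - 1 - w = M)
    (hU : Chart U M) (hD : diag U M = diag (VR V N w) M) {a b : Bool}
    (hv : Val M (kR rest) a b) (z : ℕ) :
    AA (F1 cr (Cw G V N rest w)) (insert (yy V N w) G ∪ fanL U (M - 1) a ∪ TR rest)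
      (LA (insert (yy V N w) G) U M rest)
      (insert (xx U M (M - 2)) (insert (yy V N w) G ∪ fanL U (M - 2) b ∪ TR rest)) (xx U M (M - 2))
      (LB (insert (yy V N w) G) U M rest z) (hH (insert (yy V N w) G) M rest) := by
  have hM3 := hv.1
  subst hM
  have hp : WF (Gw G V N w) ((N - 1 - w, U) :: rest) :=
    (h.pass (w := w) (by omega)).tail.rechart hU hD
  have hc := h.card_Gw w
  have := ih _ _ _ _ a b hp hv
    (by rw [hc]; split_ifs <;> omega) (by rw [hc]; split_ifs <;> omega) z
  have e : Cw G V N rest w = Gw G V N w ∪ diag U (N - 1 - w) ∪ DR rest := by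
    rw [Cw_low hw, hD, union_assoc]
    rfl
  rw [e]
  rw [Gw_lt (by omega)] at this ⊢
  exact this

/-- simplex times quadrilateral -/
theorem callQ (ih : IH n) {Q : ℕ → ℕ} (h : WF G [(3, Q)]) (hd : 3 ≤ G.card) (hn : G.card + 2 < n)
    {p q : ℕ} (hp : p = dg (Q 0) (Q 2)) (hq : q = dg (Q 1) (Q 3)) :
    AA (F1 cr (G ∪ diag Q 3)) (insert p G) (· ∈ G) (insert q G) q (· ∈ G) (4 ≤ G.card) := by
  have := ih _ _ _ _ true true h ⟨le_rfl, Or.inl rfl⟩ (by rw [kR_nil]; omega)
    (by rw [kR_nil]; omega) 0
  simp only [DR, TR, union_empty, show 3 - 1 = 2 from rfl, show 3 - 2 = 1 from rfl, fanL_1, fanL_2,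
    xx] at this
  rw [hp, hq, insert_eq (dg (Q 0) (Q 2)), union_comm {dg (Q 0) (Q 2)}]
  exact this.mono (fun _ => LA.ofG) (fun _ => LB.ofG) (fun k => k.2.2)

/-- simplex times pentagon -/
theorem callP (ih : IH n) (h : WF G [(4, U)]) (hd : 2 ≤ G.card) (hn : G.card + 4 < n)
    {p q r : ℕ} (hp : p = dg (U 0) (U 2)) (hq : q = dg (U 0) (U 3)) (hr : r = dg (U 2) (U 4)) :
    AA (F1 cr (G ∪ diag U 4)) (insert p (insert q G)) (fun c => c ∈ G ∨ c = q)
      (insert r (insert p G)) r (· ∈ G) False := by
  have := ih _ _ _ _ false true h ⟨by omega, Or.inr (by simp [kR_nil])⟩ (by rw [kR_nil]; omega)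
    (by rw [kR_nil]; omega) 0
  simp only [DR, TR, union_empty, show 4 - 1 = 3 from rfl, show 4 - 2 = 2 from rfl, fanL_3f, fanL_2,
    xx] at this
  have e1 : insert p (insert q G) = G ∪ {dg (U 0) (U 2), dg (U 0) (U 3)} := by
    rw [hp, hq]; ext; simp only [mem_union, mem_insert, mem_singleton]; tauto
  have e2 : insert p G = G ∪ {dg (U 0) (U 2)} := by
    rw [hp]; ext; simp only [mem_union, mem_insert, mem_singleton]; tauto
  rw [e1, e2, hr]
  refine this.mono ?_ (fun _ => LB.ofG) (fun k => by have := k.1; omega)
  rintro c (k | k)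
  · exact LA.ofG k
  · exact Or.inr ⟨k.trans (hq.trans (dg_comm _ _)), by rw [kR_nil], by omega⟩

/-- simplex times two quadrilaterals -/
theorem callQQ (ih : IH n) {Q Q' : ℕ → ℕ} (h : WF G [(3, Q), (3, Q')]) (hd : 2 ≤ G.card)
    (hn : G.card + 4 < n) {p q r : ℕ} (hp : p = dg (Q 0) (Q 2)) (hq : q = dg (Q 1) (Q 3))
    (hr : r = dg (Q' 0) (Q' 2)) :
    AA (F1 cr (G ∪ diag Q 3 ∪ diag Q' 3)) (insert p (insert r G)) (fun c => c ∈ G ∨ c = p)
      (insert q (insert r G)) q (· ∈ G) False := by
  have hk : kR [(3, Q')] = 1 := rfl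
  have := ih _ _ _ _ true true h ⟨le_rfl, Or.inl rfl⟩ (by rw [hk]; omega) (by rw [hk]; omega) 0
  simp only [DR, TR, union_empty, show 3 - 1 = 2 from rfl, show 3 - 2 = 1 from rfl, fanL_1, fanL_2,
    xx, fan0_3] at this
  have e1 : insert p (insert r G) = G ∪ {dg (Q 0) (Q 2)} ∪ {dg (Q' 0) (Q' 2)} := by
    rw [hp, hr]; ext; simp only [mem_union, mem_insert, mem_singleton]; tauto
  have e2 : insert r G = G ∪ {dg (Q' 0) (Q' 2)} := by
    rw [hr]; ext; simp only [mem_union, mem_insert, mem_singleton]; tauto
  rw [e1, e2, hq]
  refine this.mono ?_ (fun _ => LB.ofG) (fun k => by have := k.2.1; omega)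
  rintro c (k | k)
  · exact LA.ofG k
  · exact Or.inr ⟨k.trans (hp.trans (dg_comm _ _)), by rw [hk], by omega⟩

end Pool.Agent.MP_086a35_co

end

-- part MP_086a35_co.Step1
section

set_option autoImplicit false

namespace Pool.Agent.MP_086a35_co

open Finset

variable {G : Finset ℕ} {V W U : ℕ → ℕ} {N M n : ℕ} {rest oth : List Pl}

theorem Ch.start {S : Multiset (Finset ℕ)} {A A' : Finset ℕ} {L L' : ℕ → Prop} {x : ℕ}
    {Q : List ℕ → Prop} (k : Ch S (RP A [] L) x Q) (hA : A' = A) (hL : ∀ c, L' c → L c) :
    Ch S (RP A' [] L') x Q := by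
  obtain ⟨c, k⟩ := k
  exact ⟨c, fun a b h1 h2 h3 => k a b (hA ▸ RP.mono hL a h1) h2 h3⟩

theorem Ch.stop {S : Multiset (Finset ℕ)} {A A' : Finset ℕ} {L : ℕ → Prop} {x : ℕ} {p : List ℕ}
    {P : List ℕ → Prop} (k : Ch S P x (RP A p L)) (hA : A' = A) : Ch S P x (RP A' p L) :=
  hA ▸ k

theorem WF.card_T (h : WF G ((N, V) :: rest)) (hN : 3 ≤ N) (b : Bool) :
    (insert (xx V N (N - 2)) (G ∪ fanL V (N - 2) b ∪ TR rest)).card =
      G.card + (N - 2) + kR rest := by
  rw [card_insert_of_notMem (h.e_notMem hN b), h.card_ctx (fanL_sub V (by omega) b),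
    h.head.card_fanL (by omega)]
  omega

theorem WF.lowW (h : WF G ((N, V) :: rest)) {w : ℕ} (hw : w ≤ 1) (hN : w + 2 < N)
    (hM : N - 1 - w = M) (hU : Chart U M) (hD : diag U M = diag (VR V N w) M) :
    WF (insert (yy V N w) G) ((M, U) :: rest) ∧
      Cw G V N rest w = insert (yy V N w) G ∪ diag U M ∪ DR rest := by
  subst hM
  rw [← Gw_lt hN]
  refine ⟨(h.pass (w := w) hN.le).tail.rechart hU hD, ?_⟩
  rw [Cw_low hw, hD, union_assoc]
  rfl

theorem WF.highL (h : WF G ((N, V) :: rest)) {w : ℕ} (hw : w + 2 ≤ N) (hN : N ≤ w + 3)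
    (hU : Chart U (w + 1)) (hD : diag U (w + 1) = diag (VL V N w) (w + 1)) :
    WF (Gw G V N w) ((w + 1, U) :: rest) ∧
      Cw G V N rest w = Gw G V N w ∪ diag U (w + 1) ∪ DR rest := by
  refine ⟨((h.pass hw).sub ((List.sublist_cons_self _ _).cons_cons _)).rechart hU hD, ?_⟩
  rw [Cw, hD, Rw, DR, diag_small _ (N := N - 1 - w) (by omega), empty_union]

theorem WF.Cw_bool (h : WF G ((N, V) :: rest)) {w : ℕ} (hw : w ≤ 1) (hN : w + 2 ≤ N)
    (hk : N - 3 - w + kR rest = 0) : F1 cr (Cw G V N rest w) = P1 (Gw G V N w) := by
  rw [Cw_low hw, DR_zero (by rw [kR_Rw, hk]), union_empty, F1_eq_P1 (h.pass hN).nc]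

theorem TT_one (b : Bool) : TT G V N rest 1 b = G ∪ YY V N 1 ∪ TR rest := by
  rw [TT, fanL_1, empty_union]

theorem step_S4 (h : WF G [(3, V)]) (hd : 4 ≤ G.card) (a b : Bool) (z : ℕ) :
    StZ G V 3 [] a b z := by
  have k := S4abs (y := yy V 3 0) (x := xx V 3 1) (G := G) (h.yy_notMem (by omega))
    (h.nG (by decide)) hd
  unfold StZ
  rw [F1_passes h (by omega)]
  simp only [show 3 - 2 = 1 from rfl, show 3 - 1 = 2 from rfl, PS, fanL_1, fanL_2, TR, union_empty]
  rw [h.Cw_bool (by omega) (by omega) rfl, h.Cw_bool (by omega) (by omega) rfl, Gw_lt (by omega),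
    Gw_top (by omega), union_comm, dg_comm]
  refine k.mono ?_ (fun c k => k.mem (by omega)) (fun _ => ⟨rfl, rfl, hd⟩)
  rintro c (k | ⟨-, k, -⟩)
  · exact k
  · rw [kR_nil] at k
    omega

theorem step_S5 (ih : IH n) (h : WF G [(4, V)]) (hd : 3 ≤ G.card) (hn : G.card + 4 ≤ n)
    (b : Bool) : St G V 4 [] false b := by
  have hc := h.head
  obtain ⟨w0, e0⟩ := h.lowW (w := 0) (M := 3) (by omega) (by omega) rfl
    ((hc.vr (w := 0) (by omega)).rf (c := 1) (by omega)) (diag_RF _ (by omega))
  have c0 : (insert (yy V 4 0) G).card = G.card + 1 :=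
    card_insert_of_notMem (h.yy_notMem (by omega))
  have c1 : (insert (yy V 4 1) G).card = G.card + 1 :=
    card_insert_of_notMem (h.yy_notMem (by omega))
  have k0 := callQ ih w0 (by omega) (by omega) (p := dg (V 0) (V 2)) (q := yy V 4 1) rfl rfl
  have k1 := ClBool (G := insert (yy V 4 1) G) (by omega) (yy V 4 1)
  have hy : yy V 4 0 ∉ insert (yy V 4 1) G := by
    rw [mem_insert, not_or]
    exact ⟨hc.ne (by decide), h.yy_notMem (by omega)⟩
  have k2 := J0 (xx V 4 1) k0 k1 hy (by
    rintro a b ⟨-, ta, c, rfl, -⟩ - p
    obtain ⟨u, t, z, h1, h2, h3, h4⟩ := E4 (mem_insert_self (yy V 4 1) G) c (b.headD 0)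
      (by omega) p
    refine ⟨_, h3, h4, ⟨?_, u :: (t ++ [z]), _, rfl, mem_insert_self _ _⟩, fun _ => Or.inl ?_,
      ⟨h3, u :: t, z, rfl, trivial⟩, ?_⟩
    · rw [insert_comm]
      exact h3.snoc hy
    · rw [List.nil_append, lst1]
      exact fun e => h1 (Option.some.inj e)
    · rw [← List.cons_append, lst2]
      intro e
      rw [List.headD_eq_head?_getD, ← e] at h2
      exact h2 rfl)
  refine chain_all ih h (by rw [kR_nil]; omega) (by rw [kR_nil]; omega) (w := 1) (β := true)
    le_rfl (by omega) (fun u _ _ => by omega) ⟨le_rfl, Or.inl rfl⟩ ?_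
  rw [PS, PS, e0, h.Cw_bool (by omega) (by omega) rfl, Gw_lt (by omega), DR, union_empty]
  refine (k2.start ?_ ?_).stop ?_
  · rw [fanL_3f, yy, dg_comm (V 0) (V 3)]
    ext; simp only [TR, mem_union, mem_insert, mem_singleton, notMem_empty]; tauto
  · intro c k
    have := k.mem0 (by omega)
    rwa [Gw_lt (by omega)] at this
  · rw [TT_one, YY_succ V (by omega), YY_top V (by omega)]
    ext; simp only [TR, mem_union, mem_insert, notMem_empty]; tauto

theorem fanL_VR (V : ℕ → ℕ) (N w u : ℕ) :
    fanL (VR V N w) u false = fanAt V (N - 1) (Ico (w + 1) (w + u)) := by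
  unfold fanL
  simp only [Bool.false_eq_true, if_false]
  refine fanAt_congr (by simp [VR, rho]) (fun j hj => ⟨w + j - 1, ?_, ?_⟩)
    (fun j hj => ⟨j + 1 - w, ?_, ?_⟩) <;> simp only [mem_Ico] at hj ⊢
  · omega
  · simp only [VR, rho]; rw [if_neg (by omega)]
  · omega
  · simp only [VR, rho]; rw [if_neg (by omega)]; congr 1; omega

theorem fanAt_Ico (V : ℕ → ℕ) (r : ℕ) {i j : ℕ} (h : i < j) :
    fanAt V r (Ico i j) = insert (dg (V r) (V i)) (fanAt V r (Ico (i + 1) j)) := by
  unfold fanAt
  rw [← Finset.insert_Ico_add_one_left_eq_Ico h, image_insert]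

/-- a single polygon, start in the fan at the last but one vertex -/
theorem step_ii (ih : IH n) {m : ℕ} (h : WF G [(m + 5, V)]) (hd : 2 ≤ G.card + m)
    (hn : G.card + 2 * (m + 3) ≤ n) {b : Bool} (hb : m = 0 → b = false) :
    St G V (m + 5) [] true b := by
  have hc := h.head
  have hd' : 5 ≤ G.card + (m + 5 - 2) + kR [] := by rw [kR_nil]; omega
  have hn' : G.card + 2 * (m + 5 - 2 + kR []) ≤ n := by rw [kR_nil]; omega
  have k0 := callW ih h hd' hn' (w := 0) (M := m + 4) (by omega) rfl (hc.vr (by omega)) rfl
    (a := false) (b := false) ⟨by omega, Or.inr (by simp [kR_nil])⟩ 0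
  have k1 := callW ih h hd' hn' (w := 1) (M := m + 3) (by omega) rfl (hc.vr (by omega)) rfl
    (a := false) (b := false) ⟨by omega, Or.inr (by simp [kR_nil])⟩ 0
  have w1 := (h.lowW (w := 1) (M := m + 3) (by omega) (by omega) rfl (hc.vr (by omega)) rfl).1
  have c1 := w1.card_T (by omega) false
  have c2 : (insert (yy V (m + 5) 1) G).card = G.card + 1 :=
    card_insert_of_notMem (h.yy_notMem (by omega))
  have x0 : xx (VR V (m + 5) 0) (m + 4) (m + 4 - 2) = dg (V (m + 1)) (V (m + 3)) := by
    simp [xx, VR, rho]
  have x1 : xx (VR V (m + 5) 1) (m + 3) (m + 3 - 2) = dg (V (m + 1)) (V (m + 3)) := by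
    simp only [xx, VR, rho]
    rw [if_neg (by omega), if_neg (by omega)]
    congr 2 <;> omega
  rw [x0, fanL_VR, fanL_VR] at k0
  rw [x1, fanL_VR] at c1
  rw [x1, fanL_VR, fanL_VR] at k1
  have hy1 : yy V (m + 5) 1 ≠ dg (V (m + 1)) (V (m + 3)) := hc.ne (by omega)
  have k2 := JAB (L := (· = yy V (m + 5) 1)) (y := yy V (m + 5) 0) (xx V (m + 5) 1) k0 k1
    (fun k => by have := k.1; omega) (by
      rw [fanAt_Ico V _ (i := 0 + 1) (by omega), show 0 + (m + 4 - 2) = 1 + (m + 3 - 2) by omega]
      ext; simp only [mem_union, mem_insert, yy]; tauto) (by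
      simp only [mem_insert, mem_union, TR, notMem_empty, or_false, h.yy_notMem (w := 0) (by omega),
        not_or]
      refine ⟨hc.ne (by omega), hc.ne (by omega), ?_⟩
      rw [yy, hc.mem_fanAt (by omega) (fun j hj => by rw [mem_Ico] at hj; omega) (by omega)
        (by omega), mem_Ico, mem_Ico]
      omega) (LB.ofG (mem_insert_self _ _)) (mem_insert_self _ _) (by rw [c1, c2]; omega)
    (by rintro z rfl; exact LA.ofG (mem_insert_self _ _))
    (by rintro z rfl; exact ⟨_, by simp, hy1, LB.ofG (mem_insert_self _ _), fun _ => rfl⟩)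
  refine chain_all ih h hd' hn' (w := 1) (β := decide (2 ≤ m)) le_rfl (by omega) ?_ ?_ ?_
  · intro u h1 h2
    refine ⟨by omega, ?_⟩
    simp only [kR_nil, decide_eq_true_eq, decide_eq_false_iff_not]
    omega
  · refine ⟨by omega, Or.inr ?_⟩
    simp only [kR_nil, decide_eq_false_iff_not]
    exact ⟨fun k => absurd rfl k, fun _ => ⟨fun k => hb (by omega), fun k => Or.inr (by omega)⟩⟩
  · refine (k2.start ?_ ?_).stop ?_
    · rw [fanL_true_YY, YY_succ V (by omega), YY, show 0 + (m + 4 - 1) = m + 5 - 2 by omega]
      ext; simp only [mem_union, mem_insert]; tauto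
    · intro c k
      have := k.mem0 (by omega)
      rw [Gw_lt (by omega)] at this
      exact LA.ofG this
    · rw [TT_one, YY_succ V (by omega), YY, show 1 + (m + 3 - 1) = m + 5 - 2 by omega]
      ext; simp only [mem_union, mem_insert]; tauto

end Pool.Agent.MP_086a35_co

end

-- part MP_086a35_co.Step2
section

set_option autoImplicit false

namespace Pool.Agent.MP_086a35_co

open Finset

variable {G : Finset ℕ} {V W U : ℕ → ℕ} {N M n : ℕ} {rest oth : List Pl}

theorem fanL_a {a : Bool} (ha : N = 3 ∨ a = true) : fanL V (N - 1) a = YY V N 0 := by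
  rw [← fanL_true_YY]
  rcases ha with rfl | rfl
  · exact (fanL_2 V a).trans (fanL_2 V true).symm
  · rfl

theorem passR (ih : IH n) (h : WF G ((N, V) :: (M, W) :: oth))
    (hd : 5 ≤ G.card + (N - 2) + kR ((M, W) :: oth))
    (hn : G.card + 2 * (N - 2 + kR ((M, W) :: oth)) ≤ n) (hN : 3 ≤ N)
    (hU : Chart U M) (hD : diag U M = diag W M) {a a' b' : Bool} (ha : N = 3 ∨ a = true)
    (hF : fanL U (M - 1) a' = fan0 (M, W))
    (hv0 : Val M (N - 3 - 0 + kR oth) a' b') (hv1 : Val M (N - 3 - 1 + kR oth) a' b')
    (hh : ¬ (M = 3 ∧ N - 3 + kR oth = 0)) (z1 : ℕ) {L : ℕ → Prop}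
    (hL : ∀ z, L z → LA (Gw G V N 1) U M (Rw V N 1 oth) z)
    (hl : ∀ z, L z → ∃ l ∈ G ∪ (fanL U (M - 2) b' ∪ YY V N 1) ∪ TR oth,
      LB (Gw G V N 1) U M (Rw V N 1 oth) z1 l ∧ (4 ≤ (Gw G V N 1).card → l = z)) :
    Ch (PS G V N ((M, W) :: oth) 1)
      (RP (G ∪ fanL V (N - 1) a ∪ TR ((M, W) :: oth)) [] (LA G V N ((M, W) :: oth))) (xx V N 1)
      (RP (G ∪ YY V N 1 ∪ TR ((M, W) :: oth)) [] L) := by
  have hM := hv0.1
  have k0 := callR ih h hd hn (w := 0) (by omega) hN hU hD hv0 0
  have k1 := callR ih h hd hn (w := 1) (by omega) hN hU hD hv1 z1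
  have hp : WF (Gw G V N 1) ((M, U) :: Rw V N 1 oth) :=
    (h.pass (w := 1) (by omega)).tail.swap.rechart hU hD
  have c1 := hp.card_T hM b'
  have n1 := hp.e_notMem hM b'
  rw [nf _ hN] at n1
  rw [nf _ hN, h.card_Gw, kR_Rw] at c1
  rw [kR_cons] at hd
  simp only at hd
  have hy : yy V N 0 ∈ diag V N := yy_mem V hN
  have hs : ∀ a ∈ diag U M, yy V N 0 ≠ a := fun a ha =>
    (h.indR _ hy a (mem_union_left _ (hD ▸ ha))).1
  have k2 := JAB (L := L) (y := yy V N 0) (xx V N 1) k0 k1
    (fun k => hh ⟨k.1, by have := k.2.1; rw [kR_Rw] at this; omega⟩) (by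
      rw [YY_succ V (w := 0) hN]
      ext; simp only [mem_union, mem_insert]; tauto) (by
      simp only [mem_insert, mem_union, h.yy_notMem (w := 0) hN, not_or, false_or]
      refine ⟨hs _ (xx_mem U (by omega) (by omega)),
        ⟨fun k => hs _ (fanL_sub U (by omega) b' k) rfl, ?_⟩,
        fun k => (h.indR _ hy _ (mem_union_right _ (TR_sub _ k))).1 rfl⟩
      rw [yy, h.head.mem_YY (by omega) (by omega)]
      omega) (LB.ofG (mem_Gw.2 (Or.inr ⟨hN, rfl⟩))) (mem_insert_self _ _)
    (by rw [c1]; split_ifs <;> omega) hL (by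
      intro z hz
      obtain ⟨l, l1, l2, l3⟩ := hl z hz
      exact ⟨l, mem_insert_of_mem l1, fun e => n1 (e ▸ l1), l2, fun k => l3 k.2.2⟩)
  refine (k2.start ?_ ?_).stop ?_
  · rw [fanL_a ha, hF, TR]
    ext; simp only [mem_union]; tauto
  · exact fun c k => LA.ofG (k.mem0 hN)
  · rw [hF, TR]
    ext; simp only [mem_union]; tauto

theorem step_i4 (ih : IH n) (h : WF G ((N, V) :: (M, W) :: oth))
    (hd : 5 ≤ G.card + (N - 2) + kR ((M, W) :: oth))
    (hn : G.card + 2 * (N - 2 + kR ((M, W) :: oth)) ≤ n) (hN : 4 ≤ N) (hM : 3 ≤ M)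
    (hX : ¬ (N = 4 ∧ M = 4 ∧ kR oth = 0)) {b : Bool} (hb : N = 4 ∨ b = true) :
    St G V N ((M, W) :: oth) true b := by
  have hy : yy V N 1 ∈ Gw G V N 1 := mem_Gw.2 (Or.inr ⟨hN, rfl⟩)
  have k := passR ih h hd hn (by omega) (h.tail.head.rf (c := M - 1) (by omega))
    (diag_RF _ (by omega)) (a := true) (a' := true) (b' := true) (Or.inr rfl)
    (fanL_RF1 W (by omega)) ⟨hM, Or.inr (by simp; omega)⟩ ⟨hM, Or.inr (by simp; omega)⟩
    (by omega) 0 (L := (· = yy V N 1)) (by rintro z rfl; exact LA.ofG hy) (by
      rintro z rfl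
      refine ⟨_, ?_, LB.ofG hy, fun _ => rfl⟩
      rw [YY_succ V hN]
      simp)
  have hk : kR ((M, W) :: oth) ≠ 0 := by rw [kR_cons]; simp only; omega
  refine chain_all ih h hd hn (w := 1) (β := true) le_rfl hN ?_ ?_ (k.stop (TT_one _))
  · intro u _ _
    exact ⟨by omega, Or.inr ⟨fun _ => ⟨rfl, Or.inr rfl⟩, fun k => by omega⟩⟩
  · refine ⟨by omega, ?_⟩
    rcases hb with rfl | rfl
    · exact Or.inl rfl
    · exact Or.inr ⟨fun _ => ⟨rfl, Or.inr rfl⟩, fun k => absurd k hk⟩

theorem step_i3 (ih : IH n) (h : WF G ((3, V) :: (M, W) :: oth))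
    (hd : 5 ≤ G.card + (3 - 2) + kR ((M, W) :: oth))
    (hn : G.card + 2 * (3 - 2 + kR ((M, W) :: oth)) ≤ n) (hM : 3 ≤ M)
    (hX : ¬ (M = 3 ∧ kR oth = 0)) (a b : Bool) {z : ℕ}
    (hz : Ear ((M, W) :: oth) z → z = dg (W 0) (W (M - 1))) :
    StZ G V 3 ((M, W) :: oth) a b z := by
  obtain ⟨z1, hz1⟩ : ∃ c, kR oth ≠ 0 → Ear oth c := by
    by_cases h0 : kR oth = 0
    · exact ⟨0, fun h => absurd h0 h⟩
    · obtain ⟨c, hc⟩ := ex_Ear h0
      exact ⟨c, fun _ => hc⟩
  have hG : Gw G V 3 1 = G := Gw_top le_rfl
  have hd' := hd
  rw [kR_cons] at hd'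
  simp only at hd'
  obtain ⟨U, a', hU, hD, hF, hv, hy⟩ : ∃ U a', Chart U M ∧ diag U M = diag W M ∧
      fanL U (M - 1) a' = fan0 (M, W) ∧ Val M (kR oth) a' true ∧
      (G = ∅ → yy U M 0 = dg (W 0) (W (M - 1))) := by
    by_cases h4 : M = 4 ∧ kR oth = 0
    · refine ⟨W, false, h.tail.head, rfl, (fan0_eq W (by omega)).symm,
        ⟨hM, Or.inr (by simp; omega)⟩, fun k => ?_⟩
      rw [k, card_empty] at hd'
      omega
    · refine ⟨_, true, h.tail.head.rf (c := M - 1) (by omega), diag_RF _ (by omega),
        fanL_RF1 W (by omega), ⟨hM, Or.inr (by simp; omega)⟩, fun _ => ?_⟩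
      simp [yy, RF, rf]
  have k := passR ih h hd hn le_rfl hU hD (a := a) (a' := a') (b' := true) (Or.inl rfl) hF
    (by simpa using hv) (by simpa using hv) (by omega) z1 (L := LB G V 3 ((M, W) :: oth) z)
    (by
      rw [hG]
      rintro c (k | ⟨k, ⟨k1, -⟩ | ⟨-, k1, rfl⟩⟩)
      · exact LA.ofG k
      · omega
      · rw [k, card_empty] at hd'
        refine Or.inr ⟨(hz k1).trans (hy k).symm, ?_, ?_⟩
        · rw [kR_Rw]; omega
        · rw [k, card_empty]; omega) (by
      rw [hG]
      rintro c (k | ⟨k, -⟩)
      · exact ⟨c, by simp [k], LB.ofG k, fun _ => rfl⟩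
      · have k' := k
        rw [k, card_empty] at hd'
        have hh : ∀ l, 4 ≤ G.card → l = c := fun l k1 => by rw [k, card_empty] at k1; omega
        by_cases h4 : 4 ≤ M
        · refine ⟨dg (U (M - 2)) (U 0), ?_, Or.inr ⟨k, Or.inl ⟨h4, rfl⟩⟩, hh _⟩
          simp only [mem_union]
          refine Or.inl (Or.inr (Or.inl ?_))
          rw [hU.mem_fanL (by omega) true (by omega) (by omega)]
          simp only [if_true]
          exact Or.inl ⟨trivial, by omega⟩
        · have e := hz1 (by omega)
          exact ⟨z1, mem_union_right _ e.mem_TR,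
            Or.inr ⟨k, Or.inr ⟨by omega, e.cons _, rfl⟩⟩, hh _⟩)
  refine finishZ h le_rfl (k.stop ?_)
  rw [YY_top V le_rfl]
  exact congrArg (fun A => G ∪ A ∪ _) (fanL_1 V b)

theorem step_S44 (ih : IH n) (h : WF G [(3, V), (3, W)]) (hd : 3 ≤ G.card) (hn : G.card + 4 ≤ n)
    (a b : Bool) (z : ℕ) : StZ G V 3 [(3, W)] a b z := by
  have w0 : WF (insert (yy V 3 0) G) [(3, W)] := by
    rw [← Gw_lt (by omega)]
    exact (h.pass (w := 0) (by omega)).tail.tail
  have c0 : (insert (yy V 3 0) G).card = G.card + 1 :=
    card_insert_of_notMem (h.yy_notMem (by omega))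
  have k0 := callQ ih w0 (by omega) (by omega) rfl rfl
  have k1 := callQ ih h.tail hd (by omega) rfl rfl
  have hq : dg (W 1) (W 3) ∉ G := h.tail.nG (by decide)
  have hy : yy V 3 0 ∉ insert (dg (W 1) (W 3)) G := by
    rw [mem_insert, not_or]
    exact ⟨h.ne2 (by decide) (by decide), h.yy_notMem (by omega)⟩
  have k2 := J0 (xx V 3 1) k0 (Cl.symm k1) hy (by
    rintro a b ⟨-, ta, c, rfl, -⟩ ⟨-, tb, c', rfl, -⟩ p
    obtain ⟨u, hu, hu'⟩ := ex_notMem (U := G) [c, c'] (by simp; omega)
    obtain ⟨v, hv, hv'⟩ := ex_notMem (U := G) [u] (by simp; omega)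
    obtain ⟨v', hw, hw'⟩ := ex_notMem (U := G) [u, v] (by simp; omega)
    simp only [List.mem_cons, List.not_mem_nil, or_false, not_or] at hu' hv' hw'
    have n1 : ∀ s ∈ G, dg (W 1) (W 3) ≠ s := fun s hs e => hq (e ▸ hs)
    obtain ⟨t, s, hs, h3, h4⟩ := E3 (U := insert (dg (W 1) (W 3)) G) [dg (W 1) (W 3), u]
      (a := v) (b := v')
      (by simp [n1 u hu, n1 v hv, n1 v' hw, Ne.symm hv', Ne.symm hw'.1, Ne.symm hw'.2])
      (by simp [hu, hv, hw]) p
    refine ⟨_, h3, h4, ⟨?_, u :: (t ++ [s]), _, rfl, mem_insert_self _ _⟩, fun _ => Or.inl ?_,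
      ⟨h3, u :: t, s, rfl, by rcases hs with rfl | rfl <;> assumption⟩, fun _ => Or.inl ?_⟩
    · rw [insert_comm]
      exact h3.snoc hy
    · rw [List.nil_append, lst1]
      exact fun e => hu'.1 (Option.some.inj e)
    · rw [List.nil_append, lst1]
      exact fun e => hu'.2 (Option.some.inj e))
  have e0 : Cw G V 3 [(3, W)] 0 = insert (yy V 3 0) G ∪ diag W 3 := by
    rw [Cw_low (by omega), Gw_lt (by omega)]
    simp only [Rw, DR, diag_small _ (N := 3 - 1 - 0) le_rfl, empty_union, union_empty]
  have e1 : Cw G V 3 [(3, W)] 1 = G ∪ diag W 3 := by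
    rw [Cw_low (by omega), Gw_top (by omega)]
    simp only [Rw, DR, diag_small _ (N := 3 - 1 - 1) (by omega), empty_union, union_empty]
  refine finishZ h le_rfl ?_
  simp only [show 3 - 2 = 0 + 1 from rfl, PS, e0, zero_add, e1]
  refine ((k2.start ?_ ?_).mono (RP.mono (fun c k => k.mem (by omega)))).stop ?_
  · simp only [show 3 - 1 = 2 from rfl, fanL_2, TR, fan0_3, yy, dg_comm (V 2) (V 0)]
    ext; simp only [mem_union, mem_insert, mem_singleton, notMem_empty]; tauto
  · intro c k
    have := k.mem0 (by omega)
    rwa [Gw_lt (by omega)] at this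
  · simp only [fanL_1, TR, fan0_3]
    ext; simp only [mem_union, mem_insert, mem_singleton, notMem_empty]; tauto

theorem extract (h : WF G ((N, V) :: rest)) (hk : kR rest ≠ 0) (z : ℕ) :
    ∃ M W oth, 3 ≤ M ∧ WF G ((N, V) :: (M, W) :: oth) ∧ kR ((M, W) :: oth) = kR rest ∧
      (Ear ((M, W) :: oth) z → z = dg (W 0) (W (M - 1))) ∧
      ∀ a b, StZ G V N ((M, W) :: oth) a b z → StZ G V N rest a b z := by
  by_cases he : Ear rest z
  · obtain ⟨⟨M, W⟩, hp, h3, hz⟩ := he
    obtain ⟨o, p⟩ := perm_of_mem hp
    have w := h.perm (p.cons _)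
    simp only at h3 hz
    rcases hz with hz | hz
    · have r0 : RF W M 0 0 = W 0 := by simp [RF, rf]
      have r1 : RF W M 0 (M - 1) = W 2 := by
        simp only [RF, rf]; rw [if_neg (by omega)]; congr 1; omega
      have r2 : RF W M 0 2 = W (M - 1) := by
        simp only [RF, rf]; rw [if_neg (by omega)]; congr 1
      refine ⟨M, RF W M 0, o, h3, (w.swap.rf (Nat.zero_le _)).swap, ?_, fun _ => ?_,
        fun a b k => StZ.perm p.symm (k.congr ?_ ?_ ?_ ?_)⟩
      · rw [kR_perm p, kR_cons, kR_cons]
      · rw [r0, r1, hz]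
      · simp only [DR, diag_RF W (Nat.zero_le _)]
      · simp only [TR, fan0_RF0]
      · rw [kR_cons, kR_cons]
      · rintro c ⟨q, hq, k1, k2⟩
        rcases List.mem_cons.1 hq with rfl | hq
        · refine ⟨_, List.mem_cons_self, k1, ?_⟩
          simp only [r0, r1, r2]
          exact k2.symm
        · exact ⟨q, List.mem_cons_of_mem _ hq, k1, k2⟩
    · exact ⟨M, W, o, h3, w, (kR_perm p).symm, fun _ => hz, fun a b k => k.perm p.symm⟩
  · obtain ⟨⟨M, W⟩, hp, h3⟩ := ex_nontriv hk
    obtain ⟨o, p⟩ := perm_of_mem hp
    exact ⟨M, W, o, h3, h.perm (p.cons _), (kR_perm p).symm,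
      fun ⟨q, hq, k⟩ => absurd ⟨q, p.mem_iff.2 hq, k⟩ he, fun a b k => k.perm p.symm⟩

end Pool.Agent.MP_086a35_co

end

-- part MP_086a35_co.BaseData
section

set_option autoImplicit false

namespace Pool.Agent.MP_086a35_co

def bE0 : List Tr := [(0, 0, 2), (0, 1, 3), (9, 0, 0), (9, 1, 0), (9, 2, 0)]

def bM0 : ℕ := 0x77777776

theorem bF0 : chkF bE0.length (XE bE0) bM0 = true := by decide +kernel

def bT0 : List ℕ := [
  0x44110022208200880100441,
  0x44110022204400802208801,
  0x82208022204411002208020,
  0x82208022204411002208020,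
  0x44110022200220880110401,
  0x44110022204411002208020,
  0x44110022200220880110401,
  0x44008022088820880110401,
  0x82208022204411002208020,
  0x82208022208220802200401,
  0x44110022208200880100441,
  0x82208022208200880100441,
  0x82208022204410044008022,
  0x44110022204411002200401,
  0x44110022204410044008022,
  0x82208022204011044008820,
  0x44110022204411002200401,
  0x82208022204411002200401,
  0x44110022208220802200401,
  0x82208022208220802200401,
  0x44110022208200880100441,
  0x82208022208200880100441,
  0x82208022208220802200401,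
  0x44110022208200880100441,
  0x44110022204411002200401,
  0x44110022204410044008022,
  0x82208022204410044008022,
  0x82208022204411002200401,
  0x82208022204410044008022,
  0x44110022204411002200401,
  0x44110022204411002200401,
  0x82208022204411002200401,
  0x82208022204410044008022,
  0x82208022204011002200441,
  0x82208022208220802208020,
  0x82208022204400882008801,
  0x2008820088222082200441,
  0x44110022200200882200441,
  0x82208022200200882200441,
  0x82208022204011002008822,
  0x44110022200200882008822,
  0x44110022204011002008822,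
  0x44110022204410044008022,
  0x82208022204410044008022,
  0x44110022204411002200401,
  0x2008820088222082008822,
  0x44110022200200882008822,
  0x82208022200200882008822,
  0x82208022208220802208020,
  0x44008022088800882200441,
  0x44110022208220802208020,
  0x44110022204400882008801,
  0x82208022204400882008801,
  0x82208022204011002200441]

theorem bS0 : chkS 5 [2, 3, 4, 0] [] [2, 3, 4] [2, 3, 4, 1] [1] [2, 3, 4] bM0 19 0 bT0 = true := by
  decide +kernel

def bE1 : List Tr := [(0, 0, 2), (0, 1, 3), (1, 0, 2), (1, 1, 3), (9, 0, 0), (9, 1, 0)]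

def bM1 : ℕ := 0x777077707770776

theorem bF1 : chkF bE1.length (XE bE1) bM1 = true := by decide +kernel

def bT1 : List ℕ := [
  0x44111441100222082208022308200880100441,
  0x82228441100222044110022304400802208801,
  0x44111441100222044110022304411002208020,
  0x82228441100222044110022304411002208020,
  0x44111441100222044110022304411002200401,
  0x82228441100222044110022304411002200401,
  0x44111441100222082208022304411002200401,
  0x82228441100222082208022304411002200401,
  0x44111441100222044110022304411002200401,
  0x82228441100222044110022304411002200401,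
  0x44111441100222044110022300200882008822,
  0x82228441100222044110022300200882008822,
  0x44111441100222044110022308220802208020,
  0x82228441100222044110022308220802208020,
  0x44111441100222082208022304400882008801,
  0x82008822280220802208882088011182208801,
  0x44111441100222082208022304411002200401,
  0x82228441100222044110022304011044008820,
  0x44111441100222044008022088c00882200441,
  0x82228441100222044008022088c00882200441,
  0x44111441100222044008022088c00882008822,
  0x82228441100222044008022088c00882008822,
  0x44111441100222044110022304400882008801,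
  0x82228441100222044110022304400882008801,
  0x44111441100222044110022300220880110401,
  0x82228441100222044110022308200880100441,
  0x44111441100222082208022308220802200401,
  0x82228441100222082208022308220802200401,
  0x44111441100222044110022300220880110401,
  0x82228441100222044110022300220880110401,
  0x44111441100222082208022304411002208020,
  0x82228441100222082208022304411002208020,
  0x44111441100222082208022304410044008022,
  0x82228441100222082208022304410044008022,
  0x44111441100222082208022304011044008820,
  0x82228441100222082208022304011044008820]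

theorem bS1 : chkS 6 [4, 5, 2, 0] [] [0, 4, 5] [4, 5, 2, 1] [1] [4, 5] bM1 31 0 bT1 = true := by
  decide +kernel

def bE2 : List Tr := [(0, 0, 2), (0, 0, 3), (0, 1, 3), (0, 1, 4), (0, 2, 4), (9, 0, 0), (9, 1, 0)]

def bM2 : ℕ := 0x103115f0103115f0103115f0103115e

theorem bF2 : chkF bE2.length (XE bE2) bM2 = true := by decide +kernel

def bT2 : List ℕ := [
  0x44110c411002238441100223044110022284400802208801,
  0x822184411002238441100223044110022284400802208801,
  0x44110c411002238441100223044110022284411002208020,
  0x822184411002238441100223044110022284411002208020,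
  0x44110c411002238441100223044110022284411002200401,
  0x822184411002238441100223044110022284411002200401,
  0x44110c411002238441100223044110022284410044008022,
  0x822184411002238441100223044110022284410044008022,
  0x44110c411002238441100223044110022284411002200401,
  0x822184411002238441100223044110022284411002200401,
  0x44110c411002238020088200882230822004450882200441,
  0x822184411002238020088200882230822004450882200441,
  0x44110c411002238441100223044110022280200882008822,
  0x822184411002238441100223044110022280200882008822,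
  0x44110c411002238020088200882230822004450882008822,
  0x822184411002238020088200882230822004450882008822,
  0x44110c411002238441100223044110022284011044008820,
  0x822184411002238441100223044110022284011044008820,
  0x44110c411002238441100223044008022088a00882200441,
  0x820088221802208022088e20880111822088011142208801,
  0x44110c411002238441100223044110022280200882200441,
  0x4011040110443104011044710440088c110440088a110440,
  0x44110c411002238441100223044008022088a00882008822,
  0x822184411002238441100223044110022284400882008801,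
  0x44110c411002238441100223044110022288200880100441,
  0x822184411002238441100223044110022280220880110401,
  0x20088220044308820088223882200446088220044510441,
  0x820088010044308820088223882200446088220044510441,
  0x44110c411002238441100223044110022288200880100441,
  0x822184411002238441100223044110022288200880100441,
  0x44110c411002238441100223082208022284411002208020,
  0x822184411002238441100223082208022284411002208020,
  0x44110c411002238441100223082208022284011044008820,
  0x822184411002238441100223082208022284011044008820,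
  0x20088220044308820088223882200446088220044508822,
  0x822184411002238441100223082208022284410044008022]

theorem bS2 : chkS 7 [5, 6, 0, 1] [] [1, 5, 6] [5, 6, 4, 0] [4] [5, 6] bM2 39 0 bT2 = true := by
  decide +kernel

def bE3 : List Tr := [(0, 0, 2), (0, 1, 3), (1, 0, 2), (1, 1, 3), (2, 0, 2), (2, 1, 3), (9, 0, 0)]

def bM3 : ℕ := 0x777077707770000077707770776

theorem bF3 : chkF bE3.length (XE bE3) bM3 = true := by decide +kernel

def bT3 : List ℕ := [
  0x2088a11002200447088220044608822208222880112041118200882200441,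
  0x110445004410044111c411002230441110411144008902088c11040110440,
  0x2088a11044710446100222082228441100224082208022308220802200401,
  0x2088e11044510448100222082238441100223082208022404411002208020,
  0x20802200401114220880111c22088011182208882088a2004481044608822,
  0x10044008022088a20802208882088e2088620044610444088220044808822]

theorem bS3 : chkS 7 [6, 2, 4, 0] [] [6] [6, 2, 4, 1] [1] [6] bM3 49 0 bT3 = true := by
  decide +kernel

def bE4 : List Tr := [(0, 0, 2), (0, 1, 3), (1, 0, 2), (1, 0, 3), (1, 1, 3), (1, 1, 4), (1, 2, 4), (9, 0, 0)]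

def bM4 : ℕ := 0x700000077000700070707777700000007000000770007000707077776

theorem bF4 : chkF bE4.length (XE bE4) bM4 = true := by decide +kernel

def bT4 : List ℕ := [
  0x2088a11044610447104481002220822284411002248441100224082208022380200882008822,
  0x2088c11002208022280220880112422088011202208882088c20044710448104490882008822,
  0x2088a11044610447104481002220820088010044508820088224882200448088220044710441,
  0x2088c11044510449104481002220822304411002238441100224082208022484411002208020,
  0x2088a11044610447104481002220822284411002248441100224044110022384011044008820,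
  0x2088c11044510449104481002220822304411002238441100224082208022484411002200401]

theorem bS4 : chkS 8 [7, 2, 3, 0] [] [7] [7, 2, 3, 1] [1] [7] bM4 61 0 bT4 = true := by
  decide +kernel

def bE5 : List Tr := [(0, 0, 2), (0, 0, 3), (0, 1, 3), (0, 1, 4), (0, 2, 4), (1, 0, 2), (1, 1, 3), (9, 0, 0)]

def bM5 : ℕ := 0x103115f0103115f0103115f000000000103115f0103115f0103115e

theorem bF5 : chkF bE5.length (XE bE5) bM5 = true := by decide +kernel

def bT5 : List ℕ := [
  0x2089011044310449100223882240822080223040110440088a11002200449088220044310441,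
  0x240822188224844110022388011202208801118411142208801124411040110c220880110401,
  0x2089011044310449100223882240441100223082228441100224882208022184411002200401,
  0x240822188224882208022384011044810440088c110445104400892208820088611040110440,
  0x2089011044310449100223882240441100223082228441100224844008022088600882008822,
  0x24082218822484411002238822080224040110440088c1104451044008922088200886110440]

theorem bS5 : chkS 8 [7, 5, 1, 2] [] [7] [7, 5, 4, 0] [4] [7] bM5 61 0 bT5 = true := by
  decide +kernel

def bE6 : List Tr := [(0, 0, 2), (0, 0, 3), (0, 0, 4), (0, 1, 3), (0, 1, 4), (0, 1, 5), (0, 2, 4), (0, 2, 5), (0, 3, 5), (9, 0, 0)]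

def bM6 : ℕ := 0x1000000030000000000000000000001010000050f00000001000000030000000100000003000100010011003301010101111155ff000000000000000000000001000000030000000000000000000001010000050f00000001000000030000000100000003000100010011003301010101111155fe

theorem bF6 : chkF bE6.length (XE bE6) bM6 = true := by decide +kernel

def bT6 : List ℕ := [
  0x110022004440882008822588220044a08822188220044908822288223080111c411244112822088011204112c22088011182208801,
  0x2088811044008961104400894110443104400892110445104461002238822488225044110022408225844110022304011044008820,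
  0x2088611044410440089611044610447104491002240822584411002250822184411002248441100223882208022308220802200401,
  0x2088811044008961104400894110443104400892110445104461002238822488225082208022400220896208801118200882008822,
  0x20044100443088220044408822588011184111c4112441104011202008822588220044a08822188220044910441004471044608822,
  0x2088811044008961104400894110443104400892110445104461002238822488225044110022408225882208022304400802208801]

theorem bS6 : chkS 10 [9, 0, 1, 2] [] [9] [9, 8, 0, 1] [8] [9] bM6 85 0 bT6 = true := by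
  decide +kernel

def bT7 : List ℕ := [
  0x20044100443088220044408822588220044610441004471044910441004480802208962088011282208801124220886208882088c2,
  0x2088811040110443104400894110440089020896110440088c008822004440802208022088a20886208942088011242208902088c2,
  0x80220880111022080220896208801128220880112422088620880111422088820880111822089620894208922004481044608822,
  0x2088811044008962088200894208921104400886100441004411144111041100223044112c41128411244008902088c11040110440,
  0x2208221882250822404411002258822304411002220822284411002218441100225082248822080224082008801004460882008822,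
  0x208881104431044a104481002258801118220880111041114220880110c22088011284112441104011202008820088223082008822]

theorem bS7 : chkS 10 [9, 2, 4, 6] [] [9] [9, 8, 0, 1] [8] [9] bM6 85 0 bT7 = true := by
  decide +kernel

def bT8 : List ℕ := [
  0x2088811044610440089620882008942089211044008902088e110440088c10044100441114411104112c4112840088611040110440,
  0x2088c1104441044008961104400894110440089211040110020088620802208882088a2088e2004461044b1044a088220044808822,
  0x230822208220044b088220044a0882200449080220880110c2208801110411144111c4110401118200882258822508220044810441,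
  0x2088c11044410440089611044008941100224844110022188220802220022088a2088e2004461044b1044a08822004480882008822,
  0x23082220822188225044110022588011184111c2208801120220880112841124220880110c41104011102008820088223082008822,
  0x220822308224082250441100225882218441100222082008801004450882008822308223882200448088220044a104410044308822]

theorem bS8 : chkS 10 [9, 2, 4, 6] [] [9] [9, 8, 1, 3] [8] [9] bM6 85 0 bT8 = true := by
  decide +kernel

def bE7 : List Tr := [(0, 0, 2), (0, 1, 3), (1, 0, 2), (1, 1, 3), (2, 0, 2), (2, 1, 3), (3, 0, 2), (3, 1, 3)]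

def bM7 : ℕ := 0x7770777077700000777077707770000077707770776

theorem bF7 : chkF bE7.length (XE bE7) bM7 = true := by decide +kernel

def bT9 : List ℕ := [
  0x104451044910441004441044a088220044708860089222082208022300225080110c411244110401120441044a10441,
  0x10447080220880112422088a22044a10c400890208881104491044310022308222044111c4008942089011044008820,
  0x89220880111022088a20044a1044100443104490880111c22508220044600449104441144112822308220044808822,
  0x882228022088e22082230822184400892208882088200890110c40088a110401104471044410448004411284610022,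
  0x882248822004440882238801128220040110443100224844111444089421880112049104441044a104410044608822,
  0x882238022080220892208882004481044308822288e1110481002250862088e2088811002008822308224082200441,
  0x882238022208222844310022488c208882088a11044008902508221882248441100223082220441100225002008822,
  0x882248822004440802208022088e2089420880110c22004490882228881128431002240922088820894208820088c2,
  0x114410044411c2248822188011040112822088c22002208801124411040110c2208902088011142208882088c250822,
  0x88222802208022088e20888208801118411040110c220892228444118400890218822288222082208022508c208801,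
  0x104450882248822004440882230822188e22044510c4008942308222082228441100224082208022304400882008801,
  0x10449088220044408822388011284008862089211044511022508620044812441110411282208801118200882008822,
  0x10445088223880111022408224886111c4410440088c25080110c411242208801120411104110401128200882008822,
  0x882248822288e112848100222082238441100223082218441124411104510022408223044110022500200882200441,
  0x1044908822004440802208022088e208942004431044908822288811284310022409220888208941100200882230822,
  0x10447104491044808022080222880111c011284810444088224880111822088e208022088a208942088c20044808822,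
  0x88224802220820088e25044008862089211002200445120411104111c4110401128431044810444104410044610441,
  0x104490802220820088e25044008862089211002200445120411104111c4110401128431044810444104410044610441]

theorem bS9 : chkS 8 [2, 4, 6, 0] [] [0] [2, 4, 6, 1] [1] [2, 4, 6] bM7 76 1 bT9 = true := by
  decide +kernel

def bE8 : List Tr := [(0, 0, 2), (0, 1, 3), (1, 0, 2), (1, 1, 3), (2, 0, 2), (2, 0, 3), (2, 1, 3), (2, 1, 4), (2, 2, 4)]

def bM8 : ℕ := 0x777000000000000000000000000077707770000000000000777000000000000077700000777000007770777077707770776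

theorem bF8 : chkF bE8.length (XE bE8) bM8 = true := by decide +kernel

def bT10 : List ℕ := [
  0x4712041114491044a1044b104471044100444104410044610441004480802208022088a208922088c21802250882088a20882008962088c110440,
  0x4111c2208902089220802208942088a20044b004471204910444088220044608822508222896208022088e20880112022088c2004011284112441,
  0x4112022088a20044408822388221880112c2208801128411040112422088800882200447120411182250822004430044810449110411282208962,
  0x451044710446104410044410445088224880112043088e22082200446088200882258822004451044308022088c24882008942088820044b10441,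
  0x481044508822388011040111801104440044112c4a10401114491044310447088223080112041114220888208801124411282208022088c208962,
  0x4710448104491144b0894248902088c11044008882388225882250822080222882008801004480882200449088220044a088220044b1044608822,
  0x471044510449088224082238822588c200444088220044a0802208022088a208801120411242208801118220886250880088011142208962088c2,
  0x480802208022088e20880112c220802208882088011244112822088a2088e258942088c20044310445088220044808822488225082258880088c2,
  0x411204111c4112c2200444088220044508822508223080110c22288011202208801124011284b1044408902088e2004461044a088220044b08822,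
  0x22088a20890008822004461044408822388220044b10c49088a2088820802250961100220044708822004480882218822508c2088820044910441,
  0xe2409225082008822288225882200447088220044808822004490802208022088820880112c220894208922089023082238022089620894208922,
  0x224080111022088a2004470882200443104410044a0880112c22088800882238822188011204111022088c2088011242208862089625082220922,
  0x22280220890208022088c20888008822388221880111422208220044a088225882238822408c20044310445088200882250822004460882220922,
  0x48088e2088a200444088200882258822004430882230822208011242208942088011144110c22004410044b104440044111c4110c460882220922,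
  0x4511c4112041124220044408822508221880111841110411040111c4110c411040112c22089422090110022280220044a08822004491044608822,
  0x451044710446088220044408822408221880111441110411040112841104011244112022088620044611c22088a2208c112841100225844008022,
  0x222882008822408223882200446104410044a0882008822208222896200447104481044908822308225880110c40088a11044a104461100112441,
  0x4710448104491044a1044100444104011144b088e24080110c411282208922089020040111c4410446104410044b088220044a088220044908822]

theorem bS10 : chkS 9 [2, 4, 5, 0] [] [0] [2, 4, 5, 1] [1] [2, 4, 5] bM8 94 1 bT10 = true := by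
  decide +kernel

def bEx : List Tr := [(0, 0, 2), (0, 1, 3), (2, 0, 2), (2, 1, 3), (1, 0, 2), (1, 0, 3), (1, 1, 3), (1, 1, 4), (1, 2, 4)]

theorem bFx : chkF bEx.length (XE bEx) bM8 = true := by decide +kernel

def bE9 : List Tr := [(0, 0, 2), (0, 0, 3), (0, 1, 3), (0, 1, 4), (0, 2, 4), (1, 0, 2), (1, 1, 3), (2, 0, 2), (2, 1, 3)]

def bM9 : ℕ := 0x103115f0103115f0103115f000000000103115f0103115f0103115f000000000103115f0103115f0103115e

theorem bF9 : chkF bE9.length (XE bE9) bM9 = true := by decide +kernel

def bT11 : List ℕ := [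
  0x22508611044b120410044111841004411284110022188e208921100225882240440088c110022288011284110c220892208022088a20896208862,
  0x411204110c220894208022088c208922088620044b11c4a088c2088a2080224082008860088220044408822580220880111841114220892208862,
  0x20088220044808822508224880110c220880112c22088e2089400882240822004450882258822388c208942004491144808962488221882208022,
  0x220880111c20088220044a088220044410443088220044b08822408200882250822388c22888112c4710443104441002248942088c20896208820,
  0x4810c4908942088c11040110020089020802208862088e2088c2088a2004490882258820088224082218882089220044a10441004461044b10441,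
  0x411204a1242218822589011044a10022388c228822588221844111041100224882250441100223044111441100225844008022088600882008822]

theorem bS11 : chkS 9 [5, 7, 1, 2] [] [1] [5, 7, 4, 0] [4] [0] bM9 94 1 bT11 = true := by
  decide +kernel

def bE10 : List Tr := [(0, 0, 2), (0, 1, 3), (1, 0, 2), (1, 0, 3), (1, 0, 4), (1, 1, 3), (1, 1, 4), (1, 1, 5), (1, 2, 4), (1, 2, 5), (1, 3, 5)]

def bM10 : ℕ := 0x700000000000000000000000000000077000000000000000000000000000000000000000000000000000000000000000000000000000000000000000700000007000000000000000000000707000077770000000000000000000000000000000700000000000000000000000000000077000000000000000000000000000000070000000000000000000000000000007700000000000000070000000000000007000000000007000700000000007700770000000700000007000000070000000700070007000700070707070777777776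

theorem bF10 : chkF bE10.length (XE bE10) bM10 = true := by decide +kernel

def bT12 : List ℕ := [
  0x4611c41114411304b1044a1044808822004441044708822488220044b0802208022088620898250820089a20888200446088220044710441004491044a1044100448104400886230881134411304112c41,
  0x41118410044411c410044b10c4d088a208882088011304112c411040110c4112041104011282208022088820896208860088224882220022088e2088011184112022088620898250902088820044d10441,
  0x451044610441004440880110401120400892110447104451044c12c400886208901104400894110449104011044710440088a20896110444100226082218441128481182220982088a20044d1044808822,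
  0x461144b10401104471044008901004411002248441004411104110022608225844112841120011044910440088e2088611044b10444100222882218441130411104a10440089a20886111c2240822209a2,
  0x41114461204111c2208801110411040112820088220044b088220044710c4112441110220880112041134400886208961104011044a10440089a2089822044111c4b130410044110c4508822209a208902,
  0x471144110022208c21844d1044a1044911022088c238801120411282208922088e2088a25882200443104410044d088220044c08022088011282208801124220880111c4112c2208882608200882268822,
  0x22088a208022088e20880112022088c208022088a20880113022088820890268822188011282208982088a2088e20044b1044a08822208223890250022488e208962089822882268822408220802208020,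
  0x4111c22088c2089a20044408822288011304112822089624880110c223080111c44104491044308822508222080112041104011184111422088620044d08822608220044a1044100449088222080112c22,
  0x22088c2088e2289825044b100222082240441100224844111c41100225882218441114411104d1002260822588620892208882088200894268822188223844110022408222044110022688220802208020,
  0x470040110440088a110401104441044008901104461044008861104451044008981104441044813441100225044110c411144c10444100225882218441128411002248881104461204110c490882220962,
  0x451044610448104490882238801110220802208962089820880110c220044608822288011342208801130441240112c4c1344110c411244110401128441044d08822308220044810441004491044b08822,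
  0x4608822288010044b10401124471044408822309a200448104491044b08822509820880110c411040111822088a2089820044d1044810449088220044a0882220801130220880111422089620892208902]

theorem bS12 : chkS 11 [2, 3, 4, 0] [] [0] [2, 3, 4, 1] [1] [2, 4] bM10 130 1 bT12 = true := by
  decide +kernel

def bE11 : List Tr := [(0, 0, 2), (0, 0, 3), (0, 0, 4), (0, 1, 3), (0, 1, 4), (0, 1, 5), (0, 2, 4), (0, 2, 5), (0, 3, 5), (1, 0, 2), (1, 1, 3)]

def bM11 : ℕ := 0x1000000030000000000000000000001010000050f00000001000000030000000100000003000100010011003301010101111155ff000000000000000000000001000000030000000000000000000001010000050f00000001000000030000000100000003000100010011003301010101111155ff000000000000000000000001000000030000000000000000000001010000050f00000001000000030000000100000003000100010011003301010101111155fe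

theorem bF11 : chkF bE11.length (XE bE11) bM11 = true := by decide +kernel

def bT13 : List ℕ := [
  0x4111841110220880112c22088011282208982088a21880112441120220894208862004011104b1044d088e2004461044b1044a08822608011202208922004471044608822680220880110c2208882088c2,
  0x22088c20044b08822004440882200445104431044a08022488e230822408220044c08822500220896208882088a218822484400882008942088011204b1044d0882220822608a200446104480882268822,
  0x4c104461044d08822208226080112c411344110401128411302208922089a2004431044c0882200444104410044d08822004450802208801118471044c1244d0894260822588c11044008902089a208820,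
  0x41130411040112c4113422088820898200446088200882228822688011244113022088e2089a230820088225882260822489020044a12c2208880088011144d10449088225082258801104011104310441,
  0x4111822089800882008822208225882250862089220044d088220044710446104410044c1044308801004411144410440088c112c411344a13022489a2088e230822004481044b088220044a1044310441,
  0x22608811044d1002258822604411002240801134411040111c4113041104011184113441104011144113041104011104b1044d1044910441004431304112c411342208801128011304112047089a218822]

theorem bS13 : chkS 11 [9, 2, 4, 6] [] [2] [9, 8, 1, 3] [8] [1] bM11 130 1 bT13 = true := by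
  decide +kernel

def bE12 : List Tr := [(0, 0, 2), (0, 0, 3), (0, 1, 3), (0, 1, 4), (0, 2, 4), (1, 0, 2), (1, 0, 3), (1, 1, 3), (1, 1, 4), (1, 2, 4)]

def bM12 : ℕ := 0x103115f0000000000000000000000000000000000000000000000000103115f0103115f0000000000000000000000000103115f0000000000000000000000000103115f000000000103115f000000000103115f0103115f0103115f0103115f0103115e

theorem bF12 : chkF bE12.length (XE bE12) bM12 = true := by decide +kernel

def bT14 : List ℕ := [
  0x120411242208862080220896208942389011002230441100222844100440080224882008822188222094208022088a2088c2088e20886258820088222082228822308223898208862,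
  0x124411202208862080220896208982389211002230441100222844100440080224082008822188222098208022088a2088c2088e20886258820088222082228822308223894208862,
  0x12041124411284112c220886208022089020898208962089423882248022089020898208962309211284b10022288200880100448088220044c088220044b088220044a1044308822,
  0x18820088e248440088c208022288220044410441004430882240820088223082238822188222098208022088a2088c2088e2088625882008822208222882230822389420886008822,
  0x8822408221880111c41118200882200449104011044a104451104311c22608a2088c2088e20044b088225082008822488200882220822188220044c0882238822488011184113022,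
  0x12441120431044c12c4111841124220880111c4110c411102208942088c22880112c2208801130411040112020088010044110c411104110022508a11244708822004460882260822]

theorem bS14 : chkS 10 [5, 6, 1, 2] [] [1] [5, 6, 4, 0] [4] [0] bM12 116 1 bT14 = true := by
  decide +kernel

def bE13 : List Tr := [(0, 0, 2), (0, 0, 3), (0, 0, 4), (0, 0, 5), (0, 1, 3), (0, 1, 4), (0, 1, 5), (0, 1, 6), (0, 2, 4), (0, 2, 5), (0, 2, 6), (0, 3, 5), (0, 3, 6), (0, 4, 6)]

def bM13 : ℕ := 0x100000000000000000000000000000003000000000000000000000000000000000000000000000000000000000000000000000000000000000000000000000000000000000000000000000000000000000000000000000000000000000000000000000000000000000000000000000000000000000000000000000000000100010000000000000000000000000005000f000000000000000000000000000000000000000000000000000000000000000000000000000000000000000000000000000000000000000000000000000000000000000000000000000000000000000000000000000000000000000000000000000000000000000000000000000000000000000000000000000000000000000000000000000000000000000000000000000000000000000000000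00000000000000000000000000000000000000000000000000000000000000000000000000000000000000000000000000000000000000000000000000000000000000000000000000000000000000000000000000000000000000000000000000000000000000000000000000000000000000000000000000000000000000000000000000000000000000000000000000000000000000000000000000000000000000000000000000000000000000000000000000100000000000000000000000000000003000000000000000000000000000000010000000000000000000000000000000300000000000000000000000000000000000000000000000000000000000000000000000000000000000000000000000000000000000000000000000000000000000000000000000000000001000000010000000000000000000000110000003300000000000000000001000100010001000000000000000000110011005500ff0000000000000000000000000000000000000000000000000000000000000000000000000000000000000000000000000000000000000000000000000000000000000000000000000000000000000000000000000000000000000000000000000000000000000000000000000000000100000000000000000000000000000003000000000000000000000000000000000000000000000000000000000000000000000000000000000000000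000000000000000000000000000000000000000000000000000000000000000000000000000000000000000000000000000000000000000000000000000000000000100010000000000000000000000000005000f0000000000000000000000000000000000000000000000000000000000000000000000000000000000000000000000000000000000000000000000000000000000000000000000000000000000000000000000000000000000000000000000000000000000000000000000000000000100000000000000000000000000000003000000000000000000000000000000000000000000000000000000000000000000000000000000000000000000000000000000000000000000000000000000000000000000000000000000000000000000000000000000000000000000000000000000000000000000000000000100010000000000000000000000000005000f00000000000000000000000000000000000000000000000000000000000000000000000000000000000000000000000100000000000000000000000000000003000000000000000000000000000000000000000000000000000000000000000000000000000000000000000000000001000000000000000000000000000000030000000000000000000000000000000000000000000000000000000000000000000000000000000100000000000000010000000000000101000000000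000030300000000000000000000000000000000000000000000000000000000000000000000000000010001000000000001000100000000010101010000000005050f0f0000000000000000000000000000000100000000000000000000000000000003000000000000000000000000000000010000000000000000000000000000000300000000000000000000000000000001000000000000000000000000000000030000000000000000000000000000000100000000000000000000000000000003000000000000000100000000000000010000000000000101000000000000030300000000000000010000000000000001000000000000010100000000000003030000000100000001000000010000000100000101000001010000111100003333000100010001000100010001000100010101010101010101111111115555fffe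

theorem bF13 : chkF bE13.length (XE bE13) bM13 = true := by decide +kernel

def bT15 : List ℕ := [
  0x11045104431044d1044a10441004501044510446104410044b08942089220802240822308011040111022088a20890200440089411044710444104431404100441134411284111c411104f1044313441004411304112841100224844111c411104110c4e1002230921104011044a10440089a11304112c41,
  0x10c450888208801140011284111c4e10444088221880113c2208801134411282208a02088a2088c2400220880112422089420880113022089a208a02088a20044312c41130411382208922088011184110401114411404110401120220880111c41124411302208942089e268982088620044e1044708822,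
  0x10443088222082238822408a2189a112c4811c411284008a011044f10440089a2088611044e10440089811044910448104451184110c411344c10022588224082238441124411304113440089427082238822804411002278822184411104110022704411002248822080224082208022388220802200401,
  0x10c411104111c4112022088a2088011402258822189811384f14041100226894208962088c208820089820894110022488220044e08822004441044710441004451044b10441004461044708820088224880112c4810450104410044a089c2004471104114041134411040113c4111022089c20898208962,
  0x1104110c451044b1044a10441004500802208022088a208022089020880112422088e208882088623092208982509e0089c26082218822804411002268822508224882208022608221882228441118411002258822404411244113847100225082268a0208862089c208820089e208a01104471040110440,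
  0x10c411104111c220880114022088a2088c208922408220044b10450104410044d1044e08822788228082008822408223882200449088227082268942089620044c1044e088224880110401120411140111c411184110c22004410044e10447110228080113c4d1044e104460882260822688228096008822]

theorem bS15 : chkS 14 [0, 1, 2, 3] [] [3] [13, 0, 1, 2] [13] [2] bM13 192 1 bT15 = true := by
  decide +kernel

def bT16 : List ℕ := [
  0x12c411204111c41110220880114022088a2088c2089821880112c501044a1044e104410044d0882218822208220044f11c411404112c220880112841124411040111c41114220880112022088c20044912c2250822688220044c00446104431104113c471044a08982089220880113822088e00882008822,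
  0x1044b0882240822388222080114022088a2088c20898258022189e208a02089611044a1002268982088611044610440089c110447104501104110c411344e10022788e208a020896110448104471044e10022508225882208022608227082238441100224882208022584011044008901100200882238822,
  0x12c411204111c4111022088a208962088011404d13822188222082238820089e2808225044112c4110c4c1002268942089e2388222082218822604411184111c40089c2089824882258822804411002250822384411204110022488220802260822184411002258441100224082208022384400802208801,
  0x1204112c22088a208022088820880113c4114022088620044d1044a10449104410044c10443104450882230822489020044b1044d1044f08822808220044a104410044910446104410044811441140220880111c220888208862089a278822508e2304491284d1044c10c40089c208022088e00882008822,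
  0x1044812c41114411104113c2208801140431044d1044a10449088226082218820088222882230822488011204b10450104410044a088011002278441100221844113441004411284110022488226044110022308221840110440089c11044f11041140451184908902809e20894208922708220044708822,
  0x1044b12047088010044408822288200882258822808220044d104410044e0882218820088228082220822709e20880111c22080224080112c2208a02089e20880112822089c208862688220044c0882258822408223894208022089c20898208962089024882238822209c260822180220896208902088e2]

theorem bS16 : chkS 14 [0, 1, 2, 3] [] [3] [13, 2, 5, 8] [13] [2] bM13 192 1 bT16 = true := by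
  decide +kernel

def bT17 : List ℕ := [
  0x88822882218822688225044008a02088a2088c1104481044a124411304008962088a111041004411184113801104431044b0044d1044c13841124220044a088200882240822004451044710022208221882268441140410044111c41128411344110c4f10440089c1104441044510022004481044708822,
  0x882220822288220045010443088220044d088225898208922709e280447124411204b1044008942089a20886110440089e1104501044510446100223888218822788225044113401104011044c104011044e104400888110440088a1104431044c10449118400896208a01104451044008902088e110440,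
  0x10c411104111c4112041104011404110c220896208902088e2004450882230822004441384d08862208228082250440089e2088811044e10440088e2088c110401104491044b104501204111c411384910440089411044c1044312c411404113c4a10022688220044e080220880110c220880112c4110401,
  0x110451044312c411344113c4111c22089420045012041114220880112c22088c208022089c208862089620044d1044e088226082258820088224082248822004471044a1382268a020802278801138220880110c4410446104480882200445104501044f0882200444089c2088e200441004481044b08822,
  0x882008822188222082200445088220044810450104410044a1044e104410044710450104410044f08022089c220822308a2089628080110c4113822089e208801134411282208a020880112c4112022088a208882088011184111c4e1304b0894238822408220044910446104430882258822509a218801,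
  0x11045104431044d1044a088225882228902004501284113c4111022089c2089220880111c22089020896208862308011144708a02089e2088200888270822308225844113041138400886208a0208820089e2089c208820089a2089611044c1044e10447100225044110022400220880112c200882008822]

theorem bS17 : chkS 14 [3, 6, 9, 11] [] [3] [13, 0, 1, 2] [13] [2] bM13 192 1 bT17 = true := by
  decide +kernel

def bT18 : List ℕ := [
  0x1044b088224082238822208a208862089a20045012c4908902809e2088e208922089811044e10022509a21882280822384411104110022788227044110c40089a2089411044c1044008961004410044112441100223844112041100222844112c41130411384008862088a11044008882088e11040110440,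
  0x12c4112022088a20888238822788011404112c4a089821882208022688225082238441138441002278a02089a25882260822708c2088820802208a0008820088221882008822588220044808820088222882200444088220044e10447088223082200449088225882280902088e2089c20044a1044b10441,
  0x1044b1204111441110471284d089e2208a208862089a25882208022808223844110022408220802258822604411244111c4113c4e1002250822584411304110022688221882208022788220802270441100222044111c411204112c40088a208882089c20882008862608225882240022004470882008822,
  0x88220045012c4112001104461044411441140481244e089428082278882089c20880111c41118220892200448104501044d088225882248982089c20044a10450104410044f1044e1044c104410044d10450080220880112c220880111822088a208a02089e200444088220044e08822188200882258822,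
  0x1044b088224082238822208a2080220886208962089420044d1044310444088220044f10447088228082258801128411040112422088011202008822004470882200444088010044110c41114411204100441124411184110c411344b12422509a20044c10c411184111c220888208862089a278822508e2,
  0x1044812c41114411104113c2208801140400896208820089a2089c208820088611044610449100226044112c4d1045013c2238922608220044a1044d10443088227080113c411402208882088c22880111c50088200882258822508223880112422080220890208962088011142208862004441044708822]

theorem bS18 : chkS 14 [3, 6, 9, 11] [] [3] [13, 2, 5, 8] [13] [2] bM13 192 1 bT18 = true := by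
  decide +kernel

def bT19 : List ℕ := [
  0x2208223082240822504411002258822184411002220822284411002230822384411002240441100225044110022188200880100441,
  0x20882008961004411002220820088a20880111c22088c2088011202208801128220896208882088a2004431044a104481044100441]

theorem bS19 : chkS 10 [9, 2, 4, 6] [9] [6] [9, 8, 1, 3] [8] [9] bM6 85 0 bT19 = true := by
  decide +kernel

def bT20 : List ℕ := [
  0x110449104431044810022388224882208022304011044810440088a110440089210044110022,
  0x110440088e11044008862089220882008881004411204110022284400892110440088c2088e2]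

theorem bS20 : chkS 8 [7, 0, 1, 5] [5, 0] [0, 1, 5, 7] [7, 4, 0, 6] [4] [0] bM5 61 1 bT20 = true := by
  decide +kernel

def bT21 : List ℕ := [
  0x2088a11044610447104481002220822284411002248441100224044110022384011044008820,
  0x1004410044111841100222844110022484411002240441110400880111822088e20890208922,
  0x1104461044510449104481002220822304411002238441100224082208022484411002208020,
  0x2088c11044510449104481002220822304411002238441100224082208022484411002208020,
  0x2088a11044610447104481002220822284411002248441100224082208022380200882008822,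
  0x2088c1004410044111441100224844110022404411104111840088e208902089211040110440,
  0x1104461044510449104481002220822304411002238441100224082208022484411002200401,
  0x2088c11044510449104481002220822304411002238441100224082208022484411002200401,
  0x2088a11044610447104481002220822284411002248441100224082208022384400802208801,
  0x10044100441118411002228441100224844110022404411104111840088e2089020892110440,
  0x1104461040110445104400892110440089020888100441004411184111c41120411240110440,
  0x2088c110445104011044910440089020888100441004411184111c4112001104400892110440]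

theorem bS21 : chkS 8 [7, 0, 2, 3] [] [7] [7, 1, 2, 3] [1] [2, 7] bM4 61 0 bT21 = true := by
  decide +kernel

end Pool.Agent.MP_086a35_co

end

-- part MP_086a35_co.Base
section

set_option autoImplicit false

namespace Pool.Agent.MP_086a35_co

open Finset

def Done (s N : ℕ) (rs : List ℕ) (a b : Bool) : Prop :=
  ∃ (E : List Tr) (T0 lA T lB tb : List ℕ) (ix m k c : ℕ), Side s N rs a b E T0 lA T ix lB ∧
    chkF E.length (XE E) m = true ∧ chkS E.length T0 [] lA T [ix] lB m k c tb = true

theorem done0 (a b : Bool) : Done 3 3 [] a b :=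
  ⟨bE0, _, _, _, _, _, _, _, _, _, by revert a b; decide +kernel, bF0, bS0⟩

theorem done1 (a b : Bool) : Done 2 3 [3] a b :=
  ⟨bE1, _, _, _, _, _, _, _, _, _, by revert a b; decide +kernel, bF1, bS1⟩

theorem done2 (b : Bool) : Done 2 4 [] false b :=
  ⟨bE2, _, _, _, _, _, _, _, _, _, by revert b; decide +kernel, bF2, bS2⟩

theorem done3 (a b : Bool) : Done 1 3 [3, 3] a b :=
  ⟨bE3, _, _, _, _, _, _, _, _, _, by revert a b; decide +kernel, bF3, bS3⟩

theorem done4 (a b : Bool) : Done 1 3 [4] a b :=
  ⟨bE4, _, _, _, _, _, _, _, _, _, by revert a b; decide +kernel, bF4, bS4⟩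

theorem done5 (b : Bool) : Done 1 4 [3] true b :=
  ⟨bE5, _, _, _, _, _, _, _, _, _, by revert b; decide +kernel, bF5, bS5⟩

theorem done6 : Done 1 5 [] false false :=
  ⟨bE6, _, _, _, _, _, _, _, _, _, by decide +kernel, bF6, bS6⟩

theorem done7 : Done 1 5 [] true false :=
  ⟨bE6, _, _, _, _, _, _, _, _, _, by decide +kernel, bF6, bS7⟩

theorem done8 : Done 1 5 [] true true :=
  ⟨bE6, _, _, _, _, _, _, _, _, _, by decide +kernel, bF6, bS8⟩

theorem done9 (a b : Bool) : Done 0 3 [3, 3, 3] a b :=
  ⟨bE7, _, _, _, _, _, _, _, _, _, by revert a b; decide +kernel, bF7, bS9⟩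

theorem done10 (a b : Bool) : Done 0 3 [3, 4] a b :=
  ⟨bE8, _, _, _, _, _, _, _, _, _, by revert a b; decide +kernel, bF8, bS10⟩

theorem done11 (a b : Bool) : Done 0 3 [4, 3] a b :=
  ⟨bEx, _, _, _, _, _, _, _, _, _, by revert a b; decide +kernel, bFx, bS10⟩

theorem done12 (b : Bool) : Done 0 4 [3, 3] true b :=
  ⟨bE9, _, _, _, _, _, _, _, _, _, by revert b; decide +kernel, bF9, bS11⟩

theorem done13 (b : Bool) : Done 0 4 [4] true b :=
  ⟨bE12, _, _, _, _, _, _, _, _, _, by revert b; decide +kernel, bF12, bS14⟩

theorem done14 (a b : Bool) : Done 0 3 [5] a b :=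
  ⟨bE10, _, _, _, _, _, _, _, _, _, by revert a b; decide +kernel, bF10, bS12⟩

theorem done15 : Done 0 5 [3] true true :=
  ⟨bE11, _, _, _, _, _, _, _, _, _, by decide +kernel, bF11, bS13⟩

theorem done16 : Done 0 6 [] false false :=
  ⟨bE13, _, _, _, _, _, _, _, _, _, by decide +kernel, bF13, bS15⟩

theorem done17 : Done 0 6 [] false true :=
  ⟨bE13, _, _, _, _, _, _, _, _, _, by decide +kernel, bF13, bS16⟩

theorem done18 : Done 0 6 [] true false :=
  ⟨bE13, _, _, _, _, _, _, _, _, _, by decide +kernel, bF13, bS17⟩

theorem done19 : Done 0 6 [] true true :=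
  ⟨bE13, _, _, _, _, _, _, _, _, _, by decide +kernel, bF13, bS18⟩

theorem done_all {s N : ℕ} {rs : List ℕ} {a b : Bool} (h3 : ∀ x ∈ rs, 3 ≤ x)
    (hv : Val N (rs.map (· - 2)).sum a b) (hd : s + (N - 2) + (rs.map (· - 2)).sum = 4) :
    Done s N rs a b := by
  obtain ⟨hN, hv⟩ := hv
  match rs, h3, hv, hd with
  | [], _, hv, hd =>
    simp only [List.map_nil, List.sum_nil] at hv hd
    have : N = 3 ∨ N = 4 ∨ N = 5 ∨ N = 6 := by clear hv; omega
    rcases this with rfl | rfl | rfl | rfl
    · obtain rfl : s = 3 := by clear hv; omega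
      exact done0 a b
    · obtain rfl : s = 2 := by clear hv; omega
      obtain rfl : a = false := by simpa using hv
      exact done2 b
    · obtain rfl : s = 1 := by clear hv; omega
      cases a <;> cases b
      · exact done6
      · simp at hv
      · exact done7
      · exact done8
    · obtain rfl : s = 0 := by clear hv; omega
      cases a <;> cases b
      · exact done16
      · exact done17
      · exact done18
      · exact done19
  | [x], h3, hv, hd =>
    have hx := h3 x (by simp)
    simp only [List.map_cons, List.map_nil, List.sum_cons, List.sum_nil] at hv hd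
    have : (N = 3 ∧ x = 3) ∨ (N = 3 ∧ x = 4) ∨ (N = 3 ∧ x = 5) ∨ (N = 4 ∧ x = 3) ∨
        (N = 4 ∧ x = 4) ∨ (N = 5 ∧ x = 3) := by
      clear hv
      have h1 : N ≤ 5 := by omega
      have h2 : x ≤ 5 := by omega
      interval_cases N <;> interval_cases x <;> simp at hd ⊢
    rcases this with ⟨rfl, rfl⟩ | ⟨rfl, rfl⟩ | ⟨rfl, rfl⟩ | ⟨rfl, rfl⟩ | ⟨rfl, rfl⟩ | ⟨rfl, rfl⟩
    · obtain rfl : s = 2 := by clear hv; omega
      exact done1 a b
    · obtain rfl : s = 1 := by clear hv; omega
      exact done4 a b
    · obtain rfl : s = 0 := by clear hv; omega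
      exact done14 a b
    · obtain rfl : s = 1 := by clear hv; omega
      obtain rfl : a = true := by simpa using hv
      exact done5 b
    · obtain rfl : s = 0 := by clear hv; omega
      obtain rfl : a = true := by simpa using hv
      exact done13 b
    · obtain rfl : s = 0 := by clear hv; omega
      obtain ⟨rfl, rfl⟩ : a = true ∧ b = true := by simpa using hv
      exact done15
  | [x, y], h3, hv, hd =>
    have hx := h3 x (by simp)
    have hy := h3 y (by simp)
    simp only [List.map_cons, List.map_nil, List.sum_cons, List.sum_nil] at hv hd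
    have : (N = 3 ∧ x = 3 ∧ y = 3) ∨ (N = 3 ∧ x = 3 ∧ y = 4) ∨ (N = 3 ∧ x = 4 ∧ y = 3) ∨
        (N = 4 ∧ x = 3 ∧ y = 3) := by
      clear hv
      have h1 : N ≤ 4 := by omega
      have h2 : x ≤ 4 := by omega
      have h2 : y ≤ 4 := by omega
      interval_cases N <;> interval_cases x <;> interval_cases y <;> simp at hd ⊢
    rcases this with ⟨rfl, rfl, rfl⟩ | ⟨rfl, rfl, rfl⟩ | ⟨rfl, rfl, rfl⟩ | ⟨rfl, rfl, rfl⟩
    · obtain rfl : s = 1 := by clear hv; omega
      exact done3 a b
    · obtain rfl : s = 0 := by clear hv; omega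
      exact done10 a b
    · obtain rfl : s = 0 := by clear hv; omega
      exact done11 a b
    · obtain rfl : s = 0 := by clear hv; omega
      obtain rfl : a = true := by simpa using hv
      exact done12 b
  | [x, y, z], h3, hv, hd =>
    have hx := h3 x (by simp)
    have hy := h3 y (by simp)
    have hz := h3 z (by simp)
    simp only [List.map_cons, List.map_nil, List.sum_cons, List.sum_nil] at hv hd
    obtain ⟨rfl, rfl, rfl, rfl, rfl⟩ : s = 0 ∧ N = 3 ∧ x = 3 ∧ y = 3 ∧ z = 3 := by clear hv; omega
    exact done9 a b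
  | x :: y :: z :: w :: l, h3, hv, hd =>
    have hx := h3 x (by simp)
    have hy := h3 y (by simp)
    have hz := h3 z (by simp)
    have hw := h3 w (by simp)
    simp only [List.map_cons, List.sum_cons] at hd
    clear hv
    omega

theorem base4 {G : Finset ℕ} {V : ℕ → ℕ} {N : ℕ} {rest : List Pl} {a b : Bool}
    (h : WF G ((N, V) :: rest)) (hv : Val N (kR rest) a b)
    (hd : G.card + (N - 2) + kR rest = 4) : St G V N rest a b := by
  refine St_of_filter ?_
  have h' := h.filter
  rw [← kR_filter] at hv hd
  have h3 : ∀ x ∈ (rest.filter (fun p => 3 ≤ p.1)).map Prod.fst, 3 ≤ x := by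
    intro x hx
    obtain ⟨p, hp, rfl⟩ := List.mem_map.1 hx
    simpa using (List.mem_filter.1 hp).2
  generalize rest.filter (fun p => 3 ≤ p.1) = r at h' hv hd h3 ⊢
  have e : kR r = ((r.map Prod.fst).map (· - 2)).sum := by
    rw [kR, List.map_map]
    rfl
  rw [← G.toList_toFinset] at h' ⊢
  rw [← G.length_toList] at hd
  obtain ⟨E, T0, lA, T, lB, tb, ix, m, k, c, k1, k2, k3⟩ :=
    done_all h3 (e ▸ hv) (e ▸ hd)
  exact St_of_chk h' G.nodup_toList hv.1 hd k1 k2 k3

theorem Y1 {c : ℕ} {U : ℕ → ℕ} (h : WF {c} [(5, U)]) :
    Cl (F1 cr ({c} ∪ diag U 5))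
      (RP {c, dg (U 0) (U 4), dg (U 1) (U 4), dg (U 2) (U 4)} [c] (· = dg (U 2) (U 4)))
      (RP {c, dg (U 3) (U 5), dg (U 0) (U 3), dg (U 1) (U 3)} [dg (U 3) (U 5)] (· = c))
      (fun _ _ => True) := by
  have k := Cl_cfg (gl := [c]) (L := [(5, U)]) (E := bE6) h (List.nodup_singleton c)
    (show Lists 1 [5] bE6 by decide +kernel) bF6 bS19
  simpa [fE, cod, bE6, DR] using k

theorem Y2 {c : ℕ} {U Q : ℕ → ℕ} (h : WF {c} [(4, U), (3, Q)]) :
    Cl (F1 cr ({c} ∪ diag U 4 ∪ diag Q 3))
      (RP {c, dg (U 0) (U 2), dg (U 0) (U 3), dg (Q 0) (Q 2)} [dg (Q 0) (Q 2), dg (U 0) (U 2)]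
        (fun _ => True))
      (RP {c, dg (U 2) (U 4), dg (U 0) (U 2), dg (Q 1) (Q 3)} [dg (U 2) (U 4)]
        (· = dg (U 0) (U 2)))
      (fun _ _ => True) := by
  have k := Cl_cfg (gl := [c]) (L := [(4, U), (3, Q)]) (E := bE5) h (List.nodup_singleton c)
    (show Lists 1 [4, 3] bE5 by decide +kernel) bF5 bS20
  have k' : Cl (F1 cr ({c} ∪ diag U 4 ∪ diag Q 3))
      (RP {c, dg (U 0) (U 2), dg (U 0) (U 3), dg (Q 0) (Q 2)} [dg (Q 0) (Q 2), dg (U 0) (U 2)]
        (fun z => z = dg (U 0) (U 2) ∨ z = dg (U 0) (U 3) ∨ z = dg (Q 0) (Q 2) ∨ z = c))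
      (RP {c, dg (U 2) (U 4), dg (U 0) (U 2), dg (Q 1) (Q 3)} [dg (U 2) (U 4)]
        (· = dg (U 0) (U 2)))
      (fun _ _ => True) := by
    simpa [fE, cod, bE5, DR] using k
  refine k'.mono ?_ (fun _ h => h) (fun _ _ _ _ h => h)
  rintro l ⟨h1, t, z, rfl, -⟩
  refine ⟨h1, t, z, rfl, ?_⟩
  have := h1.mem.1 (show z ∈ _ by simp)
  simp only [mem_insert, mem_singleton] at this
  tauto

theorem Y3 {c : ℕ} {V W : ℕ → ℕ} (h : WF {c} [(3, V), (4, W)]) :
    Cl (F1 cr ({c} ∪ diag V 3 ∪ diag W 4))
      (RP {c, dg (V 0) (V 2), dg (W 0) (W 2), dg (W 0) (W 3)} [] (· = c))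
      (RP {c, dg (V 1) (V 3), dg (W 0) (W 2), dg (W 0) (W 3)} [dg (V 1) (V 3)]
        (fun z => z = c ∨ z = dg (W 0) (W 2)))
      (fun _ _ => True) := by
  have k := Cl_cfg (gl := [c]) (L := [(3, V), (4, W)]) (E := bE4) h (List.nodup_singleton c)
    (show Lists 1 [3, 4] bE4 by decide +kernel) bF4 bS21
  simpa [fE, cod, bE4, DR, or_comm] using k

end Pool.Agent.MP_086a35_co

end

-- part MP_086a35_co.Step3
section

set_option autoImplicit false

namespace Pool.Agent.MP_086a35_co

open Finset

section Junctions

variable {S S' : Multiset (Finset ℕ)} {P Q' : List ℕ → Prop} {U : Finset ℕ} {x y e l : ℕ}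

theorem AA.toEnd {T0 T : Finset ℕ} {LA LB L : ℕ → Prop} {h : Prop} (k : AA S T0 LA T e LB h)
    (hh : ¬ h) (hL : ∀ z, L z → LB z) : Cl S (RP T0 [] LA) (RP T [e] L) (fun _ _ => True) :=
  Cl.mono k (fun _ h => h) (RP.mono hL) (fun _ _ _ _ _ k => absurd k hh)

theorem RP.forget {T : Finset ℕ} {p a : List ℕ} {L : ℕ → Prop} (h : RP T p L a) : RP T [] L a := by
  obtain ⟨h1, t, z, rfl, h2⟩ := h
  exact ⟨h1, p ++ t, z, by simp, h2⟩

theorem Cl.startP {T0 T0' : Finset ℕ} {LA L : ℕ → Prop} {H : List ℕ → List ℕ → Prop}
    (k : Cl S (RP T0 [] LA) Q' H) (p : List ℕ) (hT : T0' = T0) (hL : ∀ z, L z → LA z) :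
    Cl S (RP T0' p L) Q' H :=
  Cl.mono k (fun a h => hT ▸ RP.mono hL a h.forget) (fun _ h => h) (fun _ _ _ _ h => h)

theorem Cl.stop {T T' : Finset ℕ} {L : ℕ → Prop} {p : List ℕ} {H : List ℕ → List ℕ → Prop}
    (k : Cl S P (RP T p L) H) (hT : T' = T) : Cl S P (RP T' p L) H := hT ▸ k

theorem JAA (x : ℕ) (k : Cl S P (RP (insert y U) [e] (· = y)) (fun _ _ => True))
    (k1 : Cl S' (RP U [e] (· = l)) Q' (fun _ _ => True)) (hy : y ∉ U) (he : e ∈ U) (hl : l ∈ U)
    (hel : e ≠ l) (hc : 4 ≤ U.card) : Ch (S + lift x S') P x Q' := by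
  refine J0 x k k1 hy (fun a b _ _ p => ?_)
  obtain ⟨t, ht, hs⟩ := E2 he hl hel hc p
  exact ⟨_, ht, hs, ⟨ht.snoc hy, t ++ [l], y, rfl, rfl⟩, trivial, ⟨ht, t, l, rfl, rfl⟩, trivial⟩

theorem JEB {L : ℕ → Prop} (x' : ℕ) (k : Ch S P x (RP (insert y U) [e] (· = y)))
    (k1 : Cl S' Q' (RP (insert x U) [x] L) (fun _ _ => True)) (hy : y ∉ U) (hx : x ∉ U)
    (hE : ∀ p, ∃ t z, L z ∧ Ord U (e :: (t ++ [z])) ∧ sg (e :: (t ++ [z])) = p) :
    Ch (S + lift x' S') P x' Q' := by
  refine JF x' k (Cl.symm k1) hy (fun b _ p => ?_)
  obtain ⟨t, z, hz, ht, hs⟩ := hE p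
  exact ⟨_, ht, hs, ⟨ht.snoc hy, t ++ [z], y, rfl, rfl⟩, ⟨ht.cons hx, e :: t, z, rfl, hz⟩, trivial⟩

end Junctions

variable {G : Finset ℕ} {V W U : ℕ → ℕ} {N M n : ℕ} {rest oth : List Pl}

theorem fanAt_Ico' (V : ℕ → ℕ) (r : ℕ) {i j : ℕ} (h : i ≤ j) :
    fanAt V r (Ico i (j + 1)) = insert (dg (V r) (V j)) (fanAt V r (Ico i j)) := by
  unfold fanAt
  rw [Nat.Ico_succ_right_eq_insert_Ico h, image_insert]

theorem fanL_succ (V : ℕ → ℕ) (w : ℕ) (h : 1 ≤ w) :
    fanL V (w + 1) false = insert (dg (V 0) (V (w + 1))) (fanL V w false) :=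
  fanAt_Ico' V 0 (i := 2) (j := w + 1) (by omega)

/-- after two forward passes -/
theorem twoPass (ih : IH n) {r : ℕ} (h : WF G [(N, V)]) (hN : 6 ≤ N) (hd : 7 ≤ G.card + N)
    (hn : G.card + 2 * (N - 2) ≤ n) {b β : Bool} (hβ : β = decide (7 ≤ N)) {A : Finset ℕ} {l : ℕ}
    {L : ℕ → Prop}
    (k0 : Cl (F1 cr (Cw G V N [] 0)) (RP (G ∪ fanL V (N - 1) false ∪ TR []) [] (LA G V N []))
      (RP (insert (yy V N 0) (insert (yy V N 1) G ∪ A)) [yy V N 1] (· = yy V N 0))
      (fun _ _ => True))
    (k1 : Cl (F1 cr (Cw G V N [] 1)) (RP (insert (yy V N 1) G ∪ A) [yy V N 1] (· = l))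
      (RP (insert (yy V N 1) (UU G V N [] 1 true)) [yy V N r] (· = yy V N 1)) (fun _ _ => True))
    (hy : yy V N 0 ∉ A) (hl : l ∈ G ∪ A) (hl' : yy V N 1 ≠ l)
    (hc : 4 ≤ (insert (yy V N 1) G ∪ A).card)
    (k2 : Cl (F1 cr (Cw G V N [] 2)) (RP (TT G V N [] 2 β) [] (· = yy V N 2))
      (RP (insert (xx V N 1) (UU G V N [] 1 true)) [xx V N 1] L) (fun _ _ => True))
    (hE : ∀ p, ∃ t z, L z ∧ Ord (UU G V N [] 1 true) (yy V N r :: (t ++ [z])) ∧
      sg (yy V N r :: (t ++ [z])) = p) : St G V N [] false b := by
  have c1 := JAA (xx V N 1) k0 k1 (by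
    simp only [mem_union, mem_insert, hy, h.yy_notMem (w := 0) (by omega), or_false]
    exact h.head.ne (by omega)) (by simp) (by rw [insert_union]; exact mem_insert_of_mem hl) hl' hc
  have c2 := JEB (xx V N 2) c1 k2 (h.yy_UU (by omega) _) (h.xx_UU le_rfl (by omega) _) hE
  subst hβ
  refine chain_all ih h (by rw [kR_nil]; omega) (by rw [kR_nil]; omega) (w := 2)
    (by omega) (by omega) ?_ ?_ c2
  · intro u h1 h2
    refine ⟨by omega, Or.inr ?_⟩
    simp only [kR_nil, decide_eq_true_eq, decide_eq_false_iff_not]
    omega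
  · refine ⟨by omega, Or.inr ?_⟩
    simp only [kR_nil, decide_eq_false_iff_not]
    exact ⟨fun k => absurd rfl k, fun _ => ⟨fun k => by omega, fun k => Or.inr (by omega)⟩⟩

theorem mem_UU1 {a : ℕ} : a ∈ UU G V N [] 1 true ↔ a ∈ G ∨ a ∈ YY V N 2 := by
  simp [UU, fanL_1, TR]

theorem pass2 (ih : IH n) (h : WF G [(N, V)]) (hN : 6 ≤ N) (hd : 7 ≤ G.card + N)
    (hn : G.card + 2 * (N - 2) ≤ n) (β : Bool) :
    Cl (F1 cr (Cw G V N [] 2)) (RP (TT G V N [] 2 β) [] (· = yy V N 2))
      (RP (insert (xx V N 1) (UU G V N [] 1 true)) [xx V N 1]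
        (· ∈ insert (yy V N 2) G)) (fun _ _ => True) := by
  have k := callB ih h (by rw [kR_nil]; omega) (by rw [kR_nil]; omega) (w := 1) le_rfl (by omega)
    (a := β) (b := true) ⟨le_rfl, Or.inl rfl⟩ 0
  rw [Gw_lt (by omega)] at k
  refine (k.toEnd (fun k => ?_) (fun z => LB.ofG)).startP [] rfl ?_
  · have := k.2.1
    rw [kR_Rw] at this
    omega
  · rintro z rfl
    exact LA.ofG (mem_insert_self _ _)

theorem yy_UU1 {w : ℕ} (h1 : 2 ≤ w) (h2 : w < N - 2) : yy V N w ∈ UU G V N [] 1 true :=
  mem_UU1.2 (Or.inr (mem_fanAt.2 ⟨w, mem_Ico.2 ⟨h1, h2⟩, rfl⟩))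

theorem hE_cone {r : ℕ} (h : WF G [(N, V)]) (hr : r + 3 = N) (hN : 6 ≤ N) {c : ℕ} (hc : c ∈ G)
    (p : ZMod 2) : ∃ t z, z ∈ insert (yy V N 2) G ∧
      Ord (UU G V N [] 1 true) (yy V N r :: (t ++ [z])) ∧ sg (yy V N r :: (t ++ [z])) = p := by
  have n1 : yy V N r ≠ yy V N 2 := h.head.ne (by omega)
  have n2 : yy V N r ≠ c := fun e => h.yy_notMem (by omega) (e ▸ hc)
  have n3 : yy V N 2 ≠ c := fun e => h.yy_notMem (by omega) (e ▸ hc)
  obtain ⟨t, z, h1, h2, h3⟩ := E3 (U := UU G V N [] 1 true) [yy V N r]
    (a := yy V N 2) (b := c) (by simp [n1, n2, n3])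
    (by simp [mem_UU1.2 (Or.inl hc), yy_UU1 (w := 2) le_rfl (show 2 < N - 2 by omega),
      yy_UU1 (w := r) (by omega) (show r < N - 2 by omega)]) p
  exact ⟨t, z, by rcases h1 with rfl | rfl <;> simp [hc], h2, h3⟩

theorem step_iv (ih : IH n) (h : WF G [(6, V)]) (hd : 1 ≤ G.card) (hn : G.card + 8 ≤ n)
    (b : Bool) : St G V 6 [] false b := by
  have hc := h.head
  obtain ⟨c, hcG⟩ := card_pos.1 hd
  have hd' : 5 ≤ G.card + (6 - 2) + kR [] := by rw [kR_nil]; omega
  have hn' : G.card + 2 * (6 - 2 + kR []) ≤ n := by rw [kR_nil]; omega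
  have k0 := callW ih h hd' hn' (w := 0) (M := 5) (by omega) rfl
    (((hc.vr (w := 0) (by omega)).rf (c := 3) (by omega)).rf (c := 0) (by omega))
    ((diag_RF _ (by omega)).trans (diag_RF _ (by omega)))
    (a := true) (b := false) ⟨by omega, Or.inr (by simp [kR_nil])⟩ 0
  have k1 := callW ih h hd' hn' (w := 1) (M := 4) (by omega) rfl
    ((hc.vr (w := 1) (by omega)).rf (c := 2) (by omega)) (diag_RF _ (by omega))
    (a := false) (b := false) ⟨by omega, Or.inr (by simp [kR_nil])⟩ 0
  simp only [show 5 - 1 = 4 from rfl, show 5 - 2 = 3 from rfl,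
    show 4 - 2 = 2 from rfl, fanL_4t, fanL_3f, fanL_2] at k0 k1
  refine twoPass ih (r := 3) h le_rfl (by omega) hn rfl
    (A := {dg (V 2) (V 4), dg (V 2) (V 5)}) (l := c)
    (((k0.toEnd (fun k => by have := k.1; omega) ?_).startP [] ?_ ?_).stop ?_)
    (((k1.toEnd (fun k => by have := k.1; omega) ?_).startP _ ?_ ?_).stop ?_) ?_ (by simp [hcG])
    (fun e => h.yy_notMem (by omega) (e ▸ hcG)) ?_ (pass2 ih h le_rfl (by omega) hn _)
    (hE_cone h rfl le_rfl hcG)
  · rintro z rfl
    exact LB.ofG (mem_insert_self _ _)
  · rw [fanL_succ V 4 (by omega), fanL_4f, dg_comm (V 0) (V 5)]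
    change _ = insert (dg (V 5) (V 0)) G ∪ {dg (V 0) (V 2), dg (V 0) (V 3), dg (V 0) (V 4)} ∪ _
    ext; simp only [mem_union, mem_insert]; tauto
  · intro c k
    have := k.mem0 (by omega)
    rw [Gw_lt (by omega)] at this
    exact LA.ofG this
  · change _ = insert (yy V 6 1) (insert (yy V 6 0) G ∪ {dg (V 2) (V 4), dg (V 2) (V 5)} ∪ ∅)
    ext; simp only [mem_union, mem_insert, notMem_empty]; tauto
  · rintro z rfl
    exact LB.ofG (mem_insert_self _ _)
  · change _ = insert (yy V 6 1) G ∪ {dg (V 2) (V 5), dg (V 2) (V 4)} ∪ ∅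
    ext; simp only [mem_union, mem_insert, notMem_empty, mem_singleton]; tauto
  · rintro z rfl
    exact LA.ofG (mem_insert_of_mem hcG)
  · change _ = insert (yy V 6 3) (insert (yy V 6 1) G ∪ {dg (V 2) (V 5)} ∪ ∅)
    ext
    simp only [mem_union, mem_insert, notMem_empty, mem_singleton, mem_UU1]
    rw [YY_succ V (by omega), YY_succ V (by omega), YY_top V (by omega), dg_comm (V 2) (V 5)]
    simp only [mem_insert, notMem_empty, yy]
    tauto
  · simp only [mem_insert, mem_singleton, not_or]
    exact ⟨hc.ne (by decide), hc.ne (by decide)⟩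
  · rw [card_union_of_disjoint, card_insert_of_notMem (h.yy_notMem (by omega)),
      card_pair (hc.ne (by decide))]
    · omega
    · simp only [disjoint_insert_right, disjoint_singleton_right, mem_insert, not_or]
      exact ⟨⟨hc.ne (by decide), h.nG (by decide)⟩, hc.ne (by decide), h.nG (by decide)⟩

def UA (V : ℕ → ℕ) (m : ℕ) : ℕ → ℕ := RF (VR V (m + 7) 0) (m + 6) (m + 6)

def UB (V : ℕ → ℕ) (m : ℕ) : ℕ → ℕ := RF (VR V (m + 7) 1) (m + 5) (m + 3)

theorem UA_le {m i : ℕ} (hi : i ≤ m + 5) : UA V m i = V (m + 5 - i) := by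
  simp only [UA, RF, rf, VR, rho]
  rw [if_pos (show i ≤ m + 6 by omega), if_neg (by omega)]
  congr 1; omega

theorem UA_top {m : ℕ} : UA V m (m + 6) = V (m + 6) := by
  simp [UA, RF, rf, VR, rho]

theorem UB_le {m i : ℕ} (hi : i ≤ m + 2) : UB V m i = V (m + 3 - i) := by
  simp only [UB, RF, rf, VR, rho]
  rw [if_pos (show i ≤ m + 3 by omega), if_neg (by omega)]
  congr 1; omega

theorem UB_a {m : ℕ} : UB V m (m + 3) = V (m + 6) := by
  simp [UB, RF, rf, VR, rho]

theorem UB_b {m : ℕ} : UB V m (m + 4) = V (m + 5) := by
  simp only [UB, RF, rf, VR, rho]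
  rw [if_neg (show ¬ m + 4 ≤ m + 3 by omega), if_neg (by omega)]
  congr 1; omega

theorem UB_c {m : ℕ} : UB V m (m + 5) = V (m + 4) := by
  simp only [UB, RF, rf, VR, rho]
  rw [if_neg (show ¬ m + 5 ≤ m + 3 by omega), if_neg (by omega)]
  congr 1; omega

def AB (V : ℕ → ℕ) (m : ℕ) : Finset ℕ := fanAt V (m + 5) (Ico 1 (m + 4))

theorem fA1 (m : ℕ) : fanL (UA V m) (m + 5) true = fanL V (m + 5) false :=
  fanAt_congr (by rw [UA_le le_rfl, Nat.sub_self])
    (fun j hj => ⟨m + 5 - j, by rw [mem_range] at hj; rw [mem_Ico]; omega,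
      UA_le (by rw [mem_range] at hj; omega)⟩)
    (fun j hj => ⟨m + 5 - j, by rw [mem_Ico] at hj; rw [mem_range]; omega,
      by rw [mem_Ico] at hj; rw [UA_le (by omega)]; congr 1; omega⟩)

theorem fA2 (m : ℕ) : fanL (UA V m) (m + 4) false = AB V m :=
  fanAt_congr (UA_le (by omega))
    (fun j hj => ⟨m + 5 - j, by rw [mem_Ico] at hj ⊢; omega,
      UA_le (by rw [mem_Ico] at hj; omega)⟩)
    (fun j hj => ⟨m + 5 - j, by rw [mem_Ico] at hj ⊢; omega,
      by rw [mem_Ico] at hj; rw [UA_le (by omega)]; congr 1; omega⟩)

theorem fB1 (m : ℕ) : fanL (UB V m) (m + 4) true = AB V m :=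
  fanAt_congr UB_b
    (fun j hj => ⟨m + 3 - j, by rw [mem_range] at hj; rw [mem_Ico]; omega,
      UB_le (by rw [mem_range] at hj; omega)⟩)
    (fun j hj => ⟨m + 3 - j, by rw [mem_Ico] at hj; rw [mem_range]; omega,
      by rw [mem_Ico] at hj; rw [UB_le (by omega)]; congr 1; omega⟩)

theorem fB2 (m : ℕ) : fanL (UB V m) (m + 3) true = fanAt V (m + 6) (Ico 2 (m + 4)) :=
  fanAt_congr UB_a
    (fun j hj => ⟨m + 3 - j, by rw [mem_range] at hj; rw [mem_Ico]; omega,
      UB_le (by rw [mem_range] at hj; omega)⟩)
    (fun j hj => ⟨m + 3 - j, by rw [mem_Ico] at hj; rw [mem_range]; omega,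
      by rw [mem_Ico] at hj; rw [UB_le (by omega)]; congr 1; omega⟩)

theorem mem_AB {m i j : ℕ} (hc : Chart V (m + 7)) (hi : i ≤ m + 7) (hj : j ≤ m + 7) :
    dg (V i) (V j) ∈ AB V m ↔
      (i = m + 5 ∧ 1 ≤ j ∧ j < m + 4) ∨ (j = m + 5 ∧ 1 ≤ i ∧ i < m + 4) := by
  rw [AB, hc.mem_fanAt (by omega) (fun j hj => by rw [mem_Ico] at hj; omega) hi hj, mem_Ico,
    mem_Ico]

theorem wfB {m : ℕ} (h : WF G [(m + 7, V)]) :
    WF (insert (yy V (m + 7) 1) G) [(m + 5, UB V m)] ∧
      Cw G V (m + 7) [] 1 = insert (yy V (m + 7) 1) G ∪ diag (UB V m) (m + 5) ∪ DR [] :=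
  h.lowW (w := 1) (M := m + 5) (by omega) (by omega) rfl
    ((h.head.vr (w := 1) (by omega)).rf (c := m + 3) (by omega)) (diag_RF _ (by omega))

theorem card_AB {m : ℕ} (h : WF G [(m + 7, V)]) :
    (insert (yy V (m + 7) 1) G ∪ AB V m).card = G.card + m + 4 := by
  have w1 := (wfB h).1
  have := w1.card_ctx (fanL_sub (UB V m) (w := m + 4) le_rfl true)
  rw [w1.head.card_fanL (by omega), fB1, TR, union_empty,
    card_insert_of_notMem (h.yy_notMem (by omega)), kR_nil] at this
  omega

theorem pass0A (ih : IH n) {m : ℕ} (h : WF G [(m + 7, V)]) (hn : G.card + 2 * (m + 5) ≤ n) :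
    Cl (F1 cr (Cw G V (m + 7) [] 0))
      (RP (G ∪ fanL V (m + 7 - 1) false ∪ TR []) [] (LA G V (m + 7) []))
      (RP (insert (yy V (m + 7) 0) (insert (yy V (m + 7) 1) G ∪ AB V m)) [yy V (m + 7) 1]
        (· = yy V (m + 7) 0)) (fun _ _ => True) := by
  have k0 := callW ih h (by rw [kR_nil]; omega) (by rw [kR_nil]; omega) (w := 0) (M := m + 6)
    (U := UA V m) (by omega) rfl ((h.head.vr (w := 0) (by omega)).rf (c := m + 6) (by omega))
    (diag_RF _ (by omega)) (a := true) (b := false) ⟨by omega, Or.inr (by simp [kR_nil])⟩ 0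
  have x0 : xx (UA V m) (m + 6) (m + 4) = yy V (m + 7) 1 := by
    rw [xx, UA_top, UA_le (by omega), dg_comm, show m + 5 - (m + 4) = 1 by omega]; rfl
  rw [show m + 6 - 1 = m + 5 from rfl, show m + 6 - 2 = m + 4 from rfl, fA1, fA2, x0] at k0
  refine ((k0.toEnd (fun k => by have := k.1; omega) ?_).startP [] ?_ ?_).stop ?_
  · rintro z rfl
    exact LB.ofG (mem_insert_self _ _)
  · rw [show m + 7 - 1 = m + 5 + 1 from rfl, fanL_succ V _ (by omega), dg_comm (V 0)]
    ext; simp only [mem_union, mem_insert, yy, show m + 7 - 1 = m + 5 + 1 from rfl]; tauto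
  · intro c k
    have := k.mem0 (by omega)
    rw [Gw_lt (by omega)] at this
    exact LA.ofG this
  · ext; simp only [mem_union, mem_insert, TR, notMem_empty]; tauto

theorem step_oct (ih : IH n) (h : WF ∅ [(7, V)]) (hn : 10 ≤ n) (b : Bool) :
    St ∅ V 7 [] false b := by
  have hc := h.head
  have w2 : WF {yy V 7 2} [(3, VL V 7 2), (4, VR V 7 2)] := by
    have := h.pass (w := 2) (by omega)
    rwa [Gw_lt (by omega)] at this
  have e1 : Cw ∅ V 7 [] 1 = {yy V 7 1} ∪ diag (UB V 0) 5 :=
    (wfB (m := 0) h).2.trans (union_empty _)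
  have e2 : Cw ∅ V 7 [] 2 = {yy V 7 2} ∪ diag (VL V 7 2) 3 ∪ diag (VR V 7 2) 4 := by
    rw [Cw, Gw_lt (by omega), Rw, DR, DR, union_empty]; rfl
  have y1 : Cl (F1 cr (Cw ∅ V 7 [] 1))
      (RP {yy V 7 1, dg (V 3) (V 5), dg (V 2) (V 5), dg (V 1) (V 5)} [yy V 7 1]
        (· = dg (V 1) (V 5)))
      (RP {yy V 7 1, yy V 7 4, dg (V 3) (V 6), dg (V 2) (V 6)} [yy V 7 4] (· = yy V 7 1))
      (fun _ _ => True) := e1 ▸ Y1 (wfB (m := 0) h).1
  have y3 : Cl (F1 cr (Cw ∅ V 7 [] 2))
      (RP {yy V 7 2, dg (V 0) (V 2), yy V 7 3, yy V 7 4} [] (· = yy V 7 2))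
      (RP {yy V 7 2, xx V 7 1, yy V 7 3, yy V 7 4} [xx V 7 1]
        (fun z => z = yy V 7 2 ∨ z = yy V 7 3)) (fun _ _ => True) := e2 ▸ Y3 w2
  have eY : YY V 7 2 = {yy V 7 2, yy V 7 3, yy V 7 4} := by
    rw [YY_succ V (by omega), YY_succ V (by omega), YY_succ V (by omega), YY_top V (by omega)]
    rfl
  have eA : AB V 0 = {dg (V 1) (V 5), dg (V 2) (V 5), dg (V 3) (V 5)} := by
    have i1 : Ico 1 (0 + 4) = {1, 2, 3} := by decide
    rw [AB, i1, fanAt]
    simp only [image_insert, image_singleton, dg_comm (V (0 + 5))]
  have eA' : insert (yy V 7 1) ∅ ∪ AB V 0 =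
      {yy V 7 1, dg (V 3) (V 5), dg (V 2) (V 5), dg (V 1) (V 5)} := by
    rw [eA]
    ext; simp only [mem_union, mem_insert, notMem_empty, mem_singleton]; tauto
  refine twoPass ih (r := 4) h (by omega) (by simp) (by simpa using hn) rfl (A := AB V 0)
    (l := dg (V 1) (V 5)) (pass0A ih (m := 0) h (by simpa using hn)) ?_ ?_ ?_ (hc.ne (by decide))
    (card_AB (m := 0) h).ge (Cl.stop (Cl.startP y3 [] ?_ (fun _ h => h)) ?_) ?_
  · rw [eA']
    refine y1.stop ?_
    ext
    simp only [mem_insert, mem_UU1, notMem_empty, mem_singleton, eY, dg_comm _ (V 6), yy]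
    tauto
  · rw [yy, mem_AB (m := 0) hc (by omega) (by omega)]; omega
  · rw [mem_union, mem_AB (m := 0) hc (by omega) (by omega)]; omega
  · rw [TT, fanL_2, eY]
    ext; simp only [mem_union, mem_insert, TR, notMem_empty, mem_singleton]; tauto
  · ext
    simp only [mem_insert, mem_UU1, notMem_empty, mem_singleton, eY]
    tauto
  · intro p
    have n1 : yy V 7 4 ≠ yy V 7 2 := hc.ne (by decide)
    have n2 : yy V 7 4 ≠ yy V 7 3 := hc.ne (by decide)
    have n3 : yy V 7 2 ≠ yy V 7 3 := hc.ne (by decide)
    exact E3 (U := UU ∅ V 7 [] 1 true) [yy V 7 4] (a := yy V 7 2) (b := yy V 7 3)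
      (by simp [n1, n2, n3]) (by simp [mem_UU1, eY]) p

theorem step_iii (ih : IH n) {m : ℕ} (h : WF G [(m + 7, V)]) (hn : G.card + 2 * (m + 5) ≤ n)
    (b : Bool) : St G V (m + 7) [] false b := by
  by_cases hs : G.card + m = 0
  · obtain rfl : m = 0 := by omega
    obtain rfl : G = ∅ := card_eq_zero.1 (by omega)
    exact step_oct ih h (by simpa using hn) b
  have hc := h.head
  obtain ⟨w1, e1⟩ := wfB h
  have x1 : xx (UB V m) (m + 5) (m + 3) = yy V (m + 7) (m + 4) := by
    rw [xx, UB_a, UB_c]; rfl
  have eT : insert (yy V (m + 7) 1) (UU G V (m + 7) [] 1 true) = insert (yy V (m + 7) (m + 4))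
      (insert (yy V (m + 7) 1) G ∪ fanAt V (m + 6) (Ico 2 (m + 4)) ∪ TR []) := by
    ext
    simp only [mem_union, mem_insert, TR, notMem_empty, mem_UU1]
    rw [YY, show m + 7 - 2 = m + 4 + 1 from rfl, fanAt_Ico' V _ (by omega), mem_insert]
    simp only [yy, show m + 7 - 1 = m + 6 from rfl]
    tauto
  have hy : yy V (m + 7) 0 ∉ AB V m := by
    rw [yy, mem_AB hc (by omega) (by omega)]; omega
  have cA := card_AB h
  have k1 := ih _ _ _ _ true true w1 ⟨by omega, Or.inr (by simp [kR_nil])⟩
    (by rw [card_insert_of_notMem (h.yy_notMem (by omega))]; omega)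
    (by rw [card_insert_of_notMem (h.yy_notMem (by omega)), kR_nil]; omega) 0
  rw [show m + 5 - 1 = m + 4 from rfl, show m + 5 - 2 = m + 3 from rfl, ← e1, fB1, fB2, x1] at k1
  have K1 := (k1.toEnd (L := (· = yy V (m + 7) 1)) (fun k => by have := k.1; omega)
    (by rintro z rfl; exact LB.ofG (mem_insert_self _ _))).stop eT
  by_cases h0 : G = ∅
  · refine twoPass ih h (by omega) (by omega) hn rfl (l := dg (V (m + 5)) (V (m + 3)))
      (pass0A ih h hn) (K1.startP _ (union_empty _).symm ?_) hy ?_ (hc.ne (by omega)) (by omega)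
      (pass2 ih h (by omega) (by omega) hn _) (fun p => ?_)
    · rintro z rfl
      refine Or.inr ⟨?_, by omega, ?_⟩
      · rw [yy, show m + 5 - 1 = m + 4 from rfl, UB_b, UB_le (Nat.zero_le _)]; rfl
      · rw [h0, card_empty] at hs
        rw [kR_nil]; omega
    · rw [mem_union, mem_AB hc (by omega) (by omega)]; omega
    · obtain ⟨t, h1, h2⟩ := E2 (yy_UU1 (G := G) (V := V) (N := m + 7) (w := m + 4) (by omega)
        (by omega)) (yy_UU1 (w := 2) le_rfl (by omega))
        (hc.ne (by omega)) (by rw [h.card_UU le_rfl (by omega)]; omega) p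
      exact ⟨t, _, mem_insert_self _ _, h1, h2⟩
  · obtain ⟨c, hcG⟩ := nonempty_iff_ne_empty.2 h0
    refine twoPass ih h (by omega) (by omega) hn rfl (l := c)
      (pass0A ih h hn) (K1.startP _ (union_empty _).symm ?_) hy (mem_union_left _ hcG)
      (fun e => h.yy_notMem (by omega) (e ▸ hcG)) (by omega)
      (pass2 ih h (by omega) (by omega) hn _) (hE_cone h rfl (by omega) hcG)
    rintro z rfl
    exact LA.ofG (mem_insert_of_mem hcG)

end Pool.Agent.MP_086a35_co

end

-- part MP_086a35_co.Step4
section

set_option autoImplicit false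

namespace Pool.Agent.MP_086a35_co

open Finset

theorem JRB {S S' : Multiset (Finset ℕ)} {P : List ℕ → Prop} {U T T1 T2 : Finset ℕ}
    {x x' y e : ℕ} {L L0 LA1 LB1 : ℕ → Prop} {h1 : Prop}
    (k : Ch S P x' (RP T1 [x, e] L0)) (k1 : AA S' T2 LA1 T e LB1 h1) (hT1 : T1 = insert x U)
    (hT : T = insert y U) (hy : y ∉ U) (hx : x ∉ U) (hLB : LB1 y) (hL : ∀ z, L z → LA1 z)
    (hE : ∀ z, L z → ∀ p, ∃ t c, L0 c ∧ Ord U (e :: (t ++ [c])) ∧ sg (e :: (t ++ [c])) = p ∧
      (h1 → y = z ∨ (t ++ [c]).head? ≠ some z)) :
    Ch (S + lift x S') P x (RP T2 [] L) := by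
  refine JR (P' := RP T [e] LB1) (H' := fun a b => H2 h1 b a) x k
    (Cl.mono (Cl.symm k1) (fun _ h => h) (RP.mono hL) (fun _ _ _ _ h => h)) hy ?_
  rintro b ⟨-, tb, z, rfl, hz⟩ p
  obtain ⟨t, c, h2, ht, hs, h3⟩ := hE z hz p
  refine ⟨_, ht, hs, ⟨hT1 ▸ ht.cons hx, t, c, rfl, h2⟩,
    ⟨hT ▸ ht.snoc hy, t ++ [c], y, rfl, hLB⟩, fun k => ?_⟩
  rw [List.nil_append, lst1]
  rcases h3 k with h4 | h4
  · right
    rw [lst1, h4]
  · left
    cases t <;> exact h4

theorem two_cones {G : Finset ℕ} (h : 2 ≤ G.card) {e : ℕ} (he : e ∉ G) (p : ZMod 2) :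
    ∃ t c, c ∈ G ∧ Ord (insert e G) (e :: (t ++ [c])) ∧ sg (e :: (t ++ [c])) = p := by
  obtain ⟨u, hu, v, hv, huv⟩ := one_lt_card.1 h
  have n1 : ∀ s ∈ G, e ≠ s := fun s hs k => he (k ▸ hs)
  obtain ⟨t, z, h1, h2, h3⟩ := E3 (U := insert e G) [e] (a := u) (b := v)
    (by simp [n1 u hu, n1 v hv, huv]) (by simp [hu, hv]) p
  exact ⟨t, z, by rcases h1 with rfl | rfl <;> assumption, h2, h3⟩

variable {G : Finset ℕ} {V W U : ℕ → ℕ} {N M n : ℕ} {rest oth : List Pl}

theorem finishG (h : WF G ((N, V) :: rest)) (hN : 3 ≤ N) {a b : Bool} {z x : ℕ}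
    {S : Multiset (Finset ℕ)} {A B : Finset ℕ} {L L' : ℕ → Prop}
    (k : Ch S (RP A [] L) x (RP B [] L')) (hS : F1 cr (G ∪ diag V N ∪ DR rest) = S)
    (hx : xx V N (N - 2) = x) (hA : G ∪ fanL V (N - 1) a ∪ TR rest = A)
    (hB : G ∪ fanL V (N - 2) b ∪ TR rest = B) (hL : ∀ c, LA G V N rest c → L c)
    (hL' : ∀ c, LB G V N rest z c → L' c) : StZ G V N rest a b z := by
  unfold StZ
  rw [hS]
  subst hx
  exact (((k.start hA hL).mono (RP.mono hL')).stop hB).fin _ rfl (h.e_notMem hN b)

theorem P6start (ih : IH n) (h : WF G [(5, V)]) (hd : 2 ≤ G.card) (hn : G.card + 6 ≤ n) :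
    Ch (F1 cr (Cw G V 5 [] 0) + lift (xx V 5 2) (F1 cr (Cw G V 5 [] 2)))
      (RP (insert (yy V 5 2) (insert (yy V 5 1) (insert (yy V 5 0) G))) []
        (· ∈ insert (yy V 5 0) G)) (xx V 5 2)
      (RP (insert (xx V 5 1) (insert (yy V 5 2) G)) [] (· ∈ insert (yy V 5 2) G)) := by
  have hc := h.head
  obtain ⟨w0, e0⟩ := h.lowW (w := 0) (M := 4) (by omega) (by omega) rfl
    ((hc.vr (w := 0) (by omega)).rf (c := 0) (by omega)) (diag_RF _ (by omega))
  obtain ⟨w2, e2⟩ := h.highL (w := 2) (by omega) (by omega)
    ((hc.vl (w := 2) (by omega)).rf (c := 1) (by omega)) (diag_RF _ (by omega))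
  rw [Gw_lt (by omega)] at w2 e2
  have c0 : (insert (yy V 5 0) G).card = G.card + 1 :=
    card_insert_of_notMem (h.yy_notMem (by omega))
  have c2 : (insert (yy V 5 2) G).card = G.card + 1 :=
    card_insert_of_notMem (h.yy_notMem (by omega))
  have k0 := callP ih w0 (by omega) (by omega) (p := yy V 5 2) (q := yy V 5 1)
    (r := dg (V 0) (V 2)) rfl rfl (dg_comm _ _)
  have k2 := callQ ih w2 (by omega) (by omega) (p := xx V 5 1) (q := dg (V 0) (V 2)) rfl rfl
  have n1 : dg (V 0) (V 2) ∉ insert (yy V 5 2) G := w2.nG (i := 1) (j := 3) (by decide)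
  rw [e0, e2, DR, union_empty, union_empty]
  refine (JAB (y := yy V 5 0) _ k0 k2 not_false ?_ ?_ (mem_insert_self _ _) (mem_insert_self _ _)
    (by rw [card_insert_of_notMem n1]; omega) (fun _ h => h)
    (fun z hz => ⟨z, mem_insert_of_mem hz, fun e => n1 (e ▸ hz), hz, fun _ => rfl⟩)).start rfl
    (fun _ => Or.inl)
  · ext; simp only [mem_insert]; tauto
  · simp only [mem_insert, not_or]
    exact ⟨hc.ne (by decide), hc.ne (by decide), h.yy_notMem (by omega)⟩

theorem step_P6a (ih : IH n) (h : WF G [(5, V)]) (hd : 2 ≤ G.card) (hn : G.card + 6 ≤ n)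
    (z : ℕ) : StZ G V 5 [] true true z := by
  have hc := h.head
  obtain ⟨w1, e1⟩ := h.lowW (w := 1) (M := 3) (by omega) (by omega) rfl
    ((hc.vr (w := 1) (by omega)).rf (c := 1) (by omega)) (diag_RF _ (by omega))
  obtain ⟨w3, e3⟩ := h.highL (w := 3) (by omega) (by omega)
    ((hc.vl (w := 3) (by omega)).rf (c := 3) (by omega)) (diag_RF _ (by omega))
  rw [Gw_top (by omega)] at w3 e3
  have c1 : (insert (yy V 5 1) G).card = G.card + 1 :=
    card_insert_of_notMem (h.yy_notMem (by omega))
  have k1 := callQ ih w1 (by omega) (by omega) (p := dg (V 3) (V 1)) (q := yy V 5 2)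
    (dg_comm _ _) rfl
  have k3 := callP ih w3 hd (by omega) (p := dg (V 3) (V 1)) (q := dg (V 3) (V 0))
    (r := xx V 5 1) rfl rfl rfl
  have s1 := JRB (x := xx V 5 1) (y := yy V 5 1) (U := insert (yy V 5 2) G) (L0 := (· ∈ G))
    (L := (· = yy V 5 1)) ((P6start ih h hd hn).mono
      (fun a k => RP.mono (fun _ => mem_insert_of_mem) a k.forget)) k1 rfl (insert_comm _ _ _)
    (by simp only [mem_insert, not_or]; exact ⟨hc.ne (by decide), h.yy_notMem (by omega)⟩)
    (by simp only [mem_insert, not_or]; exact ⟨hc.ne (by decide), h.nG (by decide)⟩)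
    (mem_insert_self _ _) (by rintro z rfl; exact mem_insert_self _ _) (by
      rintro z rfl p
      obtain ⟨t, c, h1, h2, h3⟩ := two_cones hd (h.yy_notMem (w := 2) (by omega)) p
      exact ⟨t, c, h1, h2, h3, fun _ => Or.inl rfl⟩)
  have n3 : dg (V 3) (V 1) ∉ G := h.nG (by decide)
  have s2 := JBB (U := insert (dg (V 3) (V 1)) G) (L := (· ∈ G)) (xx V 5 3) s1 k3
    (insert_comm _ _ _) rfl
    (by simp only [mem_insert, not_or]; exact ⟨hc.ne (by decide), h.yy_notMem (by omega)⟩)
    (by simp only [mem_insert, not_or]; exact ⟨hc.ne (by decide), h.nG (by decide)⟩)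
    (by rw [card_insert_of_notMem n3]; omega) (fun _ => Or.inl)
    (fun z hz => ⟨z, mem_insert_of_mem hz, hz, fun _ => rfl⟩)
  refine finishG h (by omega) s2 ?_ rfl ?_ ?_ ?_ (fun c k => k.mem (by omega))
  · rw [F1_passes h (by omega), add_right_comm (F1 cr (Cw G V 5 [] 0))]
    rw [DR, union_empty] at e1 e3
    rw [← e1, ← e3]
    rfl
  · rw [show 5 - 1 = 4 from rfl, fanL_4t]
    ext; simp only [mem_union, mem_insert, mem_singleton, TR, notMem_empty, yy]; tauto
  · rw [show 5 - 2 = 3 from rfl, fanL_3t]
    ext; simp only [mem_union, mem_insert, mem_singleton, TR, notMem_empty]; tauto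
  · intro c k
    have := k.mem0 (by omega)
    rwa [Gw_lt (by omega)] at this

theorem P6b (ih : IH n) (h : WF G [(5, V)]) (hd : 2 ≤ G.card) (hn : G.card + 6 ≤ n) :
    Ch (F1 cr (G ∪ diag V 5 ∪ DR []))
      (RP (insert (yy V 5 2) (insert (yy V 5 1) (insert (yy V 5 0) G))) []
        (· ∈ insert (yy V 5 0) G)) (xx V 5 1)
      (RP (insert (yy V 5 2) (insert (yy V 5 1) G)) [] (· ∈ G)) := by
  have hc := h.head
  obtain ⟨w1, e1⟩ := h.lowW (w := 1) (M := 3) (by omega) (by omega) rfl
    (hc.vr (w := 1) (by omega)) rfl
  obtain ⟨w3, e3⟩ := h.highL (w := 3) (by omega) (by omega)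
    ((hc.vl (w := 3) (by omega)).rf (c := 1) (by omega)) (diag_RF _ (by omega))
  rw [Gw_top (by omega)] at w3 e3
  have c1 : (insert (yy V 5 1) G).card = G.card + 1 :=
    card_insert_of_notMem (h.yy_notMem (by omega))
  have k1 := callQ ih w1 (by omega) (by omega) (p := yy V 5 2) (q := dg (V 1) (V 3)) rfl rfl
  have k3 := callP ih w3 hd (by omega) (p := xx V 5 1) (q := dg (V 1) (V 3))
    (r := xx V 5 2) rfl rfl (dg_comm _ _)
  have n1 : xx V 5 1 ∉ G := h.nG (by decide)
  have n3 : dg (V 1) (V 3) ∉ G := h.nG (by decide)
  have s1 := JBB (U := insert (xx V 5 1) G) (L := (· ∈ G)) (y := yy V 5 2) (xx V 5 3)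
    ((P6start ih h hd hn).mono (RP.mono (by rintro z rfl; exact mem_insert_self _ _))) k3
    (insert_comm _ _ _) rfl
    (by simp only [mem_insert, not_or]; exact ⟨hc.ne (by decide), h.yy_notMem (by omega)⟩)
    (by simp only [mem_insert, not_or]; exact ⟨hc.ne (by decide), h.nG (by decide)⟩)
    (by rw [card_insert_of_notMem n1]; omega) (fun _ => Or.inl)
    (fun z hz => ⟨z, mem_insert_of_mem hz, hz, fun _ => rfl⟩)
  have s2 := JRB (x := xx V 5 1) (y := yy V 5 1) (U := insert (dg (V 1) (V 3)) G) (L0 := (· ∈ G))
    (L := (· ∈ G)) (s1.mono (fun a k => k.forget)) k1 rfl (insert_comm _ _ _)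
    (by simp only [mem_insert, not_or]; exact ⟨hc.ne (by decide), h.yy_notMem (by omega)⟩)
    (by simp only [mem_insert, not_or]; exact ⟨hc.ne (by decide), h.nG (by decide)⟩)
    (mem_insert_self _ _) (fun _ => mem_insert_of_mem) (by
      intro z hz p
      by_cases h3 : 3 ≤ G.card
      · obtain ⟨u, t, c, h1, -, h2, h4⟩ := E4 (mem_insert_self (dg (V 1) (V 3)) G) z z
          (by rw [card_insert_of_notMem n3]; omega) p
        obtain ⟨h5, -, h6⟩ := ord_ne (m := u :: t) h2
        exact ⟨u :: t, c, (mem_insert.1 h6).resolve_left h5.symm, h2, h4,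
          fun _ => Or.inr (fun e => h1 (Option.some.inj e))⟩
      · obtain ⟨t, c, h1, h2, h4⟩ := two_cones hd n3 p
        exact ⟨t, c, h1, h2, h4, fun k => by omega⟩)
  rw [DR, union_empty] at e1 e3
  rw [← e1, ← e3, add_right_comm, add_right_comm (F1 cr (Cw G V 5 [] 0))] at s2
  rw [F1_passes h (by omega)]
  exact s2

theorem step_P6b (ih : IH n) (h : WF G [(5, V)]) (hd : 2 ≤ G.card) (hn : G.card + 6 ≤ n)
    (z : ℕ) : StZ G V 5 [] false false z := by
  refine finishG h (by omega) (P6b ih (h.rf (c := 4) (by omega)) hd hn)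
    (by rw [diag_RF _ (by omega)]) rfl ?_ ?_ ?_ (fun c k => k.mem (by omega))
  · change _ = insert (dg (V 0) (V 2)) (insert (dg (V 0) (V 3)) (insert (dg (V 0) (V 4)) G))
    rw [show 5 - 1 = 4 from rfl, fanL_4f]
    ext; simp only [mem_union, mem_insert, mem_singleton, TR, notMem_empty]; tauto
  · change _ = insert (dg (V 0) (V 2)) (insert (dg (V 0) (V 3)) G)
    rw [show 5 - 2 = 3 from rfl, fanL_3f]
    ext; simp only [mem_union, mem_insert, mem_singleton, TR, notMem_empty]; tauto
  · rintro c (k | ⟨k, -⟩)
    · exact mem_insert_of_mem k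
    · exact mem_insert.2 (Or.inl (k.trans (dg_comm _ _)))

end Pool.Agent.MP_086a35_co

end
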