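import Pool.Agent.MP_086a35_co.Mg.Close
import Pool.Agent.MP_086a35_co.Defs

-- part MP_086a35_co.StripSeq
section

set_option autoImplicit false

namespace Pool.Agent.MP_086a35_co

open Finset

theorem Mv.take_spec {fl : Bool} {l l' : List ℕ} {F : Finset ℕ} (h : Mv fl l l' F) :
    l'.length = l.length ∧ ∃ j, 1 ≤ j ∧ j ≤ l'.length ∧ F = (l'.take j).toFinset ∧
      ∀ i ≤ l'.length, i ≠ j → (l.take i).toFinset = (l'.take i).toFinset := by
  induction h with
  | swap a b l =>
    refine ⟨rfl, 1, le_rfl, by simp, by simp, ?_⟩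
    intro i _ hi
    rcases i with _ | _ | i
    · simp
    · exact absurd rfl hi
    · simp only [List.take_succ_cons, List.toFinset_cons]
      exact Finset.insert_comm _ _ _
  | flip a b h =>
    refine ⟨rfl, 1, le_rfl, by simp, by simp, ?_⟩
    intro i hi hi'
    have : i = 0 := by simp at hi; omega
    subst this
    simp
  | cons x _ ih =>
    obtain ⟨h1, j, h2, h3, h4, h5⟩ := ih
    refine ⟨by simp [h1], j + 1, by omega, by simpa using h3, by simp [h4], ?_⟩
    intro i hi hi'
    rcases i with _ | i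
    · simp
    · simp only [List.take_succ_cons, List.toFinset_cons]
      rw [h5 i (by simpa using hi) (by omega)]

theorem Wn.seq {a b : List ℕ} {Fs : List (Finset ℕ)} (h : Wn a b Fs) :
    ∃ ls : ℕ → List ℕ, ls 0 = a ∧ ls Fs.length = b ∧
      ∀ t < Fs.length, (ls (t + 1)).Nodup ∧ (ls (t + 1)).length = a.length ∧
        Mv true (ls t) (ls (t + 1)) (Fs.getD t ∅) := by
  induction h with
  | nil l => exact ⟨fun _ => l, rfl, rfl, fun t ht => absurd ht (by simp)⟩
  | @step l l' l'' F Fs hm hn _ ih =>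
    obtain ⟨ls, h0, h1, h2⟩ := ih
    refine ⟨fun t => Nat.casesOn t l ls, rfl, h1, ?_⟩
    intro t ht
    rcases t with _ | t
    · refine ⟨?_, ?_, ?_⟩
      · show (ls 0).Nodup
        rw [h0]; exact hn
      · show (ls 0).length = l.length
        rw [h0]; exact hm.take_spec.1
      · show Mv true l (ls 0) F
        rw [h0]; exact hm
    · obtain ⟨h3, h4, h5⟩ := h2 t (by simpa using ht)
      exact ⟨h3, h4.trans hm.take_spec.1, h5⟩

/-- the face born at time `b` is still the current face of its size after the move `t` -/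
def Cur (f : ℤ → Finset ℕ) (b t : ℤ) : Prop :=
  b ≤ t ∧ ∀ s, b < s → s ≤ t → (f s).card ≠ (f b).card

/-- the periodic sequence of births attached to a closed walk -/
structure Births (d : ℕ) (P : Finset ℕ → Prop) (M : ℤ) (f : ℤ → Finset ℕ) : Prop where
  pos : 0 < M
  per : ∀ t k : ℤ, f (t + k * M) = f t
  inj : ∀ s t, 0 ≤ s → s < M → 0 ≤ t → t < M → f s = f t → s = t
  mem : ∀ t, P (f t)
  surj : ∀ G, P G → ∃ t, 0 ≤ t ∧ t < M ∧ f t = G
  le : ∀ t, (f t).card ≤ d
  sub : ∀ b b' t, Cur f b t → Cur f b' t → (f b').card = (f b).card + 1 → f b ⊆ f b'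

theorem births_of_walk {l : List ℕ} {Fs : List (Finset ℕ)} (hw : Wn l l Fs) (hn : Fs.Nodup)
    (hne : Fs ≠ []) : ∃ (M : ℤ) (f : ℤ → Finset ℕ), Births l.length (fun G => G ∈ Fs) M f := by
  obtain ⟨ls, h0, h1, h2⟩ := hw.seq
  have hM : 0 < Fs.length := List.length_pos_iff.2 hne
  have hM' : (0 : ℤ) < (Fs.length : ℤ) := by exact_mod_cast hM
  set r : ℤ → ℕ := fun t => (t % (Fs.length : ℤ)).toNat with hr
  have hrc : ∀ t, (r t : ℤ) = t % (Fs.length : ℤ) := fun t =>
    Int.toNat_of_nonneg (Int.emod_nonneg _ hM'.ne')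
  have hrlt : ∀ t, r t < Fs.length := by
    intro t
    have := Int.emod_lt_of_pos t hM'
    rw [← hrc] at this
    exact_mod_cast this
  have hrself : ∀ t, 0 ≤ t → t < (Fs.length : ℤ) → (r t : ℤ) = t := by
    intro t ht ht'
    rw [hrc, Int.emod_eq_of_lt ht ht']
  have hsucc : ∀ t, ls (r (t + 1)) = ls (r t + 1) := by
    intro t
    have e : (t + 1) % (Fs.length : ℤ) = ((r t : ℤ) + 1) % (Fs.length : ℤ) := by
      rw [hrc, Int.emod_add_emod]
    rcases Nat.lt_or_ge (r t + 1) Fs.length with h | h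
    · have : (r (t + 1) : ℤ) = (r t : ℤ) + 1 := by
        rw [hrc (t + 1), e, Int.emod_eq_of_lt (by positivity) (by exact_mod_cast h)]
      have : r (t + 1) = r t + 1 := by exact_mod_cast this
      rw [this]
    · have h' : r t + 1 = Fs.length := le_antisymm (hrlt t) h
      have h'' : (r t : ℤ) + 1 = (Fs.length : ℤ) := by exact_mod_cast h'
      have : (r (t + 1) : ℤ) = 0 := by rw [hrc (t + 1), e, h'', Int.emod_self]
      have : r (t + 1) = 0 := by exact_mod_cast this
      rw [this, h', h0, h1]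
  set f : ℤ → Finset ℕ := fun t => Fs.getD (r t) ∅ with hf
  set S : ℤ → ℕ → Finset ℕ := fun t j => ((ls (r t)).take j).toFinset with hS
  have hstep : ∀ t, (f t).card ≤ l.length ∧ S (t + 1) (f t).card = f t ∧
      ∀ i ≤ l.length, i ≠ (f t).card → S (t + 1) i = S t i := by
    intro t
    obtain ⟨a1, a2, a3⟩ := h2 (r t) (hrlt t)
    obtain ⟨-, j, b1, b2, b3, b4⟩ := a3.take_spec
    have hc : (f t).card = j := by
      show (Fs.getD (r t) ∅).card = j
      rw [b3, List.toFinset_card_of_nodup (a1.sublist (List.take_sublist _ _)),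
        List.length_take, min_eq_left b2]
    rw [hc]
    refine ⟨a2 ▸ b2, ?_, ?_⟩
    · show ((ls (r (t + 1))).take j).toFinset = Fs.getD (r t) ∅
      rw [hsucc, b3]
    · intro i hi hij
      show ((ls (r (t + 1))).take i).toFinset = ((ls (r t)).take i).toFinset
      rw [hsucc, b4 i (a2 ▸ hi) hij]
  have key : ∀ b t, Cur f b t → S (t + 1) (f b).card = f b := by
    intro b t h
    obtain ⟨hb, h⟩ := h
    induction t, hb using Int.leInduction with
    | base => exact (hstep b).2.1
    | succ t ht ih =>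
      rw [(hstep (t + 1)).2.2 _ (hstep b).1 (h (t + 1) (by omega) le_rfl).symm]
      exact ih (fun s h1 h2 => h s h1 (by omega))
  refine ⟨Fs.length, f, hM', ?_, ?_, ?_, ?_, fun t => (hstep t).1, ?_⟩
  · intro t k
    simp only [hf, hr, Int.add_mul_emod_self_right]
  · intro s t a1 a2 a3 a4 e
    simp only [hf] at e
    rw [List.getD_eq_getElem _ _ (hrlt s), List.getD_eq_getElem _ _ (hrlt t)] at e
    have := (List.Nodup.getElem_inj_iff hn).1 e
    rw [← hrself s a1 a2, ← hrself t a3 a4, this]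
  · intro t
    simp only [hf]
    rw [List.getD_eq_getElem _ _ (hrlt t)]
    exact List.getElem_mem _
  · intro G hG
    obtain ⟨i, hi, rfl⟩ := List.getElem_of_mem hG
    have hi' : (i : ℤ) < (Fs.length : ℤ) := by exact_mod_cast hi
    refine ⟨i, by positivity, hi', ?_⟩
    have : r i = i := by exact_mod_cast hrself i (by positivity) hi'
    simp only [hf]
    rw [this, List.getD_eq_getElem _ _ hi]
  · intro b b' t h h' e
    rw [← key b t h, ← key b' t h', e]
    intro x hx
    simp only [hS, List.mem_toFinset] at hx ⊢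
    exact List.take_subset_take_left _ (Nat.le_succ _) hx

namespace Births

variable {d : ℕ} {P : Finset ℕ → Prop} {M : ℤ} {f : ℤ → Finset ℕ}

theorem cur_shift (h : Births d P M f) {b t : ℤ} (k : ℤ) (hc : Cur f b t) :
    Cur f (b + k * M) (t + k * M) := by
  refine ⟨by linarith [hc.1], fun s h1 h2 => ?_⟩
  have e : f s = f (s - k * M) := by
    rw [← h.per (s - k * M) k]; congr 1; ring
  rw [h.per, e]
  exact hc.2 _ (by linarith) (by linarith)

theorem exists_window (h : Births d P M f) {G : Finset ℕ} (hG : P G) (a : ℤ) :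
    ∃ s, a < s ∧ s ≤ a + M ∧ f s = G := by
  obtain ⟨t, -, -, rfl⟩ := h.surj G hG
  have hM := h.pos
  refine ⟨t + ((a - t) / M + 1) * M, ?_, ?_, h.per _ _⟩
  · have := Int.lt_ediv_add_one_mul_self (a - t) hM
    linarith
  · have := Int.ediv_mul_le (a - t) hM.ne'
    linarith

theorem exists_cur (h : Births d P M f) {G : Finset ℕ} (hG : P G) (t : ℤ) :
    ∃ b, Cur f b t ∧ (f b).card = G.card := by
  obtain ⟨s, -, h2, h3⟩ := h.exists_window hG (t - M)
  obtain ⟨b, ⟨b1, b2⟩, b3⟩ := Int.exists_greatest_of_bdd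
    (P := fun z => z ≤ t ∧ (f z).card = G.card) ⟨t, fun z hz => hz.1⟩
    ⟨s, by linarith, by rw [h3]⟩
  refine ⟨b, ⟨b1, fun z z1 z2 z3 => ?_⟩, b2⟩
  have := b3 z ⟨z2, z3.trans b2⟩
  omega

end Births

end Pool.Agent.MP_086a35_co

end

-- part MP_086a35_co.StripCode
section

set_option autoImplicit false

namespace Pool.Agent.MP_086a35_co

open Finset

variable {n : ℕ}

/-- the number coding a pair of vertices -/
def enc (p : Fin n × Fin n) : ℕ := dg p.1.val p.2.val

/-- the set of codes of the diagonals of a dissection -/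
def code (D : Dissection n) : Finset ℕ := D.diags.image enc

theorem Dissection.ext' {D E : Dissection n} (h : D.diags = E.diags) : D = E := by
  cases D
  cases E
  cases h
  rfl

theorem enc_inj {p q : Fin n × Fin n} (hp : IsDiagonal n p) (hq : IsDiagonal n q)
    (e : enc p = enc q) : p = q := by
  have h1 := hp.1
  have h2 := hq.1
  rcases dg_eq.1 e with h | h
  · exact Prod.ext (Fin.ext h.1) (Fin.ext h.2)
  · omega

theorem cr_enc {p q : Fin n × Fin n} (hp : IsDiagonal n p) (hq : IsDiagonal n q) :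
    cr (enc p) (enc q) ↔ Crosses p q := by
  have h1 := hp.1
  have h2 := hq.1
  simp only [enc, cr_dg, crI, Crosses, Fin.lt_def]
  omega

theorem card_code (D : Dissection n) : (code D).card = D.diags.card :=
  card_image_of_injOn (fun p hp q hq e => enc_inj (D.isDiag p hp) (D.isDiag q hq) e)

theorem diags_subset {D E : Dissection n} (h : code D ⊆ code E) : D.diags ⊆ E.diags := by
  intro p hp
  obtain ⟨q, hq, e⟩ := mem_image.1 (h (mem_image_of_mem enc hp))
  rw [← enc_inj (E.isDiag q hq) (D.isDiag p hp) e]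
  exact hq

theorem code_inj {D E : Dissection n} (h : code D = code E) : D = E :=
  Dissection.ext' (Subset.antisymm (diags_subset h.le) (diags_subset h.ge))

theorem code_mem {D : Dissection n} (h : D.diags.card ≠ 0) :
    code D ∈ F1 cr (diag id (n - 1)) := by
  refine mem_F1.2 ⟨?_, ?_, ?_⟩
  · intro e
    rw [← card_code, e] at h
    exact h rfl
  · intro a ha
    obtain ⟨p, hp, rfl⟩ := mem_image.1 ha
    refine mem_diag.2 ⟨p.1.val, p.2.val, ?_, rfl⟩
    have h1 := D.isDiag p hp
    have h2 := p.1.isLt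
    have h3 := p.2.isLt
    unfold IsDiagonal at h1
    unfold isD
    omega
  · intro a ha b hb
    obtain ⟨p, hp, rfl⟩ := mem_image.1 ha
    obtain ⟨q, hq, rfl⟩ := mem_image.1 hb
    rw [cr_enc (D.isDiag p hp) (D.isDiag q hq)]
    exact D.noncross p hp q hq

theorem exists_code (hn : 1 ≤ n) {G : Finset ℕ} (h : G ∈ F1 cr (diag id (n - 1))) :
    ∃ D : Dissection n, code D = G := by
  classical
  obtain ⟨-, h2, h3⟩ := mem_F1.1 h
  refine ⟨⟨univ.filter (fun p => IsDiagonal n p ∧ enc p ∈ G), ?_, ?_⟩, ?_⟩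
  · intro p hp
    exact (mem_filter.1 hp).2.1
  · intro p hp q hq
    have hp' := (mem_filter.1 hp).2
    have hq' := (mem_filter.1 hq).2
    rw [← cr_enc hp'.1 hq'.1]
    exact h3 _ hp'.2 _ hq'.2
  · ext a
    simp only [code, mem_image, mem_filter, mem_univ, true_and]
    constructor
    · rintro ⟨p, hp, rfl⟩
      exact hp.2
    · intro ha
      obtain ⟨i, j, hij, rfl⟩ := mem_diag.1 (h2 ha)
      unfold isD at hij
      simp only [id] at ha ⊢
      rcases le_total i j with h | h
      · refine ⟨(⟨i, by omega⟩, ⟨j, by omega⟩), ⟨?_, ha⟩, rfl⟩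
        unfold IsDiagonal
        simp only
        omega
      · refine ⟨(⟨j, by omega⟩, ⟨i, by omega⟩), ⟨?_, ?_⟩, dg_comm _ _⟩
        · unfold IsDiagonal
          simp only
          omega
        · show dg j i ∈ G
          rw [dg_comm]
          exact ha

theorem covered_of_subset {D E : Dissection n} (h : code E ⊆ code D)
    (hc : D.diags.card = E.diags.card + 1) : Covered n (some D) (some E) := by
  obtain ⟨p, hp, e⟩ := exists_eq_insert_iff.2 ⟨diags_subset h, hc.symm⟩
  exact ⟨p, hp, e.symm⟩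

theorem Covered.dim {a b : Face n} (h : Covered n a b) : faceDim n b = faceDim n a + 1 := by
  rcases a with _ | D <;> rcases b with _ | E
  · exact h.elim
  · have h' : E.diags.card + 3 = n := h
    simp only [faceDim]
    omega
  · exact h.elim
  · obtain ⟨p, hp, e⟩ := h
    simp only [faceDim]
    rw [e, card_insert_of_notMem hp]
    push_cast
    ring

/-- two disjoint faces of every size: pieces of the fans at the vertices `0` and `1` -/
theorem two_faces (hn : 4 ≤ n) {j : ℕ} (h1 : 1 ≤ j) (h2 : j ≤ n - 3) :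
    ∃ A B : Finset ℕ, A ∈ F1 cr (diag id (n - 1)) ∧ B ∈ F1 cr (diag id (n - 1)) ∧
      A.card = j ∧ B.card = j ∧ Disjoint A B := by
  have hA : ((Icc 2 (j + 1)).image (dg 0)).card = j := by
    rw [card_image_of_injective _ (fun a b e => by rcases dg_eq.1 e with h | h <;> omega)]
    simp
  have hB : ((Icc 3 (j + 2)).image (dg 1)).card = j := by
    rw [card_image_of_injective _ (fun a b e => by rcases dg_eq.1 e with h | h <;> omega)]
    simp
  refine ⟨(Icc 2 (j + 1)).image (dg 0), (Icc 3 (j + 2)).image (dg 1), mem_F1.2 ⟨?_, ?_, ?_⟩,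
    mem_F1.2 ⟨?_, ?_, ?_⟩, hA, hB, ?_⟩
  · intro e
    rw [e] at hA
    simp at hA
    omega
  · intro a ha
    obtain ⟨i, hi, rfl⟩ := mem_image.1 ha
    rw [mem_Icc] at hi
    exact mem_diag.2 ⟨0, i, by unfold isD; omega, rfl⟩
  · intro a ha b hb
    obtain ⟨i, hi, rfl⟩ := mem_image.1 ha
    obtain ⟨k, hk, rfl⟩ := mem_image.1 hb
    rw [cr_dg]
    unfold crI
    omega
  · intro e
    rw [e] at hB
    simp at hB
    omega
  · intro a ha
    obtain ⟨i, hi, rfl⟩ := mem_image.1 ha
    rw [mem_Icc] at hi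
    exact mem_diag.2 ⟨1, i, by unfold isD; omega, rfl⟩
  · intro a ha b hb
    obtain ⟨i, hi, rfl⟩ := mem_image.1 ha
    obtain ⟨k, hk, rfl⟩ := mem_image.1 hb
    rw [mem_Icc] at hi hk
    rw [cr_dg]
    unfold crI
    omega
  · rw [disjoint_left]
    intro a ha hb
    obtain ⟨i, hi, rfl⟩ := mem_image.1 ha
    obtain ⟨k, hk, e⟩ := mem_image.1 hb
    rw [mem_Icc] at hi hk
    rcases dg_eq.1 e with h | h <;> omega

end Pool.Agent.MP_086a35_co

end

-- part MP_086a35_co.Strip
section

set_option autoImplicit false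

namespace Pool.Agent.MP_086a35_co

open Finset

section

variable {n : ℕ} (M : ℤ) (f : ℤ → Finset ℕ)

open Classical in
/-- birth time of a face in the first period -/
noncomputable def beta : Face n → ℤ
  | none => 0
  | some D => if h : ∃ t, 0 ≤ t ∧ t < M ∧ f t = code D then h.choose else 0

/-- birth time of a copy of a face -/
noncomputable def Bt (u : Face n × ℤ) : ℤ := beta M f u.1 + u.2 * M

/-- two births are current at the same time -/
def Co (b b' : ℤ) : Prop := ∃ t, Cur f b t ∧ Cur f b' t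

def UpRel (a b : Face n) : Prop :=
  Covered n a b ∧ (0 ≤ faceDim n a → faceDim n b < (n : ℤ) - 3 →
    ∃ k : ℤ, Co f (beta M f a) (beta M f b + k * M))

open Classical in
noncomputable def windOf (a b : Face n) : ℤ :=
  if h : ∃ k : ℤ, Co f (beta M f a) (beta M f b + k * M) then h.choose else 0

def Mid (a : Face n) : Prop := 0 ≤ faceDim n a ∧ faceDim n a < (n : ℤ) - 3

/-- the dissection without diagonals -/
def emp (n : ℕ) : Dissection n := ⟨∅, by simp, by simp⟩

variable {M f}

theorem Mid.spec (h : Births (n - 3) (fun G => G ∈ F1 cr (diag id (n - 1))) M f) {a : Face n}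
    (ha : Mid a) : ∃ D, a = some D ∧ 0 ≤ beta M f a ∧ beta M f a < M ∧ f (beta M f a) = code D := by
  rcases a with _ | D
  · have := ha.1
    simp [faceDim] at this
  · have h1 : D.diags.card ≠ 0 := by
      have := ha.2
      simp only [faceDim] at this
      omega
    have h2 := h.surj _ (code_mem h1)
    refine ⟨D, rfl, ?_⟩
    simp only [beta, dif_pos h2]
    exact h2.choose_spec

theorem Mid.card (h : Births (n - 3) (fun G => G ∈ F1 cr (diag id (n - 1))) M f)
    {u : Face n × ℤ} (hu : Mid u.1) :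
    ((f (Bt M f u)).card : ℤ) = (n : ℤ) - 3 - faceDim n u.1 := by
  obtain ⟨D, h1, -, -, h2⟩ := hu.spec h
  rw [Bt, h.per, h2, card_code, h1]
  simp [faceDim]

theorem Bt_surj (hn : 4 ≤ n) (h : Births (n - 3) (fun G => G ∈ F1 cr (diag id (n - 1))) M f)
    (s : ℤ) : ∃ u : Face n × ℤ, Mid u.1 ∧ Bt M f u = s := by
  obtain ⟨D, hD⟩ := exists_code (n := n) (by omega) (h.mem s)
  have h1 : (f s).card ≠ 0 := card_ne_zero.2 (nonempty_iff_ne_empty.2 (mem_F1.1 (h.mem s)).1)
  have h2 := h.le s
  rw [← hD, card_code] at h1 h2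
  have hm : Mid (some D : Face n) := by
    simp only [Mid, faceDim]
    omega
  obtain ⟨D', e, a1, a2, a3⟩ := hm.spec h
  cases e
  have hM := h.pos
  have e : s = s % M + s / M * M := by rw [Int.emod_add_ediv_mul]
  have e2 : f (s % M) = f s := by rw [← h.per (s % M) (s / M), ← e]
  have := h.inj _ _ a1 a2 (Int.emod_nonneg s hM.ne') (Int.emod_lt_of_pos s hM)
    (by rw [a3, e2, hD])
  refine ⟨(some D, s / M), hm, ?_⟩
  simp only [Bt]
  rw [this, ← e]

theorem face_cases (hn : 4 ≤ n) (h : Births (n - 3) (fun G => G ∈ F1 cr (diag id (n - 1))) M f)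
    (a : Face n) : a = none ∨ a = some (emp n) ∨ Mid a := by
  rcases a with _ | D
  · exact Or.inl rfl
  · right
    by_cases h1 : D.diags.card = 0
    · left
      rw [Dissection.ext' (E := emp n) (card_eq_zero.1 h1)]
    · right
      obtain ⟨t, -, -, e⟩ := h.surj _ (code_mem h1)
      have h2 := h.le t
      rw [e, card_code] at h2
      simp only [Mid, faceDim]
      omega

theorem face_eq (hn : 4 ≤ n) (h : Births (n - 3) (fun G => G ∈ F1 cr (diag id (n - 1))) M f)
    {u v : Face n × ℤ} (hd : faceDim n u.1 = faceDim n v.1) (e : Bt M f u = Bt M f v) :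
    u = v := by
  have d0 : faceDim n none = -1 := rfl
  have d1 : faceDim n (some (emp n)) = (n : ℤ) - 3 := by simp [faceDim, emp]
  have h1 : u.1 = v.1 := by
    rcases face_cases hn h u.1 with hu | hu | hu <;> rcases face_cases hn h v.1 with hv | hv | hv
    · rw [hu, hv]
    · rw [hu, hv, d0, d1] at hd
      omega
    · have := hv.1
      rw [hu, d0] at hd
      omega
    · rw [hu, hv, d0, d1] at hd
      omega
    · rw [hu, hv]
    · have := hv.2
      rw [hu, d1] at hd
      omega
    · have := hu.1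
      rw [hv, d0] at hd
      omega
    · have := hu.2
      rw [hv, d1] at hd
      omega
    · obtain ⟨D, a1, -, -, a2⟩ := hu.spec h
      obtain ⟨E, b1, -, -, b2⟩ := hv.spec h
      have := congrArg f e
      rw [Bt, Bt, h.per, h.per, a2, b2] at this
      rw [a1, b1, code_inj this]
  refine Prod.ext h1 ?_
  rw [Bt, Bt, h1] at e
  exact mul_right_cancel₀ h.pos.ne' (add_left_cancel e)

theorem cur_self (b : ℤ) : Cur f b b := ⟨le_rfl, fun _ h1 h2 => absurd h1 (not_lt.2 h2)⟩

theorem no_wrap (hn : 4 ≤ n) (h : Births (n - 3) (fun G => G ∈ F1 cr (diag id (n - 1))) M f)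
    {a a' b : ℤ} (h1 : Co f a b) (h2 : Co f a' b) (hc : (f a).card = (f b).card + 1)
    (hw : a + M ≤ a') : False := by
  obtain ⟨t, c1, c2⟩ := h1
  obtain ⟨t', c3, c4⟩ := h2
  have all : ∀ G ∈ F1 cr (diag id (n - 1)), G.card = (f a).card → f b ⊆ G := by
    intro G hG e
    obtain ⟨s, s1, s2, rfl⟩ := h.exists_window hG a
    have s3 : t < s := by
      by_contra hs
      exact c1.2 s s1 (not_lt.1 hs) e
    have s4 : s ≤ t' := by linarith [c3.1]
    refine h.sub b s s ⟨by linarith [c2.1], fun z z1 z2 => c4.2 z z1 (z2.trans s4)⟩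
      (cur_self s) (e.trans hc)
  obtain ⟨A, B, hA, hB, a1, a2, hd⟩ := two_faces hn (j := (f a).card) (by omega) (h.le a)
  obtain ⟨x, hx⟩ := nonempty_iff_ne_empty.2 (mem_F1.1 (h.mem b)).1
  exact disjoint_left.1 hd (all A hA a1 hx) (all B hB a2 hx)

theorem Co.shift (h : Births (n - 3) (fun G => G ∈ F1 cr (diag id (n - 1))) M f) {a b : ℤ}
    (hc : Co f a b) (k : ℤ) : Co f (a + k * M) (b + k * M) := by
  obtain ⟨t, c1, c2⟩ := hc
  exact ⟨t + k * M, h.cur_shift k c1, h.cur_shift k c2⟩

theorem wind_unique (hn : 4 ≤ n)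
    (h : Births (n - 3) (fun G => G ∈ F1 cr (diag id (n - 1))) M f) {a b k k' : ℤ}
    (h1 : Co f a (b + k * M)) (h2 : Co f a (b + k' * M)) (hc : (f a).card = (f b).card + 1) :
    k = k' := by
  have hM := h.pos
  have main : ∀ k k' : ℤ, Co f a (b + k * M) → Co f a (b + k' * M) → ¬ k < k' := by
    intro k k' h1 h2 hlt
    have g1 := h1.shift h (-k)
    have g2 := h2.shift h (-k')
    rw [show b + k * M + -k * M = b by ring] at g1
    rw [show b + k' * M + -k' * M = b by ring] at g2
    refine no_wrap hn h g2 g1 (by rw [h.per, hc]) ?_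
    have : (k + 1) * M ≤ k' * M := mul_le_mul_of_nonneg_right hlt hM.le
    linarith
  exact le_antisymm (not_lt.1 (main _ _ h2 h1)) (not_lt.1 (main _ _ h1 h2))

theorem adj_of_upRel {a b : Face n} (h : UpRel M f a b) :
    (SimpleGraph.fromRel (UpRel M f)).Adj a b := by
  rw [SimpleGraph.fromRel_adj]
  refine ⟨fun e => ?_, Or.inl h⟩
  have := h.1.dim
  rw [e] at this
  omega

theorem liftUp_iff (hn : 4 ≤ n)
    (h : Births (n - 3) (fun G => G ∈ F1 cr (diag id (n - 1))) M f) {u v : Face n × ℤ}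
    (hu : 0 ≤ faceDim n u.1) (hv : faceDim n v.1 < (n : ℤ) - 3)
    (hd : faceDim n v.1 = faceDim n u.1 + 1) :
    LiftUp (faceDim n) ((n : ℤ) - 3) (SimpleGraph.fromRel (UpRel M f)) (windOf M f) u v ↔
      Co f (Bt M f u) (Bt M f v) := by
  have mu : Mid u.1 := ⟨hu, by omega⟩
  have mv : Mid v.1 := ⟨by omega, hv⟩
  have hc : (f (Bt M f u)).card = (f (Bt M f v)).card + 1 := by
    have a1 := mu.card h
    have a2 := mv.card h
    omega
  constructor
  · rintro ⟨h1, -, h3⟩
    rw [SimpleGraph.fromRel_adj] at h1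
    rcases h1.2 with h1 | h1
    · have h2 := h1.2 hu hv
      have h4 := h2.choose_spec.shift h u.2
      have h5 : windOf M f u.1 v.1 = h2.choose := by simp only [windOf, dif_pos h2]
      rw [Bt, Bt, h3 hu hv, h5]
      convert h4 using 1
      ring
    · have := h1.1.dim
      omega
  · intro h1
    have h2 : Co f (beta M f u.1) (beta M f v.1 + (v.2 - u.2) * M) := by
      have := h1.shift h (-u.2)
      convert this using 1 <;> simp only [Bt] <;> ring
    have h3 : ∃ k : ℤ, Co f (beta M f u.1) (beta M f v.1 + k * M) := ⟨_, h2⟩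
    refine ⟨adj_of_upRel ⟨?_, fun _ _ => h3⟩, hd, fun _ _ => ?_⟩
    · obtain ⟨D, a1, -, -, a2⟩ := mu.spec h
      obtain ⟨E, b1, -, -, b2⟩ := mv.spec h
      obtain ⟨t, c1, c2⟩ := h1
      have hs := h.sub _ _ t c2 c1 hc
      rw [Bt, Bt, h.per, h.per, a2, b2] at hs hc
      rw [a1, b1]
      rw [card_code, card_code] at hc
      exact covered_of_subset hs hc
    · have h5 : windOf M f u.1 v.1 = h3.choose := by simp only [windOf, dif_pos h3]
      rw [Bt, Bt, h.per, h.per] at hc
      rw [h5, wind_unique hn h h3.choose_spec h2 hc]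
      ring

theorem strip_of_births (hn : 4 ≤ n)
    (h : Births (n - 3) (fun G => G ∈ F1 cr (diag id (n - 1))) M f) :
    IsRhombicStrip (faceDim n) ((n : ℤ) - 3) (SimpleGraph.fromRel (UpRel M f))
      (fun a => (beta M f a : ℝ) / M) (windOf M f) (coverGraph n) := by
  have hM : (0 : ℝ) < M := by exact_mod_cast h.pos
  have hx : ∀ u : Face n × ℤ, liftX (fun a => (beta M f a : ℝ) / M) u = (Bt M f u : ℝ) / M := by
    intro u
    simp only [liftX, Bt]
    push_cast
    field_simp
  have hlt : ∀ u v : Face n × ℤ, liftX (fun a => (beta M f a : ℝ) / M) u <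
      liftX (fun a => (beta M f a : ℝ) / M) v ↔ Bt M f u < Bt M f v := by
    intro u v
    rw [hx, hx, div_lt_div_iff_of_pos_right hM, Int.cast_lt]
  refine ⟨?_, ?_, ?_, ?_⟩
  · intro a b hab
    rw [SimpleGraph.fromRel_adj] at hab
    rw [coverGraph, SimpleGraph.fromRel_adj]
    exact ⟨hab.1, hab.2.imp And.left And.left⟩
  · intro u v hd e
    refine face_eq hn h hd (le_antisymm (not_lt.1 fun c => ?_) (not_lt.1 fun c => ?_))
    · exact ((hlt v u).2 c).ne e.symm
    · exact ((hlt u v).2 c).ne e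
  · intro u v u' v' h1 h2 hd hu hv hl
    have d1 := h1.2.1
    have d2 := h2.2.1
    obtain ⟨t, c1, c2⟩ := (liftUp_iff hn h hu hv d1).1 h1
    obtain ⟨t', c3, c4⟩ := (liftUp_iff hn h (by omega) (by omega) d2).1 h2
    rw [hlt] at hl
    rw [← not_lt, hlt]
    intro hl'
    have e1 := Mid.card h (u := u) ⟨hu, by omega⟩
    have e2 := Mid.card h (u := u') ⟨by omega, by omega⟩
    have e3 := Mid.card h (u := v) ⟨by omega, hv⟩
    have e4 := Mid.card h (u := v') ⟨by omega, by omega⟩
    have g1 : t < Bt M f u' := by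
      by_contra hs
      exact c1.2 _ hl (not_lt.1 hs) (by omega)
    have g2 : t' < Bt M f v := by
      by_contra hs
      exact c4.2 _ hl' (not_lt.1 hs) (by omega)
    linarith [c2.1, c3.1]
  · intro u u' hd hu hu' hl hw
    rw [hlt] at hl
    have mu : Mid u.1 := ⟨hu, hu'⟩
    have mu' : Mid u'.1 := ⟨by omega, by omega⟩
    have e1 := mu.card h
    have e2 := mu'.card h
    have c1 : Cur f (Bt M f u) (Bt M f u' - 1) := by
      refine ⟨by omega, fun s s1 s2 s3 => ?_⟩
      obtain ⟨w, mw, rfl⟩ := Bt_surj hn h s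
      have e3 := mw.card h
      exact hw w (by omega) ⟨(hlt _ _).2 s1, (hlt _ _).2 (by omega)⟩
    have nb : ∀ j, 1 ≤ j → j ≤ n - 3 → j ≠ (f (Bt M f u')).card → ∃ w : Face n × ℤ, Mid w.1 ∧
        faceDim n w.1 = (n : ℤ) - 3 - j ∧ Cur f (Bt M f w) (Bt M f u' - 1) ∧
        Cur f (Bt M f w) (Bt M f u') := by
      intro j j1 j2 j3
      obtain ⟨A, -, hA, -, a1, -, -⟩ := two_faces hn j1 j2
      obtain ⟨x, x1, x2⟩ := h.exists_cur hA (Bt M f u' - 1)
      obtain ⟨w, mw, rfl⟩ := Bt_surj hn h x
      have e3 := mw.card h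
      refine ⟨w, mw, by omega, x1, by linarith [x1.1], fun s s1 s2 => ?_⟩
      rcases eq_or_lt_of_le s2 with rfl | s3
      · omega
      · exact x1.2 s s1 (by omega)
    refine ⟨fun e => ?_, ?_, ?_⟩
    · have hw' : Bt M f u + M ≤ Bt M f u' := by
        rw [Bt, Bt, ← e] at hl ⊢
        have : u.2 < u'.2 := lt_of_mul_lt_mul_right (by linarith) h.pos.le
        have : (u.2 + 1) * M ≤ u'.2 * M := mul_le_mul_of_nonneg_right this h.pos.le
        linarith
      have all : ∀ G ∈ F1 cr (diag id (n - 1)), G.card = (f (Bt M f u)).card →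
          G = f (Bt M f u') := by
        intro G hG e'
        obtain ⟨s, s1, s2, rfl⟩ := h.exists_window hG (Bt M f u)
        have : ¬ s ≤ Bt M f u' - 1 := fun s3 => c1.2 s s1 s3 e'
        rw [show s = Bt M f u' by omega]
      obtain ⟨A, B, hA, hB, a1, a2, hdj⟩ :=
        two_faces hn (j := (f (Bt M f u)).card) (by omega) (h.le _)
      rw [all A hA a1, all B hB a2, disjoint_self] at hdj
      exact (mem_F1.1 (h.mem _)).1 hdj
    · by_cases hj : faceDim n u.1 + 1 = (n : ℤ) - 3
      · have d1 : faceDim n (some (emp n)) = (n : ℤ) - 3 := by simp [faceDim, emp]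
        have top : ∀ z : Face n × ℤ, Mid z.1 → faceDim n z.1 + 1 = (n : ℤ) - 3 →
            LiftUp (faceDim n) ((n : ℤ) - 3) (SimpleGraph.fromRel (UpRel M f)) (windOf M f) z
              (some (emp n), 0) := by
          intro z mz hz
          refine ⟨adj_of_upRel ⟨?_, fun _ c => absurd c (by rw [d1]; omega)⟩, by rw [d1, hz],
            fun _ c => absurd c (by rw [d1]; omega)⟩
          obtain ⟨D, a1, -⟩ := mz.spec h
          rw [a1] at hz ⊢
          refine covered_of_subset (by simp [code, emp]) ?_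
          simp only [faceDim] at hz
          simp only [emp, card_empty]
          omega
        exact ⟨_, top u mu hj, top u' mu' (by omega)⟩
      · obtain ⟨w, mw, w1, w2, w3⟩ := nb ((f (Bt M f u)).card - 1) (by omega) (by omega) (by omega)
        refine ⟨w, (liftUp_iff hn h hu mw.2 (by omega)).2 ⟨_, c1, w2⟩,
          (liftUp_iff hn h mu'.1 mw.2 (by omega)).2 ⟨_, cur_self _, w3⟩⟩
    · by_cases hj : faceDim n u.1 = 0
      · have d0 : faceDim n none = -1 := rfl
        have bot : ∀ z : Face n × ℤ, Mid z.1 → faceDim n z.1 = 0 →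
            LiftUp (faceDim n) ((n : ℤ) - 3) (SimpleGraph.fromRel (UpRel M f)) (windOf M f)
              (none, 0) z := by
          intro z mz hz
          refine ⟨adj_of_upRel ⟨?_, fun c => absurd c (by rw [d0]; omega)⟩, by rw [d0, hz]; rfl,
            fun c => absurd c (by rw [d0]; omega)⟩
          obtain ⟨D, a1, -⟩ := mz.spec h
          rw [a1] at hz ⊢
          simp only [faceDim] at hz
          show D.diags.card + 3 = n
          omega
        exact ⟨_, bot u mu hj, bot u' mu' (by omega)⟩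
      · obtain ⟨w, mw, w1, w2, w3⟩ := nb ((f (Bt M f u)).card + 1) (by omega) (by omega) (by omega)
        refine ⟨w, (liftUp_iff hn h mw.1 hu' (by omega)).2 ⟨_, w2, c1⟩,
          (liftUp_iff hn h mw.1 mu'.2 (by omega)).2 ⟨_, w3, cur_self _⟩⟩

end

theorem strip_of_walk (n : ℕ) (hn : 7 ≤ n) (h : ClosedWalk n) :
    ∃ (R : SimpleGraph (Face n)) (pos : Face n → ℝ) (wind : Face n → Face n → ℤ),
      IsRhombicStrip (faceDim n) ((n : ℤ) - 3) R pos wind (coverGraph n) := by
  obtain ⟨l, Fs, -, h2, h3, h4⟩ := h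
  have hnd : Fs.Nodup := by
    rw [← Multiset.coe_nodup, h4]
    exact nodup_F1 _
  have hP : (fun G => G ∈ Fs) = fun G => G ∈ F1 cr (diag id (n - 1)) := by
    funext G
    rw [← h4, Multiset.mem_coe]
  have hne : Fs ≠ [] := by
    obtain ⟨A, -, hA, -⟩ := two_faces (n := n) (by omega) (j := 1) le_rfl (by omega)
    have : A ∈ Fs := by rw [← Multiset.mem_coe, h4]; exact hA
    exact List.ne_nil_of_mem this
  obtain ⟨M, f, hb⟩ := births_of_walk h3 hnd hne
  rw [h2, hP] at hb
  exact ⟨_, _, _, strip_of_births (by omega) hb⟩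

end Pool.Agent.MP_086a35_co

end
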